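import Mathlib.Tactic.Monotonicity.Lemmas
import Mathlib.RingTheory.Finiteness.Prod
import Mathlib.Data.Int.Star
import Mathlib.MeasureTheory.Measure.Real
import Mathlib.Analysis.Calculus.Deriv.Prod
import Mathlib.Analysis.SpecialFunctions.Trigonometric.DerivHyp
import Mathlib.Combinatorics.SimpleGraph.Connectivity.Finite
import Mathlib.RingTheory.PiTensorProduct
import Mathlib.Tactic.Polynomial.Basic
import Pool.Agent.MP_ddaf7c_pr.K.Spec
import Pool.Agent.MP_ddaf7c_pr.K.Der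

-- ======== part 0: formerly Pool.Agent.MP_ddaf7c_pr.K.StepD
section MrgPart0

set_option autoImplicit false

namespace Pool.Agent.MP_ddaf7c_pr.K

open Finset Real Filter Topology

namespace StepD

theorem cc_zero (δ : ℝ) (f : ℕ → ℝ) (m : ℕ) : cc δ f 0 m = if m = 0 then 1 else 0 := by
  rw [cc]

theorem cc_succ_zero (δ : ℝ) (f : ℕ → ℝ) (s : ℕ) : cc δ f (s + 1) 0 = 0 := by
  rw [cc]

theorem cc_succ (δ : ℝ) (f : ℕ → ℝ) (s m : ℕ) : cc δ f (s + 1) (m + 1) =
    cc δ f s m + δ * ∑ j : Fin (m + 1), f (m - j + 1) * cc δ f (s + 1) j := by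
  rw [cc]

theorem cc_at_zero (f : ℕ → ℝ) (m : ℕ) : ∀ s, cc 0 f s m = if s = m then 1 else 0 := by
  induction m with
  | zero =>
    intro s
    cases s with
    | zero => rw [cc_zero]
    | succ s => rw [cc_succ_zero, if_neg (by omega)]
  | succ m ih =>
    intro s
    cases s with
    | zero => rw [cc_zero, if_neg (by omega), if_neg (by omega)]
    | succ s => simp only [cc_succ, zero_mul, add_zero, ih, Nat.add_right_cancel_iff]

theorem cc_deriv (f : ℕ → ℝ) (hf : f 0 = 0) (m : ℕ) : ∀ s,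
    HasDerivAt (fun δ => cc δ f s m) (if s ≤ m then (s : ℝ) * f (m - s) else 0) 0 := by
  induction m using Nat.strong_induction_on with
  | _ m ih =>
    intro s
    cases s with
    | zero =>
      simp only [cc_zero, Nat.zero_le, if_true, Nat.cast_zero, zero_mul]
      exact hasDerivAt_const _ _
    | succ s =>
      cases m with
      | zero =>
        simp only [cc_succ_zero]
        rw [if_neg (by omega)]
        exact hasDerivAt_const _ _
      | succ m =>
        simp only [cc_succ]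
        have h1 := HasDerivAt.fun_sum (u := (univ : Finset (Fin (m + 1))))
          fun j _ => (ih j j.isLt (s + 1)).const_mul (f (m - j + 1))
        have h2 := (ih m (by omega) s).fun_add ((hasDerivAt_id' (0 : ℝ)).fun_mul h1)
        refine h2.congr_deriv (Eq.symm ?_)
        rw [zero_mul, add_zero, one_mul]
        simp only [cc_at_zero, mul_ite, mul_one, mul_zero]
        rw [Fin.sum_univ_eq_sum_range (fun j => if s + 1 = j then f (m - j + 1) else 0) (m + 1),
          sum_ite_eq]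
        simp only [mem_range]
        rcases lt_trichotomy s m with h | h | h
        · rw [if_pos (by omega), if_pos (by omega), if_pos (by omega),
            show m + 1 - (s + 1) = m - s by omega, show m - (s + 1) + 1 = m - s by omega]
          push_cast
          ring
        · subst h
          simp [hf]
        · rw [if_neg (by omega), if_neg (by omega), if_neg (by omega), add_zero]

theorem cosh_deriv (c : ℝ) :
    HasDerivWithinAt (fun δ => cosh (√δ * c)) (c ^ 2 / 2) (Set.Ici 0) 0 := by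
  have h1 : ContinuousAt (dslope sinh 0) 0 :=
    continuousAt_dslope_same.2 (differentiable_sinh 0)
  have h2 : dslope sinh 0 0 = 1 := by simp [dslope_same]
  have h3 : ∀ x, sinh x = x * dslope sinh 0 x := fun x => by
    simpa using (sub_smul_dslope sinh 0 x).symm
  have h4 : Tendsto (fun δ : ℝ => √δ * c / 2) (𝓝 0) (𝓝 0) := by
    have : Continuous fun δ : ℝ => √δ * c / 2 := by fun_prop
    simpa using this.tendsto 0
  have h5 : Tendsto (fun δ : ℝ => c ^ 2 / 2 * dslope sinh 0 (√δ * c / 2) ^ 2) (𝓝 0)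
      (𝓝 (c ^ 2 / 2)) := by
    have := ((h1.tendsto.comp h4).pow 2).const_mul (c ^ 2 / 2)
    simpa [h2] using this
  rw [hasDerivWithinAt_iff_tendsto_slope]
  refine (h5.mono_left nhdsWithin_le_nhds).congr' (eventually_nhdsWithin_of_forall fun δ hδ => ?_)
  have h6 : δ ≠ 0 := hδ.2
  have h7 : √δ ^ 2 = δ := sq_sqrt hδ.1
  have h8 : cosh (√δ * c) = 1 + 2 * sinh (√δ * c / 2) ^ 2 := by
    have := cosh_two_mul (√δ * c / 2)
    rw [show 2 * (√δ * c / 2) = √δ * c by ring, cosh_sq] at this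
    linarith
  simp only [slope_def_field, sqrt_zero, zero_mul, cosh_zero, sub_zero]
  rw [h8, h3, mul_pow, div_pow, mul_pow, h7]
  field_simp
  ring

theorem sum_at_zero (f u : ℕ → ℝ) (m : ℕ) : ∑ s ∈ range (m + 1), u s * cc 0 f s m = u m := by
  simp [cc_at_zero]

theorem sum_deriv (f u : ℕ → ℝ) (m : ℕ) :
    ∑ s ∈ range (m + 1), u s * (if s ≤ m then (s : ℝ) * f (m - s) else 0) =
      ∑ p ∈ antidiagonal m, (p.1 : ℝ) * u p.1 * f p.2 := by
  rw [Nat.sum_antidiagonal_eq_sum_range_succ_mk]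
  refine sum_congr rfl fun s hs => ?_
  rw [if_pos (Nat.lt_succ_iff.1 (mem_range.1 hs))]
  ring

end StepD

open StepD in
theorem stepd : STEPD := by
  intro f g hf _ _
  refine ⟨fun m => ⟨?_, ?_⟩, fun a b => ⟨?_, ?_⟩⟩
  · simp only [stepF, sqrt_zero, zero_mul, cosh_zero, one_mul, sum_at_zero]
  · have h1 := HasDerivAt.fun_sum (u := range (m + 1))
      fun s _ => (cc_deriv f hf m s).const_mul (f s)
    have h2 := (cosh_deriv m).fun_mul h1.hasDerivWithinAt
    simp only [sqrt_zero, zero_mul, cosh_zero, one_mul, sum_at_zero, sum_deriv] at h2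
    exact h2
  · have h : ∀ s, ∑ r ∈ range (b + 1), g s r * cc 0 f s a * cc 0 f r b = g s b * cc 0 f s a :=
      fun s => sum_at_zero f (fun r => g s r * cc 0 f s a) b
    simp only [stepG, sqrt_zero, zero_mul, cosh_zero, one_mul, add_zero, h]
    exact sum_at_zero f (fun s => g s b) a
  · have h : ∀ s, ∑ r ∈ range (b + 1), g s r * cc 0 f s a * cc 0 f r b = g s b * cc 0 f s a :=
      fun s => sum_at_zero f (fun r => g s r * cc 0 f s a) b
    have h1 := HasDerivAt.fun_sum (u := range (a + 1)) fun s _ =>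
      HasDerivAt.fun_sum (u := range (b + 1)) fun r _ =>
        ((cc_deriv f hf a s).const_mul (g s r)).fun_mul (cc_deriv f hf b r)
    have h2 := ((cosh_deriv ((a : ℝ) + b)).fun_mul h1.hasDerivWithinAt).fun_add
      (((hasDerivAt_id' (0 : ℝ)).mul_const (f a)).mul_const (f b)).hasDerivWithinAt
    have e1 : ∑ s ∈ range (a + 1), ∑ r ∈ range (b + 1),
        g s r * (if s ≤ a then (s : ℝ) * f (a - s) else 0) * cc 0 f r b =
        ∑ p ∈ antidiagonal a, (p.1 : ℝ) * g p.1 b * f p.2 := by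
      rw [← sum_deriv f (fun s => g s b) a]
      exact sum_congr rfl fun s _ =>
        sum_at_zero f (fun r => g s r * (if s ≤ a then (s : ℝ) * f (a - s) else 0)) b
    have e2 : ∑ s ∈ range (a + 1), ∑ r ∈ range (b + 1),
        g s r * cc 0 f s a * (if r ≤ b then (r : ℝ) * f (b - r) else 0) =
        ∑ p ∈ antidiagonal b, (p.1 : ℝ) * g a p.1 * f p.2 := by
      rw [← sum_deriv f (fun r => g a r) b, sum_comm]
      refine sum_congr rfl fun r _ => ?_
      rw [← sum_mul, sum_at_zero f (fun s => g s r) a]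
    simp only [sqrt_zero, zero_mul, cosh_zero, one_mul, h, sum_add_distrib, e1, e2,
      sum_at_zero f (fun s => g s b) a] at h2
    simpa only [stepG, V2, add_assoc] using h2

open StepD in
theorem stepc : STEPC := by
  intro δ
  constructor
  · intro s m
    induction m using Nat.strong_induction_on generalizing s with
    | _ m ih =>
      cases s with
      | zero => simp only [cc_zero]; exact continuous_const
      | succ s =>
        cases m with
        | zero => simp only [cc_succ_zero]; exact continuous_const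
        | succ m =>
          simp only [cc_succ]
          exact (ih m (by omega) s).add (continuous_const.mul (continuous_finsetSum _ fun j _ =>
            (continuous_apply _).mul (ih j j.isLt (s + 1))))
  · intro f f' s m
    induction m using Nat.strong_induction_on generalizing s with
    | _ m ih =>
      intro h
      cases s with
      | zero => rw [cc_zero, cc_zero]
      | succ s =>
        cases m with
        | zero => rw [cc_succ_zero, cc_succ_zero]
        | succ m =>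
          rw [cc_succ, cc_succ, ih m (by omega) s fun i hi => h i (by omega)]
          congr 2
          refine sum_congr rfl fun j _ => ?_
          have := j.isLt
          rw [h _ (by omega), ih j j.isLt (s + 1) fun i hi => h i (by omega)]

end Pool.Agent.MP_ddaf7c_pr.K

end MrgPart0

-- ======== part 1: formerly Pool.Agent.MP_ddaf7c_pr.K.Mid
section MrgPart1

/-! The split array is smallest in the middle. -/

set_option autoImplicit false

namespace Pool.Agent.MP_ddaf7c_pr.K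

open Finset Real

namespace Mid

/-- truncated arrays -/
abbrev E (N : ℕ) : Type := (Fin (N + 1) → ℝ) × (Fin (N + 1) → Fin (N + 1) → ℝ)

variable {N : ℕ} {f f' : ℕ → ℝ} {g g' : ℕ → ℕ → ℝ}

def res (N : ℕ) (f : ℕ → ℝ) (g : ℕ → ℕ → ℝ) : E N := (fun i => f i, fun a b => g a b)

def e1 (z : E N) (i : ℕ) : ℝ := if h : i < N + 1 then z.1 ⟨i, h⟩ else 0

def e2 (z : E N) (a b : ℕ) : ℝ := if h : a < N + 1 ∧ b < N + 1 then z.2 ⟨a, h.1⟩ ⟨b, h.2⟩ else 0

lemma res_e (z : E N) : res N (e1 z) (e2 z) = z := by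
  ext i j <;> simp only [res, e1, e2, Fin.is_lt, and_self, dif_pos]

lemma e1_res {i : ℕ} (h : i ≤ N) : e1 (res N f g) i = f i := dif_pos (Nat.lt_succ_of_le h)

lemma e2_res {a b : ℕ} (h : a ≤ N) (h' : b ≤ N) : e2 (res N f g) a b = g a b :=
  dif_pos ⟨Nat.lt_succ_of_le h, Nat.lt_succ_of_le h'⟩

lemma res_congr (h : ∀ i ≤ N, f i = f' i) (h' : ∀ a ≤ N, ∀ b ≤ N, g a b = g' a b) :
    res N f g = res N f' g' :=
  Prod.ext (funext fun i => h _ i.is_le) (funext fun a => funext fun b => h' _ a.is_le _ b.is_le)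

lemma c1 (i : ℕ) : ContDiff ℝ 1 fun z : E N => e1 z i := by
  unfold e1
  split_ifs <;> fun_prop

lemma c2 (a b : ℕ) : ContDiff ℝ 1 fun z : E N => e2 z a b := by
  unfold e2
  split_ifs <;> fun_prop

/-- the vector field -/
noncomputable def Vf (N : ℕ) (f : ℕ → ℝ) (g : ℕ → ℕ → ℝ) : E N :=
  res N (fun m => (m : ℝ) ^ 2 / 2 * f m + V1 f m)
    fun a b => ((a : ℝ) + b) ^ 2 / 2 * g a b + V2 f g a b

lemma Vf_congr (h : ∀ i ≤ N, f i = f' i) (h' : ∀ a ≤ N, ∀ b ≤ N, g a b = g' a b) :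
    Vf N f g = Vf N f' g' := by
  refine res_congr (fun m hm => ?_) fun a ha b hb => ?_
  · rw [h m hm, V1, V1, sum_congr rfl fun p hp => ?_]
    have := mem_antidiagonal.1 hp
    rw [h p.1 (by omega), h p.2 (by omega)]
  · rw [V2, V2, h' a ha b hb, h a ha, h b hb]
    congr 3 <;> refine sum_congr rfl fun p hp => ?_ <;> have := mem_antidiagonal.1 hp
    · rw [h' p.1 (by omega) b hb, h p.2 (by omega)]
    · rw [h' a ha p.1 (by omega), h p.2 (by omega)]

lemma Vf_diff : ContDiff ℝ 1 fun z : E N => Vf N (e1 z) (e2 z) := by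
  refine (contDiff_pi.2 fun m => ?_).prodMk (contDiff_pi.2 fun a => contDiff_pi.2 fun b => ?_)
  · exact (contDiff_const.mul (c1 _)).add
      (ContDiff.sum fun p _ => (contDiff_const.mul (c1 _)).mul (c1 _))
  · exact (contDiff_const.mul (c2 _ _)).add
      (((ContDiff.sum fun p _ => (contDiff_const.mul (c2 _ _)).mul (c1 _)).add
        (ContDiff.sum fun p _ => (contDiff_const.mul (c2 _ _)).mul (c1 _))).add
        ((c1 _).mul (c1 _)))

/-- the discrete step -/
noncomputable def T (N : ℕ) (δ : ℝ) (f : ℕ → ℝ) (g : ℕ → ℕ → ℝ) : E N :=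
  res N (stepF δ f) (stepG δ f g)

lemma T_congr (h3 : STEPC) (δ : ℝ) (h : ∀ i ≤ N, f i = f' i)
    (h' : ∀ a ≤ N, ∀ b ≤ N, g a b = g' a b) : T N δ f g = T N δ f' g' := by
  have c : ∀ s, ∀ m ≤ N, cc δ f s m = cc δ f' s m := fun s m hm =>
    (h3 δ).2 f f' s m fun i hi => h i (hi.trans hm)
  refine res_congr (fun m hm => ?_) fun a ha b hb => ?_
  · rw [stepF, stepF, sum_congr rfl fun s hs => ?_]
    have := mem_range.1 hs
    rw [h s (by omega), c s m hm]
  · rw [stepG, stepG, h a ha, h b hb, sum_congr rfl fun s hs => sum_congr rfl fun r hr => ?_]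
    have := mem_range.1 hs
    have := mem_range.1 hr
    rw [h' s (by omega) r (by omega), c s a ha, c r b hb]

lemma T_cont (h3 : STEPC) (δ : ℝ) : Continuous fun z : E N => T N δ (e1 z) (e2 z) := by
  have c : ∀ s m, Continuous fun z : E N => cc δ (e1 z) s m := fun s m =>
    ((h3 δ).1 s m).comp (continuous_pi fun i => (c1 i).continuous)
  refine (continuous_pi fun m => ?_).prodMk (continuous_pi fun a => continuous_pi fun b => ?_)
  · exact continuous_const.mul (continuous_finsetSum _ fun s _ => (c1 _).continuous.mul (c _ _))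
  · exact (continuous_const.mul (continuous_finsetSum _ fun s _ => continuous_finsetSum _
      fun r _ => ((c2 _ _).continuous.mul (c _ _)).mul (c _ _))).add
      ((continuous_const.mul (c1 _).continuous).mul (c1 _).continuous)

/-- truncated moment arrays -/
def K0 (N : ℕ) : Set (E N) := {z | ∃ f g, A1 f ∧ A2 g ∧ res N f g = z}

lemma zero {z : E N} (hz : z ∈ closure (K0 N)) :
    e1 z 0 = 0 ∧ (∀ b, e2 z 0 b = 0) ∧ ∀ a, e2 z a 0 = 0 := by
  refine ⟨closure_minimal ?_ (isClosed_eq (c1 0).continuous continuous_const) hz,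
    fun b => closure_minimal ?_ (isClosed_eq (c2 0 b).continuous continuous_const) hz,
    fun a => closure_minimal ?_ (isClosed_eq (c2 a 0).continuous continuous_const) hz⟩ <;>
    rintro _ ⟨f, g, ⟨_, _, m, x, -, h⟩, ⟨_, _, m', x', y', -, h'⟩, rfl⟩ <;>
    simp [e1, e2, res, h, h', atm]

lemma am {x y : ℝ} (hx : 0 ≤ x) (hy : 0 ≤ y) (c k : ℕ) :
    2 * (x ^ (c + k) * y ^ (c + k)) ≤ x ^ c * y ^ (c + 2 * k) + x ^ (c + 2 * k) * y ^ c := by
  have : 0 ≤ x ^ c * y ^ c * (x ^ k - y ^ k) ^ 2 := by positivity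
  rw [← sub_nonneg]
  exact this.trans_eq (by ring)

lemma atom {x y : ℝ} (hx : 0 ≤ x) (hy : 0 ≤ y) {n a b : ℕ} (ha : 1 ≤ a) (hb : 1 ≤ b)
    (e : a + b = 2 * n) : 2 * (atm x n * atm y n) ≤ atm x a * atm y b + atm x b * atm y a := by
  wlog h : a ≤ b generalizing a b
  · rw [add_comm]
    exact this hb ha (by omega) (by omega)
  simp only [atm, if_neg (show n ≠ 0 by omega), if_neg (show a ≠ 0 by omega),
    if_neg (show b ≠ 0 by omega)]
  rw [show n - 1 = a - 1 + (n - a) by omega, show b - 1 = a - 1 + 2 * (n - a) by omega]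
  exact am hx hy _ _

end Mid

open Mid in
theorem mid (h1 : STEPA) (h2 : STEPD) (h3 : STEPC) (h4 : NAG) : MID := by
  intro S t ht n a b ha hb e
  have key := h4 (E (2 * n)) (closure (K0 (2 * n))) (fun z => Vf _ (e1 z) (e2 z))
    (fun t => res _ (S.κ t) (S.B t)) isClosed_closure Vf_diff (fun t => ?_)
    (subset_closure ⟨_, _, ⟨Unit, inferInstance, 1, 0, by simp, fun s => ?_⟩,
      ⟨Empty, inferInstance, 0, 0, 0, by simp, by simp [S.Bi]⟩, rfl⟩) (fun z hz => ?_) t ht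
  · have := closure_minimal (t := {z | 2 * e2 z n n ≤ e2 z a b + e2 z b a}) ?_ (isClosed_le
      (continuous_const.mul (c2 n n).continuous) ((c2 a b).continuous.add (c2 b a).continuous)) key
    · rwa [Set.mem_ofPred_eq, e2_res (by omega) (by omega), e2_res (by omega) (by omega),
        e2_res (by omega) (by omega)] at this
    rintro _ ⟨f, g, -, ⟨_, _, m, x, y, h0, h⟩, rfl⟩
    rw [Set.mem_ofPred_eq, e2_res (by omega) (by omega), e2_res (by omega) (by omega),
      e2_res (by omega) (by omega), h, h, h, mul_sum, ← sum_add_distrib]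
    refine sum_le_sum fun i _ => ?_
    have := mul_le_mul_of_nonneg_left (atom (h0 i).2.1 (h0 i).2.2 ha hb e) (h0 i).1
    linarith
  · rw [Vf_congr (fun _ => e1_res) fun _ h _ h' => e2_res h h']
    exact (hasDerivAt_pi.2 fun m : Fin _ => S.dκ m t).prodMk
      (hasDerivAt_pi.2 fun a : Fin _ => hasDerivAt_pi.2 fun b : Fin _ => S.dB a b t)
  · rw [S.κi]
    rcases s with _ | _ | s <;> simp [atm]
  · obtain ⟨z1, z2, z3⟩ := zero hz
    obtain ⟨d1, d2⟩ := h2 _ _ z1 z2 z3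
    refine ⟨fun δ => T _ δ (e1 z) (e2 z), (res_congr (fun m _ => (d1 m).1)
      fun a _ b _ => (d2 a b).1).trans (res_e z), fun δ hδ => ?_,
      (hasDerivWithinAt_pi.2 fun m : Fin _ => (d1 m).2).prodMk
        (hasDerivWithinAt_pi.2 fun a : Fin _ => hasDerivWithinAt_pi.2 fun b : Fin _ => (d2 a b).2)⟩
    refine Set.MapsTo.closure (s := K0 _) (t := K0 _) ?_ (T_cont h3 δ) hz
    rintro _ ⟨f, g, hf, hg, rfl⟩
    exact ⟨_, _, (h1 f g δ hf hg hδ).1, (h1 f g δ hf hg hδ).2,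
      (T_congr h3 δ (fun _ => e1_res) fun _ h _ h' => e2_res h h').symm⟩

end Pool.Agent.MP_ddaf7c_pr.K

end MrgPart1

-- ======== part 2: formerly Pool.Agent.MP_ddaf7c_pr.K.Tail
section MrgPart2

set_option autoImplicit false

namespace Pool.Agent.MP_ddaf7c_pr.K

open Finset Real

namespace Tail

lemma one_le (h0 : MASS) (S : Sol) (s : ℕ) {t : ℝ} (ht : 0 ≤ t) : wt s s t * S.κ t s ≤ s := by
  rw [← h0 S s t, I1, ← mul_one (wt s s t * S.κ t s)]
  exact single_le_sum (f := fun k => wt s k t * S.κ t k * 1)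
    (fun k _ => mul_nonneg (mul_nonneg (wt_nonneg _ _ _) (S.κp t ht k)) zero_le_one)
    (self_mem_range_succ s)

lemma two_le (h3 : CRUDE) (S : Sol) (a b : ℕ) {t : ℝ} (ht : 0 ≤ t) :
    wt (a + b) (a + b) t * S.B t a b ≤ ((a + b : ℕ) : ℝ) ^ 2 * t := by
  have p : ∀ i j, 0 ≤ wt (a + b) (i + j) t * S.B t i j * 1 := fun i j =>
    mul_nonneg (mul_nonneg (wt_nonneg _ _ _) (S.Bp t ht i j)) zero_le_one
  refine le_trans ?_ (h3 S (a + b) t ht)
  rw [I2, ← mul_one (wt (a + b) (a + b) t * S.B t a b)]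
  exact (single_le_sum (fun j _ => p a j) (mem_range.2 (by omega))).trans
    (single_le_sum (f := fun i => ∑ j ∈ range (a + b + 1), wt (a + b) (i + j) t * S.B t i j * 1)
      (fun i _ => sum_nonneg fun j _ => p i j) (mem_range.2 (by omega)))

lemma small (h0 : MASS) (S : Sol) {n s : ℕ} (hs : s ≤ n) {t : ℝ} (ht : 0 ≤ t)
    (hx : (2 * n : ℝ) * exp (-(t * n)) ≤ 1) :
    wt (2 * n) s t * S.κ t s ≤ n * (2 * n * exp (-(t * n))) := by
  rcases Nat.eq_zero_or_pos s with rfl | s0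
  · rw [S.κz, mul_zero]; positivity
  have hs' : (s : ℝ) ≤ n := by exact_mod_cast hs
  have e1 : wt (2 * n) s t ≤ (2 * n * exp (-(t * n))) ^ s * wt s s t := by
    have c : (((2 * n).choose s : ℕ) : ℝ) ≤ (2 * n) ^ s := by
      exact_mod_cast Nat.choose_le_pow (2 * n) s
    have d : exp ((s : ℝ) ^ 2 * t / 2 - t * s * ((2 * n : ℕ) : ℝ)) ≤
        exp (-(t * n)) ^ s * exp ((s : ℝ) ^ 2 * t / 2 - t * s * s) := by
      rw [← exp_nat_mul, ← exp_add, exp_le_exp]
      push_cast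
      nlinarith [mul_nonneg (mul_nonneg ht (Nat.cast_nonneg (α := ℝ) s)) (sub_nonneg.2 hs')]
    rw [wt, wt, Nat.descFactorial_eq_factorial_mul_choose, Nat.descFactorial_self, Nat.cast_mul,
      mul_pow, mul_mul_mul_comm, mul_comm (s.factorial : ℝ)]
    gcongr
  calc wt (2 * n) s t * S.κ t s ≤ (2 * n * exp (-(t * n))) ^ s * (wt s s t * S.κ t s) := by
        rw [← mul_assoc]; exact mul_le_mul_of_nonneg_right e1 (S.κp t ht s)
    _ ≤ (2 * n * exp (-(t * n))) * n :=
        mul_le_mul (pow_le_of_le_one (by positivity) hx s0.ne') ((one_le h0 S s ht).trans hs')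
          (mul_nonneg (wt_nonneg _ _ _) (S.κp t ht s)) (by positivity)
    _ = _ := mul_comm _ _

lemma part (h0 : MASS) (S : Sol) {n : ℕ} {t : ℝ} (ht : 0 ≤ t)
    (hx : (2 * n : ℝ) * exp (-(t * n)) ≤ 1) (g : ℕ → ℝ) (g0 : ∀ j, 0 ≤ g j)
    (hg : ∀ j, wt (j + n) (j + n) t * g j ≤ ((j + n : ℕ) : ℝ) ^ 2 * t) :
    wt (2 * n) (2 * n) t * ∑ p ∈ antidiagonal n, (p.1 : ℝ) * g p.1 * S.κ t p.2 ≤
      (n + 1) * (n * (n * (2 * n * exp (-(t * n))) * ((2 * n) ^ 2 * t))) := by
  rw [mul_sum]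
  refine (sum_le_card_nsmul _ _ _ fun p hp => ?_).trans_eq
    (by rw [Nat.card_antidiagonal, nsmul_eq_mul, Nat.cast_succ])
  have e := HasAntidiagonal.mem_antidiagonal.1 hp
  have w := wt_add (2 * n) p.2 (p.1 + n) t
  rw [show p.2 + (p.1 + n) = 2 * n by omega, show 2 * n - p.2 = p.1 + n by omega] at w
  have l : (p.1 : ℝ) ≤ n := by exact_mod_cast (by omega : p.1 ≤ n)
  have b : wt (p.1 + n) (p.1 + n) t * g p.1 ≤ (2 * n) ^ 2 * t := by
    refine (hg _).trans ?_
    push_cast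
    gcongr
    linarith
  rw [w, show wt (2 * n) p.2 t * wt (p.1 + n) (p.1 + n) t * (p.1 * g p.1 * S.κ t p.2) =
    p.1 * (wt (2 * n) p.2 t * S.κ t p.2 * (wt (p.1 + n) (p.1 + n) t * g p.1)) by ring]
  have q := mul_nonneg (wt_nonneg (p.1 + n) (p.1 + n) t) (g0 p.1)
  exact mul_le_mul l (mul_le_mul (small h0 S (by omega) ht hx) b q (by positivity))
    (mul_nonneg (mul_nonneg (wt_nonneg _ _ _) (S.κp t ht _)) q) (by positivity)

lemma sum_mul_sub (N : ℕ) (x : ℝ) :
    ∑ a ∈ range (N + 1), (a : ℝ) * (x - a) = N * (N + 1) * (3 * x - 2 * N - 1) / 6 := by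
  induction N with
  | zero => simp
  | succ N ih => rw [sum_range_succ, ih]; push_cast; ring

end Tail

open Tail

theorem tail (h0 : MASS) (h3 : CRUDE) : TAIL := by
  intro S n t1 t hn h1 h2 hx
  have n2 : (2 : ℝ) ≤ n := by exact_mod_cast hn
  have key := le_of_deriv_nonpos
    (f := fun τ => zz S n τ + 2 * (2 * n : ℝ) ^ 5 * exp (-(τ * n / 2))) h2 fun τ a _ => by
    have t0 := h1.trans a
    have hx' : (2 * n : ℝ) * exp (-(τ * n)) ≤ 1 := le_trans (by gcongr) hx
    refine ⟨_, ((wt_deriv _ _ τ).fun_mul (S.dB n n τ)).fun_add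
      ((((hasDerivAt_id' τ).mul_const (n : ℝ)).div_const 2).fun_neg.exp.const_mul _), ?_⟩
    have p1 := part h0 S t0 hx' (fun j => S.B τ j n) (fun j => S.Bp τ t0 _ _)
      fun j => two_le h3 S j n t0
    have p2 := part h0 S t0 hx' (fun j => S.B τ n j) (fun j => S.Bp τ t0 _ _)
      fun j => add_comm n j ▸ two_le h3 S n j t0
    have p3 : wt (2 * n) (2 * n) τ * (S.κ τ n * S.κ τ n) ≤ n * (2 * n * exp (-(τ * n))) * n := by
      have w := wt_add (2 * n) n n τ
      rw [← two_mul, show 2 * n - n = n by omega] at w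
      rw [w, mul_mul_mul_comm]
      exact mul_le_mul (small h0 S le_rfl t0 hx') (one_le h0 S n t0)
        (mul_nonneg (wt_nonneg _ _ _) (S.κp τ t0 _)) (by positivity)
    have p4 : (1 + τ) * exp (-(τ * n)) ≤ exp (-(τ * n / 2)) := by
      rw [show -(τ * n / 2) = τ * n / 2 + -(τ * n) by ring, exp_add]
      gcongr
      nlinarith [add_one_le_exp (τ * n / 2)]
    have E := exp_pos (-(τ * n))
    have p5 : (n : ℝ) ^ 3 * exp (-(τ * n)) ≤ n ^ 6 * exp (-(τ * n)) := by
      gcongr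
      · linarith
      · norm_num
    have p6 : 2 * ((n : ℝ) ^ 5 * (τ * exp (-(τ * n)))) ≤ n * (n ^ 5 * (τ * exp (-(τ * n)))) := by
      gcongr
    have p7 := mul_le_mul_of_nonneg_left p4 (by positivity : (0 : ℝ) ≤ n ^ 6)
    have p8 : 0 ≤ (n : ℝ) ^ 6 * exp (-(τ * n)) := by positivity
    have p9 : 0 ≤ (n : ℝ) ^ 6 * (τ * exp (-(τ * n))) := by positivity
    rw [V2]
    push_cast
    nlinarith
  have : 0 ≤ 2 * (2 * n : ℝ) ^ 5 * exp (-(t * n / 2)) := by positivity
  linarith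

theorem zpsi (h : MID) : ZPSI := by
  intro S n K t hn ht hK
  have n1 : (1 : ℝ) ≤ n := by exact_mod_cast hn
  have W := wt_nonneg (2 * n) (2 * n) t
  have h1 : ∑ a ∈ range (2 * n + 1), wt (2 * n) (2 * n) t * S.B t a (2 * n - a) *
      (a * (2 * n - a) / (2 * n) ^ 2) ≤ Psi S (2 * n) K t := by
    refine sum_le_sum fun a ha => ?_
    have l : a ≤ 2 * n := Nat.lt_succ_iff.1 (mem_range.1 ha)
    refine le_trans (le_of_eq ?_) (single_le_sum (fun b _ => mul_nonneg (mul_nonneg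
      (wt_nonneg _ _ _) (S.Bp t ht a b)) (by beta_reduce; split_ifs <;> positivity))
      (mem_range.2 (by omega : 2 * n - a < 2 * n + 1)))
    beta_reduce
    rw [Nat.add_sub_cancel' l, Nat.cast_sub l, add_sub_cancel, Nat.cast_mul, Nat.cast_two,
      if_pos hK]
  have h2 : ∑ a ∈ range (2 * n + 1), wt (2 * n) (2 * n) t * S.B t (2 * n - a) a *
      (a * (2 * n - a) / (2 * n) ^ 2) ≤ Psi S (2 * n) K t := by
    refine le_trans (le_of_eq ?_) h1
    rw [← sum_flip]
    refine sum_congr rfl fun a ha => ?_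
    have l : a ≤ 2 * n := Nat.lt_succ_iff.1 (mem_range.1 ha)
    rw [Nat.sub_sub_self l, Nat.cast_sub l]
    push_cast
    ring
  have h3 : ∑ a ∈ range (2 * n + 1), 2 * zz S n t / (2 * n) ^ 2 * (a * (2 * n - a)) ≤
      2 * Psi S (2 * n) K t := by
    rw [two_mul (Psi _ _ _ _)]
    refine le_trans ?_ (add_le_add h1 h2)
    rw [← sum_add_distrib]
    refine sum_le_sum fun a ha => ?_
    have l : a ≤ 2 * n := Nat.lt_succ_iff.1 (mem_range.1 ha)
    rcases Nat.eq_zero_or_pos a with rfl | a0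
    · simp
    rcases l.eq_or_lt with rfl | a1
    · simp
    have l' : (0 : ℝ) ≤ 2 * n - a := sub_nonneg.2 (by exact_mod_cast l)
    have := mul_le_mul_of_nonneg_right (mul_le_mul_of_nonneg_left
      (h S t ht n a (2 * n - a) a0 (by omega) (by omega)) W)
      (by positivity : (0 : ℝ) ≤ a * (2 * n - a) / (2 * n) ^ 2)
    rw [zz]
    linear_combination this
  rw [← mul_sum, sum_mul_sub] at h3
  have z0 : 0 ≤ zz S n t := mul_nonneg W (S.Bp t ht _ _)
  rw [div_mul_eq_mul_div, le_div_iff₀ (by linarith)]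
  rw [div_mul_eq_mul_div, div_le_iff₀ (by positivity)] at h3
  push_cast at h3
  have n0 : (0 : ℝ) < n * n := by positivity
  refine le_of_mul_le_mul_right ?_ n0
  nlinarith [mul_nonneg (mul_nonneg z0 (by linarith : (0 : ℝ) ≤ n))
    (by nlinarith : (0 : ℝ) ≤ n * n - 1)]

end Pool.Agent.MP_ddaf7c_pr.K

end MrgPart2

-- ======== part 3: formerly Pool.Agent.MP_ddaf7c_pr.K.Pder
section MrgPart3

set_option autoImplicit false

namespace Pool.Agent.MP_ddaf7c_pr.K

open Finset Real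

namespace Pder

theorem exp_der (c t : ℝ) :
    HasDerivAt (fun τ : ℝ => exp (-(c * τ / 2))) (exp (-(c * t / 2)) * (-(c / 2))) t := by
  have h0 : HasDerivAt (fun τ : ℝ => -(c / 2) * τ) (-(c / 2) * 1) t :=
    (hasDerivAt_id t).const_mul (-(c / 2))
  have e : (fun τ : ℝ => -(c * τ / 2)) = fun τ : ℝ => -(c / 2) * τ := by
    funext τ
    ring
  have h : HasDerivAt (fun τ : ℝ => -(c * τ / 2)) (-(c / 2)) t := by
    rw [e]
    exact h0.congr_deriv (mul_one _)
  exact h.exp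

theorem prod_der (m c : ℝ) (g : ℝ → ℝ) (v t : ℝ) (hg : HasDerivAt g (c / 2 * g t + v) t) :
    HasDerivAt (fun τ => m * exp (-(c * τ / 2)) * g τ) (m * exp (-(c * t / 2)) * v) t := by
  have h := ((exp_der c t).const_mul m).mul hg
  refine h.congr_deriv ?_
  ring

theorem fac (S : Sol) (t : ℝ) (i : ℕ) :
    (i : ℝ) * p1 S i t = (i.factorial : ℝ) * exp (-((i : ℝ) ^ 2 * t / 2)) * S.κ t i := by
  rcases i with _ | i
  · rw [S.κz]
    simp
  · unfold p1
    rw [Nat.add_sub_cancel, Nat.factorial_succ, Nat.cast_mul]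
    ring

theorem exp_split (i j : ℕ) (t : ℝ) :
    exp (-(((i : ℝ) + j) ^ 2 * t / 2)) =
      exp (-(t * (i * j : ℕ))) * exp (-((i : ℝ) ^ 2 * t / 2)) * exp (-((j : ℝ) ^ 2 * t / 2)) := by
  rw [← exp_add, ← exp_add]
  congr 1
  push_cast
  ring

theorem choose_fac (i j : ℕ) :
    ((i + j).factorial : ℝ) = ((i + j).choose i : ℝ) * i.factorial * j.factorial := by
  have h := Nat.choose_mul_factorial_mul_factorial (Nat.le_add_right i j)
  rw [Nat.add_sub_cancel_left] at h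
  exact_mod_cast h.symm

theorem d1 (S : Sol) (k : ℕ) (t : ℝ) : HasDerivAt (p1 S k)
    (((k - 1).factorial : ℝ) * exp (-((k : ℝ) ^ 2 * t / 2)) * V1 (S.κ t) k) t :=
  prod_der _ ((k : ℝ) ^ 2) (fun τ => S.κ τ k) _ t (S.dκ k t)

theorem d2 (S : Sol) (a b : ℕ) (t : ℝ) : HasDerivAt (p2 S a b)
    ((a.factorial : ℝ) * b.factorial * exp (-(((a : ℝ) + b) ^ 2 * t / 2)) *
      V2 (S.κ t) (S.B t) a b) t :=
  prod_der _ (((a : ℝ) + b) ^ 2) (fun τ => S.B τ a b) _ t (S.dB a b t)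

theorem one (S : Sol) (t : ℝ) : p1 S 1 t = 1 := by
  have hz : ∀ τ, V1 (S.κ τ) 1 = 0 := by
    intro τ
    unfold V1
    rw [Finset.Nat.sum_antidiagonal_succ]
    simp [S.κz]
  have hd : ∀ τ, HasDerivAt (p1 S 1) 0 τ := by
    intro τ
    refine (d1 S 1 τ).congr_deriv ?_
    rw [hz, mul_zero]
  have hc := is_const_of_deriv_eq_zero (f := p1 S 1) (fun τ => (hd τ).differentiableAt)
    (fun τ => (hd τ).deriv) t 0
  rw [hc]
  unfold p1
  rw [S.κi]
  simp

theorem term1 (S : Sol) (i j : ℕ) (t : ℝ) :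
    ((i + j).factorial : ℝ) * exp (-(((i + j + 1 : ℕ) : ℝ) ^ 2 * t / 2)) *
        (((i + 1 : ℕ) : ℝ) * S.κ t (i + 1) * S.κ t j) =
      ((i + j).choose i : ℝ) * (((i + 1 : ℕ) : ℝ) * (j : ℝ) *
        (exp (-(t * ((i + 1) * j : ℕ))) * p1 S (i + 1) t * p1 S j t)) := by
  have e : ((i + j + 1 : ℕ) : ℝ) = ((i + 1 : ℕ) : ℝ) + j := by
    push_cast
    ring
  have h1 : p1 S (i + 1) t =
      (i.factorial : ℝ) * exp (-(((i + 1 : ℕ) : ℝ) ^ 2 * t / 2)) * S.κ t (i + 1) := by
    unfold p1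
    rw [Nat.add_sub_cancel]
  have h2 := fac S t j
  rw [e, exp_split, choose_fac, h1]
  linear_combination (-((i + j).choose i : ℝ) * ((i + 1 : ℕ) : ℝ) *
    exp (-(t * ((i + 1) * j : ℕ))) * ((i.factorial : ℝ) *
      exp (-(((i + 1 : ℕ) : ℝ) ^ 2 * t / 2)) * S.κ t (i + 1))) * h2

theorem term2 (S : Sol) (i j b : ℕ) (t : ℝ) :
    ((i + j).factorial : ℝ) * b.factorial * exp (-((((i + j : ℕ) : ℝ) + b) ^ 2 * t / 2)) *
        ((j : ℝ) * S.B t j b * S.κ t i) =
      ((i + j).choose i : ℝ) * ((i : ℝ) * (j : ℝ) *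
        (exp (-(t * (i * (j + b) : ℕ))) * p1 S i t * p2 S j b t)) := by
  have e : ((i + j : ℕ) : ℝ) + b = (i : ℝ) + ((j + b : ℕ) : ℝ) := by
    push_cast
    ring
  have h1 : p2 S j b t = (j.factorial : ℝ) * b.factorial *
      exp (-(((j + b : ℕ) : ℝ) ^ 2 * t / 2)) * S.B t j b := by
    unfold p2
    rw [Nat.cast_add]
  have h2 := fac S t i
  rw [e, exp_split, choose_fac, h1]
  linear_combination (-((i + j).choose i : ℝ) * (j : ℝ) *
    exp (-(t * (i * (j + b) : ℕ))) * ((j.factorial : ℝ) * b.factorial *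
      exp (-(((j + b : ℕ) : ℝ) ^ 2 * t / 2)) * S.B t j b)) * h2

theorem term3 (S : Sol) (a i j : ℕ) (t : ℝ) :
    (a.factorial : ℝ) * (i + j).factorial * exp (-(((a : ℝ) + ((i + j : ℕ) : ℝ)) ^ 2 * t / 2)) *
        ((j : ℝ) * S.B t a j * S.κ t i) =
      ((i + j).choose i : ℝ) * ((i : ℝ) * (j : ℝ) *
        (exp (-(t * (i * (a + j) : ℕ))) * p1 S i t * p2 S a j t)) := by
  have e : (a : ℝ) + ((i + j : ℕ) : ℝ) = (i : ℝ) + ((a + j : ℕ) : ℝ) := by
    push_cast
    ring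
  have h1 : p2 S a j t = (a.factorial : ℝ) * j.factorial *
      exp (-(((a + j : ℕ) : ℝ) ^ 2 * t / 2)) * S.B t a j := by
    unfold p2
    rw [Nat.cast_add]
  have h2 := fac S t i
  rw [e, exp_split, choose_fac, h1]
  linear_combination (-((i + j).choose i : ℝ) * (j : ℝ) *
    exp (-(t * (i * (a + j) : ℕ))) * ((a.factorial : ℝ) * j.factorial *
      exp (-(((a + j : ℕ) : ℝ) ^ 2 * t / 2)) * S.B t a j)) * h2

theorem term4 (S : Sol) (a b : ℕ) (t : ℝ) :
    (a.factorial : ℝ) * b.factorial * exp (-(((a : ℝ) + b) ^ 2 * t / 2)) *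
        (S.κ t a * S.κ t b) =
      (a : ℝ) * b * (exp (-(t * (a * b : ℕ))) * p1 S a t * p1 S b t) := by
  have h1 := fac S t a
  have h2 := fac S t b
  have e : (a : ℝ) * b * (exp (-(t * (a * b : ℕ))) * p1 S a t * p1 S b t) =
      exp (-(t * (a * b : ℕ))) * ((a : ℝ) * p1 S a t) * ((b : ℝ) * p1 S b t) := by
    ring
  rw [e, h1, h2, exp_split]
  ring

theorem swap_sum (n : ℕ) (F : ℕ → ℕ → ℝ) :
    ∑ p ∈ antidiagonal n, F p.1 p.2 = ∑ i ∈ range (n + 1), F (n - i) i := by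
  rw [← Finset.Nat.sum_antidiagonal_swap, Finset.Nat.sum_antidiagonal_eq_sum_range_succ_mk]
  rfl

end Pder

theorem pder : PDER := by
  intro S t
  refine ⟨Pder.one S t, fun s => ?_, fun a b => ?_⟩
  · refine (Pder.d1 S (s + 1) t).congr_deriv ?_
    unfold V1
    rw [Finset.Nat.sum_antidiagonal_succ, Finset.Nat.sum_antidiagonal_eq_sum_range_succ_mk,
      Nat.add_sub_cancel]
    simp only [Nat.cast_zero, zero_mul, zero_add]
    rw [Finset.mul_sum]
    refine Finset.sum_congr rfl fun i hi => ?_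
    obtain ⟨j, rfl⟩ := Nat.exists_eq_add_of_le (Nat.lt_succ_iff.mp (Finset.mem_range.mp hi))
    rw [Nat.add_sub_cancel_left]
    exact Pder.term1 S i j t
  · refine (Pder.d2 S a b t).congr_deriv ?_
    unfold V2
    rw [Pder.swap_sum a (fun p q => (p : ℝ) * S.B t p b * S.κ t q),
      Pder.swap_sum b (fun p q => (p : ℝ) * S.B t a p * S.κ t q), mul_add, mul_add,
      Pder.term4, Finset.mul_sum, Finset.mul_sum, add_comm, ← add_assoc]
    congr 1
    · congr 1
      refine Finset.sum_congr rfl fun i hi => ?_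
      obtain ⟨j, rfl⟩ := Nat.exists_eq_add_of_le (Nat.lt_succ_iff.mp (Finset.mem_range.mp hi))
      rw [Nat.add_sub_cancel_left]
      exact Pder.term2 S i j b t
    · refine Finset.sum_congr rfl fun i hi => ?_
      obtain ⟨j, rfl⟩ := Nat.exists_eq_add_of_le (Nat.lt_succ_iff.mp (Finset.mem_range.mp hi))
      rw [Nat.add_sub_cancel_left]
      exact Pder.term3 S a i j t

end Pool.Agent.MP_ddaf7c_pr.K

end MrgPart3

-- ======== part 4: formerly Pool.Agent.MP_ddaf7c_pr.K.Ktwo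
section MrgPart4

/-! The two-colour Kruskal event has probability at most `p2`. -/

set_option autoImplicit false

namespace Pool.Agent.MP_ddaf7c_pr.K

open Finset Real MeasureTheory

namespace Ktwo

variable {N : ℕ}

theorem W_symm (w : Ed N → ℝ) (x y : Fin N) : W w x y = W w y x := by
  unfold W
  by_cases h : x = y
  · simp [h]
  · rw [dif_pos h, dif_pos (Ne.symm h)]
    exact congrArg w (Subtype.ext Sym2.eq_swap)

theorem nn (E : Set (Ed N → ℝ)) : 0 ≤ Pr N E := measureReal_nonneg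

theorem mono {E F : Set (Ed N → ℝ)} (h : E ⊆ F) : Pr N E ≤ Pr N F := measureReal_mono h

theorem un (E F : Set (Ed N → ℝ)) : Pr N (E ∪ F) ≤ Pr N E + Pr N F := measureReal_union_le E F

theorem bi {ι : Type} (s : Finset ι) (f : ι → Set (Ed N → ℝ)) :
    Pr N {w | ∃ i ∈ s, w ∈ f i} ≤ ∑ i ∈ s, Pr N (f i) :=
  (mono fun w hw => by simpa using hw).trans (measureReal_biUnion_finset_le s f)

theorem null : Pr N {w | ∃ x y, x ≠ y ∧ W w x y ≤ 0} ≤ 0 := by
  refine (mono (F := {w | ∃ e ∈ (univ : Finset (Ed N)), w ∈ {w : Ed N → ℝ | w e ≤ 0}}) ?_).trans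
    ((bi _ _).trans (sum_nonpos fun e _ => le_of_eq ?_))
  · rintro w ⟨x, y, h, hw⟩
    rw [W, dif_pos h] at hw
    exact ⟨_, mem_univ _, hw⟩
  · have : (volume.restrict (Set.Icc (0 : ℝ) 1)) (Set.Iic 0) = 0 := by
      rw [Measure.restrict_apply measurableSet_Iic]
      refine measure_mono_null (t := {0}) (fun x hx => le_antisymm hx.1 hx.2.1) (by simp)
    unfold Pr Measure.real
    rw [ENNReal.toReal_eq_zero_iff]
    exact Or.inl (Measure.pi_eval_preimage_null _ (i := e) (s := Set.Iic 0) this)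

theorem step (t t' : ℝ) {c : ℕ} (hc : 1 ≤ c) :
    (1 - exp (-t') - (1 - exp (-t))) * (1 - (1 - exp (-t))) ^ (c - 1) ≤
      (t' - t) * exp (-(t * (c : ℕ))) := by
  obtain ⟨c, rfl⟩ := Nat.exists_eq_add_of_le' hc
  have a : exp (-t') = exp (-t) * exp (-(t' - t)) := by
    rw [← exp_add]
    congr 1
    ring
  have b := add_one_le_exp (-(t' - t))
  have p := exp_pos (-t)
  have e : exp (-(t * ((c + 1 : ℕ) : ℝ))) = exp (-t) * exp (-t) ^ c := by
    rw [← pow_succ', ← exp_nat_mul]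
    congr 1
    ring
  rw [e, Nat.add_sub_cancel, sub_sub_cancel, ← mul_assoc]
  refine mul_le_mul_of_nonneg_right ?_ (by positivity)
  nlinarith

/-- union bound over the last edge -/
theorem blk (h2 : IND) {R T Y : Finset (Fin N)} {E F : Set (Ed N → ℝ)} {t t' e f : ℝ}
    (h : 0 ≤ t) (h' : t ≤ t') (d : Disjoint R T) (hY : Y ⊆ T) (dE : Dep R E) (dF : Dep T F)
    (he : R.Nonempty → Pr N E ≤ e) (hf : R.Nonempty → Y.Nonempty → Pr N F ≤ f) :
    Pr N {w | ∃ x ∈ R, ∃ y ∈ Y,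
      Blk (W w) R T x y (1 - exp (-t)) (1 - exp (-t')) ∧ w ∈ E ∧ w ∈ F} ≤
      (t' - t) * ((R.card : ℝ) * Y.card * (exp (-(t * (R.card * T.card : ℕ))) * e * f)) := by
  have u0 : 0 ≤ 1 - exp (-t) := sub_nonneg.2 (exp_le_one_iff.2 (by linarith))
  have u1 : 1 - exp (-t) ≤ 1 - exp (-t') := sub_le_sub_left (exp_le_exp.2 (by linarith)) _
  have u2 : 1 - exp (-t') ≤ 1 := sub_le_self _ (exp_pos _).le
  refine (bi R fun x => {w | ∃ y ∈ Y,
    Blk (W w) R T x y (1 - exp (-t)) (1 - exp (-t')) ∧ w ∈ E ∧ w ∈ F}).trans ?_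
  refine (sum_le_card_nsmul _ _
    (Y.card • ((t' - t) * (exp (-(t * (R.card * T.card : ℕ))) * e * f))) fun x hx => ?_).trans
    (le_of_eq (by simp only [nsmul_eq_mul]; ring))
  refine (bi Y fun y => {w |
    Blk (W w) R T x y (1 - exp (-t)) (1 - exp (-t')) ∧ w ∈ E ∧ w ∈ F}).trans ?_
  refine sum_le_card_nsmul _ _ _ fun y hy => ?_
  have k := h2 N R T x y _ _ E F d hx (hY hy) u0 u1 u2 dE dF
  have c : 1 ≤ R.card * T.card :=
    Nat.mul_pos (card_pos.2 ⟨x, hx⟩) (card_pos.2 ⟨y, hY hy⟩)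
  have s := step t t' c
  have e1 := he ⟨x, hx⟩
  have f1 := hf ⟨x, hx⟩ ⟨y, hy⟩
  have p : 0 ≤ (t' - t) * exp (-(t * ((R.card * T.card : ℕ) : ℝ))) :=
    mul_nonneg (sub_nonneg.2 h') (exp_pos _).le
  refine (mono fun w hw => ?_).trans (k.trans ?_)
  · exact ⟨⟨hw.1, hw.2.1⟩, hw.2.2⟩
  · rw [← mul_assoc, ← mul_assoc]
    exact mul_le_mul (mul_le_mul s e1 (nn _) p) f1 (nn _) (mul_nonneg p ((nn _).trans e1))

/-- union bound over the block that is joined last -/
theorem pw (A : Finset (Fin N)) (E : Finset (Fin N) → Set (Ed N → ℝ)) (φ : ℕ → ℝ) (c : ℝ)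
    (h : ∀ R ⊆ A, Pr N (E R) ≤ c * φ R.card) : Pr N {w | ∃ R ∈ A.powerset, w ∈ E R} ≤
      c * ∑ i ∈ range (A.card + 1), (A.card.choose i : ℝ) * φ i := by
  refine (bi _ _).trans ((sum_le_sum fun R hR => h R (mem_powerset.1 hR)).trans (le_of_eq ?_))
  rw [← mul_sum, sum_powerset_apply_card]
  simp only [nsmul_eq_mul]

theorem c1 (S : Sol) (s : ℕ) : Continuous (p1 S s) := by
  have : Continuous fun t => S.κ t s :=
    continuous_iff_continuousAt.2 fun t => (S.dκ s t).continuousAt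
  unfold p1
  fun_prop

theorem c2 (S : Sol) (a b : ℕ) : Continuous (p2 S a b) := by
  have : Continuous fun t => S.B t a b :=
    continuous_iff_continuousAt.2 fun t => (S.dB a b t).continuousAt
  unfold p2
  fun_prop

theorem p2_nn (S : Sol) (a b : ℕ) {t : ℝ} (h : 0 ≤ t) : 0 ≤ p2 S a b t := by
  have := S.Bp t h a b
  unfold p2
  positivity

end Ktwo

open Ktwo

theorem ktwo (h1 : KINV) (h2 : IND) (h3 : DINI) (h4 : PDER) (h5 : KONE) : KTWO := by
  intro S N A B
  induction hn : A.card + B.card using Nat.strong_induction_on generalizing A B with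
  | _ n ih =>
  subst hn
  have K := fun w : Ed N → ℝ => h1 N (W w) (W_symm w)
  by_cases d : Disjoint A B
  swap
  · intro t ht
    refine (mono (F := ∅) fun w hw => d ((K w).2.2.2.2.2.1 _ _ _ hw).2.2.1).trans ?_
    simpa [Pr] using p2_nn S _ _ ht
  have D1 : ∀ (R : Finset (Fin N)) u, Dep R {w | Kr (W w) R u} :=
    fun R u w w' e hw => (K w).2.2.1 _ _ _ e hw
  have D2 : ∀ (R T : Finset (Fin N)) u, Dep (R ∪ T) {w | Kr2 (W w) R T u} :=
    fun R T u w w' e hw => (K w).2.2.2.1 _ _ _ _ e hw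
  refine h3 (fun t => Pr N {w | Kr2 (W w) A B (1 - exp (-t))}) (p2 S A.card B.card)
    (fun t t' => (A.card : ℝ) * B.card *
        (exp (-(t * (A.card * B.card : ℕ))) * p1 S A.card t' * p1 S B.card t') +
      ∑ i ∈ range (A.card + 1), (A.card.choose i : ℝ) * ((i : ℝ) * ((A.card - i : ℕ) : ℝ) *
        (exp (-(t * (i * (A.card - i + B.card) : ℕ))) * p1 S i t' *
          p2 S (A.card - i) B.card t')) +
      ∑ i ∈ range (B.card + 1), (B.card.choose i : ℝ) * ((i : ℝ) * ((B.card - i : ℕ) : ℝ) *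
        (exp (-(t * (i * (A.card + (B.card - i)) : ℕ))) * p1 S i t' *
          p2 S A.card (B.card - i) t'))) ?_ (fun t => (h4 S t).2.2 _ _) ?_ fun t t' ht ht' => ?_
  · have := c1 S
    have := c2 S
    fun_prop
  · refine (mono fun w hw => ?_).trans (null.trans (p2_nn S _ _ le_rfl))
    simpa using ((K w).2.2.2.2.2.1 _ _ _ hw).2.2.2
  have ht2 := ht.trans ht'
  refine ⟨mono fun w hw => (K w).2.1 _ _ _ _ (sub_le_sub_left (exp_le_exp.2 (by linarith)) _) hw, ?_⟩
  have b1 := blk h2 ht ht' d Subset.rfl (D1 A (1 - exp (-t'))) (D1 B (1 - exp (-t')))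
    (fun a => h5 S N A t' a ht2) fun _ b => h5 S N B t' b ht2
  have b2 := pw A (fun R => {w | ∃ x ∈ R, ∃ y ∈ A \ R,
      Blk (W w) R (A \ R ∪ B) x y (1 - exp (-t)) (1 - exp (-t')) ∧
        w ∈ {w | Kr (W w) R (1 - exp (-t'))} ∧ w ∈ {w | Kr2 (W w) (A \ R) B (1 - exp (-t'))}})
    (fun i : ℕ => (i : ℝ) * ((A.card - i : ℕ) : ℝ) *
      (exp (-(t * (i * (A.card - i + B.card) : ℕ))) * p1 S i t' * p2 S (A.card - i) B.card t'))
    (t' - t) fun R hR => by
      have c := card_sdiff_of_subset hR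
      have := blk h2 ht ht' (disjoint_union_right.2 ⟨disjoint_sdiff, d.mono_left hR⟩)
        subset_union_left (D1 R (1 - exp (-t'))) (D2 (A \ R) B (1 - exp (-t')))
        (fun a => h5 S N R t' a ht2) fun a _ => ih _ (by
          have := card_pos.2 a
          have := card_le_card hR
          omega) (A \ R) B rfl t' ht2
      rwa [card_union_of_disjoint (d.mono_left sdiff_subset), c] at this
  have b3 := pw B (fun R => {w | ∃ x ∈ R, ∃ y ∈ B \ R,
      Blk (W w) R (A ∪ B \ R) x y (1 - exp (-t)) (1 - exp (-t')) ∧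
        w ∈ {w | Kr (W w) R (1 - exp (-t'))} ∧ w ∈ {w | Kr2 (W w) A (B \ R) (1 - exp (-t'))}})
    (fun i : ℕ => (i : ℝ) * ((B.card - i : ℕ) : ℝ) *
      (exp (-(t * (i * (A.card + (B.card - i)) : ℕ))) * p1 S i t' * p2 S A.card (B.card - i) t'))
    (t' - t) fun R hR => by
      have c := card_sdiff_of_subset hR
      have := blk h2 ht ht' (disjoint_union_right.2 ⟨(d.mono_right hR).symm, disjoint_sdiff⟩)
        subset_union_right (D1 R (1 - exp (-t'))) (D2 A (B \ R) (1 - exp (-t')))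
        (fun a => h5 S N R t' a ht2) fun a _ => ih _ (by
          have := card_pos.2 a
          have := card_le_card hR
          omega) A (B \ R) rfl t' ht2
      rwa [card_union_of_disjoint (d.mono_right sdiff_subset), c] at this
  refine (mono fun w hw => (K w).2.2.2.2.2.2.2 A B (1 - exp (-t)) _ hw).trans ((un _ _).trans
    (add_le_add le_rfl ((un _ _).trans ((add_le_add b1 ((un _ _).trans
      (add_le_add b2 b3))).trans (le_of_eq ?_)))))
  rw [mul_add, mul_add, add_assoc]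

end Pool.Agent.MP_ddaf7c_pr.K

end MrgPart4

-- ======== part 5: formerly Pool.Agent.MP_ddaf7c_pr.K.Tree
section MrgPart5

set_option autoImplicit false

namespace Pool.Agent.MP_ddaf7c_pr.K

open Finset

namespace TreeK

variable {N : ℕ}

/-- the graph with edge set `F` -/
def gr (F : Finset (Sym2 (Fin N))) : SimpleGraph (Fin N) :=
  SimpleGraph.fromEdgeSet (F : Set (Sym2 (Fin N)))

open scoped Classical in
/-- the component of `v` -/
noncomputable def cp (G : SimpleGraph (Fin N)) (v : Fin N) : Finset (Fin N) :=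
  univ.filter (G.Reachable v)

theorem mem_cp {G : SimpleGraph (Fin N)} {v p : Fin N} : p ∈ cp G v ↔ G.Reachable v p := by
  simp [cp]

theorem gr_adj {F : Finset (Sym2 (Fin N))} {a b : Fin N} :
    (gr F).Adj a b ↔ s(a, b) ∈ F ∧ a ≠ b := by
  simp [gr, SimpleGraph.fromEdgeSet_adj]

theorem gr_mono (F : Finset (Sym2 (Fin N))) (e : Sym2 (Fin N)) : gr F ≤ gr (insert e F) := by
  intro a b h
  rw [gr_adj] at h ⊢
  exact ⟨mem_insert_of_mem h.1, h.2⟩

theorem reach_insert {F : Finset (Sym2 (Fin N))} {x y v p : Fin N}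
    (h : (gr (insert s(x, y) F)).Reachable v p) :
    (gr F).Reachable v p ∨ (((gr F).Reachable v x ∨ (gr F).Reachable v y) ∧
      ((gr F).Reachable x p ∨ (gr F).Reachable y p)) := by
  rw [SimpleGraph.reachable_iff_reflTransGen] at h
  induction h with
  | refl => exact Or.inl (SimpleGraph.Reachable.refl _)
  | @tail a b _ hab ih =>
    rw [gr_adj, mem_insert] at hab
    obtain ⟨h1 | h1, h2⟩ := hab
    · rw [Sym2.eq_iff] at h1
      rcases h1 with ⟨rfl, rfl⟩ | ⟨rfl, rfl⟩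
      · refine Or.inr ⟨?_, Or.inr (SimpleGraph.Reachable.refl _)⟩
        rcases ih with ih | ih
        · exact Or.inl ih
        · exact ih.1
      · refine Or.inr ⟨?_, Or.inl (SimpleGraph.Reachable.refl _)⟩
        rcases ih with ih | ih
        · exact Or.inr ih
        · exact ih.1
    · have hr : (gr F).Reachable a b := (gr_adj.2 ⟨h1, h2⟩).reachable
      rcases ih with ih | ⟨i1, i2 | i2⟩
      · exact Or.inl (ih.trans hr)
      · exact Or.inr ⟨i1, Or.inl (i2.trans hr)⟩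
      · exact Or.inr ⟨i1, Or.inr (i2.trans hr)⟩

theorem cp_far {F : Finset (Sym2 (Fin N))} {x y v : Fin N}
    (h : ¬ ((gr F).Reachable v x ∨ (gr F).Reachable v y)) :
    cp (gr (insert s(x, y) F)) v = cp (gr F) v := by
  ext p
  rw [mem_cp, mem_cp]
  constructor
  · intro hp
    rcases reach_insert hp with h1 | h1
    · exact h1
    · exact absurd h1.1 h
  · exact fun hp => hp.mono (gr_mono _ _)

theorem cp_near {F : Finset (Sym2 (Fin N))} {x y v : Fin N} (hxy : x ≠ y)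
    (h : (gr F).Reachable v x ∨ (gr F).Reachable v y) :
    cp (gr (insert s(x, y) F)) v = cp (gr F) x ∪ cp (gr F) y := by
  have hadj : (gr (insert s(x, y) F)).Reachable x y :=
    (gr_adj.2 ⟨mem_insert_self _ _, hxy⟩).reachable
  have hvx : (gr (insert s(x, y) F)).Reachable v x := by
    rcases h with h | h
    · exact h.mono (gr_mono _ _)
    · exact (h.mono (gr_mono _ _)).trans hadj.symm
  ext p
  rw [mem_union, mem_cp, mem_cp, mem_cp]
  constructor
  · intro hp
    rcases reach_insert hp with h1 | h1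
    · rcases h with h | h
      · exact Or.inl (h.symm.trans h1)
      · exact Or.inr (h.symm.trans h1)
    · exact h1.2
  · rintro (hp | hp)
    · exact hvx.trans (hp.mono (gr_mono _ _))
    · exact (hvx.trans hadj).trans (hp.mono (gr_mono _ _))

theorem gr_le {T : SimpleGraph (Fin N)} {F : Finset (Sym2 (Fin N))} {e : Sym2 (Fin N)}
    (hF : ∀ f ∈ F, f ∈ T.edgeSet) (he : e ∉ F) : gr F ≤ T.deleteEdges {e} := by
  intro a b h
  rw [gr_adj] at h
  rw [SimpleGraph.deleteEdges_adj]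
  refine ⟨hF _ h.1, ?_⟩
  intro h2
  rw [Set.mem_singleton_iff] at h2
  exact he (h2 ▸ h.1)

theorem bridge {T : SimpleGraph (Fin N)} (hT : T.IsTree) {x y : Fin N} (h : T.Adj x y) :
    ¬ (T.deleteEdges {s(x, y)}).Reachable x y :=
  SimpleGraph.isBridge_iff.1 (SimpleGraph.isAcyclic_iff_forall_isBridge.1 hT.isAcyclic h)

theorem disj {T : SimpleGraph (Fin N)} (hT : T.IsTree) {F : Finset (Sym2 (Fin N))} {x y : Fin N}
    (h : T.Adj x y) (hF : ∀ f ∈ F, f ∈ T.edgeSet) (he : s(x, y) ∉ F) :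
    Disjoint (cp (gr F) x) (cp (gr F) y) := by
  rw [disjoint_left]
  intro p h1 h2
  rw [mem_cp] at h1 h2
  exact bridge hT h ((h1.trans h2.symm).mono (gr_le hF he))

/-- a block that avoids the marked edge is connected in the tree without the marked edge -/
theorem reach_avoid {T : SimpleGraph (Fin N)} {F : Finset (Sym2 (Fin N))} {x0 y0 x p : Fin N}
    (hF : ∀ f ∈ F, f ∈ T.edgeSet) (hx : ¬ (gr F).Reachable x x0) (h : (gr F).Reachable x p) :
    (T.deleteEdges {s(x0, y0)}).Reachable x p := by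
  rw [SimpleGraph.reachable_iff_reflTransGen] at h
  induction h with
  | refl => exact SimpleGraph.Reachable.refl _
  | @tail a b ha hab ih =>
    refine ih.trans (SimpleGraph.Adj.reachable ?_)
    have ha' : (gr F).Reachable x a := (SimpleGraph.reachable_iff_reflTransGen _ _).2 ha
    rw [SimpleGraph.deleteEdges_adj]
    refine ⟨hF _ (gr_adj.1 hab).1, ?_⟩
    intro h2
    rw [Set.mem_singleton_iff, Sym2.eq_iff] at h2
    rcases h2 with ⟨rfl, rfl⟩ | ⟨rfl, rfl⟩
    · exact hx ha'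
    · exact hx (ha'.trans hab.reachable)

/-- the two-colour step when the new edge joins a new block to the block of the marked edge -/
theorem step2 {ω : Fin N → Fin N → ℝ} {T : SimpleGraph (Fin N)} (hT : T.IsTree)
    (hc : ∀ x y p q, T.Adj x y → (T.deleteEdges {s(x, y)}).Reachable x p →
      (T.deleteEdges {s(x, y)}).Reachable y q → (p, q) ≠ (x, y) → ω x y < ω p q)
    {F : Finset (Sym2 (Fin N))} {x0 y0 x y : Fin N} {u : ℝ}
    (hF : ∀ f ∈ F, f ∈ T.edgeSet) (hxy : T.Adj x y) (he : s(x, y) ∉ F) (h0 : s(x0, y0) ∈ F)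
    (hy : (gr F).Reachable x0 y) (hu : ω x y ≤ u) (k1 : Kr ω (cp (gr F) x) (ω x y))
    (k2 : Kr2 ω (cp (gr F) x0 ∩ cp (T.deleteEdges {s(x0, y0)}) x0)
      (cp (gr F) x0 ∩ (cp (T.deleteEdges {s(x0, y0)}) x0)ᶜ) (ω x y)) :
    Kr2 ω (cp (gr (insert s(x, y) F)) x0 ∩ cp (T.deleteEdges {s(x0, y0)}) x0)
      (cp (gr (insert s(x, y) F)) x0 ∩ (cp (T.deleteEdges {s(x0, y0)}) x0)ᶜ) u := by
  set A := cp (T.deleteEdges {s(x0, y0)}) x0 with hA
  have hd := disj hT hxy hF he
  have hC : cp (gr F) y = cp (gr F) x0 := by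
    ext p
    rw [mem_cp, mem_cp]
    exact ⟨fun h => hy.trans h, fun h => hy.symm.trans h⟩
  have hxx : ¬ (gr F).Reachable x x0 := by
    intro h
    exact disjoint_left.1 hd (mem_cp.2 (h.trans hy)) (mem_cp.2 (SimpleGraph.Reachable.refl _))
  have hadj : (T.deleteEdges {s(x0, y0)}).Adj x y := by
    rw [SimpleGraph.deleteEdges_adj]
    refine ⟨hxy, ?_⟩
    intro h2
    rw [Set.mem_singleton_iff] at h2
    exact he (h2 ▸ h0)
  have hside : ∀ p ∈ cp (gr F) x, p ∈ A ↔ y ∈ A := by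
    intro p hp
    have h1 : (T.deleteEdges {s(x0, y0)}).Reachable y p :=
      hadj.reachable.symm.trans (reach_avoid hF hxx (mem_cp.1 hp))
    rw [hA, mem_cp, mem_cp]
    exact ⟨fun h => h.trans h1.symm, fun h => h.trans h1⟩
  have hU : cp (gr F) x0 ∩ A ∪ cp (gr F) x0 ∩ Aᶜ = cp (gr F) y := by
    rw [← inter_union_distrib_left, union_compl, inter_univ, hC]
  have hs : ∀ p ∈ cp (gr F) x, ∀ q ∈ cp (gr F) x0 ∩ A ∪ cp (gr F) x0 ∩ Aᶜ,
      (p, q) ≠ (x, y) → ω x y < ω p q := by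
    intro p hp q hq hne
    rw [hU] at hq
    exact hc x y p q hxy ((mem_cp.1 hp).mono (gr_le hF he)) ((mem_cp.1 hq).mono (gr_le hF he)) hne
  have hd' : Disjoint (cp (gr F) x) (cp (gr F) x0 ∩ A ∪ cp (gr F) x0 ∩ Aᶜ) := by
    rw [hU]
    exact hd
  have hxm : x ∈ cp (gr F) x := mem_cp.2 (SimpleGraph.Reachable.refl _)
  rw [cp_near hxy.ne (Or.inr hy), hC]
  by_cases hyA : y ∈ A
  · have e1 : (cp (gr F) x ∪ cp (gr F) x0) ∩ A = cp (gr F) x ∪ cp (gr F) x0 ∩ A := by
      rw [union_inter_distrib_right, inter_eq_left.2 fun p hp => (hside p hp).2 hyA]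
    have e2 : (cp (gr F) x ∪ cp (gr F) x0) ∩ Aᶜ = cp (gr F) x0 ∩ Aᶜ := by
      ext p
      simp only [mem_inter, mem_union, mem_compl]
      constructor
      · rintro ⟨h1 | h1, h2⟩
        · exact absurd ((hside p h1).2 hyA) h2
        · exact ⟨h1, h2⟩
      · exact fun h => ⟨Or.inr h.1, h.2⟩
    rw [e1, e2]
    exact Kr2.left _ _ _ x y u hd' hxm (mem_inter.2 ⟨mem_cp.2 hy, hyA⟩) hu k1 k2 hs
  · have e1 : (cp (gr F) x ∪ cp (gr F) x0) ∩ Aᶜ = cp (gr F) x ∪ cp (gr F) x0 ∩ Aᶜ := by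
      rw [union_inter_distrib_right,
        inter_eq_left.2 fun p hp => mem_compl.2 fun h => hyA ((hside p hp).1 h)]
    have e2 : (cp (gr F) x ∪ cp (gr F) x0) ∩ A = cp (gr F) x0 ∩ A := by
      ext p
      simp only [mem_inter, mem_union]
      constructor
      · rintro ⟨h1 | h1, h2⟩
        · exact absurd ((hside p h1).1 h2) hyA
        · exact ⟨h1, h2⟩
      · exact fun h => ⟨Or.inr h.1, h.2⟩
    rw [e1, e2]
    exact Kr2.right _ _ _ x y u hd' hxm (mem_inter.2 ⟨mem_cp.2 hy, mem_compl.2 hyA⟩) hu k1 k2 hs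

theorem main {ω : Fin N → Fin N → ℝ} (hω : ∀ x y, ω x y = ω y x) {T : SimpleGraph (Fin N)}
    (hT : T.IsTree)
    (hc : ∀ x y p q, T.Adj x y → (T.deleteEdges {s(x, y)}).Reachable x p →
      (T.deleteEdges {s(x, y)}).Reachable y q → (p, q) ≠ (x, y) → ω x y < ω p q)
    {x0 y0 : Fin N} (F : Finset (Sym2 (Fin N))) :
    (∀ f ∈ F, f ∈ T.edgeSet) → ∀ u, (∀ f ∈ F, Sym2.lift ⟨ω, hω⟩ f ≤ u) →
      (∀ v, Kr ω (cp (gr F) v) u) ∧ (s(x0, y0) ∈ F →
        Kr2 ω (cp (gr F) x0 ∩ cp (T.deleteEdges {s(x0, y0)}) x0)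
          (cp (gr F) x0 ∩ (cp (T.deleteEdges {s(x0, y0)}) x0)ᶜ) u) := by
  induction F using Finset.induction_on_max_value (Sym2.lift ⟨ω, hω⟩) with
  | empty =>
    intro _ u _
    refine ⟨fun v => ?_, fun h => absurd h (notMem_empty _)⟩
    have : cp (gr (∅ : Finset (Sym2 (Fin N)))) v = {v} := by
      ext p
      rw [mem_cp, mem_singleton]
      simp [gr, eq_comm]
    rw [this]
    exact Kr.one v u
  | insert e F he hmax ih =>
    intro hF u hu
    have hF' : ∀ f ∈ F, f ∈ T.edgeSet := fun f hf => hF f (mem_insert_of_mem hf)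
    have ihu := ih hF' u fun f hf => hu f (mem_insert_of_mem hf)
    have ihe := ih hF' _ hmax
    have heu := hu e (mem_insert_self _ _)
    have heT := hF e (mem_insert_self _ _)
    have key : ∀ x y, e = s(x, y) → T.Adj x y ∧ ω x y ≤ u ∧ Sym2.lift ⟨ω, hω⟩ e = ω x y ∧
        ∀ p ∈ cp (gr F) x, ∀ q ∈ cp (gr F) y, (p, q) ≠ (x, y) → ω x y < ω p q := by
      rintro x y rfl
      refine ⟨heT, heu, rfl, fun p hp q hq hne => ?_⟩
      exact hc x y p q heT ((mem_cp.1 hp).mono (gr_le hF' he))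
        ((mem_cp.1 hq).mono (gr_le hF' he)) hne
    have hself : ∀ z : Fin N, z ∈ cp (gr F) z := fun z => mem_cp.2 (SimpleGraph.Reachable.refl _)
    constructor
    · intro v
      induction e using Sym2.ind with
      | h x y =>
        obtain ⟨hxy, hle, hl, hs⟩ := key x y rfl
        rw [hl] at ihe
        by_cases hv : (gr F).Reachable v x ∨ (gr F).Reachable v y
        · rw [cp_near hxy.ne hv]
          exact Kr.join _ _ x y u (disj hT hxy hF' he) (hself x) (hself y) hle (ihe.1 x)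
            (ihe.1 y) hs
        · rw [cp_far hv]
          exact ihu.1 v
    · intro h00
      have h01 := mem_insert.1 h00
      clear h00
      rcases h01 with h0 | h0
      · subst h0
        obtain ⟨hxy, hle, hl, hs⟩ := key x0 y0 rfl
        rw [hl] at ihe
        have e1 : (cp (gr F) x0 ∪ cp (gr F) y0) ∩ cp (T.deleteEdges {s(x0, y0)}) x0 =
            cp (gr F) x0 := by
          ext p
          simp only [mem_inter, mem_union, mem_cp]
          constructor
          · rintro ⟨h1 | h1, h2⟩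
            · exact h1
            · exact absurd (h2.trans (h1.mono (gr_le hF' he)).symm) (bridge hT hxy)
          · exact fun h => ⟨Or.inl h, h.mono (gr_le hF' he)⟩
        have e2 : (cp (gr F) x0 ∪ cp (gr F) y0) ∩ (cp (T.deleteEdges {s(x0, y0)}) x0)ᶜ =
            cp (gr F) y0 := by
          ext p
          simp only [mem_inter, mem_union, mem_compl, mem_cp]
          constructor
          · rintro ⟨h1 | h1, h2⟩
            · exact absurd (h1.mono (gr_le hF' he)) h2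
            · exact h1
          · exact fun h => ⟨Or.inr h,
              fun h2 => bridge hT hxy (h2.trans (h.mono (gr_le hF' he)).symm)⟩
        rw [cp_near hxy.ne (Or.inl (SimpleGraph.Reachable.refl _)), e1, e2]
        exact Kr2.cross _ _ x0 y0 u (disj hT hxy hF' he) (hself x0) (hself y0) hle (ihe.1 x0)
          (ihe.1 y0) hs
      · induction e using Sym2.ind with
        | h x y =>
          by_cases hv : (gr F).Reachable x0 x ∨ (gr F).Reachable x0 y
          · rcases hv with hv | hv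
            · obtain ⟨hxy, hle, hl, _⟩ := key y x (Sym2.eq_swap)
              rw [hl] at ihe
              rw [Sym2.eq_swap (a := x)] at he ⊢
              exact step2 hT hc hF' hxy he h0 hv hle (ihe.1 y) (ihe.2 h0)
            · obtain ⟨hxy, hle, hl, _⟩ := key x y rfl
              rw [hl] at ihe
              exact step2 hT hc hF' hxy he h0 hv hle (ihe.1 x) (ihe.2 h0)
          · rw [cp_far hv]
            exact ihu.2 h0

end TreeK

open TreeK in
theorem tree : TREE := by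
  classical
  intro N ω T u hω hT hS hu hc
  obtain ⟨e, he, hC⟩ := hS
  induction e using Sym2.ind with
  | h x0 y0 =>
    refine ⟨cp (T.deleteEdges {s(x0, y0)}) x0, ?_, ?_⟩
    · have h1 := hC ((T.deleteEdges {s(x0, y0)}).connectedComponentMk x0)
      have h2 : ((T.deleteEdges {s(x0, y0)}).connectedComponentMk x0).supp =
          (cp (T.deleteEdges {s(x0, y0)}) x0 : Set (Fin N)) := by
        ext p
        rw [SimpleGraph.ConnectedComponent.mem_supp_iff, SimpleGraph.ConnectedComponent.eq,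
          mem_coe, mem_cp]
        exact ⟨fun h => h.symm, fun h => h.symm⟩
      rw [h2, Set.ncard_coe_finset, Fintype.card_fin] at h1
      exact h1
    · have h := (main hω hT hc (x0 := x0) (y0 := y0) T.edgeFinset
        (fun f hf => SimpleGraph.mem_edgeFinset.1 hf) u (fun f _ => by
          induction f using Sym2.ind with
          | h a b => exact hu a b)).2 (SimpleGraph.mem_edgeFinset.2 he)
      have hg : gr T.edgeFinset = T := by
        rw [gr, SimpleGraph.coe_edgeFinset, SimpleGraph.fromEdgeSet_edgeSet]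
      have hun : cp T x0 = univ := by
        ext p
        simp only [mem_cp, mem_univ, iff_true]
        exact hT.connected.preconnected x0 p
      rw [hg, hun, univ_inter, univ_inter] at h
      exact h

end Pool.Agent.MP_ddaf7c_pr.K

end MrgPart5

-- ======== part 6: formerly Pool.Agent.MP_ddaf7c_pr.K.Pit
section MrgPart6

set_option autoImplicit false

namespace Pool.Agent.MP_ddaf7c_pr.K

open Finset

namespace Pit

open scoped Classical

variable {X : Type}

/-- A map without cycles other than fixed points. -/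
def Acyc (f : X → X) : Prop := ∃ h : X → ℕ, ∀ x, f x ≠ x → h (f x) < h x

/-- The orbit of `x` meets `y`. -/
def Hits (f : X → X) (x y : X) : Prop := ∃ m, f^[m] x = y

theorem Hits.unique {f : X → X} {x y z : X} (h1 : Hits f x y) (h2 : Hits f x z) (hy : f y = y)
    (hz : f z = z) : y = z := by
  obtain ⟨m, h1⟩ := h1
  obtain ⟨m', h2⟩ := h2
  have e1 : f^[m' + m] x = y := by
    rw [Function.iterate_add_apply, h1, Function.iterate_fixed hy]
  have e2 : f^[m + m'] x = z := by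
    rw [Function.iterate_add_apply, h2, Function.iterate_fixed hz]
  rw [← e1, ← e2, add_comm]

theorem hits_iff {f : X → X} {x y : X} (h : x ≠ y) : Hits f x y ↔ Hits f (f x) y := by
  constructor
  · rintro ⟨m, hm⟩
    cases m with
    | zero => exact absurd hm h
    | succ m => exact ⟨m, hm⟩
  · rintro ⟨m, hm⟩
    exact ⟨m + 1, hm⟩

theorem Acyc.update [DecidableEq X] {f : X → X} (hf : Acyc f) {v ρ : X} (hv : ¬ Hits f v ρ) :
    Acyc (Function.update f ρ v) := by
  obtain ⟨h, hh⟩ := hf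
  refine ⟨fun x => if Hits f x ρ then h x + h v + 1 else h x, fun x hx => ?_⟩
  by_cases hxρ : x = ρ
  · subst hxρ
    simp only [Function.update_self]
    rw [if_neg hv, if_pos ⟨0, rfl⟩]
    omega
  · rw [Function.update_of_ne hxρ] at hx ⊢
    have := hh x hx
    simp only [← hits_iff hxρ]
    split_ifs <;> omega

theorem Acyc.cut [DecidableEq X] {f : X → X} (hf : Acyc f) {ρ : X} (hρ : f ρ ≠ ρ) :
    Acyc (Function.update f ρ ρ) ∧ ¬ Hits (Function.update f ρ ρ) (f ρ) ρ := by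
  obtain ⟨h, hh⟩ := hf
  have h1 : ∀ x, Function.update f ρ ρ x ≠ x → h (Function.update f ρ ρ x) < h x := fun x hx => by
    by_cases e : x = ρ
    · subst e
      exact absurd (Function.update_self _ _ _) hx
    · rw [Function.update_of_ne e] at hx ⊢
      exact hh x hx
  have h2 : ∀ m x, h ((Function.update f ρ ρ)^[m] x) ≤ h x := fun m => by
    induction m with
    | zero => exact fun x => le_rfl
    | succ m ih =>
      intro x
      refine (ih _).trans ?_
      by_cases e : Function.update f ρ ρ x = x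
      · rw [e]
      · exact (h1 x e).le
  refine ⟨⟨h, h1⟩, fun ⟨m, hm⟩ => ?_⟩
  have := h2 m (f ρ)
  rw [hm] at this
  exact absurd (hh ρ hρ) (not_lt.2 this)

theorem acyc_iff {f : X → X} : (∀ v, ∃ j, f (f^[j] v) = f^[j] v) ↔ Acyc f := by
  constructor
  · intro H
    refine ⟨fun v => Nat.find (H v), fun x hx => ?_⟩
    have h1 := Nat.find_spec (H x)
    beta_reduce
    rcases e : Nat.find (H x) with _ | j
    · rw [e] at h1
      exact absurd h1 hx
    · rw [e] at h1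
      exact Nat.lt_succ_of_le (Nat.find_min' (H (f x)) h1)
  · rintro ⟨h, hh⟩ x
    induction hn : h x using Nat.strong_induction_on generalizing x with
    | _ n ih =>
      by_cases hx : f x = x
      · exact ⟨0, hx⟩
      · obtain ⟨m, h2⟩ := ih _ (hn ▸ hh x hx) (f x) rfl
        exact ⟨m + 1, h2⟩

variable {N : ℕ} {A : Finset (Fin N)}

theorem mem_Par {k : ℕ} {f : Fin N → Fin N} : f ∈ Par A k ↔ (∀ v, v ∉ A → f v = v) ∧
    (∀ v ∈ A, f v ∈ A) ∧ Acyc f ∧ (A.filter fun v => f v = v).card = k := by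
  rw [Par, mem_filter, acyc_iff]
  exact and_iff_right (mem_univ _)

theorem step (k : ℕ) : (Par A (k + 1)).card * (A.card * k) = (Par A k).card * (A.card - k) := by
  have h1 : ((Par A (k + 1)).sigma fun g => A.sigma fun v =>
      (A.filter fun ρ => g ρ = ρ).filter fun ρ => ¬ Hits g v ρ).card =
      (Par A (k + 1)).card * (A.card * k) := by
    rw [card_sigma, ← smul_eq_mul]
    refine sum_eq_card_nsmul fun g hg => ?_
    rw [card_sigma, ← smul_eq_mul]
    refine sum_eq_card_nsmul fun v hv => ?_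
    obtain ⟨-, g2, g3, g4⟩ := mem_Par.1 hg
    have h2 := card_filter_add_card_filter_not (s := A.filter fun ρ => g ρ = ρ)
      fun ρ => Hits g v ρ
    obtain ⟨j, hj⟩ := acyc_iff.2 g3 v
    have hA : ∀ m, g^[m] v ∈ A := fun m => by
      induction m with
      | zero => exact hv
      | succ m ih => rw [Function.iterate_succ_apply']; exact g2 _ ih
    have h3 : ((A.filter fun ρ => g ρ = ρ).filter fun ρ => Hits g v ρ) = {g^[j] v} :=
      eq_singleton_iff_unique_mem.2 ⟨mem_filter.2 ⟨mem_filter.2 ⟨hA j, hj⟩, j, rfl⟩, fun a ha =>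
        (mem_filter.1 ha).2.unique ⟨j, rfl⟩ (mem_filter.1 (mem_filter.1 ha).1).2 hj⟩
    rw [h3, card_singleton] at h2
    omega
  have h2 : ((Par A k).sigma fun f => A.filter fun ρ => ¬ f ρ = ρ).card =
      (Par A k).card * (A.card - k) := by
    rw [card_sigma, ← smul_eq_mul]
    refine sum_eq_card_nsmul fun f hf => ?_
    have := card_filter_add_card_filter_not (s := A) fun ρ => f ρ = ρ
    have := (mem_Par.1 hf).2.2.2
    omega
  rw [← h1, ← h2]
  refine card_nbij' (fun q => ⟨Function.update q.1 q.2.2 q.2.1, q.2.2⟩)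
    (fun q => ⟨Function.update q.1 q.2 q.2, q.1 q.2, q.2⟩) ?_ ?_ ?_ ?_
  · rintro ⟨g, v, ρ⟩ hq
    simp only [mem_coe, mem_sigma, mem_filter, mem_Par] at hq ⊢
    obtain ⟨⟨g1, g2, g3, g4⟩, hv, ⟨hρ, h5⟩, h6⟩ := hq
    have hne : v ≠ ρ := fun h => h6 ⟨0, h⟩
    refine ⟨⟨fun x hx => ?_, fun x hx => ?_, g3.update h6, ?_⟩, hρ, by simpa using hne⟩
    · rw [Function.update_of_ne fun e : x = ρ => hx (e ▸ hρ), g1 x hx]
    · by_cases e : x = ρ
      · rwa [e, Function.update_self]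
      · rw [Function.update_of_ne e]
        exact g2 x hx
    · have : (A.filter fun x => Function.update g ρ v x = x) =
          (A.filter fun x => g x = x).erase ρ := by
        ext x
        by_cases hx : x = ρ
        · subst hx
          simp [hne]
        · simp [hx]
      rw [this, card_erase_of_mem (s := A.filter fun x => g x = x) (mem_filter.2 ⟨hρ, h5⟩), g4]
      rfl
  · rintro ⟨f, ρ⟩ hq
    simp only [mem_coe, mem_sigma, mem_filter, mem_Par] at hq ⊢
    obtain ⟨⟨f1, f2, f3, f4⟩, hρ, h5⟩ := hq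
    refine ⟨⟨fun x hx => ?_, fun x hx => ?_, (f3.cut h5).1, ?_⟩, f2 ρ hρ,
      ⟨hρ, Function.update_self _ _ _⟩, (f3.cut h5).2⟩
    · rw [Function.update_of_ne fun e : x = ρ => hx (e ▸ hρ), f1 x hx]
    · by_cases e : x = ρ
      · rwa [e, Function.update_self]
      · rw [Function.update_of_ne e]
        exact f2 x hx
    · have : (A.filter fun x => Function.update f ρ ρ x = x) =
          insert ρ (A.filter fun x => f x = x) := by
        ext x
        by_cases hx : x = ρ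
        · subst hx
          simp [hρ]
        · simp [hx]
      rw [this, card_insert_of_notMem (s := A.filter fun x => f x = x)
        fun h => h5 (mem_filter.1 h).2, f4]
  · rintro ⟨g, v, ρ⟩ hq
    simp only [mem_coe, mem_sigma, mem_filter] at hq
    have e : Function.update g ρ ρ = g := Function.update_eq_self_iff.2 hq.2.2.1.2.symm
    simp only [Function.update_idem, Function.update_self, e]
  · rintro ⟨f, ρ⟩ -
    simp only [Function.update_idem, Function.update_eq_self]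

theorem count (i : ℕ) (hi : i < A.card) :
    (Par A (A.card - i)).card = (A.card - 1).choose i * A.card ^ i := by
  induction i with
  | zero =>
    rw [Nat.choose_zero_right, pow_zero, Nat.sub_zero]
    refine card_eq_one.2 ⟨id, eq_singleton_iff_unique_mem.2 ⟨mem_Par.2
      ⟨fun _ _ => rfl, fun _ h => h, ⟨fun _ => 0, fun x h => absurd rfl h⟩, by simp⟩,
      fun f hf => funext fun x => ?_⟩⟩
    obtain ⟨f1, -, -, f4⟩ := mem_Par.1 hf
    by_cases hx : x ∈ A
    · exact card_filter_eq_iff.1 f4 x hx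
    · exact f1 x hx
  | succ i ih =>
    have h1 := step (A := A) (A.card - (i + 1))
    rw [show A.card - (i + 1) + 1 = A.card - i by omega,
      show A.card - (A.card - (i + 1)) = i + 1 by omega, ih (by omega)] at h1
    refine Nat.eq_of_mul_eq_mul_right (Nat.succ_pos i) (h1.symm.trans ?_)
    have h3 := Nat.choose_succ_right_eq (A.card - 1) i
    rw [show A.card - 1 - i = A.card - (i + 1) by omega] at h3
    symm
    calc _ = ((A.card - 1).choose (i + 1) * (i + 1)) * A.card ^ (i + 1) := by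
          simp only [Nat.succ_eq_add_one]; ring
      _ = _ := by rw [h3]; ring

end Pit

theorem pit : PIT := by
  intro N A hA
  have h0 := hA.card_pos
  have := Pit.count (A := A) (A.card - 1) (by omega)
  rwa [show A.card - (A.card - 1) = 1 by omega, Nat.choose_self, one_mul] at this

end Pool.Agent.MP_ddaf7c_pr.K

end MrgPart6

-- ======== part 7: formerly Pool.Agent.MP_ddaf7c_pr.K.Upp
section MrgPart7

/-! Rows UPP and UST: rooted trees inject into parent maps, and the uniform spanning tree of the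
complete graph is splittable with probability at least `1 / √n`. -/

set_option autoImplicit false

namespace Pool.Agent.MP_ddaf7c_pr.K

open Finset Real

namespace Upp

theorem exists_par {N : ℕ} {T : SimpleGraph (Fin N)} (hT : T.IsTree) (r : Fin N) :
    ∃ f ∈ Par (univ : Finset (Fin N)) 1, (∀ v, f v = v ↔ v = r) ∧
      SimpleGraph.fromRel (fun v w => f v = w) = T := by
  classical
  have : ∀ v, ∃ w, (v = r → w = v) ∧ (v ≠ r → T.Adj v w ∧ T.dist w r < T.dist v r) := fun v => by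
    obtain ⟨p, hp⟩ := hT.connected.exists_walk_length_eq_dist v r
    cases p with
    | nil => exact ⟨r, fun _ => rfl, fun h => absurd rfl h⟩
    | cons h q =>
      by_cases e : v = r
      · exact ⟨v, fun _ => rfl, fun h => absurd e h⟩
      · refine ⟨_, fun k => absurd k e, fun _ => ⟨h, ?_⟩⟩
        have := SimpleGraph.dist_le q
        rw [SimpleGraph.Walk.length_cons] at hp
        omega
  choose f h1 h2 using this
  have h3 : ∀ v, f v = v ↔ v = r := fun v =>
    ⟨fun e => by_contra fun k => (h2 v k).1.ne e.symm, h1 v⟩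
  have h4 : ∀ d v, T.dist v r = d → (∃ j, f^[j] v = r) ∧
      (SimpleGraph.fromRel fun v w => f v = w).Reachable v r := fun d => by
    induction d using Nat.strong_induction_on with
    | _ d ih =>
      intro v hv
      by_cases e : v = r
      · exact ⟨⟨0, e⟩, e ▸ .refl _⟩
      · obtain ⟨⟨j, hj⟩, k⟩ := ih _ (hv ▸ (h2 v e).2) (f v) rfl
        refine ⟨⟨j + 1, hj⟩, .trans (SimpleGraph.Adj.reachable ?_) k⟩
        exact (SimpleGraph.fromRel_adj _ _ _).2 ⟨(h2 v e).1.ne, .inl rfl⟩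
  refine ⟨f, mem_filter.2 ⟨mem_univ _, by simp, by simp, fun v => ?_, ?_⟩, h3, ?_⟩
  · obtain ⟨j, hj⟩ := (h4 _ v rfl).1
    exact ⟨j, (h3 _).2 hj⟩
  · exact card_eq_one.2 ⟨r, by ext v; simp [h3]⟩
  · have h5 : (SimpleGraph.fromRel fun v w => f v = w) ≤ T := by
      intro a b hab
      obtain ⟨hne, e | e⟩ := (SimpleGraph.fromRel_adj _ _ _).1 hab
      · exact e ▸ (h2 a fun k => hne ((h1 a k).symm.trans e)).1
      · exact e ▸ ((h2 b fun k => hne (e.symm.trans (h1 b k))).1).symm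
    have : Nonempty (Fin N) := ⟨r⟩
    exact le_antisymm h5 ((SimpleGraph.isTree_iff_minimal_connected.1 hT).2
      ⟨fun a b => (h4 _ a rfl).2.trans (h4 _ b rfl).2.symm⟩ h5)

theorem central (n : ℕ) (hn : 1 ≤ n) : 16 ^ n ≤ 4 * n * n.centralBinom ^ 2 := by
  induction n, hn using Nat.le_induction with
  | base => decide
  | succ n hn ih =>
    refine Nat.le_of_mul_le_mul_left ?_ (Nat.succ_pos n)
    have e := Nat.succ_mul_centralBinom_succ n
    calc (n + 1) * 16 ^ (n + 1) ≤ (n + 1) * (16 * (4 * n * n.centralBinom ^ 2)) := by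
          rw [pow_succ']; gcongr
      _ ≤ 4 * (2 * (2 * n + 1) * n.centralBinom) ^ 2 := by nlinarith [sq_nonneg n.centralBinom]
      _ = (n + 1) * (4 * (n + 1) * (n + 1).centralBinom ^ 2) := by rw [← e]; ring

theorem half (n : ℕ) (r : Fin (2 * n)) : n.centralBinom ≤
    2 * ((univ : Finset (Fin (2 * n))).powerset.filter fun A => r ∈ A ∧ A.card = n).card := by
  set X := (univ : Finset (Fin (2 * n))).powerset.filter fun A => r ∈ A ∧ A.card = n
  have h : powersetCard n (univ : Finset (Fin (2 * n))) ⊆ X ∪ X.image compl := fun A hA => by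
    have h1 := (mem_powersetCard.1 hA).2
    by_cases e : r ∈ A
    · exact mem_union_left _ (by simp [X, e, h1])
    · refine mem_union_right _ (mem_image.2 ⟨Aᶜ, ?_, compl_compl A⟩)
      simp only [X, mem_filter, mem_powerset, subset_univ, mem_compl, e, card_compl,
        Fintype.card_fin, h1, not_false_eq_true, true_and]
      omega
  have h2 := (card_le_card h).trans (card_union_le _ _)
  rw [card_powersetCard, card_univ, Fintype.card_fin] at h2
  have := card_image_le (s := X) (f := compl)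
  rw [Nat.centralBinom_eq_two_mul_choose]
  omega

end Upp

open Upp

theorem upp : UPP := by
  classical
  intro N
  have hf : {T : SimpleGraph (Fin N) | IsSpanningTree ⊤ T}.Finite := Set.toFinite _
  have : ∀ z : Fin N × SimpleGraph (Fin N), ∃ f, z.2.IsTree →
      f ∈ Par (univ : Finset (Fin N)) 1 ∧ (∀ v, f v = v ↔ v = z.1) ∧
      SimpleGraph.fromRel (fun v w => f v = w) = z.2 := fun z => by
    by_cases h : z.2.IsTree
    · obtain ⟨f, hf⟩ := exists_par h z.1
      exact ⟨f, fun _ => hf⟩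
    · exact ⟨id, fun k => absurd k h⟩
  choose F hF using this
  have h1 : ∀ z ∈ (univ : Finset (Fin N)) ×ˢ hf.toFinset, z.2.IsTree := fun z hz =>
    (hf.mem_toFinset.1 (mem_product.1 hz).2).2
  have := card_le_card_of_injOn (s := (univ : Finset (Fin N)) ×ˢ hf.toFinset) F
    (fun z hz => (hF z (h1 z hz)).1) fun z hz z' hz' e => by
      obtain ⟨-, a1, a2⟩ := hF z (h1 z hz)
      obtain ⟨-, b1, b2⟩ := hF z' (h1 z' hz')
      exact Prod.ext ((b1 _).1 (e ▸ (a1 _).2 rfl)) (by rw [← a2, ← b2, e])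
  rwa [card_product, card_univ, Fintype.card_fin, ← Set.ncard_eq_toFinset_card _ hf] at this

theorem ust (h1 : PIT) (h2 : UPP) (h3 : LOW) : UST := by
  intro n hn
  obtain ⟨m, rfl⟩ : ∃ m, n = m + 1 := ⟨n - 1, by omega⟩
  let r : Fin (2 * (m + 1)) := ⟨0, by omega⟩
  have a1 := h3 (m + 1) r
  have a2 := h2 (2 * (m + 1))
  have a3 := half (m + 1) r
  have a4 := central (m + 1) hn
  rw [h1 _ _ ⟨r, mem_univ _⟩, card_univ, Fintype.card_fin,
    show 2 * (m + 1) - 1 = 2 * m + 1 by omega, pow_succ'] at a2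
  have a5 := Nat.le_of_mul_le_mul_left a2 (by omega)
  rw [sum_congr rfl (g := fun _ => (m + 1) ^ m * (m + 1) ^ m) (fun A hA => by
    obtain ⟨-, -, hc⟩ := mem_filter.1 hA
    have hc' : Aᶜ.card = m + 1 := by rw [card_compl, Fintype.card_fin, hc]; omega
    rw [h1 _ _ (card_pos.1 (by omega)), h1 _ _ (card_pos.1 (by omega)), hc, hc']
    rfl), sum_const, smul_eq_mul] at a1
  have a6 := Set.ncard_le_ncard
    (s := {T : SimpleGraph (Fin (2 * (m + 1))) | IsSpanningTree ⊤ T ∧ Splittable T})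
    (t := {T | IsSpanningTree ⊤ T}) (fun T hT => hT.1) (Set.toFinite _)
  unfold pUST
  generalize {T : SimpleGraph (Fin (2 * (m + 1))) | IsSpanningTree ⊤ T ∧ Splittable T}.ncard = s
    at a1 a6 ⊢
  generalize {T : SimpleGraph (Fin (2 * (m + 1))) | IsSpanningTree ⊤ T}.ncard = t at a5 a6 ⊢
  generalize ((univ : Finset (Fin (2 * (m + 1)))).powerset.filter
    fun A => r ∈ A ∧ A.card = m + 1).card = c at a1 a3
  have hc := Nat.centralBinom_pos (m + 1)
  have hP : 0 < (m + 1) ^ m * (m + 1) ^ m := by positivity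
  have hs : 0 < s := lt_of_lt_of_le (Nat.mul_pos (by omega) hP) a1
  have b1 : t ≤ 4 ^ m * ((m + 1) ^ m * (m + 1) ^ m) := a5.trans_eq (by
    rw [mul_pow, pow_mul, two_mul m, pow_add]; norm_num)
  have b2 : (4 ^ m) ^ 2 ≤ (m + 1) * c ^ 2 := by
    have b3 := Nat.pow_le_pow_left a3 2
    have b4 : 16 ^ (m + 1) = 16 * (4 ^ m) ^ 2 := by
      rw [← pow_mul, mul_comm m, pow_mul, pow_succ']; norm_num
    nlinarith
  have b5 : t ^ 2 ≤ (m + 1) * s ^ 2 :=
    calc t ^ 2 ≤ (4 ^ m) ^ 2 * ((m + 1) ^ m * (m + 1) ^ m) ^ 2 := by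
          rw [← mul_pow]; exact Nat.pow_le_pow_left b1 2
      _ ≤ (m + 1) * c ^ 2 * ((m + 1) ^ m * (m + 1) ^ m) ^ 2 := Nat.mul_le_mul_right _ b2
      _ = (m + 1) * (c * ((m + 1) ^ m * (m + 1) ^ m)) ^ 2 := by ring
      _ ≤ _ := Nat.mul_le_mul_left _ (Nat.pow_le_pow_left a1 2)
  have ht : (0 : ℝ) < t := by exact_mod_cast lt_of_lt_of_le hs a6
  have hm : (0 : ℝ) < ((m + 1 : ℕ) : ℝ) := by positivity
  rw [div_le_div_iff₀ (sqrt_pos.2 hm) ht, one_mul]
  refine (pow_le_pow_iff_left₀ ht.le (by positivity) two_ne_zero).1 ?_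
  rw [mul_pow, sq_sqrt hm.le, mul_comm]
  exact_mod_cast b5

end Pool.Agent.MP_ddaf7c_pr.K

end MrgPart7

-- ======== part 8: formerly Pool.Agent.MP_ddaf7c_pr.A.Spec
section MrgPart8

/-! Statements for the comparison of the two splitting probabilities on every complete graph. -/

set_option autoImplicit false

namespace Pool.Agent.MP_ddaf7c_pr.A

open Finset Real

/-! ## Abel coefficients -/

noncomputable def tau (c : ℕ) : ℝ := (c : ℝ) ^ (c - 1) / c.factorial

noncomputable def TT (c r : ℕ) : ℝ := tau r * tau (c - r) / tau c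

noncomputable def QQ (c r : ℕ) : ℝ := c * TT c r

noncomputable def PP (c r : ℕ) : ℝ := ((c - r : ℕ) : ℝ) * TT c r

noncomputable def ee (c : ℕ) : ℝ := tau c * exp (-(c : ℝ))

noncomputable def c0 : ℝ := (√(2 * π))⁻¹

def ABEL : Prop := ∀ c : ℕ, 1 ≤ c → ∑ r ∈ Ico 1 c, PP c r = (c : ℝ) - 1

/-- consequences of the stepwise Stirling bounds -/
def STIR : Prop :=
  (0.3989 ≤ c0 ∧ c0 ≤ 0.39895) ∧
  (∀ c : ℕ, 1 ≤ c → c0 * (1 - 1 / (12 * c)) ≤ ee c * (c * √c) ∧ ee c * (c * √c) ≤ c0) ∧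
  (∀ j c : ℕ, 1 ≤ j → j ≤ c → ee j * (j * √j) ≤ ee c * (c * √c) ∧
    ee c * (c * √c) * (1 - ((c : ℝ) - j) / (12 * c * j)) ≤ ee j * (j * √j) ∧
    c * ee c ≤ j * ee j) ∧
  ∀ j : ℕ, 2 ≤ j → ee j ^ 2 ≤ ee (j - 1) * ee (j + 1)

def TONE : Prop := ∀ c r : ℕ, 1 ≤ r → r + 2 ≤ c → 2 * QQ c r ≤ QQ (c + 1) r + QQ (c - 1) r

def TTWO : Prop := ∀ c r : ℕ, 1 ≤ r → 2 * r + 1 ≤ c → QQ (c + 1) (r + 1) ≤ QQ (c - 1) r

/-! ## The one-colour sequence -/

noncomputable def uu (K : ℕ → ℝ) (c r : ℕ) : ℝ := K r * K (c - r) / K c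

noncomputable def Phi (K : ℕ → ℝ) (c : ℕ) : ℝ := ∑ r ∈ Ico 1 c, PP c r * uu K c r

def FONE : Prop := ∀ (K : ℕ → ℝ) (c : ℕ), 2 ≤ c → (∀ i, 0 < K i) →
  (∀ i, 2 ≤ i → i < c → K i ^ 2 ≤ K (i - 1) * K (i + 1)) → K (c - 1) * K (c + 1) ≤ K c ^ 2 →
  2 * Phi K c ≤ Phi K (c + 1) + Phi K (c - 1)

noncomputable def Kf (S : K.Sol) (t : ℝ) (c : ℕ) : ℝ := if c = 0 then 1 else t * S.κ t c / tau c

structure Adm (K : ℕ → ℝ) (t : ℝ) : Prop where
  zero : K 0 = 1
  pos : ∀ c, 0 < K c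
  cvx : ∀ c, 1 ≤ c → K c ^ 2 ≤ K (c - 1) * K (c + 1)
  mono : ∀ c : ℕ, 1 ≤ c → (c : ℝ) - 1 - Phi K c ≤ t * c ^ 2 / 2

/-- two-sided bound, monotonicity in time, and the logarithmic derivative -/
def SAND : Prop := ∀ (S : K.Sol) (t : ℝ), 0 < t → ∀ c : ℕ, 1 ≤ c →
  t ^ c ≤ Kf S t c ∧ Kf S t c ≤ t ^ c * exp (c ^ 2 * t / 2) ∧
  (c : ℝ) - 1 - Phi (Kf S t) c ≤ t * c ^ 2 / 2 ∧
  HasDerivAt (fun τ => Kf S τ c) (Kf S t c * (1 + t * c ^ 2 / 2 + Phi (Kf S t) c) / t) t

def DYN : Prop := ∀ (S : K.Sol) (t : ℝ), 0 < t → Adm (Kf S t) t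

/-! ## The supersolution -/

noncomputable def om (a b : ℕ) : ℝ := 4 * a * b / ((a : ℝ) + b) ^ 2

noncomputable def gam (a b : ℕ) : ℝ := 3 / 25 + 27 / 100 * (1 - om a b)

def sN (M : ℕ) : ℕ :=
  [0, 0, 122, 217, 193, 223, 253, 283, 305, 328, 350, 369, 390, 407, 427, 443, 462, 476, 495, 509,
    526, 539, 555, 568, 583, 596, 610, 623, 636, 649, 661, 674, 686, 698, 710, 722, 733, 745, 756,
    767, 778, 789, 800, 810, 821, 831, 841, 851, 861, 871, 881, 891, 901, 910, 920, 929, 939, 948,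
    957, 966, 975, 984, 992, 998].getD M 1000

noncomputable def hh (M : ℕ) : ℝ := (M : ℝ) * sN M / 10000

noncomputable def tst (M : ℕ) : ℝ := 6 / (5 * (max M 64 : ℕ))

noncomputable def phi (M : ℕ) (t : ℝ) : ℝ := hh M * min t (tst M)

noncomputable def pmx (M : ℕ) : ℝ := hh M * tst M

noncomputable def eta (a b : ℕ) (t : ℝ) : ℝ := 1 + gam a b - om a b * phi (a + b) t

/-- the defect of the supersolution at `(a, b)`; `d` stands for `t` times the rate of `phi` -/
noncomputable def Psi (K : ℕ → ℝ) (t : ℝ) (a b : ℕ) (d : ℝ) : ℝ :=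
  -(om a b * d) + eta a b t * Phi K (a + b) -
    ∑ r ∈ Ico 1 a, PP a r * eta (a - r) b t * uu K (a + b) r -
    ∑ r ∈ Ico 1 b, PP b r * eta a (b - r) t * uu K (a + b) r +
    uu K (a + b) a * (gam a b * t * a * b - (1 + gam a b) +
      ∑ r ∈ Ico 1 a, PP a r * (gam (a - r) b - gam a b) * uu K a r +
      ∑ r ∈ Ico 1 b, PP b r * (gam a (b - r) - gam a b) * uu K b r)

def Rate (M : ℕ) (t d : ℝ) : Prop := d ≤ 0 ∨ (d ≤ phi M t ∧ t ≤ tst M)

def POS : Prop := ∀ (K : ℕ → ℝ) (t d : ℝ) (a b : ℕ), 1 ≤ a → 1 ≤ b → 0 < t → Adm K t →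
  Rate (a + b) t d → 0 ≤ Psi K t a b d

def SUPER : Prop := ∀ (S : K.Sol) (a b : ℕ) (t : ℝ), 1 ≤ a → 1 ≤ b → 0 ≤ t →
  S.B t a b ≤ eta a b t * (tau a * tau b / tau (a + b)) * S.κ t (a + b) -
    gam a b * t * S.κ t a * S.κ t b

/-! ## The time-free certificate -/

noncomputable def L2 (a b : ℕ) : ℝ :=
  27 / 50 * ((a : ℝ) ^ 2 / ((a : ℝ) + b) ^ 2 - 2 * (a : ℝ) ^ 2 / ((a : ℝ) + 2 * b) ^ 2) +
    27 / 100 * (if 5 * a ≤ 2 * (a + b) then 0.0455 * om a b ^ 2 else 0.0557)

def LOSS : Prop := ∀ (K : ℕ → ℝ) (t : ℝ) (a b : ℕ), 1 ≤ a → a ≤ b → 0 < t → Adm K t →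
  ∑ r ∈ Ico 1 a, PP a r * (gam (a - r) b - gam a b) * (1 - uu K a r) +
    ∑ r ∈ Ico 1 b, PP b r * max (gam a (b - r) - gam a b) 0 * (1 - uu K b r) ≤
      L2 a b * t * a * b

noncomputable def etP (φ : ℝ) (M j k : ℕ) : ℝ := 1 + gam j k - φ * (hh (j + k) / hh M) * om j k

noncomputable def mm (φ : ℝ) (a b r : ℕ) : ℝ :=
  (1 + gam a b - om a b * φ - 13 / 5 * om a b * φ / ((a : ℝ) + b - 1)) * (QQ (a + b) r / 2) -
    PP a r * etP φ (a + b) (a - r) b -
    PP b r * (etP φ (a + b) a (b - r) + if r < a then 0 else max (gam a b - gam a (b - r)) 0)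

noncomputable def mS (φ : ℝ) (a b s : ℕ) : ℝ :=
  if 2 * s = a + b then mm φ a b s else mm φ a b s + mm φ a b (a + b - s)

noncomputable def qS (M s : ℕ) : ℝ := if 2 * s = M then QQ M s / 2 else QQ M s

noncomputable def q2 (a b s : ℕ) : ℝ :=
  if a < s then qS (a + b) (s - a) + if (a + b) / 2 < s + a then qS (a + b) s else 0 else 0

/-- response to the hinge at `i` -/
noncomputable def WW (φ μ : ℝ) (a b i : ℕ) : ℝ :=
  ∑ s ∈ Icc 1 ((a + b) / 2), (mS φ a b s - μ * q2 a b s) * (((i - s : ℕ) : ℝ) - ((i - a : ℕ) : ℝ))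

noncomputable def EE (a b : ℕ) : ℝ :=
  ∑ r ∈ Ico 1 a, PP a r * (om a b - hh (a - r + b) / hh (a + b) * om (a - r) b) +
    ∑ r ∈ Ico 1 b, PP b r * (om a b - hh (a + (b - r)) / hh (a + b) * om a (b - r))

def Cert (a b : ℕ) : Prop := ∃ μ E : ℝ, 0 ≤ μ ∧ 0 ≤ E ∧ EE a b ≤ E ∧
  μ * ((a : ℝ) + b) ^ 2 / 2 + hh (a + b) * (18 / 5 * om a b + E) ≤ (gam a b - L2 a b) * a * b ∧
  ∀ i ≤ (a + b) / 2, 0 ≤ WW 0 μ a b i ∧ 0 ≤ WW (pmx (a + b)) μ a b i

/-- convex decreasing sequences are positive sums of hinges -/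
def HINGE : Prop := ∀ (H a : ℕ) (c u : ℕ → ℝ), a ≤ H →
  (∀ i, 1 ≤ i → i < H → 2 * u i ≤ u (i - 1) + u (i + 1)) → u H ≤ u (H - 1) →
  (∀ i ≤ H, 0 ≤ ∑ s ∈ Icc 1 H, c s * (((i - s : ℕ) : ℝ) - ((i - a : ℕ) : ℝ))) →
  0 ≤ ∑ s ∈ Icc 1 H, c s * (u s - u a)

/-- one change of sign against a decreasing weight -/
def SIGN : Prop := ∀ (n : ℕ) (c l : ℕ → ℝ),
  (∀ r r', 1 ≤ r → r ≤ r' → r' ≤ n → c r < 0 → c r' ≤ 0) →
  (∀ r r', 1 ≤ r → r ≤ r' → r' ≤ n → l r' ≤ l r) → (∀ r, 1 ≤ r → r ≤ n → 0 ≤ l r) →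
  0 ≤ ∑ r ∈ Icc 1 n, c r → 0 ≤ ∑ r ∈ Icc 1 n, c r * l r

/-- the part of `Psi` that is linear in `uu K (a + b)` -/
def CORE : Prop := ∀ (K : ℕ → ℝ) (t φ μ : ℝ) (a b : ℕ), 1 ≤ a → a ≤ b → 0 < t → Adm K t →
  0 ≤ μ → (∀ i ≤ (a + b) / 2, 0 ≤ WW φ μ a b i) →
  0 ≤ ∑ r ∈ Ico 1 (a + b), mm φ a b r * (uu K (a + b) r - uu K (a + b) a) +
    μ * (t * ((a : ℝ) + b) ^ 2 / 2) * uu K (a + b) a

def STATIC : Prop := ∀ (K : ℕ → ℝ) (t d : ℝ) (a b : ℕ), 1 ≤ a → a ≤ b → 0 < t → Adm K t →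
  Cert a b → Rate (a + b) t d → 0 ≤ Psi K t a b d

def CERTS : Prop := ∀ a b : ℕ, 1 ≤ a → a ≤ b → a + b < 256 → Cert a b

def CERTL : Prop := ∀ a b : ℕ, 1 ≤ a → a ≤ b → 256 ≤ a + b → Cert a b

/-! ## The certificate on high levels -/

noncomputable def Pv (y : ℝ) : ℝ :=
  1 + y / 2 + 7 / 24 * y ^ 2 + 3 / 16 * y ^ 3 + 2 / 25 * y ^ 4 + 2 / 5 * y ^ 8

def VB : Prop := ∀ a k : ℕ, 1 ≤ a → a < k →
  k * Pv (a / k) * ee k ≤ ((k : ℝ) - a) * ee (k - a) ∧
  (100 ≤ a → k * (11 / 5 + 11 / 2 * ((a : ℝ) / k - 4 / 5)) * ee k ≤ ((k : ℝ) - a) * ee (k - a))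

noncomputable def alx (x : ℝ) : ℝ := 1 - (1 - 3 / 2 * x + 3 / 8 * x ^ 2) * Pv (2 * x)

noncomputable def al (a b : ℕ) : ℝ := if 5 * a ≤ 2 * (a + b) then alx (a / ((a : ℝ) + b)) else 0

def ALPHA : Prop := ∀ a b : ℕ, 1 ≤ a → a ≤ b → 256 ≤ a + b → 0 ≤ al a b ∧
  ∀ s, a < s → 2 * s ≤ a + b →
    QQ (a + b) s - PP b s - PP b (a + b - s) ≤ al a b * QQ (a + b) s

noncomputable def Nn (x e : ℝ) : ℝ :=
  1 + 1.01 * e ^ 2 - √((x + e ^ 2 / 2) / (1 - x)) -
    x * (1 - 2 * x - 2 * e ^ 2) / √((x + e ^ 2) * (1 - x))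

noncomputable def Dd (x e : ℝ) : ℝ := (√((1 - 2 * x) / (1 + 2 * x)) - e) * (1 - e ^ 2 / 12)

noncomputable def rho (a b : ℕ) : ℝ :=
  Nn (a / ((a : ℝ) + b)) (√((a : ℝ) + b))⁻¹ / Dd (a / ((a : ℝ) + b)) (√((a : ℝ) + b))⁻¹

def RHON : Prop := ∀ a M : ℕ, 1 ≤ a → 256 ≤ M → 5 * a ≤ 2 * M →
  ∑ r ∈ Icc 1 (M / 2 - a), r * QQ M (r + a) ≤ 2 * c0 * (M * √M) * Nn (a / M) (√M)⁻¹

def RHOD : Prop := ∀ a M : ℕ, 1 ≤ a → 256 ≤ M → 5 * a ≤ 2 * M → 0 < Dd (a / M) (√M)⁻¹ ∧
  2 * c0 * (M * √M) * Dd (a / M) (√M)⁻¹ ≤ ∑ r ∈ Icc 1 (M / 2 - a), r * QQ M r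

noncomputable def muL (a b : ℕ) : ℝ := (1 + gam a b) * al a b * rho a b

/-- outer hinges -/
def OUT : Prop := ∀ (a b i : ℕ) (φ : ℝ), 1 ≤ a → a ≤ b → 256 ≤ a + b → 0 ≤ φ → φ ≤ 3 / 25 →
  0 ≤ muL a b ∧ (a ≤ i → WW φ (muL a b) a b a ≤ WW φ (muL a b) a b i)

noncomputable def nlow (x s t φ : ℝ) : ℝ :=
  (1 + 3 / 25 + 27 / 100 * (1 - 4 * x * (1 - x)) - 4 * x * (1 - x) * φ) *
      (s ^ 2 * ((1 + t + t ^ 2) / (t ^ 3 * (1 + t))) -
        ((1 - x / (1 - x)) * s ^ 2 / 2 + x / (1 - x) * (s / (1 + s))) - s / (1 + s)) -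
    0.0072 * s ^ 2 -
    27 / 100 * (4 * x * (1 - x)) * ((1 - 2 * x) * (s - s ^ 2) + x * (1 - t ^ 2) * s +
      (1 - x) * (1 - t ^ 2) * ((1 - x / (1 - x)) * s ^ 2 + x / (1 - x) * s)) / t ^ 4 -
    φ * (4 * x * (1 - x)) *
      ((1 - x) * s + x * ((1 - x / (1 - x)) * s ^ 2 + x / (1 - x) * s)) / t ^ 2

def NLOW : Prop := ∀ x s t φ : ℝ, 0 ≤ x → x ≤ 1 / 2 → 0 ≤ s → s ≤ 1 → 0 < t →
  t ^ 2 = 1 - x * (1 - s ^ 2) → φ = 0 ∨ φ = 3 / 25 →
  0.66 - 0.315 * (4 * x * (1 - x)) - (1.17 - 0.35 * (4 * x * (1 - x))) * (1 - s ^ 2) ≤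
    nlow x s t φ

def TERM : Prop := ∀ (a b r : ℕ) (φ : ℝ), 1 ≤ r → r < a → a ≤ b → 256 ≤ a + b → 0 ≤ φ →
  φ ≤ 3 / 25 →
  ee r * (a * r * nlow (a / ((a : ℝ) + b)) √(1 - r / a) √(1 - r / ((a : ℝ) + b)) φ -
    0.314 * om a b * ((a : ℝ) - r)) ≤ ((a : ℝ) - r) * mS φ a b r

noncomputable def cc (a : ℕ) (w : ℝ) (r : ℕ) : ℝ :=
  (0.66 - 0.315 * w) * a * r - (1.17 - 0.35 * w) * (r : ℝ) ^ 2 - 0.314 * w * ((a : ℝ) - r)

def FA : Prop := ∀ (a : ℕ) (w : ℝ), 2 ≤ a → 0 ≤ w → w ≤ 1 →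
  (a ≤ 128 → w ≤ a * (256 - (a : ℝ)) / 16384) →
  0 ≤ cc a w 1 ∧ 0 ≤ ∑ r ∈ Ico 1 a, ee r * cc a w r

/-- inner hinges -/
def INN : Prop := ∀ (a b i : ℕ) (φ μ : ℝ), 1 ≤ a → a ≤ b → 256 ≤ a + b → φ = 0 ∨ φ = 3 / 25 →
  i ≤ a → 0 ≤ WW φ μ a b i

noncomputable def EL (a b : ℕ) : ℝ :=
  om a b * (1.33 * (√a * (1 - a / ((a : ℝ) + b) / 2) + √b * (1 + a / ((a : ℝ) + b)) / 2) +
    6 * max 0 (1 - 4 * (a / ((a : ℝ) + b))) / (1 - a / ((a : ℝ) + b)))

def EB : Prop := ∀ a b : ℕ, 1 ≤ a → a ≤ b → 256 ≤ a + b → EE a b ≤ EL a b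

def PFIN : Prop := ∀ x e : ℝ, 0 < e → e ≤ 1 / 16 → e ^ 2 ≤ x →
  (x ≤ 2 / 5 →
    (1.39 - 27 / 100 * (4 * x * (1 - x))) * alx x * (Nn x e / Dd x e) / (2 * x * (1 - x)) +
      2 / 5 * e ^ 2 * (18 / 5 + 6 * max 0 (1 - 4 * x) / (1 - x)) +
      2 / 5 * e * 1.33 * (√x * (1 - x / 2) + √(1 - x) * (1 + x) / 2) +
      27 / 50 * (x ^ 2 - 2 * x ^ 2 / (2 - x) ^ 2) + 27 / 100 * (0.0455 * (4 * x * (1 - x)) ^ 2) ≤
      0.39 - 27 / 100 * (4 * x * (1 - x))) ∧
  (2 / 5 ≤ x → x ≤ 1 / 2 →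
    2 / 5 * e ^ 2 * (18 / 5) + 2 / 5 * e * 1.33 * (√x * (1 - x / 2) + √(1 - x) * (1 + x) / 2) +
      27 / 50 * (x ^ 2 - 2 * x ^ 2 / (2 - x) ^ 2) + 27 / 100 * 0.0557 ≤
      0.39 - 27 / 100 * (4 * x * (1 - x)))

/-! ## Small sizes and the link with the probabilities -/

/-- comparison with a polynomial in `exp t - 1` -/
def CMP : Prop := ∀ (C : ℕ) (f f' : ℝ → ℝ) (s g : ℕ → ℝ), (∀ t, HasDerivAt f (f' t) t) →
  f 0 ≤ g 0 → (∀ k, 0 ≤ s k) → 0 ≤ g 0 →
  (∀ t, 0 ≤ t → f' t * exp (C * t) ≤ ∑ k ∈ range C, s k * (exp t - 1) ^ k) →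
  (∀ k < C, ((C : ℝ) - k) * g k + s k ≤ (k + 1) * g (k + 1)) →
  (∀ t, 0 ≤ t → f t * exp (C * t) ≤ ∑ k ∈ range (C + 1), g k * (exp t - 1) ^ k) ∧
    ∀ k ≤ C, g k ≤ g C * C.choose k

def SMALL : Prop := ∀ (S : K.Sol) (n : ℕ) (t : ℝ), 1 ≤ n → n < 32 → 0 ≤ t →
  K.p2 S n n t ≤ 4 / 4 ^ n

def BIGN : Prop := ∀ (S : K.Sol) (n : ℕ) (t : ℝ), 32 ≤ n → 1 ≤ t → K.p2 S n n t ≤ 4 / 4 ^ n

def LINK2 : Prop := ∀ (S : K.Sol) (n : ℕ) (t : ℝ), 1 ≤ n → 0 ≤ t →
  pMST (⊤ : SimpleGraph (Fin (2 * n))) ≤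
    ((2 * n - 1).choose (n - 1) : ℝ) * K.p2 S n n t + (2 * n : ℝ) ^ 2 * exp (-t)

def UST2 : Prop := ∀ n : ℕ, 1 ≤ n →
  ((2 * n - 1).choose (n - 1) : ℝ) * (4 / 4 ^ n) ≤ pUST (⊤ : SimpleGraph (Fin (2 * n)))

end Pool.Agent.MP_ddaf7c_pr.A

end MrgPart8

-- ======== part 9: formerly Pool.Agent.MP_ddaf7c_pr.A.Hinge
section MrgPart9

/-! Convex decreasing sequences as sums of hinges, and sums with one change of sign. -/

set_option autoImplicit false

namespace Pool.Agent.MP_ddaf7c_pr.A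

open Finset

namespace Hinge

theorem rep (H : ℕ) : ∀ u : ℕ → ℝ, (∀ i, 1 ≤ i → i < H → 2 * u i ≤ u (i - 1) + u (i + 1)) →
    u H ≤ u (H - 1) → ∃ d : ℕ → ℝ, (∀ i, 0 ≤ d i) ∧
      ∀ s ≤ H, u s = u H + ∑ i ∈ Icc 1 H, d i * ((i - s : ℕ) : ℝ) := by
  induction H with
  | zero =>
    intro u _ _
    refine ⟨fun _ => 0, fun _ => le_rfl, fun s hs => ?_⟩
    obtain rfl : s = 0 := by omega
    simp
  | succ H ih =>
    intro u hc hl
    have hl' : u (H + 1) ≤ u H := by simpa using hl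
    have cs : ∀ s ≤ H + 1, ((H + 1 - s : ℕ) : ℝ) = (H : ℝ) + 1 - s := fun s hs => by
      rw [Nat.cast_sub hs]; push_cast; ring
    obtain ⟨d, hd, hr⟩ := ih (fun s => u s - (u H - u (H + 1)) * ((H + 1 - s : ℕ) : ℝ))
      (fun i h1 h2 => by
        have h3 := hc i h1 (by omega)
        rw [cs i (by omega), cs (i - 1) (by omega), cs (i + 1) (by omega), Nat.cast_sub h1]
        push_cast
        linarith)
      (by
        rcases Nat.eq_zero_or_pos H with h0 | h0
        · subst h0; simp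
        · have h3 := hc H h0 (by omega)
          rw [cs H (by omega), cs (H - 1) (by omega), Nat.cast_sub h0]
          push_cast
          linarith)
    refine ⟨fun i => if i = H + 1 then u H - u (H + 1) else d i, fun i => ?_, fun s hs => ?_⟩
    · by_cases h : i = H + 1
      · simp only [h, if_true]; linarith
      · simp only [h, if_false]; exact hd i
    · rw [sum_Icc_succ_top (by omega)]
      have e : ∑ i ∈ Icc 1 H, (if i = H + 1 then u H - u (H + 1) else d i) * ((i - s : ℕ) : ℝ) =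
          ∑ i ∈ Icc 1 H, d i * ((i - s : ℕ) : ℝ) :=
        sum_congr rfl fun i hi => by
          have := (mem_Icc.1 hi).2
          rw [if_neg (by omega)]
      beta_reduce
      rw [e, if_pos rfl]
      rcases Nat.lt_or_ge H s with h | h
      · obtain rfl : s = H + 1 := by omega
        rw [sum_eq_zero fun i hi => by
          have := (mem_Icc.1 hi).2
          rw [Nat.sub_eq_zero_of_le (by omega)]; simp]
        simp
      · have h1 := hr s h
        rw [cs H (by omega)] at h1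
        linarith

end Hinge

theorem hinge : HINGE := by
  intro H a c u ha hc hl hw
  obtain ⟨d, hd, hr⟩ := Hinge.rep H u hc hl
  have e : ∑ s ∈ Icc 1 H, c s * (u s - u a) = ∑ i ∈ Icc 1 H, d i *
      ∑ s ∈ Icc 1 H, c s * (((i - s : ℕ) : ℝ) - ((i - a : ℕ) : ℝ)) := by
    simp only [mul_sum]
    rw [sum_comm]
    refine sum_congr rfl fun s hs => ?_
    rw [hr s (mem_Icc.1 hs).2, hr a ha, add_sub_add_left_eq_sub, ← sum_sub_distrib, mul_sum]
    exact sum_congr rfl fun i _ => by ring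
  rw [e]
  exact sum_nonneg fun i hi => mul_nonneg (hd i) (hw i (mem_Icc.1 hi).2)

theorem sign : SIGN := by
  intro n c l hc hl h0 hs
  by_cases h : ∃ r, 1 ≤ r ∧ r ≤ n ∧ c r < 0
  · classical
    obtain ⟨h1, h2, h3⟩ := Nat.find_spec h
    have key : ∑ r ∈ Icc 1 n, c r * l (Nat.find h) ≤ ∑ r ∈ Icc 1 n, c r * l r := by
      refine sum_le_sum fun r hr => ?_
      obtain ⟨r1, r2⟩ := mem_Icc.1 hr
      rcases Nat.lt_or_ge r (Nat.find h) with hlt | hge
      · have h4 : 0 ≤ c r := not_lt.1 fun h5 => Nat.find_min h hlt ⟨r1, r2, h5⟩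
        exact mul_le_mul_of_nonneg_left (hl r _ r1 hlt.le h2) h4
      · exact mul_le_mul_of_nonpos_left (hl _ r h1 hge r2) (hc _ r h1 hge r2 h3)
    rw [← sum_mul] at key
    exact (mul_nonneg hs (h0 _ h1 h2)).trans key
  · refine sum_nonneg fun r hr => ?_
    obtain ⟨r1, r2⟩ := mem_Icc.1 hr
    exact mul_nonneg (not_lt.1 fun h5 => h ⟨r, r1, r2, h5⟩) (h0 r r1 r2)

end Pool.Agent.MP_ddaf7c_pr.A

end MrgPart9

-- marker of a merged file
example : 731051 + 688462 = 731051 + 688462 := rfl
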