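import Mathlib.Algebra.Group.ForwardDiff
import Mathlib.Data.List.GetD
import Mathlib.Analysis.Real.Pi.Bounds
import Mathlib.Analysis.SpecialFunctions.Stirling
import Mathlib.Tactic.Cases
import Pool.Agent.MP_ddaf7c_pr.A.Hinge
import Pool.Agent.MP_ddaf7c_pr.K.All

-- ======== part 0: formerly Pool.Agent.MP_ddaf7c_pr.A.Abel
section MrgPart0

/-! The Abel identity. -/

set_option autoImplicit false

namespace Pool.Agent.MP_ddaf7c_pr.A

open Finset Real

namespace Abel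

noncomputable def F (n : ℕ) (y : ℝ) : ℝ :=
  ∑ r ∈ range n, (n.choose (r + 1) : ℝ) * ((r : ℝ) + 1) ^ r * (y + n - (r + 1)) ^ (n - (r + 1))

theorem der (n : ℕ) (y : ℝ) : HasDerivAt (F (n + 1)) ((n + 1) * F n (y + 1)) y := by
  have h : ∀ r ∈ range (n + 1), HasDerivAt (fun y : ℝ => ((n + 1).choose (r + 1) : ℝ) *
      ((r : ℝ) + 1) ^ r * (y + (n + 1 : ℕ) - (r + 1)) ^ (n + 1 - (r + 1)))
      (((n + 1).choose (r + 1) : ℝ) * ((r : ℝ) + 1) ^ r * (((n + 1 - (r + 1) : ℕ) : ℝ) *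
        (y + (n + 1 : ℕ) - (r + 1)) ^ (n + 1 - (r + 1) - 1) * 1)) y := fun r _ =>
    ((((hasDerivAt_id y).add_const _).sub_const _).pow _).const_mul _
  have h2 := HasDerivAt.fun_sum h
  refine HasDerivAt.congr_deriv h2 ?_
  rw [sum_range_succ, F, mul_sum]
  have e0 : n + 1 - (n + 1) = 0 := by omega
  rw [e0, Nat.cast_zero, zero_mul, zero_mul, mul_zero, add_zero]
  refine sum_congr rfl fun r hr => ?_
  have hr' := mem_range.1 hr
  have e1 : n + 1 - (r + 1) - 1 = n - (r + 1) := by omega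
  have e2 : ((n + 1).choose (r + 1) : ℝ) * ((n + 1 - (r + 1) : ℕ) : ℝ) =
      (n + 1) * (n.choose (r + 1) : ℝ) := by
    have := Nat.choose_mul_succ_eq n (r + 1)
    exact_mod_cast (this.symm.trans (mul_comm _ _))
  rw [e1]
  have e3 : y + ((n + 1 : ℕ) : ℝ) - (r + 1) = y + 1 + n - (r + 1) := by push_cast; ring
  rw [e3]
  linear_combination (((r : ℝ) + 1) ^ r * (y + 1 + n - (r + 1)) ^ (n - (r + 1))) * e2

theorem val (n : ℕ) : F (n + 2) (-((n + 2 : ℕ) : ℝ)) = 0 := by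
  have h := congrFun (fwdDiff_iter_pow_eq_zero_of_lt (R := ℝ) (j := n + 1) (n := n + 2)
    (by omega)) 0
  rw [fwdDiff_iter_eq_sum_shift, sum_range_succ'] at h
  simp only [zero_add, nsmul_eq_mul, mul_one, zsmul_eq_mul, Pi.zero_apply, Nat.cast_zero,
    ne_eq, Nat.add_eq_zero_iff, one_ne_zero, and_false, not_false_eq_true, zero_pow, mul_zero,
    add_zero] at h
  rw [← h, F]
  refine sum_congr rfl fun r hr => ?_
  have hr' := mem_range.1 hr
  obtain ⟨m, hm⟩ : ∃ m, n + 1 = r + m := ⟨n + 1 - r, by omega⟩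
  have e1 : n + 2 - (r + 1) = m := by omega
  have e3 : -((n + 2 : ℕ) : ℝ) + ((n + 2 : ℕ) : ℝ) - (r + 1) = -1 * ((r : ℝ) + 1) := by ring
  rw [e1, e3, mul_pow, hm, pow_add]
  push_cast
  ring

theorem main (n : ℕ) (y : ℝ) : F (n + 1) y = (n + 1) * (y + (n + 1)) ^ n := by
  induction n generalizing y with
  | zero => simp [F]
  | succ n ih =>
    have hd : ∀ z : ℝ, HasDerivAt (fun z : ℝ => F (n + 2) z - (n + 2) * (z + (n + 2)) ^ (n + 1))
        0 z := fun z => by
      have h1 := der (n + 1) z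
      have h2 := (((hasDerivAt_id z).add_const ((n : ℝ) + 2)).pow (n + 1)).const_mul ((n : ℝ) + 2)
      refine HasDerivAt.congr_deriv (h1.sub h2) ?_
      rw [ih]
      simp only [id, Nat.add_sub_cancel]
      have e : z + 1 + ((n : ℝ) + 1) = z + (n + 2) := by ring
      rw [e]
      push_cast
      ring
    have hc := is_const_of_deriv_eq_zero (fun z => (hd z).differentiableAt)
      (fun z => (hd z).deriv) y (-((n + 2 : ℕ) : ℝ))
    rw [val] at hc
    have e : -((n + 2 : ℕ) : ℝ) + ((n : ℝ) + 2) = 0 := by push_cast; ring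
    rw [e, zero_pow (by omega), mul_zero, sub_zero] at hc
    have e' : ((n + 1 : ℕ) : ℝ) + 1 = n + 2 := by push_cast; ring
    rw [e']
    linarith

end Abel

theorem abel : ABEL := by
  intro c hc
  obtain ⟨n, rfl⟩ : ∃ n, c = n + 1 := ⟨c - 1, by omega⟩
  have h := Abel.main n 0
  rw [Abel.F, sum_range_succ] at h
  simp only [Nat.choose_self, Nat.cast_one, one_mul, Nat.sub_self, pow_zero, mul_one,
    zero_add] at h
  have hp : (0 : ℝ) < ((n : ℝ) + 1) ^ n := by positivity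
  have key : ∑ r ∈ Ico 1 (n + 1), PP (n + 1) r = (∑ r ∈ range n, ((n + 1).choose (r + 1) : ℝ) *
      ((r : ℝ) + 1) ^ r * (((n + 1 : ℕ) : ℝ) - (r + 1)) ^ (n + 1 - (r + 1))) /
        ((n : ℝ) + 1) ^ n := by
    rw [sum_Ico_eq_sum_range, Nat.add_sub_cancel, sum_div]
    refine sum_congr rfl fun r hr => ?_
    have hr' := mem_range.1 hr
    obtain ⟨m, rfl⟩ : ∃ m, n = r + m + 1 := ⟨n - r - 1, by omega⟩
    have e1 : r + m + 1 + 1 - (1 + r) = m + 1 := by omega
    have e2 : r + m + 1 + 1 - (r + 1) = m + 1 := by omega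
    have e3 : 1 + r - 1 = r := by omega
    have e4 : ((r + m + 1 + 1 : ℕ) : ℝ) - (r + 1) = m + 1 := by push_cast; ring
    have e5 : ((r + m + 1 + 1).choose (r + 1) : ℝ) * (r + 1).factorial * (m + 1).factorial =
        (r + m + 1 + 1).factorial := by
      have := Nat.choose_mul_factorial_mul_factorial (n := r + m + 1 + 1) (k := r + 1) (by omega)
      rw [e2] at this
      exact_mod_cast this
    have f1 : ((r + 1).factorial : ℝ) ≠ 0 := by positivity
    have f2 : ((m + 1).factorial : ℝ) ≠ 0 := by positivity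
    have f3 : ((r + m + 1 + 1).choose (r + 1) : ℝ) ≠ 0 := by
      exact_mod_cast (Nat.choose_pos (by omega)).ne'
    simp only [PP, TT, tau, e1, e2, e3, e4, Nat.add_sub_cancel]
    rw [← e5, add_comm 1 r]
    push_cast
    field_simp
    ring
  rw [key, div_eq_iff hp.ne']
  push_cast at h ⊢
  linarith

end Pool.Agent.MP_ddaf7c_pr.A

end MrgPart0

-- ======== part 1: formerly Pool.Agent.MP_ddaf7c_pr.A.Alpha
section MrgPart1

/-! The loss on the outer levels is at most the fraction `al`. -/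

set_option autoImplicit false

namespace Pool.Agent.MP_ddaf7c_pr.A

open Finset Real

namespace Alpha

theorem ee_pos {c : ℕ} (hc : 1 ≤ c) : 0 < ee c := by
  have : (0 : ℝ) < c := by exact_mod_cast hc
  unfold ee tau
  positivity

theorem TT_eq {c r : ℕ} (h : r ≤ c) : TT c r = ee r * ee (c - r) / ee c := by
  have e : exp (-(c : ℝ)) = exp (-(r : ℝ)) * exp (-((c - r : ℕ) : ℝ)) := by
    rw [← exp_add, Nat.cast_sub h]
    congr 1
    ring
  unfold TT ee
  rw [e, mul_mul_mul_comm, mul_div_mul_right _ _ (by positivity)]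

theorem fin {M A B c eM eb es et u v : ℝ} (h0 : 0 < eM) (h1 : 0 < eb) (h2 : 0 < es) (h3 : 0 < et)
    (hu : A * es ≤ u) (hv : B * et ≤ v) (h : c * M * eb ≤ eM * (A + B)) :
    c * (M * (es * et / eM)) ≤ es * v / eb + et * u / eb := by
  have a1 : c * M / eM ≤ (A + B) / eb := by
    rw [div_le_div_iff₀ h0 h1]
    linarith
  have a2 := mul_le_mul_of_nonneg_left a1 (mul_pos h2 h3).le
  have a3 : es * et * (A + B) ≤ es * v + et * u := by
    nlinarith [mul_le_mul_of_nonneg_left hu h3.le, mul_le_mul_of_nonneg_left hv h2.le]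
  calc c * (M * (es * et / eM)) = es * et * (c * M / eM) := by ring
    _ ≤ es * et * ((A + B) / eb) := a2
    _ = es * et * (A + B) / eb := by ring
    _ ≤ (es * v + et * u) / eb := div_le_div_of_nonneg_right a3 h1.le
    _ = _ := by ring

theorem ratio (h : STIR) {a b : ℕ} (hb : 1 ≤ b) :
    (1 - 3 / 2 * (a / ((a : ℝ) + b)) + 3 / 8 * (a / ((a : ℝ) + b)) ^ 2) * ee b ≤ ee (a + b) := by
  have h1 := (h.2.2.1 b (a + b) hb (by omega)).1
  have hb0 : (0 : ℝ) < b := by exact_mod_cast hb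
  have hM : (0 : ℝ) < (a : ℝ) + b := by positivity
  push_cast at h1
  set p := √(b : ℝ)
  set q := √((a : ℝ) + b)
  have hp : 0 < p := sqrt_pos.2 hb0
  have hq : 0 < q := sqrt_pos.2 hM
  have hp2 : p ^ 2 = b := sq_sqrt hb0.le
  have hq2 : q ^ 2 = a + b := sq_sqrt hM.le
  have ht : 0 < p / q := div_pos hp hq
  have ht1 : p / q ≤ 1 := by
    rw [div_le_one hq]
    exact sqrt_le_sqrt (by linarith [Nat.cast_nonneg (α := ℝ) a])
  have hx : a / ((a : ℝ) + b) = 1 - (p / q) ^ 2 := by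
    rw [div_pow, hp2, hq2]
    field_simp
    ring
  have h2 : (p / q) ^ 3 * ee b ≤ ee (a + b) := by
    rw [div_pow, div_mul_eq_mul_div, div_le_iff₀ (by positivity)]
    rw [← hq2, ← hp2] at h1
    nlinarith
  refine le_trans (mul_le_mul_of_nonneg_right ?_ (ee_pos hb).le) h2
  rw [hx]
  generalize p / q = t at ht ht1
  have : 0 ≤ (1 - t) ^ 3 * (1 + 3 * t) := by
    have : 0 ≤ 1 - t := by linarith
    positivity
  nlinarith

theorem jensen {a s t : ℝ} (ha : 0 ≤ a) (hs : 0 < s) (ht : 0 < t) :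
    (s + t) * Pv (2 * (a / (s + t))) ≤ s * Pv (a / s) + t * Pv (a / t) := by
  have hM : 0 < s + t := by positivity
  have key : ∀ j : ℕ, (s + t) * (2 * (a / (s + t))) ^ j ≤ s * (a / s) ^ j + t * (a / t) ^ j := by
    intro j
    have h := (convexOn_pow (𝕜 := ℝ) j).2 (show 0 ≤ a / s by positivity)
      (show 0 ≤ a / t by positivity) (show 0 ≤ s / (s + t) by positivity)
      (show 0 ≤ t / (s + t) by positivity) (by field_simp)
    simp only [smul_eq_mul] at h
    have e1 : s / (s + t) * (a / s) + t / (s + t) * (a / t) = 2 * (a / (s + t)) := by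
      field_simp
      ring
    have e2 : s / (s + t) * (a / s) ^ j + t / (s + t) * (a / t) ^ j =
        (s * (a / s) ^ j + t * (a / t) ^ j) / (s + t) := by ring
    rw [e1, e2, le_div_iff₀ hM] at h
    linarith
  have k1 := key 1
  have k2 := key 2
  have k3 := key 3
  have k4 := key 4
  have k8 := key 8
  unfold Pv
  linarith

theorem alx_nonneg {x : ℝ} (h0 : 0 ≤ x) (h1 : x ≤ 2 / 5) : 0 ≤ alx x := by
  have a1 : x ^ 2 ≤ (2 / 5) ^ 2 := pow_le_pow_left₀ h0 h1 2
  have a2 : x ^ 6 ≤ (2 / 5) ^ 6 := pow_le_pow_left₀ h0 h1 6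
  have h2 : 0 ≤ x ^ 2 := by positivity
  have b1 : Pv (2 * x) ≤ 1 + x + 12 / 5 * x ^ 2 := by
    unfold Pv
    nlinarith [mul_le_mul_of_nonneg_left a1 h2, mul_le_mul_of_nonneg_left a2 h2,
      mul_le_mul_of_nonneg_left h1 h2]
  have b2 : 0 ≤ 1 - 3 / 2 * x + 3 / 8 * x ^ 2 := by nlinarith
  have b3 := mul_le_mul_of_nonneg_left b1 b2
  have b4 : 0 ≤ 1 / 2 - 51 / 40 * x + 129 / 40 * x ^ 2 - 9 / 10 * x ^ 3 := by
    nlinarith [mul_le_mul_of_nonneg_left h1 h2, sq_nonneg (x - 1 / 5)]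
  unfold alx
  nlinarith [mul_nonneg h0 b4]

end Alpha

open Alpha in
theorem alpha (h : VB) (h1 : STIR) : ALPHA := by
  intro a b ha hab hM
  have ha0 : (0 : ℝ) < a := by exact_mod_cast ha
  have hb0 : (0 : ℝ) < b := by exact_mod_cast (show 0 < b by omega)
  have hM0 : (0 : ℝ) < (a : ℝ) + b := by positivity
  have hx0 : 0 ≤ a / ((a : ℝ) + b) := by positivity
  have hlo : 5 * a ≤ 2 * (a + b) → a / ((a : ℝ) + b) ≤ 2 / 5 := fun hc => by
    have : (5 : ℝ) * a ≤ 2 * (a + b) := by exact_mod_cast hc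
    rw [div_le_iff₀ hM0]
    linarith
  refine ⟨?_, fun s hs h2 => ?_⟩
  · unfold al
    split_ifs with hc
    · exact alx_nonneg hx0 (hlo hc)
    · exact le_rfl
  obtain ⟨t, ht⟩ : ∃ t, a + b = s + t := ⟨a + b - s, by omega⟩
  have htR : (a : ℝ) + b = s + t := by exact_mod_cast ht
  have hs0 : (0 : ℝ) < s := by exact_mod_cast (show 0 < s by omega)
  have ht0 : (0 : ℝ) < t := by exact_mod_cast (show 0 < t by omega)
  have e0 : a + b - s = t := by omega
  have e1 : b - s = t - a := by omega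
  have e2 : b - t = s - a := by omega
  have hr := ratio h1 (a := a) (show 1 ≤ b by omega)
  have vs := h a s ha hs
  have vt := h a t ha (by omega)
  have pM : 0 < ee (a + b) := ee_pos (by omega)
  have pb : 0 < ee b := ee_pos (by omega)
  have key : ∀ c A B : ℝ, A * ee s ≤ ((s : ℝ) - a) * ee (s - a) →
      B * ee t ≤ ((t : ℝ) - a) * ee (t - a) → c * ((a : ℝ) + b) * ee b ≤ ee (a + b) * (A + B) →
      QQ (a + b) s - PP b s - PP b (a + b - s) ≤ (1 - c) * QQ (a + b) s := by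
    intro c A B hA hB hc
    have := fin pM pb (ee_pos (show 1 ≤ s by omega)) (ee_pos (show 1 ≤ t by omega)) hA hB hc
    unfold QQ PP
    rw [e0, TT_eq (show s ≤ a + b by omega), TT_eq (show s ≤ b by omega),
      TT_eq (show t ≤ b by omega), e0, e1, e2, Nat.cast_sub (show a ≤ t by omega),
      Nat.cast_sub hs.le, Nat.cast_add]
    have q1 : ((t : ℝ) - a) * (ee s * ee (t - a) / ee b) =
        ee s * (((t : ℝ) - a) * ee (t - a)) / ee b := by ring
    have q2 : ((s : ℝ) - a) * (ee t * ee (s - a) / ee b) =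
        ee t * (((s : ℝ) - a) * ee (s - a)) / ee b := by ring
    rw [q1, q2]
    linarith
  unfold al
  split_ifs with hc
  · refine key _ _ _ vs.1 vt.1 ?_
    have j := jensen ha0.le hs0 ht0
    rw [← htR] at j
    have p0 : 0 ≤ ((a : ℝ) + b) * Pv (2 * (a / ((a : ℝ) + b))) := by
      unfold Pv
      positivity
    nlinarith [mul_le_mul_of_nonneg_left hr p0, mul_le_mul_of_nonneg_left j pM.le]
  · have hc' := key 1 _ _ (vs.2 (by omega)) (vt.2 (by omega)) ?_
    · simpa using hc'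
    have e3 : s * (11 / 5 + 11 / 2 * ((a : ℝ) / s - 4 / 5)) +
        t * (11 / 5 + 11 / 2 * ((a : ℝ) / t - 4 / 5)) =
        ((a : ℝ) + b) * (11 * (a / ((a : ℝ) + b)) - 11 / 5) := by
      rw [htR]
      field_simp
      ring
    have x1 : 2 / 5 ≤ a / ((a : ℝ) + b) := by
      have : (2 : ℝ) * (a + b) ≤ 5 * a := by exact_mod_cast (not_le.1 hc).le
      rw [le_div_iff₀ hM0]
      linarith
    have x2 : a / ((a : ℝ) + b) ≤ 1 / 2 := by
      have : (a : ℝ) ≤ b := by exact_mod_cast hab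
      rw [div_le_iff₀ hM0]
      linarith
    rw [e3]
    generalize a / ((a : ℝ) + b) = x at hr x1 x2
    have y1 : 1 ≤ (1 - 3 / 2 * x + 3 / 8 * x ^ 2) * (11 * x - 11 / 5) := by
      have d0 : 0 ≤ x - 2 / 5 := by linarith
      nlinarith [mul_nonneg d0 (sub_nonneg.2 x2), pow_nonneg d0 3]
    have y2 : ee b ≤ ee (a + b) * (11 * x - 11 / 5) := by
      nlinarith [mul_le_mul_of_nonneg_left y1 pb.le,
        mul_le_mul_of_nonneg_left hr (show 0 ≤ 11 * x - 11 / 5 by linarith)]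
    nlinarith [mul_le_mul_of_nonneg_left y2 hM0.le]

end Pool.Agent.MP_ddaf7c_pr.A

end MrgPart1

-- ======== part 2: formerly Pool.Agent.MP_ddaf7c_pr.A.Bign
section MrgPart2

/-! The bound in the middle on high levels, and the comparison with a polynomial in `exp t - 1`. -/

set_option autoImplicit false

namespace Pool.Agent.MP_ddaf7c_pr.A

open Finset Real

namespace Bign

theorem om_self {n : ℕ} (hn : 1 ≤ n) : om n n = 1 := by
  have h : (0 : ℝ) < n := by exact_mod_cast hn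
  unfold om
  field_simp
  ring

theorem sN_big {M : ℕ} (hM : 64 ≤ M) : sN M = 1000 := by
  unfold sN
  rw [List.getD_eq_default]
  simpa using hM

theorem phi_big {M : ℕ} (hM : 64 ≤ M) {t : ℝ} (ht : 1 ≤ t) : phi M t = 3 / 25 := by
  have h : (64 : ℝ) ≤ M := by exact_mod_cast hM
  have h0 : (0 : ℝ) < M := by linarith
  have e : tst M = 6 / (5 * (M : ℝ)) := by unfold tst; rw [max_eq_left hM]
  have l : tst M ≤ t := by
    rw [e, div_le_iff₀ (by positivity)]
    nlinarith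
  unfold phi hh
  rw [min_eq_right l, e, sN_big hM]
  push_cast
  field_simp
  norm_num

theorem top_le (hm : K.MASS) (S : K.Sol) (M : ℕ) {t : ℝ} (ht : 0 ≤ t) :
    (M.factorial : ℝ) * exp (-((M : ℝ) ^ 2 * t / 2)) * S.κ t M ≤ M := by
  have h := hm S M t
  unfold K.I1 at h
  have k : K.wt M M t * S.κ t M * 1 ≤ ∑ k ∈ range (M + 1), K.wt M k t * S.κ t k * 1 := by
    refine single_le_sum (f := fun k => K.wt M k t * S.κ t k * 1) (fun k _ => ?_)
      (self_mem_range_succ M)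
    have := S.κp t ht k
    unfold K.wt
    positivity
  rw [h] at k
  have e : K.wt M M t = (M.factorial : ℝ) * exp (-((M : ℝ) ^ 2 * t / 2)) := by
    unfold K.wt
    rw [Nat.descFactorial_self]
    congr 2
    ring
  rw [e, mul_one] at k
  exact k

theorem const (m : ℕ) :
    ((m + 1).factorial : ℝ) * (m + 1).factorial *
        (tau (m + 1) * tau (m + 1) / tau (m + 1 + (m + 1))) * ((m + 1 + (m + 1) : ℕ) : ℝ) =
      4 / 4 ^ (m + 1) * ((m + 1 + (m + 1)).factorial : ℝ) := by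
  have h1 : (0 : ℝ) < (m + 1).factorial := by positivity
  have h2 : (0 : ℝ) < (m + 1 + (m + 1)).factorial := by positivity
  have e1 : m + 1 - 1 = m := by omega
  have e2 : m + 1 + (m + 1) - 1 = 2 * m + 1 := by omega
  have e3 : ((m + 1 + (m + 1) : ℕ) : ℝ) = 2 * ((m + 1 : ℕ) : ℝ) := by push_cast; ring
  have h3 : (0 : ℝ) < ((m + 1 : ℕ) : ℝ) := by positivity
  have e4 : (4 : ℝ) ^ (m + 1) = 4 * 2 ^ (2 * m) := by
    rw [pow_succ, pow_mul]; norm_num; ring
  unfold tau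
  rw [e1, e2, e3, e4]
  generalize ((m + 1 : ℕ) : ℝ) = x at h3 ⊢
  rw [mul_pow, pow_succ, pow_succ, pow_mul' x 2 m]
  field_simp

/-- the derivative of the comparison polynomial -/
theorem poly_deriv (C : ℕ) (g : ℕ → ℝ) (t : ℝ) :
    HasDerivAt (fun τ => exp (-(C * τ)) * ∑ k ∈ range (C + 1), g k * (exp τ - 1) ^ k)
      (exp (-(C * t)) *
        ∑ k ∈ range C, ((k + 1) * g (k + 1) - ((C : ℝ) - k) * g k) * (exp t - 1) ^ k) t := by
  have h1 : HasDerivAt (fun τ : ℝ => exp (-(C * τ))) (exp (-(C * t)) * -(C : ℝ)) t := by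
    simpa using ((hasDerivAt_id t).const_mul (C : ℝ)).neg.exp
  have h2 : HasDerivAt (fun τ => ∑ k ∈ range (C + 1), g k * (exp τ - 1) ^ k)
      (∑ k ∈ range (C + 1), g k * (k * (exp t - 1) ^ (k - 1) * exp t)) t :=
    HasDerivAt.fun_sum fun k _ => (((hasDerivAt_exp t).sub_const 1).fun_pow k).const_mul (g k)
  refine (h1.fun_mul h2).congr_deriv ?_
  have a1 : ∑ k ∈ range (C + 1), g k * (k * (exp t - 1) ^ (k - 1) * exp t) =
      ∑ k ∈ range C, (k + 1) * g (k + 1) * (exp t - 1) ^ k +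
        ∑ k ∈ range (C + 1), k * g k * (exp t - 1) ^ k := by
    rw [sum_range_succ', sum_range_succ' (fun k => (k : ℝ) * g k * (exp t - 1) ^ k)]
    simp only [Nat.cast_zero, zero_mul, mul_zero, add_zero, Nat.add_sub_cancel, ← sum_add_distrib]
    refine sum_congr rfl fun k _ => ?_
    push_cast
    ring
  have a2 : ∑ k ∈ range C, ((k + 1) * g (k + 1) - ((C : ℝ) - k) * g k) * (exp t - 1) ^ k =
      ∑ k ∈ range C, (k + 1) * g (k + 1) * (exp t - 1) ^ k +
        ∑ k ∈ range (C + 1), (k * g k * (exp t - 1) ^ k - C * (g k * (exp t - 1) ^ k)) := by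
    rw [sum_range_succ, ← add_assoc, ← sum_add_distrib]
    have z : (C : ℝ) * g C * (exp t - 1) ^ C - C * (g C * (exp t - 1) ^ C) = 0 := by ring
    rw [z, add_zero]
    exact sum_congr rfl fun k _ => by ring
  rw [a1, a2, sum_sub_distrib, ← mul_sum]
  ring

end Bign

open Bign

theorem bign (h : SUPER) (hm : K.MASS) : BIGN := by
  intro S n t hn ht
  have t0 : 0 ≤ t := by linarith
  have n1 : 1 ≤ n := by omega
  have hg : gam n n = 3 / 25 := by unfold gam; rw [om_self n1]; norm_num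
  have he : eta n n t = 1 := by
    unfold eta
    rw [hg, om_self n1, phi_big (by omega) ht]
    norm_num
  have hB := h S n n t n1 n1 t0
  have k0 := S.κp t t0 n
  have hB' : S.B t n n ≤ tau n * tau n / tau (n + n) * S.κ t (n + n) := by
    rw [he, hg, one_mul] at hB
    have : 0 ≤ 3 / 25 * t * S.κ t n * S.κ t n := by positivity
    linarith
  have hT := top_le hm S (n + n) t0
  obtain ⟨m, rfl⟩ : ∃ m, n = m + 1 := ⟨n - 1, by omega⟩
  have hc := const m
  have hf : (0 : ℝ) < (m + 1 + (m + 1)).factorial := by positivity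
  have hq : 0 ≤ ((m + 1).factorial : ℝ) * (m + 1).factorial *
      (tau (m + 1) * tau (m + 1) / tau (m + 1 + (m + 1))) := by
    unfold tau
    positivity
  unfold K.p2
  rw [← Nat.cast_add]
  refine le_of_mul_le_mul_right ?_ hf
  rw [← hc]
  have hE := exp_pos (-(((m + 1 + (m + 1) : ℕ) : ℝ) ^ 2 * t / 2))
  generalize exp (-(((m + 1 + (m + 1) : ℕ) : ℝ) ^ 2 * t / 2)) = E at hT hE ⊢
  have a := mul_le_mul_of_nonneg_left hT hq
  have b := mul_le_mul_of_nonneg_left hB'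
    (show 0 ≤ ((m + 1).factorial : ℝ) * (m + 1).factorial * E *
      (m + 1 + (m + 1)).factorial by positivity)
  refine le_trans ?_ a
  calc _ = ((m + 1).factorial : ℝ) * (m + 1).factorial * E * (m + 1 + (m + 1)).factorial *
        S.B t (m + 1) (m + 1) := by ring
    _ ≤ _ := b
    _ = _ := by ring

theorem cmp : CMP := by
  intro C f f' s g hf h0 hs _ hd hg
  refine ⟨fun t ht => ?_, fun k hk => ?_⟩
  · have key : f t ≤ exp (-(C * t)) * ∑ k ∈ range (C + 1), g k * (exp t - 1) ^ k := by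
      refine image_le_of_deriv_right_le_deriv_boundary (a := 0) (b := t) (f' := f')
        (B := fun τ => exp (-(C * τ)) * ∑ k ∈ range (C + 1), g k * (exp τ - 1) ^ k)
        (fun τ _ => (hf τ).continuousAt.continuousWithinAt)
        (fun τ _ => (hf τ).hasDerivWithinAt) ?_
        (fun τ _ => (poly_deriv C g τ).continuousAt.continuousWithinAt)
        (fun τ _ => (poly_deriv C g τ).hasDerivWithinAt) (fun τ hτ => ?_) ⟨ht, le_rfl⟩
      · simpa [sum_range_succ'] using h0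
      · have u0 : 0 ≤ exp τ - 1 := sub_nonneg.2 (one_le_exp hτ.1)
        have a := (hd τ hτ.1).trans (sum_le_sum (g := fun k =>
          ((k + 1) * g (k + 1) - ((C : ℝ) - k) * g k) * (exp τ - 1) ^ k) fun k hk =>
            mul_le_mul_of_nonneg_right (by linarith [hg k (mem_range.1 hk)]) (pow_nonneg u0 k))
        rw [exp_neg, ← div_eq_inv_mul, le_div_iff₀ (exp_pos _)]
        exact a
    rw [exp_neg, ← div_eq_inv_mul, le_div_iff₀ (exp_pos _)] at key
    exact key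
  · induction hk using Nat.decreasingInduction with
    | self => simp
    | of_succ k hk ih =>
      have a := hg k hk
      have b := hs k
      have c : ((C.choose (k + 1) : ℕ) : ℝ) * (k + 1) = C.choose k * ((C : ℝ) - k) := by
        have := congrArg (Nat.cast : ℕ → ℝ) (Nat.choose_succ_right_eq C k)
        push_cast [Nat.cast_sub hk.le] at this
        exact this
      have p : (0 : ℝ) < (C : ℝ) - k := sub_pos.2 (by exact_mod_cast hk)
      have k1 : (0 : ℝ) ≤ (k : ℝ) + 1 := by positivity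
      refine le_of_mul_le_mul_left ?_ p
      have d := mul_le_mul_of_nonneg_left ih k1
      calc ((C : ℝ) - k) * g k ≤ (k + 1) * (g C * C.choose (k + 1)) := by linarith
        _ = g C * (((C.choose (k + 1) : ℕ) : ℝ) * (k + 1)) := by ring
        _ = ((C : ℝ) - k) * (g C * C.choose k) := by rw [c]; ring

end Pool.Agent.MP_ddaf7c_pr.A

end MrgPart2

-- ======== part 3: formerly Pool.Agent.MP_ddaf7c_pr.A.Certl
section MrgPart3

/-! The certificate on the levels at least 256. -/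

set_option autoImplicit false

namespace Pool.Agent.MP_ddaf7c_pr.A

open Finset Real

namespace Certl

theorem sN_big (M : ℕ) (h : 64 ≤ M) : sN M = 1000 := by
  unfold sN
  apply List.getD_eq_default
  simpa using h

theorem hh_big (M : ℕ) (h : 64 ≤ M) : hh M = (M : ℝ) / 10 := by
  unfold hh
  rw [sN_big M h]
  push_cast
  ring

theorem pmx_big (M : ℕ) (h : 64 ≤ M) : pmx M = 3 / 25 := by
  unfold pmx tst
  rw [hh_big M h, max_eq_left h]
  have : (M : ℝ) ≠ 0 := by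
    have : (64 : ℝ) ≤ M := by exact_mod_cast h
    positivity
  field_simp
  ring

theorem EL_nonneg (a b : ℕ) (ha : 1 ≤ a) (hab : a ≤ b) : 0 ≤ EL a b := by
  have ha' : (1 : ℝ) ≤ a := by exact_mod_cast ha
  have hb' : (a : ℝ) ≤ b := by exact_mod_cast hab
  have hM : (0 : ℝ) < (a : ℝ) + b := by linarith
  have hx0 : (0 : ℝ) ≤ a / ((a : ℝ) + b) := by positivity
  have hx1 : (a : ℝ) / ((a : ℝ) + b) ≤ 1 / 2 := by
    rw [div_le_iff₀ hM]; linarith
  unfold EL
  have hw : 0 ≤ om a b := by unfold om; positivity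
  have h1 : (0 : ℝ) ≤ 1 - a / ((a : ℝ) + b) / 2 := by linarith
  have h2 : (0 : ℝ) ≤ 1 - a / ((a : ℝ) + b) := by linarith
  have h3 : (0 : ℝ) ≤ max 0 (1 - 4 * (a / ((a : ℝ) + b))) := le_max_left _ _
  positivity

/-- the second condition, after scaling -/
theorem scale (x s μ g L m w A B : ℝ) (hs : 0 < s) (hx0 : 0 < x) (hx1 : x < 1)
    (hw : w = 4 * x * (1 - x))
    (h : μ / (2 * x * (1 - x)) + 2 / 5 * s⁻¹ ^ 2 * (18 / 5 + 6 * m / (1 - x)) +
      2 / 5 * s⁻¹ * 1.33 * (A * (1 - x / 2) + B * (1 + x) / 2) + L ≤ g) :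
    μ * (s ^ 2) ^ 2 / 2 + s ^ 2 / 10 * (18 / 5 * w +
      w * (1.33 * (A * s * (1 - x / 2) + B * s * (1 + x) / 2) + 6 * m / (1 - x))) ≤
      (g - L) * (x * s ^ 2) * ((1 - x) * s ^ 2) := by
  have h1 : 0 < 1 - x := by linarith
  have hp : 0 ≤ x * s ^ 2 * ((1 - x) * s ^ 2) := by positivity
  have h2 := mul_le_mul_of_nonneg_right (le_sub_iff_add_le.2 h) hp
  refine le_trans (le_of_eq ?_) (h2.trans (le_of_eq (by ring)))
  subst hw
  field_simp
  ring

theorem second (h4 : PFIN) (a b : ℕ) (ha : 1 ≤ a) (hab : a ≤ b) (hM : 256 ≤ a + b) :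
    muL a b * ((a : ℝ) + b) ^ 2 / 2 + hh (a + b) * (18 / 5 * om a b + EL a b) ≤
      (gam a b - L2 a b) * a * b := by
  have ha' : (1 : ℝ) ≤ a := by exact_mod_cast ha
  have hb' : (a : ℝ) ≤ b := by exact_mod_cast hab
  have hM' : (256 : ℝ) ≤ (a : ℝ) + b := by exact_mod_cast hM
  have hM0 : (0 : ℝ) < (a : ℝ) + b := by linarith
  obtain ⟨x, hx⟩ : ∃ x : ℝ, x = a / ((a : ℝ) + b) := ⟨_, rfl⟩
  obtain ⟨s, hs⟩ : ∃ s : ℝ, s = √((a : ℝ) + b) := ⟨_, rfl⟩
  have hs2 : s ^ 2 = (a : ℝ) + b := by rw [hs]; exact sq_sqrt hM0.le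
  have hs16 : 16 ≤ s := by
    rw [hs]; apply le_sqrt_of_sq_le; linarith
  have hs0 : 0 < s := by linarith
  have hx0 : 0 < x := by rw [hx]; positivity
  have hx1 : x ≤ 1 / 2 := by rw [hx, div_le_iff₀ hM0]; linarith
  have hax : (a : ℝ) = x * s ^ 2 := by rw [hs2, hx]; field_simp
  have hbx : (b : ℝ) = (1 - x) * s ^ 2 := by rw [hs2, hx]; field_simp; ring
  have hw : om a b = 4 * x * (1 - x) := by
    unfold om; rw [hx]; field_simp; ring
  have hsa : √(a : ℝ) = √x * s := by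
    rw [hax, sqrt_mul hx0.le, sqrt_sq hs0.le]
  have hsb : √(b : ℝ) = √(1 - x) * s := by
    rw [hbx, sqrt_mul (by linarith), sqrt_sq hs0.le]
  have he0 : 0 < s⁻¹ := inv_pos.2 hs0
  have he1 : s⁻¹ ≤ 1 / 16 := by
    rw [inv_eq_one_div]; exact one_div_le_one_div_of_le (by norm_num) hs16
  have he2 : s⁻¹ ^ 2 ≤ x := by
    rw [inv_pow, hs2, hx, inv_eq_one_div]
    exact div_le_div_of_nonneg_right ha' hM0.le
  obtain ⟨p1, p2⟩ := h4 x s⁻¹ he0 he1 he2
  have hg : gam a b = 0.39 - 27 / 100 * (4 * x * (1 - x)) := by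
    unfold gam; rw [hw]; ring
  have hq1 : (a : ℝ) ^ 2 / ((a : ℝ) + b) ^ 2 = x ^ 2 := by rw [hx, div_pow]
  have hq2 : 2 * (a : ℝ) ^ 2 / ((a : ℝ) + 2 * b) ^ 2 = 2 * x ^ 2 / (2 - x) ^ 2 := by
    have h2x : (2 : ℝ) - x ≠ 0 := by linarith
    have h3 : (a : ℝ) + 2 * b = (2 - x) * s ^ 2 := by rw [hax, hbx]; ring
    rw [h3, hax]
    field_simp
  have hE : EL a b = om a b * (1.33 * (√x * s * (1 - x / 2) + √(1 - x) * s * (1 + x) / 2) +
      6 * max 0 (1 - 4 * x) / (1 - x)) := by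
    unfold EL; rw [← hx, hsa, hsb]
  have key := fun h => scale x s (muL a b) (gam a b) (L2 a b) (max 0 (1 - 4 * x)) (om a b)
    (√x) (√(1 - x)) hs0 hx0 (by linarith) hw h
  rw [hh_big _ (by omega), hE]
  push_cast
  rw [← hax, ← hbx, hs2] at key
  apply key
  by_cases hc : 5 * a ≤ 2 * (a + b)
  · have hc' : (5 : ℝ) * a ≤ 2 * ((a : ℝ) + b) := by exact_mod_cast hc
    have hx2 : x ≤ 2 / 5 := by rw [hx, div_le_iff₀ hM0]; linarith
    have hmu : muL a b =
        (1.39 - 27 / 100 * (4 * x * (1 - x))) * alx x * (Nn x s⁻¹ / Dd x s⁻¹) := by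
      unfold muL al rho
      rw [if_pos hc, hg, ← hx, ← hs]
      ring
    have hL : L2 a b = 27 / 50 * (x ^ 2 - 2 * x ^ 2 / (2 - x) ^ 2) +
        27 / 100 * (0.0455 * (4 * x * (1 - x)) ^ 2) := by
      unfold L2
      rw [if_pos hc, hq1, hq2, hw]
    rw [hmu, hL, hg]
    have := p1 hx2
    linarith
  · have hc' : 2 * ((a : ℝ) + b) ≤ (5 : ℝ) * a := by
      have : 2 * (a + b) ≤ 5 * a := by omega
      exact_mod_cast this
    have hx2 : 2 / 5 ≤ x := by rw [hx, le_div_iff₀ hM0]; linarith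
    have hmu : muL a b = 0 := by
      unfold muL al
      rw [if_neg hc]
      ring
    have hL : L2 a b = 27 / 50 * (x ^ 2 - 2 * x ^ 2 / (2 - x) ^ 2) + 27 / 100 * 0.0557 := by
      unfold L2
      rw [if_neg hc, hq1, hq2]
    have hm : max 0 (1 - 4 * x) = 0 := max_eq_left (by linarith)
    rw [hmu, hL, hg, hm]
    have := p2 hx2 hx1
    simp only [zero_div, mul_zero, add_zero, zero_add]
    linarith

end Certl

theorem certl (h1 : OUT) (h2 : INN) (h3 : EB) (h4 : PFIN) : CERTL := by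
  intro a b ha hab hM
  have hW : ∀ φ : ℝ, φ = 0 ∨ φ = 3 / 25 → ∀ i, 0 ≤ WW φ (muL a b) a b i := by
    intro φ hφ i
    rcases le_total i a with hi | hi
    · exact h2 a b i φ _ ha hab hM hφ hi
    · have h0 : 0 ≤ φ ∧ φ ≤ 3 / 25 := by
        rcases hφ with h | h <;> rw [h] <;> norm_num
      exact (h2 a b a φ _ ha hab hM hφ le_rfl).trans ((h1 a b i φ ha hab hM h0.1 h0.2).2 hi)
  refine ⟨muL a b, EL a b, (h1 a b a 0 ha hab hM le_rfl (by norm_num)).1,
    Certl.EL_nonneg a b ha hab, h3 a b ha hab hM, Certl.second h4 a b ha hab hM, ?_⟩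
  intro i _
  exact ⟨hW 0 (Or.inl rfl) i, hW _ (Or.inr (Certl.pmx_big _ (by omega))) i⟩

end Pool.Agent.MP_ddaf7c_pr.A

end MrgPart3

-- ======== part 4: formerly Pool.Agent.MP_ddaf7c_pr.A.Dyn
section MrgPart4

/-! Log-convexity of the one-colour sequence at every time. -/

set_option autoImplicit false

namespace Pool.Agent.MP_ddaf7c_pr.A

open Finset Real

namespace Dyn

theorem fence (D D' : ℝ → ℝ) (C : ℝ) (hC : 0 ≤ C) (hd : ∀ τ, 0 < τ → HasDerivAt D (D' τ) τ)
    (hl : ∀ τ, 0 < τ → -(C * τ) ≤ D τ) (hp : ∀ τ, 0 < τ → D τ ≤ 0 → 0 < D' τ) (t : ℝ)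
    (ht : 0 < t) : 0 ≤ D t := by
  have key : ∀ s, 0 < s → s ≤ t → -D t ≤ C * s := by
    intro s hs hst
    refine image_le_of_deriv_right_lt_deriv_boundary (f := fun τ => -D τ) (f' := fun τ => -D' τ)
      (a := s) (b := t) (B := fun _ => C * s) (B' := fun _ => 0)
      (fun x hx => (hd x (hs.trans_le hx.1)).neg.continuousAt.continuousWithinAt)
      (fun x hx => (hd x (hs.trans_le hx.1)).neg.hasDerivWithinAt) ?_
      (fun x => hasDerivAt_const x _) ?_ ⟨hst, le_rfl⟩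
    · have := hl s hs
      linarith
    · intro x hx he
      have h0 : 0 ≤ C * s := mul_nonneg hC hs.le
      have := hp x (hs.trans_le hx.1) (by linarith)
      linarith
  by_contra hn
  have hn : 0 < -D t := by linarith
  have h1 : 0 < C + 1 := by linarith
  have h2 := key (min t (-D t / (C + 1))) (lt_min ht (div_pos hn h1)) (min_le_left _ _)
  have h3 : C * min t (-D t / (C + 1)) ≤ C * (-D t / (C + 1)) :=
    mul_le_mul_of_nonneg_left (min_le_right _ _) hC
  have h4 : (C + 1) * (-D t / (C + 1)) = -D t := by field_simp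
  have h5 := div_pos hn h1
  nlinarith

theorem low (h1 : SAND) (S : K.Sol) {t : ℝ} (ht : 0 < t) (c : ℕ) : t ^ c ≤ Kf S t c := by
  rcases Nat.eq_zero_or_pos c with rfl | hc
  · simp [Kf]
  · exact (h1 S t ht c hc).1

theorem pos (h1 : SAND) (S : K.Sol) {t : ℝ} (ht : 0 < t) (c : ℕ) : 0 < Kf S t c :=
  (pow_pos ht c).trans_le (low h1 S ht c)

theorem dlog (h1 : SAND) (S : K.Sol) {t : ℝ} (ht : 0 < t) {c : ℕ} (hc : 1 ≤ c) :
    HasDerivAt (fun τ => log (Kf S τ c)) ((1 + t * c ^ 2 / 2 + Phi (Kf S t) c) / t) t := by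
  have hp := pos h1 S ht c
  convert (h1 S t ht c hc).2.2.2.log hp.ne' using 1
  field_simp

theorem phi_one (K : ℕ → ℝ) : Phi K 1 = 0 := by simp [Phi]

theorem phi_two (K : ℕ → ℝ) : Phi K 2 = K 1 ^ 2 / K 2 := by
  have : Ico 1 2 = {1} := rfl
  rw [Phi, this, sum_singleton]
  simp only [PP, TT, tau, uu]
  norm_num
  ring

theorem cvx (h1 : SAND) (h2 : FONE) (S : K.Sol) (c : ℕ) : ∀ t, 0 < t →
    Kf S t (c + 1) ^ 2 ≤ Kf S t c * Kf S t (c + 2) := by
  induction c using Nat.strong_induction_on with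
  | _ c ih =>
  have conv : ∀ t, 0 < t → log (Kf S t (c + 2)) + log (Kf S t c) - 2 * log (Kf S t (c + 1)) =
      log (Kf S t c * Kf S t (c + 2)) - log (Kf S t (c + 1) ^ 2) := fun t ht => by
    rw [log_mul (pos h1 S ht _).ne' (pos h1 S ht _).ne', log_pow]
    push_cast
    ring
  have neg : ∀ t, 0 < t →
      log (Kf S t (c + 2)) + log (Kf S t c) - 2 * log (Kf S t (c + 1)) ≤ 0 →
      Kf S t c * Kf S t (c + 2) ≤ Kf S t (c + 1) ^ 2 := fun t ht h => by
    rw [conv t ht, sub_nonpos] at h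
    exact (log_le_log_iff (mul_pos (pos h1 S ht _) (pos h1 S ht _))
      (pow_pos (pos h1 S ht _) 2)).1 h
  have hl : ∀ τ, 0 < τ → -(((c + 1 : ℕ) : ℝ) ^ 2 * τ) ≤
      log (Kf S τ (c + 2)) + log (Kf S τ c) - 2 * log (Kf S τ (c + 1)) := fun τ hτ => by
    have a1 := log_le_log (pow_pos hτ _) (low h1 S hτ (c + 2))
    have a2 := log_le_log (pow_pos hτ _) (low h1 S hτ c)
    have a3 := log_le_log (pos h1 S hτ _) (h1 S τ hτ (c + 1) (by omega)).2.1
    rw [log_mul (pow_pos hτ _).ne' (exp_pos _).ne', log_exp] at a3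
    rw [log_pow] at a1 a2 a3
    push_cast at a1 a2 a3 ⊢
    linarith
  intro t ht
  have main : 0 ≤ log (Kf S t (c + 2)) + log (Kf S t c) - 2 * log (Kf S t (c + 1)) := by
    rcases Nat.eq_zero_or_pos c with rfl | hc
    · refine fence (fun τ => log (Kf S τ (0 + 2)) + log (Kf S τ 0) - 2 * log (Kf S τ (0 + 1)))
        (fun τ => (1 + τ * ((0 + 2 : ℕ) : ℝ) ^ 2 / 2 + Phi (Kf S τ) (0 + 2)) / τ + 0 -
          2 * ((1 + τ * ((0 + 1 : ℕ) : ℝ) ^ 2 / 2 + Phi (Kf S τ) (0 + 1)) / τ)) _ (sq_nonneg _)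
        (fun τ hτ => ((dlog h1 S hτ (by omega)).add ?_).sub
          ((dlog h1 S hτ (by omega)).const_mul 2)) hl (fun τ hτ h => ?_) t ht
      · simpa [Kf] using hasDerivAt_const τ (0 : ℝ)
      · have hn := neg τ hτ h
        have h0 : Kf S τ 0 = 1 := by simp [Kf]
        have hq : 1 ≤ Kf S τ 1 ^ 2 / Kf S τ 2 := by
          rw [one_le_div (pos h1 S hτ 2)]
          simpa [h0] using hn
        simp only [zero_add, phi_one, phi_two, add_zero]
        rw [← mul_div_assoc, ← sub_div]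
        refine div_pos ?_ hτ
        push_cast
        linarith
    · refine fence (fun τ => log (Kf S τ (c + 2)) + log (Kf S τ c) - 2 * log (Kf S τ (c + 1)))
        (fun τ => (1 + τ * ((c + 2 : ℕ) : ℝ) ^ 2 / 2 + Phi (Kf S τ) (c + 2)) / τ +
          (1 + τ * (c : ℝ) ^ 2 / 2 + Phi (Kf S τ) c) / τ -
          2 * ((1 + τ * ((c + 1 : ℕ) : ℝ) ^ 2 / 2 + Phi (Kf S τ) (c + 1)) / τ)) _ (sq_nonneg _)
        (fun τ hτ => ((dlog h1 S hτ (by omega)).add (dlog h1 S hτ hc)).sub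
          ((dlog h1 S hτ (by omega)).const_mul 2)) hl (fun τ hτ h => ?_) t ht
      have hf := h2 (Kf S τ) (c + 1) (by omega) (pos h1 S hτ) (fun i hi hic => by
        obtain ⟨j, rfl⟩ : ∃ j, i = j + 1 := ⟨i - 1, by omega⟩
        exact ih j (by omega) τ hτ) (neg τ hτ h)
      rw [Nat.add_sub_cancel] at hf
      rw [← mul_div_assoc, ← add_div, ← sub_div]
      refine div_pos ?_ hτ
      push_cast
      linarith
  rw [conv t ht, sub_nonneg] at main
  exact (log_le_log_iff (pow_pos (pos h1 S ht _) 2)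
    (mul_pos (pos h1 S ht _) (pos h1 S ht _))).1 main

end Dyn

theorem dyn (h1 : SAND) (h2 : FONE) : DYN := fun S t ht =>
  ⟨by simp [Kf], Dyn.pos h1 S ht, fun c hc => by
    obtain ⟨j, rfl⟩ : ∃ j, c = j + 1 := ⟨c - 1, by omega⟩
    exact Dyn.cvx h1 h2 S j t ht, fun c hc => (h1 S t ht c hc).2.2.1⟩

end Pool.Agent.MP_ddaf7c_pr.A

end MrgPart4

-- ======== part 5: formerly Pool.Agent.MP_ddaf7c_pr.A.Fone
section MrgPart5

/-! Convexity of the one-colour functional at a first failure of log-convexity. -/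

set_option autoImplicit false

namespace Pool.Agent.MP_ddaf7c_pr.A

open Finset Real

namespace Fone

noncomputable def chi (n i : ℕ) : ℝ := if 2 * i < n then 1 else if 2 * i = n then 1 / 2 else 0

noncomputable def W (n i : ℕ) : ℝ := chi n i * QQ n i

theorem chi_nonneg (n i : ℕ) : 0 ≤ chi n i := by
  unfold chi
  split_ifs <;> norm_num

theorem QQ_nonneg (n i : ℕ) : 0 ≤ QQ n i := by
  unfold QQ TT tau
  positivity

theorem W_nonneg (n i : ℕ) : 0 ≤ W n i := mul_nonneg (chi_nonneg n i) (QQ_nonneg n i)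

theorem W_zero {n i : ℕ} (h : n < 2 * i) : W n i = 0 := by
  rw [W, chi, if_neg (by omega), if_neg (by omega), zero_mul]

theorem W_one {n i : ℕ} (h : 2 * i < n) : W n i = QQ n i := by rw [W, chi, if_pos h, one_mul]

theorem chi_refl {n i : ℕ} (h : i ≤ n) : chi n (n - i) = 1 - chi n i := by
  unfold chi
  split_ifs <;> first | omega | norm_num

theorem chi_shift (m i : ℕ) : chi (m + 2) (i + 1) = chi m i := by
  unfold chi
  split_ifs <;> first | omega | rfl

theorem fold (n : ℕ) (f : ℕ → ℝ) (hf : ∀ i, i ≤ n → f (n - i) = f i) :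
    ∑ i ∈ Ico 1 n, PP n i * f i = ∑ i ∈ Ico 1 n, W n i * f i := by
  have h1 : ∑ i ∈ Ico 1 n, (PP n (n - i) - W n (n - i)) * f (n - i) =
      ∑ i ∈ Ico 1 n, (PP n i - W n i) * f i := by
    simpa using sum_Ico_reflect (fun i => (PP n i - W n i) * f i) 1 (m := n) (n := n) n.le_succ
  have h2 : ∑ i ∈ Ico 1 n, (PP n (n - i) - W n (n - i)) * f (n - i) =
      -∑ i ∈ Ico 1 n, (PP n i - W n i) * f i := by
    rw [← sum_neg_distrib]
    refine sum_congr rfl fun i hi => ?_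
    have h3 : i ≤ n := (mem_Ico.1 hi).2.le
    rw [hf i h3, W, W, chi_refl h3]
    simp only [PP, QQ, TT, Nat.sub_sub_self h3, Nat.cast_sub h3]
    ring
  have h3 : ∑ i ∈ Ico 1 n, (PP n i - W n i) * f i = 0 := by linarith
  simp only [sub_mul, sum_sub_distrib] at h3
  linarith

theorem Phi_eq (K : ℕ → ℝ) (n : ℕ) : Phi K n = ∑ i ∈ Ico 1 n, W n i * uu K n i :=
  fold n _ fun i hi => by rw [uu, uu, Nat.sub_sub_self hi, mul_comm]

theorem mass (h0 : ABEL) {n : ℕ} (hn : 1 ≤ n) : ∑ i ∈ Ico 1 n, W n i = (n : ℝ) - 1 := by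
  simpa [h0 n hn] using (fold n (fun _ => 1) fun _ _ => rfl).symm

theorem top {n N : ℕ} (hn : 1 ≤ n) (h : N < 2 * n) (g : ℕ → ℝ) :
    ∑ i ∈ Ico 1 (n + 1), W N i * g i = ∑ i ∈ Ico 1 n, W N i * g i := by
  rw [sum_Ico_succ_top hn, W_zero h, zero_mul, add_zero]

variable {K : ℕ → ℝ} {m : ℕ}

theorem rho_mono (hp : ∀ i, 0 < K i)
    (hc : ∀ i, 2 ≤ i → i < m + 1 → K i ^ 2 ≤ K (i - 1) * K (i + 1)) {i j : ℕ} (hi : 1 ≤ i)
    (hij : i ≤ j) (hj : j ≤ m) : K (i + 1) / K i ≤ K (j + 1) / K j := by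
  induction j, hij using Nat.le_induction with
  | base => exact le_rfl
  | succ j h ih =>
    refine (ih (by omega)).trans ?_
    have := hc (j + 1) (by omega) (by omega)
    rw [Nat.add_sub_cancel] at this
    rw [div_le_div_iff₀ (hp _) (hp _)]
    linarith

theorem A_step (hp : ∀ i, 0 < K i)
    (hc : ∀ i, 2 ≤ i → i < m + 1 → K i ^ 2 ≤ K (i - 1) * K (i + 1)) {i : ℕ} (hi : 1 ≤ i)
    (h : 2 * i ≤ m) : K (i + 1) * K (m + 1 - (i + 1)) ≤ K i * K (m + 1 - i) := by
  have h1 := rho_mono hp hc hi (j := m - i) (by omega) (by omega)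
  rw [div_le_div_iff₀ (hp _) (hp _)] at h1
  rw [show m + 1 - (i + 1) = m - i by omega, show m + 1 - i = m - i + 1 by omega]
  linarith

theorem A_anti (hp : ∀ i, 0 < K i)
    (hc : ∀ i, 2 ≤ i → i < m + 1 → K i ^ 2 ≤ K (i - 1) * K (i + 1)) {i j : ℕ} (hi : 1 ≤ i)
    (hij : i ≤ j) (hj : 2 * j ≤ m + 1) : K j * K (m + 1 - j) ≤ K i * K (m + 1 - i) := by
  induction j, hij using Nat.le_induction with
  | base => exact le_rfl
  | succ j h ih => exact (A_step hp hc (by omega) (by omega)).trans (ih (by omega))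

end Fone

open Fone in
theorem fone (h0 : ABEL) (h1 : TONE) (h2 : TTWO) : FONE := by
  intro K c hc2 hp hc hl
  obtain ⟨m, rfl⟩ : ∃ m, c = m + 1 := ⟨c - 1, by omega⟩
  have hm : 1 ≤ m := by omega
  rw [Nat.add_sub_cancel] at hl ⊢
  obtain ⟨A, hA⟩ : ∃ A : ℕ → ℝ, ∀ i, A i = K i * K (m + 1 - i) := ⟨_, fun _ => rfl⟩
  obtain ⟨x, hx⟩ : ∃ x : ℕ → ℝ, ∀ j, x j = K (j + 1) / K j / (K (m + 1) / K m) := ⟨_, fun _ => rfl⟩
  have hA0 : ∀ i, 0 < A i := fun i => hA i ▸ mul_pos (hp _) (hp _)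
  have hR : 0 < K (m + 1) / K m := div_pos (hp _) (hp _)
  have hx0 : ∀ j, 0 < x j := fun j => hx j ▸ div_pos (div_pos (hp _) (hp _)) hR
  have hx1 : ∀ j, 1 ≤ j → j ≤ m → x j ≤ 1 := fun j h3 h4 =>
    hx j ▸ (div_le_one hR).2 (rho_mono hp hc h3 h4 le_rfl)
  have hxm : x m = 1 := by rw [hx, div_self hR.ne']
  have k0 := hp m
  have k1 := hp (m + 1)
  have k2 := hp (m + 1 + 1)
  have up : ∑ i ∈ Ico 1 (m + 1), W (m + 2) i * (A i * x (m + 1 - i)) ≤
      K (m + 1) * Phi K (m + 1 + 1) := by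
    rw [Phi_eq, top (n := m + 1) (N := m + 1 + 1) (by omega) (by omega), mul_sum]
    refine sum_le_sum fun i hi => ?_
    have h3 := (mem_Ico.1 hi).2
    rw [mul_left_comm (K (m + 1))]
    refine mul_le_mul_of_nonneg_left ?_ (W_nonneg _ _)
    have k3 := hp (m + 1 - i)
    have k4 := hp (m + 1 - i + 1)
    have k5 := hp i
    rw [hA, hx, uu, show m + 1 + 1 - i = m + 1 - i + 1 by omega]
    calc K i * K (m + 1 - i) * (K (m + 1 - i + 1) / K (m + 1 - i) / (K (m + 1) / K m))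
        = K i * K (m + 1 - i + 1) * (K m * K (m + 1 + 1)) / (K (m + 1) * K (m + 1 + 1)) := by
          field_simp
      _ ≤ K i * K (m + 1 - i + 1) * K (m + 1) ^ 2 / (K (m + 1) * K (m + 1 + 1)) := by gcongr
      _ = _ := by field_simp
  have lo : ∑ i ∈ Ico 1 m, W m i * (A i * (2 - x (m - i))) ≤ K (m + 1) * Phi K m := by
    rw [Phi_eq, mul_sum]
    refine sum_le_sum fun i hi => ?_
    have h3 := (mem_Ico.1 hi).2
    rw [mul_left_comm (K (m + 1))]
    refine mul_le_mul_of_nonneg_left ?_ (W_nonneg _ _)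
    have k3 := hp (m - i)
    have k4 := hp (m - i + 1)
    have h4 : 2 - x (m - i) ≤ 1 / x (m - i) := by
      rw [le_div_iff₀ (hx0 _)]
      nlinarith [sq_nonneg (x (m - i) - 1)]
    refine (mul_le_mul_of_nonneg_left h4 (hA0 i).le).trans (le_of_eq ?_)
    rw [hA, hx, uu, show m + 1 - i = m - i + 1 by omega]
    field_simp
  have mid : K (m + 1) * Phi K (m + 1) = ∑ i ∈ Ico 1 (m + 1), W (m + 1) i * A i := by
    rw [Phi_eq, mul_sum]
    refine sum_congr rfl fun i _ => ?_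
    rw [hA, uu]
    field_simp
  have hd : ∑ i ∈ Ico 1 (m + 1), W (m + 2) i * (A i * (1 - x (m + 1 - i))) ≤
      ∑ i ∈ Ico 1 m, W m i * (A i * (1 - x (m - i))) := by
    rw [sum_eq_sum_Ico_succ_bot (by omega), Nat.add_sub_cancel, hxm, sub_self, mul_zero, mul_zero,
      zero_add, ← sum_Ico_add' (fun i => W (m + 2) i * (A i * (1 - x (m + 1 - i)))) 1 m 1]
    refine sum_le_sum fun i hi => ?_
    obtain ⟨h3, h4⟩ := mem_Ico.1 hi
    by_cases h5 : 2 * i ≤ m
    · have h6 := h2 (m + 1) i h3 (by omega)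
      rw [Nat.add_sub_cancel] at h6
      have h7 : A (i + 1) ≤ A i := by rw [hA, hA]; exact A_step hp hc h3 h5
      have h8 : 0 ≤ 1 - x (m - i) := sub_nonneg.2 (hx1 _ (by omega) (by omega))
      have h9 := chi_nonneg m i
      have h10 := QQ_nonneg m i
      have h11 := (hA0 (i + 1)).le
      rw [W, W, chi_shift, show m + 1 - (i + 1) = m - i by omega]
      gcongr
    · rw [W_zero (by omega), W_zero (by omega), zero_mul, zero_mul]
  have hs : ∑ i ∈ Ico 1 (m + 1), (W (m + 2) i + W m i - 2 * W (m + 1) i) = 0 := by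
    have e1 := top (n := m + 1) (N := m + 2) (by omega) (by omega) fun _ => 1
    have e2 := top (n := m) (N := m) hm (by omega) fun _ => 1
    simp only [mul_one] at e1 e2
    rw [sum_sub_distrib, sum_add_distrib, ← mul_sum, ← e1, e2, mass h0 hm, mass h0 (by omega),
      mass h0 (by omega)]
    push_cast
    ring
  have hmass : 0 ≤ ∑ i ∈ Ico 1 (m + 1),
      (W (m + 2) i + W m i - 2 * W (m + 1) i) * (A i - A ((m + 1) / 2)) := by
    refine sum_nonneg fun i hi => ?_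
    obtain ⟨h3, h4⟩ := mem_Ico.1 hi
    by_cases h5 : 2 * i < m
    · have h6 := h1 (m + 1) i h3 (by omega)
      rw [Nat.add_sub_cancel] at h6
      rw [W_one h5, W_one (by omega), W_one (by omega)]
      refine mul_nonneg (by linarith) (sub_nonneg.2 ?_)
      rw [hA, hA]
      exact A_anti hp hc h3 (by omega) (by omega)
    by_cases h6 : m + 2 < 2 * i
    · rw [W_zero h6, W_zero (by omega), W_zero (by omega)]
      simp
    have h7 : A i = A ((m + 1) / 2) := by
      by_cases h8 : (m + 1) / 2 = i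
      · rw [h8]
      · rw [hA, hA, show (m + 1) / 2 = m + 1 - i by omega, Nat.sub_sub_self h4.le, mul_comm]
    rw [h7, sub_self, mul_zero]
  have e3 := top (n := m) (N := m) hm (by omega) A
  simp only [mul_sub, sub_mul, add_mul, sum_sub_distrib, sum_add_distrib, ← sum_mul, mul_one]
    at hmass hs hd lo
  have e4 : ∑ i ∈ Ico 1 m, W m i * (A i * 2) = 2 * ∑ i ∈ Ico 1 m, W m i * A i := by
    rw [mul_sum]
    exact sum_congr rfl fun i _ => by ring
  have e5 : ∑ i ∈ Ico 1 (m + 1), 2 * W (m + 1) i * A i =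
      2 * ∑ i ∈ Ico 1 (m + 1), W (m + 1) i * A i := by
    rw [mul_sum]
    exact sum_congr rfl fun i _ => by ring
  have e6 := congrArg (· * A ((m + 1) / 2)) hs
  simp only [sub_mul, add_mul, zero_mul] at e6
  refine le_of_mul_le_mul_left ?_ k1
  rw [mul_add, mul_left_comm, mid]
  linarith

end Pool.Agent.MP_ddaf7c_pr.A

end MrgPart5

-- ======== part 6: formerly Pool.Agent.MP_ddaf7c_pr.A.Inn
section MrgPart6

/-! The inner hinges on high levels. -/

set_option autoImplicit false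

namespace Pool.Agent.MP_ddaf7c_pr.A

open Finset Real

namespace Inn

theorem ee_pos {r : ℕ} (hr : 1 ≤ r) : 0 < ee r := by
  have : (0 : ℝ) < r := by exact_mod_cast hr
  unfold ee tau
  positivity

theorem om_eq {a b : ℕ} (ha : 1 ≤ a) :
    om a b = 4 * (a / ((a : ℝ) + b)) * (1 - a / ((a : ℝ) + b)) := by
  have : (0 : ℝ) < a := by exact_mod_cast ha
  unfold om
  field_simp
  ring

theorem om_nonneg (a b : ℕ) : 0 ≤ om a b := by
  unfold om
  positivity

theorem om_le {a b : ℕ} (ha : 1 ≤ a) : om a b ≤ 1 := by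
  have : (0 : ℝ) < a := by exact_mod_cast ha
  unfold om
  rw [div_le_one (by positivity)]
  nlinarith [sq_nonneg ((a : ℝ) - b)]

theorem om_top {a b : ℕ} (ha : 1 ≤ a) (hM : 256 ≤ a + b) (h : a ≤ 128) :
    om a b ≤ a * (256 - (a : ℝ)) / 16384 := by
  have h0 : (0 : ℝ) < a := by exact_mod_cast ha
  have h1 : (256 : ℝ) ≤ (a : ℝ) + b := by exact_mod_cast hM
  have h2 : (a : ℝ) ≤ 128 := by exact_mod_cast h
  unfold om
  rw [div_le_div_iff₀ (by positivity) (by norm_num)]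
  have h3 : 0 ≤ 256 * ((a : ℝ) + b) - a * ((a : ℝ) + b + 256) := by nlinarith
  have h4 := mul_nonneg h0.le (mul_nonneg (sub_nonneg.2 h1) h3)
  nlinarith

theorem term (h1 : TERM) (h2 : NLOW) {a b r : ℕ} {φ : ℝ} (hr : 1 ≤ r) (hra : r < a) (hab : a ≤ b)
    (hM : 256 ≤ a + b) (hφ : φ = 0 ∨ φ = 3 / 25) :
    ee r * cc a (om a b) r ≤ ((a : ℝ) - r) * mS φ a b r := by
  have ha : 1 ≤ a := by omega
  have a0 : (0 : ℝ) < a := by exact_mod_cast ha
  have r0 : (0 : ℝ) < r := by exact_mod_cast hr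
  have ra : (r : ℝ) < a := by exact_mod_cast hra
  have ab : (a : ℝ) ≤ b := by exact_mod_cast hab
  have M0 : (0 : ℝ) < (a : ℝ) + b := by linarith
  have s0 : 0 ≤ 1 - (r : ℝ) / a := by rw [sub_nonneg, div_le_one a0]; exact ra.le
  have t0 : 0 < 1 - (r : ℝ) / ((a : ℝ) + b) := by rw [sub_pos, div_lt_one M0]; linarith
  have e1 : 1 - √(1 - (r : ℝ) / a) ^ 2 = r / a := by rw [sq_sqrt s0]; ring
  have hn := h2 (a / ((a : ℝ) + b)) √(1 - r / a) √(1 - r / ((a : ℝ) + b)) φ (by positivity)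
    (by rw [div_le_iff₀ M0]; linarith) (sqrt_nonneg _)
    (sqrt_le_one.2 (sub_le_self _ (by positivity))) (sqrt_pos.2 t0)
    (by rw [e1, sq_sqrt t0.le]; field_simp) hφ
  rw [e1, ← om_eq ha] at hn
  refine le_trans (mul_le_mul_of_nonneg_left ?_ (ee_pos hr).le) (h1 a b r φ hr hra hab hM
    (by rcases hφ with h | h <;> norm_num [h])
    (by rcases hφ with h | h <;> norm_num [h]))
  have h3 := mul_le_mul_of_nonneg_left hn (mul_pos a0 r0).le
  have e2 : (a : ℝ) * r * (0.66 - 0.315 * om a b - (1.17 - 0.35 * om a b) * (r / a)) =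
      (0.66 - 0.315 * om a b) * a * r - (1.17 - 0.35 * om a b) * (r : ℝ) ^ 2 := by
    field_simp
  rw [e2] at h3
  unfold cc
  linarith

theorem cc_sign {a r r' : ℕ} {w : ℝ} (hw : w ≤ 1) (h1 : 0 ≤ cc a w 1) (hr : 1 ≤ r) (hrr : r ≤ r')
    (h : cc a w r < 0) : cc a w r' ≤ 0 := by
  rcases hrr.eq_or_lt with e | hlt
  · exact e ▸ h.le
  have r1 : (1 : ℝ) ≤ r := by exact_mod_cast hr
  have r2 : (r : ℝ) < r' := by exact_mod_cast hlt
  refine le_of_not_gt fun h2 => ?_
  have e : ((r' : ℝ) - 1) * cc a w r = ((r' : ℝ) - r) * cc a w 1 + ((r : ℝ) - 1) * cc a w r' +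
      (1.17 - 0.35 * w) * (((r : ℝ) - 1) * ((r' : ℝ) - r) * ((r' : ℝ) - 1)) := by
    unfold cc
    push_cast
    ring
  have p1 := mul_nonneg (sub_nonneg.2 r2.le) h1
  have p2 := mul_nonneg (sub_nonneg.2 r1) h2.le
  have p3 : 0 ≤ (1.17 - 0.35 * w) * (((r : ℝ) - 1) * ((r' : ℝ) - r) * ((r' : ℝ) - 1)) :=
    mul_nonneg (by linarith) (mul_nonneg (mul_nonneg (by linarith) (by linarith)) (by linarith))
  have p4 := mul_neg_of_pos_of_neg (show 0 < (r' : ℝ) - 1 by linarith) h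
  linarith

theorem l_anti {a i r r' : ℕ} (hi : i ≤ a) (hrr : r ≤ r') (hr : r' < a) :
    ((i - r' : ℕ) : ℝ) / ((a : ℝ) - r') ≤ ((i - r : ℕ) : ℝ) / ((a : ℝ) - r) := by
  have r1 : (r : ℝ) ≤ r' := by exact_mod_cast hrr
  have r2 : (r' : ℝ) < a := by exact_mod_cast hr
  have i1 : (i : ℝ) ≤ a := by exact_mod_cast hi
  rcases le_total i r' with h | h
  · rw [Nat.sub_eq_zero_of_le h, Nat.cast_zero, zero_div]
    exact div_nonneg (Nat.cast_nonneg _) (by linarith)
  · rw [Nat.cast_sub h, Nat.cast_sub (hrr.trans h), div_le_div_iff₀ (by linarith) (by linarith)]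
    nlinarith [mul_nonneg (sub_nonneg.2 i1) (sub_nonneg.2 r1)]

theorem ww_eq {a b i : ℕ} (φ μ : ℝ) (hab : a ≤ b) (hi : i ≤ a) :
    WW φ μ a b i = ∑ s ∈ Icc 1 (a - 1), mS φ a b s * ((i - s : ℕ) : ℝ) := by
  unfold WW
  rw [Nat.sub_eq_zero_of_le hi, Nat.cast_zero]
  symm
  refine sum_subset_zero_on_sdiff (Icc_subset_Icc_right (by omega)) (fun s hs => ?_) fun s hs => ?_
  · simp only [mem_sdiff, mem_Icc] at hs
    rw [Nat.sub_eq_zero_of_le (show i ≤ s by omega)]
    simp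
  · rw [mem_Icc] at hs
    rw [q2, if_neg (by omega)]
    simp

end Inn

theorem inn (h1 : TERM) (h2 : NLOW) (h3 : FA) (h4 : SIGN) : INN := by
  intro a b i φ μ ha hab hM hφ hi
  rw [Inn.ww_eq φ μ hab hi]
  rcases ha.eq_or_lt with rfl | ha2
  · simp
  obtain ⟨f1, f2⟩ := h3 a (om a b) ha2 (Inn.om_nonneg a b) (Inn.om_le ha) (Inn.om_top ha hM)
  have pos : ∀ r, r ≤ a - 1 → (0 : ℝ) < (a : ℝ) - r := fun r hr =>
    sub_pos.2 (by exact_mod_cast (show r < a by omega))
  have l0 : ∀ r, r ≤ a - 1 → 0 ≤ ((i - r : ℕ) : ℝ) / ((a : ℝ) - r) := fun r hr =>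
    div_nonneg (Nat.cast_nonneg _) (pos r hr).le
  have e : Icc 1 (a - 1) = Ico 1 a := by
    ext r
    simp only [mem_Icc, mem_Ico]
    omega
  have key := h4 (a - 1) (fun r => ee r * cc a (om a b) r)
    (fun r => ((i - r : ℕ) : ℝ) / ((a : ℝ) - r))
    (fun r r' hr hrr _ h => mul_nonpos_of_nonneg_of_nonpos (Inn.ee_pos (hr.trans hrr)).le
      (Inn.cc_sign (Inn.om_le ha) f1 hr hrr (neg_of_mul_neg_right h (Inn.ee_pos hr).le)))
    (fun r r' _ hrr h => Inn.l_anti hi hrr (by omega)) (fun r _ h => l0 r h) (by rw [e]; exact f2)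
  refine key.trans (sum_le_sum fun r hr => ?_)
  rw [mem_Icc] at hr
  have h5 := mul_le_mul_of_nonneg_right
    (Inn.term h1 h2 hr.1 (show r < a by omega) hab hM hφ) (l0 r hr.2)
  have p := (pos r hr.2).ne'
  refine h5.trans (le_of_eq ?_)
  field_simp

end Pool.Agent.MP_ddaf7c_pr.A

end MrgPart6

-- ======== part 7: formerly Pool.Agent.MP_ddaf7c_pr.A.Link2
section MrgPart7

/-! The two splitting probabilities, with the number of balanced cuts kept exact. -/

set_option autoImplicit false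

namespace Pool.Agent.MP_ddaf7c_pr.A

open Finset Real

namespace Link2

theorem swap {V : Type} [DecidableEq V] {ω : V → V → ℝ} (hω : ∀ x y, ω x y = ω y x)
    {A B : Finset V} {u : ℝ} (h : K.Kr2 ω A B u) : K.Kr2 ω B A u := by
  induction h with
  | cross A B x y u d hx hy hu a b m =>
    rw [hω x y] at hu a b m
    exact .cross B A y x u d.symm hy hx hu b a fun p hp q hq n =>
      hω q p ▸ m q hq p hp fun e => n (by cases e; rfl)
  | left R A B x y u d hx hy hu a _ m ih =>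
    rw [union_comm A B] at d m
    exact .right R B A x y u d hx hy hu a ih m
  | right R A B x y u d hx hy hu a _ m ih =>
    rw [union_comm A B] at d m
    exact .left R B A x y u d hx hy hu a ih m

theorem count {n : ℕ} (hn : 1 ≤ n) (r : Fin (2 * n)) :
    ((univ : Finset (Fin (2 * n))).powerset.filter fun A => r ∈ A ∧ A.card = n).card =
      (2 * n - 1).choose (n - 1) := by
  have h := card_filter_powersetCard_subset {r} (univ : Finset (Fin (2 * n))) n (subset_univ _)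
    (by simpa using hn)
  rw [card_singleton, card_univ, Fintype.card_fin] at h
  rw [← h]
  congr 1
  ext A
  simp [mem_powersetCard, and_comm]

end Link2

open K.Link in
theorem link2 (h1 : K.CUT) (h2 : K.TREE) (h3 : K.KTWO) : LINK2 := by
  intro S n t hn ht
  have e0 := exp_pos (-t)
  have e1 : exp (-t) ≤ 1 := exp_le_one_iff.2 (by linarith)
  let r : Fin (2 * n) := ⟨0, by omega⟩
  rw [pMST_eq]
  refine (cover ((univ : Finset (Fin (2 * n))).powerset.filter fun A => r ∈ A ∧ A.card = n)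
    (univ : Finset (Fin (2 * n) × Fin (2 * n)))
    _ (fun A => {w | K.Kr2 (K.W w) A Aᶜ (1 - exp (-t))})
    (fun p => {w | 1 - exp (-t) < K.W w p.1 p.2}) ?_).trans (add_le_add ?_ ?_)
  · rintro w ⟨T, hT, hs, hm⟩
    by_cases hc : ∀ x y, K.W w x y ≤ 1 - exp (-t)
    · obtain ⟨A, a1, a2⟩ := h2 _ (K.W w) T _ (W_symm w) hT.2 hs hc (h1 _ w T hT.2 hm)
      by_cases k : r ∈ A
      · exact Or.inl ⟨A, mem_filter.2 ⟨mem_powerset.2 (subset_univ _), k, by omega⟩, a2⟩
      · refine Or.inl ⟨Aᶜ, mem_filter.2 ⟨mem_powerset.2 (subset_univ _), mem_compl.2 k, ?_⟩, ?_⟩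
        · rw [card_compl, Fintype.card_fin]
          omega
        · show K.Kr2 (K.W w) Aᶜ Aᶜᶜ _
          rw [compl_compl]
          exact Link2.swap (W_symm w) a2
    · push Not at hc
      obtain ⟨x, y, h⟩ := hc
      exact Or.inr ⟨(x, y), mem_univ _, h⟩
  · refine (sum_le_card_nsmul _ _ (K.p2 S n n t) fun A hA => ?_).trans (le_of_eq ?_)
    · have a1 := (mem_filter.1 hA).2.2
      have a2 : Aᶜ.card = n := by
        rw [card_compl, Fintype.card_fin, a1]
        omega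
      have := h3 S _ A Aᶜ t ht
      rwa [a1, a2] at this
    · rw [Link2.count hn r, nsmul_eq_mul]
  · refine (sum_le_card_nsmul _ _ (exp (-t)) fun p _ => ?_).trans (le_of_eq ?_)
    · exact (pair p.1 p.2 (by linarith) (by linarith)).trans (by linarith)
    · rw [card_univ, Fintype.card_prod, Fintype.card_fin, nsmul_eq_mul]
      push_cast
      ring

theorem ust2 (h1 : K.PIT) (h2 : K.UPP) (h3 : K.LOW) : UST2 := by
  intro n hn
  obtain ⟨m, rfl⟩ : ∃ m, n = m + 1 := ⟨n - 1, by omega⟩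
  let r : Fin (2 * (m + 1)) := ⟨0, by omega⟩
  have a1 := h3 (m + 1) r
  have a2 := h2 (2 * (m + 1))
  rw [h1 _ _ ⟨r, mem_univ _⟩, card_univ, Fintype.card_fin,
    show 2 * (m + 1) - 1 = 2 * m + 1 by omega, pow_succ'] at a2
  have a5 := Nat.le_of_mul_le_mul_left a2 (by omega)
  rw [sum_congr rfl (g := fun _ => (m + 1) ^ m * (m + 1) ^ m) (fun A hA => by
    obtain ⟨-, -, hc⟩ := mem_filter.1 hA
    have hc' : Aᶜ.card = m + 1 := by rw [card_compl, Fintype.card_fin, hc]; omega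
    rw [h1 _ _ (card_pos.1 (by omega)), h1 _ _ (card_pos.1 (by omega)), hc, hc']
    rfl), sum_const, smul_eq_mul, Link2.count hn r] at a1
  have a6 := Set.ncard_le_ncard
    (s := {T : SimpleGraph (Fin (2 * (m + 1))) | IsSpanningTree ⊤ T ∧ Splittable T})
    (t := {T | IsSpanningTree ⊤ T}) (fun T hT => hT.1) (Set.toFinite _)
  have hc : 0 < (2 * (m + 1) - 1).choose (m + 1 - 1) := Nat.choose_pos (by omega)
  unfold pUST
  generalize {T : SimpleGraph (Fin (2 * (m + 1))) | IsSpanningTree ⊤ T ∧ Splittable T}.ncard = s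
    at a1 a6 ⊢
  generalize {T : SimpleGraph (Fin (2 * (m + 1))) | IsSpanningTree ⊤ T}.ncard = t at a5 a6 ⊢
  generalize (2 * (m + 1) - 1).choose (m + 1 - 1) = c at a1 hc ⊢
  have hP : 0 < (m + 1) ^ m * (m + 1) ^ m := by positivity
  have hs : 0 < s := lt_of_lt_of_le (Nat.mul_pos hc hP) a1
  have b1 : t ≤ 4 ^ m * ((m + 1) ^ m * (m + 1) ^ m) := a5.trans_eq (by
    rw [mul_pow, pow_mul, two_mul m, pow_add]; norm_num)
  have b2 : c * t ≤ s * 4 ^ m :=
    calc c * t ≤ c * (4 ^ m * ((m + 1) ^ m * (m + 1) ^ m)) := Nat.mul_le_mul_left _ b1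
      _ = c * ((m + 1) ^ m * (m + 1) ^ m) * 4 ^ m := by ring
      _ ≤ _ := Nat.mul_le_mul_right _ a1
  have ht : (0 : ℝ) < t := by exact_mod_cast lt_of_lt_of_le hs a6
  have e : (c : ℝ) * (4 / 4 ^ (m + 1)) = c / 4 ^ m := by
    rw [pow_succ]
    field_simp
  rw [e, div_le_div_iff₀ (by positivity) ht]
  exact_mod_cast b2

end Pool.Agent.MP_ddaf7c_pr.A

end MrgPart7

-- ======== part 8: formerly Pool.Agent.MP_ddaf7c_pr.A.Rhod
section MrgPart8

/-! A lower bound for the first moment of the Abel coefficients. -/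

set_option autoImplicit false

namespace Pool.Agent.MP_ddaf7c_pr.A

open Finset Real

namespace Rhod

theorem tel (f T : ℕ → ℝ) (R : ℕ) (h : ∀ r, 1 ≤ r → r ≤ R → T (r + 1) - T r ≤ f r) :
    T (R + 1) - T 1 ≤ ∑ r ∈ Icc 1 R, f r := by
  induction R with
  | zero => simp
  | succ R ih =>
    rw [sum_Icc_succ_top (by omega)]
    have a := ih fun r h1 h2 => h r h1 (by omega)
    have b := h (R + 1) (by omega) le_rfl
    linarith

theorem ee_pos {c : ℕ} (hc : 1 ≤ c) : 0 < ee c := by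
  have : (0 : ℝ) < c := by exact_mod_cast hc
  unfold ee tau
  positivity

theorem QQ_eq (r m : ℕ) : QQ (r + m) r = (r + m : ℝ) * (ee r * ee m / ee (r + m)) := by
  unfold QQ TT ee
  rw [Nat.add_sub_cancel_left]
  push_cast
  rw [neg_add, exp_add, mul_mul_mul_comm, mul_div_mul_right _ _ (by positivity)]

theorem step (r m : ℝ) (hr : 1 ≤ r) (hm : r ≤ m) :
    √(r + 1) / √m - √r / √(m + 1) ≤ (1 - 1 / (12 * r)) * ((r + m) / 2) / (√r * (m * √m)) := by
  have r0 : 0 < r := by linarith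
  have m0 : 0 < m := by linarith
  have sr := sqrt_pos.2 r0
  have sm := sqrt_pos.2 m0
  have sm1 := sqrt_pos.2 (show 0 < m + 1 by linarith)
  obtain ⟨δ, hδ⟩ : ∃ δ, δ = 1 / (12 * r) := ⟨_, rfl⟩
  have d1 : δ * r = 1 / 12 := by
    rw [hδ]
    field_simp
  have d0 : 0 < δ := by
    rw [hδ]
    positivity
  have d2 : δ ≤ 1 / 12 := by nlinarith
  have a1 : √r * √(r + 1) ≤ r + 1 / 2 - δ := by
    rw [← sqrt_mul r0.le]
    exact sqrt_le_iff.2 ⟨by linarith, by nlinarith [sq_nonneg δ]⟩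
  have a2 : m - 1 / 2 ≤ m * (√m / √(m + 1)) := by
    rw [← mul_div_assoc, le_div_iff₀ sm1]
    refine abs_le_of_sq_le_sq' ?_ (by positivity) |>.2
    rw [mul_pow, mul_pow, sq_sqrt m0.le, sq_sqrt (by linarith)]
    nlinarith
  rw [le_div_iff₀ (by positivity), ← hδ]
  have e : (√(r + 1) / √m - √r / √(m + 1)) * (√r * (m * √m)) =
      m * (√r * √(r + 1)) - √r * √r * (m * (√m / √(m + 1))) := by
    field_simp
  rw [e, mul_self_sqrt r0.le]
  have a3 := mul_le_mul_of_nonneg_left a1 m0.le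
  have a4 := mul_le_mul_of_nonneg_left a2 r0.le
  have a5 := mul_le_mul_of_nonneg_left hm d0.le
  nlinarith

theorem term (h : STIR) (r m : ℕ) (hr : 1 ≤ r) (hm : r ≤ m) :
    2 * c0 * ((r + m : ℝ) * √(r + m : ℝ)) * (1 - 1 / (12 * (r + m : ℝ))) *
      (√(r + 1 : ℝ) / √m - √r / √(m + 1 : ℝ)) ≤ r * QQ (r + m) r := by
  have r1 : (1 : ℝ) ≤ r := by exact_mod_cast hr
  have m1 : (r : ℝ) ≤ m := by exact_mod_cast hm
  have r0 : (0 : ℝ) < r := by linarith
  have m0 : (0 : ℝ) < m := by linarith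
  have sr := sqrt_pos.2 r0
  have sm := sqrt_pos.2 m0
  have c1 : 0 < c0 := by linarith [h.1.1]
  have e1 := ee_pos hr
  have e2 := ee_pos (hr.trans hm)
  have e3 := ee_pos (show 1 ≤ r + m by omega)
  have a1 := (h.2.1 r hr).1
  have a2 := (h.2.2.1 m (r + m) (hr.trans hm) (by omega)).2.1
  push_cast at a2
  obtain ⟨M, hM⟩ : ∃ M : ℝ, M = r + m := ⟨_, rfl⟩
  have st := step r m r1 m1
  rw [QQ_eq]
  rw [← hM] at a2 st ⊢
  have M1 : 1 ≤ M := by linarith
  have k0 : 0 ≤ 1 - 1 / (12 * M) := by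
    rw [sub_nonneg, div_le_one (by linarith)]
    linarith
  have k1 : 0 ≤ 1 - 1 / (12 * (r : ℝ)) := by
    rw [sub_nonneg, div_le_one (by linarith)]
    linarith
  have k2 : (M - m) / (12 * M * m) ≤ 1 / (12 * M) := by
    rw [div_le_div_iff₀ (by positivity) (by positivity)]
    nlinarith
  have b1 : c0 * (1 - 1 / (12 * r)) / (r * √r) ≤ ee r := by
    rwa [div_le_iff₀ (by positivity)]
  have b2 : M * √M * (1 - 1 / (12 * M)) / (m * √m) ≤ ee m / ee (r + m) := by
    rw [div_le_div_iff₀ (by positivity) e3]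
    have : 0 ≤ ee (r + m) * (M * √M) := by positivity
    nlinarith [mul_le_mul_of_nonneg_left (sub_le_sub_left k2 1) this]
  have b3 := mul_le_mul b1 b2 (by positivity) e1.le
  have b4 := mul_le_mul_of_nonneg_left b3 (show 0 ≤ r * M by positivity)
  have b5 := mul_le_mul_of_nonneg_left st
    (show 0 ≤ 2 * c0 * (M * √M) * (1 - 1 / (12 * M)) by positivity)
  refine b5.trans (le_trans (le_of_eq ?_) (b4.trans (le_of_eq ?_)))
  · field_simp
  · ring

end Rhod

theorem rhod (h : STIR) : RHOD := by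
  intro a M ha hM h5
  have a1 : (1 : ℝ) ≤ a := by exact_mod_cast ha
  have M1 : (256 : ℝ) ≤ M := by exact_mod_cast hM
  have h5' : 5 * (a : ℝ) ≤ 2 * M := by exact_mod_cast h5
  have M0 : (0 : ℝ) < M := by linarith
  have sM := sqrt_pos.2 M0
  have c1 : 0 < c0 := by linarith [h.1.1]
  have ex : (1 - 2 * ((a : ℝ) / M)) / (1 + 2 * ((a : ℝ) / M)) = (M - 2 * a) / (M + 2 * a) := by
    field_simp
  have ee2 : 1 - (√(M : ℝ))⁻¹ ^ 2 / 12 = 1 - 1 / (12 * M) := by
    rw [inv_pow, sq_sqrt M0.le]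
    field_simp
  have k0 : 0 < 1 - 1 / (12 * (M : ℝ)) := by
    rw [sub_pos, div_lt_one (by linarith)]
    linarith
  unfold Dd
  rw [ex, ee2]
  refine ⟨mul_pos (sub_pos.2 ?_) k0, ?_⟩
  · rw [lt_sqrt (by positivity), inv_pow, sq_sqrt M0.le, inv_eq_one_div,
      div_lt_div_iff₀ M0 (by linarith)]
    nlinarith
  obtain ⟨R, hR⟩ : ∃ R, M / 2 - a = R := ⟨_, rfl⟩
  have R1 : (M : ℝ) ≤ 2 * R + 2 * a + 1 := by exact_mod_cast (by omega : M ≤ 2 * R + 2 * a + 1)
  have R2 : 2 * (R : ℝ) ≤ M := by exact_mod_cast (by omega : 2 * R ≤ M)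
  rw [hR]
  have t := Rhod.tel (fun r => r * QQ M r)
    (fun r => 2 * c0 * (M * √M) * (1 - 1 / (12 * M)) * (√r / √(M - r + 1))) R (by
      intro r h1 h2
      obtain ⟨m, rfl⟩ : ∃ m, M = r + m := ⟨M - r, by omega⟩
      have := Rhod.term h r m h1 (by omega)
      push_cast
      rw [← mul_sub, show (r + m : ℝ) - (r + 1) + 1 = m by ring,
        show (r + m : ℝ) - r + 1 = m + 1 by ring]
      exact this)
  refine le_trans ?_ t
  push_cast
  rw [← mul_sub, sub_add_cancel, sqrt_one, one_div (√(M : ℝ)), ← sqrt_div' _ (by linarith),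
    mul_comm (_ - _), ← mul_assoc]
  refine mul_le_mul_of_nonneg_left (sub_le_sub_right (sqrt_le_sqrt ?_) _) (by positivity)
  rw [div_le_div_iff₀ (by linarith) (by linarith)]
  nlinarith

end Pool.Agent.MP_ddaf7c_pr.A

end MrgPart8

-- ======== part 9: formerly Pool.Agent.MP_ddaf7c_pr.A.Rhon
section MrgPart9

/-! An upper bound for the shifted first moment of the Abel coefficients. -/

set_option autoImplicit false

namespace Pool.Agent.MP_ddaf7c_pr.A

open Finset Real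

namespace RHON

theorem ee_pos {c : ℕ} (h : 1 ≤ c) : 0 < ee c := by
  have : (0 : ℝ) < c := by exact_mod_cast h
  unfold ee tau
  positivity

theorem QQ_le (h : STIR) {s m : ℕ} (hs : 1 ≤ s) (hm : 1 ≤ m) :
    QQ (s + m) s * √(s * m) ^ 3 ≤ c0 * ((s + m) * √(s + m)) * (s + m) := by
  have e : QQ (s + m) s * ee (s + m) = (s + m) * (ee s * ee m) := by
    have := ee_pos (show 1 ≤ s + m by omega)
    have t : tau (s + m) ≠ 0 := fun e => by simp [ee, e] at this
    simp only [QQ, TT, ee, Nat.add_sub_cancel_left, Nat.cast_add, neg_add, exp_add]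
    field_simp
  have a1 := (h.2.1 s hs).2
  have a2 := (h.2.2.1 m (s + m) hm (by omega)).1
  have p1 := ee_pos hs
  have p2 := ee_pos hm
  have p3 := ee_pos (show 1 ≤ s + m by omega)
  have e2 : √((s : ℝ) * m) ^ 3 = s * √s * (m * √m) := by
    rw [pow_succ, sq_sqrt (by positivity), sqrt_mul (by positivity)]
    ring
  push_cast at a2
  refine le_of_mul_le_mul_right ?_ p3
  rw [mul_right_comm, e, e2]
  have := mul_le_mul_of_nonneg_left (mul_le_mul a1 a2 (by positivity)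
    (le_trans (by norm_num) h.1.1)) (show (0 : ℝ) ≤ s + m by positivity)
  linarith

theorem stepG {s m : ℝ} (hs : 1 ≤ s) (hm : 1 ≤ m) : s + m ≤
    (√((s + 1 / 2) / (m - 1 / 2)) - √((s - 1 / 2) / (m + 1 / 2))) * (2 * m * √(s * m)) := by
  have m1 : 0 < m - 1 / 2 := by linarith
  have s1 : 0 < s - 1 / 2 := by linarith
  have h1 := sq_sqrt (show 0 ≤ (s + 1 / 2) / (m - 1 / 2) by positivity)
  have h2 := sq_sqrt (show 0 ≤ (s - 1 / 2) / (m + 1 / 2) by positivity)
  have h3 := sq_sqrt (show 0 ≤ s * m by positivity)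
  have p1 := sqrt_nonneg ((s + 1 / 2) / (m - 1 / 2))
  have p2 := sqrt_nonneg ((s - 1 / 2) / (m + 1 / 2))
  have p3 := sqrt_nonneg (s * m)
  generalize √((s + 1 / 2) / (m - 1 / 2)) = A at *
  generalize √((s - 1 / 2) / (m + 1 / 2)) = B at *
  generalize √(s * m) = u at *
  obtain ⟨w, hw⟩ : ∃ w, w = (m - 1 / 2) * (m + 1 / 2) := ⟨_, rfl⟩
  have w0 : 0 < w := by rw [hw]; positivity
  have a1 : A ^ 2 * w = (s + 1 / 2) * (m + 1 / 2) := by
    rw [h1, hw, ← mul_assoc, div_mul_cancel₀ _ m1.ne']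
  have a2 : B ^ 2 * w = (s - 1 / 2) * (m - 1 / 2) := by rw [h2, hw]; field_simp
  have a3 : A * B * w ≤ s * m - 1 / 4 := by
    refine (sq_le_sq₀ (by positivity) (by nlinarith)).1 ?_
    rw [show (A * B * w) ^ 2 = A ^ 2 * w * (B ^ 2 * w) by ring, a1, a2]
    nlinarith [sq_nonneg (s - m)]
  have a4 : (A + B) * w ≤ 2 * m * u := by
    refine (sq_le_sq₀ (by positivity) (by positivity)).1 ?_
    rw [show ((A + B) * w) ^ 2 = (A ^ 2 * w + B ^ 2 * w + 2 * (A * B * w)) * w by ring, a1, a2,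
      show (2 * m * u) ^ 2 = 4 * u ^ 2 * m ^ 2 by ring, h3]
    exact mul_le_mul (by linarith) (by rw [hw]; linarith) w0.le (by positivity)
  have a5 : (A - B) * ((A + B) * w) = s + m := by linear_combination a1 - a2
  have a6 : 0 ≤ A - B := nonneg_of_mul_nonneg_left (by rw [a5]; positivity) (by
    refine (mul_nonneg (add_nonneg p1 p2) w0.le).lt_of_ne fun e => ?_
    rw [← e] at a5
    linarith)
  exact a5 ▸ mul_le_mul_of_nonneg_left a4 a6

theorem stepJ {u v d d' : ℝ} (hu : 0 < u) (hv : 0 ≤ v) (h : v ^ 2 = u ^ 2 + d - 1)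
    (h' : d' = d - 2 ∧ 2 ≤ d ∨ d' = 0 ∧ d ≤ 2) :
    2 * (d / u - d' / v) * u ^ 3 ≤ 4 * u ^ 2 + d ^ 2 := by
  rcases h' with ⟨rfl, h2⟩ | ⟨rfl, h2⟩
  · have uv : u ≤ v := (sq_le_sq₀ hu.le hv).1 (by linarith)
    have v0 : 0 < v := hu.trans_le uv
    have a : 2 * u ^ 2 * (v - u) ≤ (d - 1) * v := by
      rw [show d - 1 = (v - u) * (v + u) by linarith]
      nlinarith [mul_nonneg (sub_nonneg.2 uv) (show 0 ≤ (v + u) * v - 2 * u ^ 2 by nlinarith)]
    rw [show 2 * (d / u - (d - 2) / v) * u ^ 3 =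
      4 * u ^ 2 + (d - 2) * (2 * u ^ 2 * (v - u)) / v by field_simp; ring, add_le_add_iff_left,
      div_le_iff₀ v0]
    nlinarith [mul_le_mul_of_nonneg_left a (sub_nonneg.2 h2), mul_nonneg v0.le (sub_nonneg.2 h2)]
  · rw [show 2 * (d / u - 0 / v) * u ^ 3 = 2 * d * u ^ 2 by field_simp; ring]
    nlinarith [mul_nonneg (sub_nonneg.2 h2) (sq_nonneg u), sq_nonneg d]

/-- the primitive -/
noncomputable def T (a M s : ℕ) : ℝ := √(((s : ℝ) - 1 / 2) / (M - s + 1 / 2)) +
  a / M * (((M - 2 * s : ℕ) : ℝ) / √(s * (M - s)))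

theorem step (h : STIR) {a r M : ℕ} (hr : 1 ≤ r) (hM : 2 * (r + a) ≤ M) :
    r * QQ M (r + a) ≤ 2 * c0 * (M * √M) * (T a M (r + a + 1) - T a M (r + a)) := by
  obtain ⟨m, rfl⟩ : ∃ m, M = r + a + m := ⟨M - (r + a), by omega⟩
  obtain ⟨s, hs⟩ : ∃ s, s = r + a := ⟨_, rfl⟩
  rw [← hs] at hM ⊢
  have s1 : (1 : ℝ) ≤ s := by exact_mod_cast (by omega : 1 ≤ s)
  have sm : (s : ℝ) ≤ m := by exact_mod_cast (by omega : s ≤ m)
  have m1 := s1.trans sm
  have rs : (r : ℝ) = s - a := by rw [hs]; push_cast; ring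
  have q := QQ_le h (show 1 ≤ s by omega) (show 1 ≤ m by omega)
  have g := stepG s1 m1
  have u0 : 0 < √((s : ℝ) * m) := by positivity
  have u2 := sq_sqrt (show 0 ≤ (s : ℝ) * m by positivity)
  have j := stepJ (d := m - s) (d' := ((s + m - 2 * (s + 1) : ℕ) : ℝ)) u0
    (sqrt_nonneg (((s : ℝ) + 1) * (m - 1))) (by
      rw [u2, sq_sqrt (mul_nonneg (by linarith) (by linarith))]; ring) (by
      by_cases e : s + 2 ≤ m
      · have : (s : ℝ) + 2 ≤ m := by exact_mod_cast e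
        exact Or.inl ⟨by rw [Nat.cast_sub (by omega)]; push_cast; ring, by linarith⟩
      · have : (m : ℝ) ≤ s + 2 := by exact_mod_cast (by omega : m ≤ s + 2)
        exact Or.inr ⟨by rw [show s + m - 2 * (s + 1) = 0 by omega, Nat.cast_zero], by linarith⟩)
  have c := le_trans (by norm_num) h.1.1 (a := 0)
  simp only [T, Nat.cast_sub hM, Nat.cast_add, Nat.cast_one, Nat.cast_mul, Nat.cast_ofNat]
  rw [show (s : ℝ) + 1 - 1 / 2 = s + 1 / 2 by ring,
    show (s : ℝ) + m - (s + 1) + 1 / 2 = m - 1 / 2 by ring,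
    show (s : ℝ) + m - (s + 1) = m - 1 by ring, show (s : ℝ) + m - s = m by ring,
    show (s : ℝ) + m - 2 * s = m - s by ring]
  generalize √(((s : ℝ) + 1 / 2) / (m - 1 / 2)) = A at *
  generalize √(((s : ℝ) - 1 / 2) / (m + 1 / 2)) = B at *
  generalize ((s + m - 2 * (s + 1) : ℕ) : ℝ) / √(((s : ℝ) + 1) * (m - 1)) = J at *
  generalize √((s : ℝ) * m) = u at *
  have M0 : (0 : ℝ) < s + m := by positivity
  have k : r * ((s : ℝ) + m) ≤
      2 * (A + a / (s + m) * J - (B + a / (s + m) * ((m - s) / u))) * u ^ 3 := by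
    have b1 := mul_le_mul_of_nonneg_left g (show (0 : ℝ) ≤ s by positivity)
    have b2 := mul_le_mul_of_nonneg_left j (show (0 : ℝ) ≤ a / (s + m) by positivity)
    have b3 : (a : ℝ) / (s + m) * (4 * u ^ 2 + (m - s) ^ 2) = a * (s + m) := by
      rw [u2]; field_simp; ring
    have b4 : s * ((A - B) * (2 * m * u)) = 2 * (A - B) * u ^ 3 := by
      rw [pow_succ, u2]; ring
    rw [rs]
    linarith
  refine le_of_mul_le_mul_right ?_ (pow_pos u0 3)
  have b5 := mul_le_mul_of_nonneg_left q (Nat.cast_nonneg (α := ℝ) r)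
  have b6 := mul_le_mul_of_nonneg_left k (show 0 ≤ c0 * ((s + m) * √((s : ℝ) + m)) by positivity)
  linarith

theorem tele (h : STIR) (a M k : ℕ) (hM : 2 * (k + a) ≤ M) : ∑ r ∈ Icc 1 k, r * QQ M (r + a) ≤
    2 * c0 * (M * √M) * (T a M (k + a + 1) - T a M (a + 1)) := by
  induction k with
  | zero => simp
  | succ k ih =>
    have := step h (show 1 ≤ k + 1 by omega) hM
    have := ih (by omega)
    rw [sum_Icc_succ_top (by omega)]
    rw [show k + a + 1 = k + 1 + a by ring] at this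
    linarith

end RHON

theorem rhon (h : STIR) : RHON := by
  intro a M ha hM h5
  have c := le_trans (by norm_num) h.1.1 (a := 0)
  have M1 : (256 : ℝ) ≤ M := by exact_mod_cast hM
  have a1 : 5 * (a : ℝ) ≤ 2 * M := by exact_mod_cast h5
  have a0 : (1 : ℝ) ≤ a := by exact_mod_cast ha
  have M0 : (0 : ℝ) < M := by linarith
  refine (RHON.tele h a M _ (by omega)).trans (mul_le_mul_of_nonneg_left ?_ (by positivity))
  rw [show M / 2 - a + a = M / 2 by omega]
  have H1 : 2 * ((M / 2 : ℕ) : ℝ) ≤ M := by exact_mod_cast (by omega : 2 * (M / 2) ≤ M)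
  have H0 := Nat.cast_nonneg (α := ℝ) (M / 2)
  simp only [RHON.T, Nn, inv_pow, sq_sqrt M0.le, show M - 2 * (M / 2 + 1) = 0 by omega,
    Nat.cast_sub (show 2 * (a + 1) ≤ M by omega), Nat.cast_add, Nat.cast_one, Nat.cast_mul,
    Nat.cast_ofNat, Nat.cast_zero, zero_div, mul_zero, add_zero]
  generalize ((M / 2 : ℕ) : ℝ) = H at *
  have b1 : √((H + 1 - 1 / 2) / (M - (H + 1) + 1 / 2)) ≤ 1 + 1.01 * (M : ℝ)⁻¹ := by
    refine sqrt_le_iff.2 ⟨by positivity, ?_⟩
    have i : (M : ℝ) * (M : ℝ)⁻¹ = 1 := mul_inv_cancel₀ M0.ne'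
    have i0 := inv_pos.2 M0
    have i1 : 256 * (M : ℝ)⁻¹ ≤ 1 := by nlinarith
    rw [div_le_iff₀ (by linarith)]
    calc H + 1 - 1 / 2 ≤ (1 + 2.02 * (M : ℝ)⁻¹) * ((M - 1) / 2) := by nlinarith
      _ ≤ _ := mul_le_mul (by nlinarith) (by linarith) (by linarith) (by positivity)
  have x1 : 0 < 1 - (a : ℝ) / M := by rw [sub_pos, div_lt_one M0]; linarith
  have b2 : √(((a : ℝ) / M + (M : ℝ)⁻¹ / 2) / (1 - a / M)) ≤
      √(((a : ℝ) + 1 - 1 / 2) / (M - (a + 1) + 1 / 2)) := by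
    refine sqrt_le_sqrt ?_
    have : (M : ℝ) - a ≠ 0 := by linarith
    rw [show ((a : ℝ) / M + (M : ℝ)⁻¹ / 2) / (1 - a / M) = (a + 1 - 1 / 2) / (M - a) by
      field_simp; ring]
    exact div_le_div_of_nonneg_left (by linarith) (by linarith) (by linarith)
  have b3 : (1 - 2 * ((a : ℝ) / M) - 2 * (M : ℝ)⁻¹) / √(((a : ℝ) / M + (M : ℝ)⁻¹) * (1 - a / M)) ≤
      (M - 2 * (a + 1)) / √(((a : ℝ) + 1) * (M - (a + 1))) := by
    rw [← mul_div_mul_left _ _ M0.ne', show (M : ℝ) * (1 - 2 * ((a : ℝ) / M) - 2 * (M : ℝ)⁻¹) =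
      M - 2 * (a + 1) by field_simp; ring]
    refine div_le_div_of_nonneg_left (by linarith)
      (sqrt_pos.2 (mul_pos (by linarith) (by linarith))) (sqrt_le_iff.2 ⟨by positivity, ?_⟩)
    rw [mul_pow, sq_sqrt (by positivity), show (M : ℝ) ^ 2 * (((a : ℝ) / M + (M : ℝ)⁻¹) *
      (1 - a / M)) = (a + 1) * (M - a) by field_simp]
    nlinarith
  have b4 := mul_le_mul_of_nonneg_left b3 (show 0 ≤ (a : ℝ) / M by positivity)
  rw [mul_div_assoc]
  linarith

end Pool.Agent.MP_ddaf7c_pr.A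

end MrgPart9

-- ======== part 10: formerly Pool.Agent.MP_ddaf7c_pr.A.Stir
section MrgPart10

/-! Consequences of the stepwise Stirling bounds. -/

set_option autoImplicit false

namespace Pool.Agent.MP_ddaf7c_pr.A

open Finset Real Stirling Filter Topology

namespace Stir

theorem s_pos {c : ℕ} (hc : 1 ≤ c) : 0 < stirlingSeq c := by
  obtain ⟨n, rfl⟩ := Nat.exists_eq_add_of_le' hc
  exact stirlingSeq'_pos n

theorem mul_ee (n : ℕ) : ((n + 1 : ℕ) : ℝ) * ee (n + 1) =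
    ((n : ℝ) + 1) ^ (n + 1) * exp (-((n : ℝ) + 1)) / (n + 1).factorial := by
  simp only [ee, tau, Nat.add_sub_cancel]
  push_cast
  ring

theorem ee_eq {c : ℕ} (hc : 1 ≤ c) : ee c * (c * √c) = (√2 * stirlingSeq c)⁻¹ := by
  obtain ⟨n, rfl⟩ := Nat.exists_eq_add_of_le' hc
  have h1 : (exp 1) ^ (n + 1) = exp ((n : ℝ) + 1) := by
    rw [← exp_nat_mul]
    push_cast
    ring_nf
  have h2 : (0 : ℝ) < (n + 1).factorial := by positivity
  have h3 : (0 : ℝ) < √2 := by positivity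
  have h4 : (0 : ℝ) < √((n + 1 : ℕ) : ℝ) := by positivity
  rw [← mul_assoc, mul_comm (ee _), mul_ee, stirlingSeq, sqrt_mul (by norm_num), div_pow, h1,
    exp_neg]
  push_cast at h4 ⊢
  field_simp

theorem c0_eq : c0 = (√2 * √π)⁻¹ := by rw [c0, sqrt_mul (by norm_num)]

theorem log_le (j d : ℕ) (hj : 1 ≤ j) : log (stirlingSeq j) - log (stirlingSeq (j + d)) ≤
    (1 / (j : ℝ) - 1 / ((j + d : ℕ) : ℝ)) / 12 := by
  induction d with
  | zero => simp
  | succ d ih =>
    have h1 := log_stirlingSeq_sdiff_le (j + d)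
    have h2 : (0 : ℝ) < ((j + d : ℕ) : ℝ) := by positivity
    have h3 : 1 / (12 * ((j + d : ℕ) : ℝ) * (((j + d : ℕ) : ℝ) + 1)) =
        (1 / ((j + d : ℕ) : ℝ) - 1 / ((j + (d + 1) : ℕ) : ℝ)) / 12 := by
      rw [← add_assoc, Nat.cast_succ]
      field_simp
      ring
    rw [h3] at h1
    rw [← add_assoc] at h1 ⊢
    linarith

theorem mono {j c : ℕ} (hj : 1 ≤ j) (h : j ≤ c) : ee j * (j * √j) ≤ ee c * (c * √c) := by
  rw [ee_eq hj, ee_eq (hj.trans h)]
  have h1 := s_pos (hj.trans h)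
  have h2 : stirlingSeq c ≤ stirlingSeq j := by
    obtain ⟨n, rfl⟩ := Nat.exists_eq_add_of_le' hj
    obtain ⟨m, rfl⟩ := Nat.exists_eq_add_of_le' (hj.trans h)
    exact stirlingSeq'_antitone (Nat.le_of_succ_le_succ h)
  gcongr

theorem lower {j c : ℕ} (hj : 1 ≤ j) (h : j ≤ c) :
    ee c * (c * √c) * (1 - ((c : ℝ) - j) / (12 * c * j)) ≤ ee j * (j * √j) := by
  rw [ee_eq hj, ee_eq (hj.trans h)]
  have h1 := s_pos (hj.trans h)
  have h2 := s_pos hj
  have h3 : (0 : ℝ) < j := by exact_mod_cast hj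
  have h4 : (0 : ℝ) < c := by exact_mod_cast hj.trans h
  have h5 : log (stirlingSeq j) - log (stirlingSeq c) ≤ ((c : ℝ) - j) / (12 * c * j) := by
    obtain ⟨d, rfl⟩ := Nat.exists_eq_add_of_le h
    refine (log_le j d hj).trans (le_of_eq ?_)
    field_simp
  have h6 : 1 - ((c : ℝ) - j) / (12 * c * j) ≤ stirlingSeq c / stirlingSeq j := by
    have h7 := add_one_le_exp (log (stirlingSeq c) - log (stirlingSeq j))
    rw [exp_sub, exp_log h1, exp_log h2] at h7
    linarith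
  refine (mul_le_mul_of_nonneg_left h6 (by positivity)).trans (le_of_eq ?_)
  field_simp

theorem step (n : ℕ) : ((n + 1 + 1 : ℕ) : ℝ) * ee (n + 1 + 1) ≤ ((n + 1 : ℕ) : ℝ) * ee (n + 1) := by
  rw [mul_ee, mul_ee, Nat.factorial_succ (n + 1)]
  push_cast
  set x : ℝ := (n : ℝ) + 1 with hx
  have h0 : 0 < x := by positivity
  have h1 : (x + 1) ^ (n + 1) ≤ x ^ (n + 1) * exp 1 := by
    have h2 : x + 1 ≤ x * exp (1 / x) := by
      have := mul_le_mul_of_nonneg_left (add_one_le_exp (1 / x)) h0.le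
      rwa [mul_add, mul_one_div_cancel h0.ne', mul_one, add_comm] at this
    refine (pow_le_pow_left₀ (by positivity) h2 _).trans (le_of_eq ?_)
    rw [mul_pow, ← exp_nat_mul]
    push_cast
    rw [← hx, mul_one_div_cancel h0.ne']
  have h3 : exp (-(x + 1)) = exp (-x) / exp 1 := by rw [← exp_sub]; ring_nf
  have h4 : (0 : ℝ) < (n + 1).factorial := by positivity
  have h5 := exp_pos 1
  have h6 := exp_pos (-x)
  rw [h3, pow_succ (x + 1) (n + 1), div_le_div_iff₀ (by positivity) h4]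
  calc (x + 1) ^ (n + 1) * (x + 1) * (exp (-x) / exp 1) * (n + 1).factorial
      ≤ x ^ (n + 1) * exp 1 * (x + 1) * (exp (-x) / exp 1) * (n + 1).factorial := by gcongr
    _ = _ := by field_simp

theorem anti {j c : ℕ} (hj : 1 ≤ j) (h : j ≤ c) : c * ee c ≤ j * ee j := by
  induction c, h using Nat.le_induction with
  | base => exact le_rfl
  | succ c hc ih =>
    obtain ⟨n, rfl⟩ := Nat.exists_eq_add_of_le' (hj.trans hc)
    exact (step n).trans ih

theorem low0 {j : ℕ} (hj : 1 ≤ j) : c0 * (1 - 1 / (12 * j)) ≤ ee j * (j * √j) := by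
  have h3 : (0 : ℝ) < j := by exact_mod_cast hj
  have h1 : Tendsto (fun c => (√2 * stirlingSeq c)⁻¹ * (1 - 1 / (12 * (j : ℝ)))) atTop
      (𝓝 (c0 * (1 - 1 / (12 * j)))) := by
    rw [c0_eq]
    exact ((tendsto_stirlingSeq_sqrt_pi.const_mul _).inv₀ (by positivity)).mul_const _
  refine le_of_tendsto h1 (eventually_atTop.2 ⟨j, fun c hc => le_trans ?_ (lower hj hc)⟩)
  have h4 : (0 : ℝ) < c := by exact_mod_cast hj.trans hc
  have h5 := s_pos (hj.trans hc)
  rw [ee_eq (hj.trans hc)]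
  refine mul_le_mul_of_nonneg_left (sub_le_sub_left ?_ 1) (by positivity)
  rw [div_le_div_iff₀ (by positivity) (by positivity)]
  nlinarith

theorem cvx (n : ℕ) : ee (n + 2) ^ 2 ≤ ee (n + 1) * ee (n + 3) := by
  set x : ℝ := (n : ℝ) + 2 with hx
  have h0 : 0 < x := by positivity
  have hn : (0 : ℝ) ≤ n := by positivity
  have h1 : x ^ (2 * n + 1) ≤ (x - 1) ^ n * (x + 1) ^ (n + 1) := by
    have h2 := one_add_mul_le_pow (a := -(1 / x ^ 2)) (by
      have : 1 / x ^ 2 ≤ 1 := by rw [div_le_one (by positivity)]; nlinarith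
      linarith) n
    have h3 : (x - 1) ^ n * (x + 1) ^ (n + 1) = x ^ (2 * n) * (1 + -(1 / x ^ 2)) ^ n * (x + 1) := by
      rw [pow_succ (x + 1), ← mul_assoc, ← mul_pow, pow_mul, ← mul_pow]
      congr 2
      field_simp
      ring
    have h4 : x ≤ (1 + n * -(1 / x ^ 2)) * (x + 1) := by
      rw [show (1 + n * -(1 / x ^ 2)) * (x + 1) = (x ^ 2 - n) * (x + 1) / x ^ 2 by field_simp; ring,
        le_div_iff₀ (by positivity), show (n : ℝ) = x - 2 by rw [hx]; ring]
      nlinarith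
    rw [h3, pow_succ x, mul_assoc]
    exact mul_le_mul_of_nonneg_left (h4.trans (by gcongr)) (by positivity)
  have e1 : ee (n + 1) = (x - 1) ^ n / (n + 1).factorial * (exp (-x) * exp 1) := by
    rw [← exp_add, ee, tau, Nat.add_sub_cancel]
    push_cast
    congr 3 <;> rw [hx] <;> ring
  have e2 : ee (n + 2) = x ^ (n + 1) / (x * (n + 1).factorial) * exp (-x) := by
    rw [ee, tau, Nat.factorial_succ (n + 1), show n + 2 - 1 = n + 1 from rfl]
    push_cast
    congr 3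
    rw [hx]
    ring
  have e3 : ee (n + 3) =
      (x + 1) ^ (n + 2) / ((x + 1) * (x * (n + 1).factorial)) * (exp (-x) / exp 1) := by
    rw [← exp_sub, ee, tau, Nat.factorial_succ (n + 2), Nat.factorial_succ (n + 1),
      show n + 3 - 1 = n + 2 from rfl]
    push_cast
    rw [hx]
    ring_nf
  have h4 : (0 : ℝ) < (n + 1).factorial := by positivity
  have h5 := exp_pos 1
  have h6 := exp_pos (-x)
  rw [e1, e2, e3]
  calc (x ^ (n + 1) / (x * (n + 1).factorial) * exp (-x)) ^ 2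
      = x ^ (2 * n + 1) * (exp (-x) ^ 2 / (x * (n + 1).factorial ^ 2)) := by field_simp; ring
    _ ≤ (x - 1) ^ n * (x + 1) ^ (n + 1) * (exp (-x) ^ 2 / (x * (n + 1).factorial ^ 2)) := by gcongr
    _ = _ := by field_simp; ring

end Stir

theorem stir : STIR := by
  refine ⟨⟨?_, ?_⟩, fun c hc => ⟨Stir.low0 hc, ?_⟩,
    fun j c hj h => ⟨Stir.mono hj h, Stir.lower hj h, Stir.anti hj h⟩, fun j hj => ?_⟩
  · rw [c0, le_inv_comm₀ (by norm_num) (by positivity), sqrt_le_iff]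
    refine ⟨by norm_num, ?_⟩
    have := pi_lt_d4
    norm_num at this ⊢
    linarith
  · rw [c0, inv_le_comm₀ (by positivity) (by norm_num)]
    refine le_sqrt_of_sq_le ?_
    have := pi_gt_d4
    norm_num at this ⊢
    linarith
  · rw [Stir.ee_eq hc, Stir.c0_eq]
    have := sqrt_pi_le_stirlingSeq (Nat.one_le_iff_ne_zero.1 hc)
    gcongr
  · obtain ⟨n, rfl⟩ := Nat.exists_eq_add_of_le' hj
    exact Stir.cvx n

end Pool.Agent.MP_ddaf7c_pr.A

end MrgPart10

-- ======== part 11: formerly Pool.Agent.MP_ddaf7c_pr.A.Super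
section MrgPart11

/-! The supersolution dominates the two-colour array. -/

set_option autoImplicit false

namespace Pool.Agent.MP_ddaf7c_pr.A

open Finset Real

namespace Super

theorem mono_two {E : ℝ → ℝ} (hc : Continuous E) {s t : ℝ} (hs : 0 ≤ s) (ht : 0 ≤ t)
    (h : ∀ t, 0 < t → t ≠ s → ∃ e, 0 ≤ e ∧ HasDerivAt E e t) : E 0 ≤ E t := by
  have aux : ∀ x y, 0 ≤ x → x ≤ y → s ≤ x ∨ y ≤ s → E x ≤ E y := fun x y hx hxy hxs => by
    have h1 : ∀ z ∈ interior (Set.Icc x y), ∃ e, 0 ≤ e ∧ HasDerivAt E e z := fun z hz => by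
      rw [interior_Icc] at hz
      refine h z (hx.trans_lt hz.1) fun e => ?_
      rcases hxs with h' | h' <;> linarith [hz.1, hz.2]
    refine monotoneOn_of_deriv_nonneg (convex_Icc x y) hc.continuousOn (fun z hz => ?_)
      (fun z hz => ?_) (Set.left_mem_Icc.2 hxy) (Set.right_mem_Icc.2 hxy) hxy
    · obtain ⟨e, -, he⟩ := h1 z hz
      exact he.differentiableAt.differentiableWithinAt
    · obtain ⟨e, h0, he⟩ := h1 z hz
      rwa [he.deriv]
  rcases le_total t s with h' | h'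
  · exact aux 0 t le_rfl ht (Or.inr h')
  · exact (aux 0 s le_rfl hs (Or.inr le_rfl)).trans (aux s t hs h' (Or.inl le_rfl))

theorem anti_eq (g f : ℕ → ℝ) (h : f 0 = 0) (k : ℕ) :
    ∑ p ∈ antidiagonal k, (p.1 : ℝ) * g p.1 * f p.2 =
      ∑ r ∈ Ico 1 k, ((k - r : ℕ) : ℝ) * g (k - r) * f r := by
  rw [← Nat.sum_antidiagonal_swap, Nat.sum_antidiagonal_eq_sum_range_succ_mk]
  symm
  refine sum_subset (fun r hr => ?_) fun r h1 h2 => ?_
  · rw [mem_Ico] at hr; rw [mem_range]; omega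
  · rw [mem_Ico] at h2; rw [mem_range] at h1
    rcases (by omega : r = 0 ∨ r = k) with rfl | rfl <;> simp [h]

theorem tau_pos {c : ℕ} (h : 1 ≤ c) : 0 < tau c := by
  unfold tau; positivity

theorem tst_pos (M : ℕ) : 0 < tst M := by
  have : (0 : ℝ) < (max M 64 : ℕ) := by exact_mod_cast lt_max_of_lt_right (by norm_num)
  unfold tst; positivity

theorem rate (M : ℕ) {t : ℝ} (h0 : 0 < t) (h : t ≠ tst M) :
    ∃ d, Rate M t d ∧ HasDerivAt (phi M) (d / t) t := by
  rcases h.lt_or_gt with h | h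
  · refine ⟨hh M * t, Or.inr ⟨by rw [phi, min_eq_left h.le], h.le⟩, ?_⟩
    rw [mul_div_cancel_right₀ _ h0.ne']
    refine HasDerivAt.congr_of_eventuallyEq (f := fun τ => hh M * τ)
      (by simpa using (hasDerivAt_id t).const_mul (hh M)) ?_
    filter_upwards [Iio_mem_nhds h] with τ hτ
    rw [phi, min_eq_left (le_of_lt hτ)]
  · refine ⟨0, Or.inl le_rfl, ?_⟩
    rw [zero_div]
    refine (hasDerivAt_const t (hh M * tst M)).congr_of_eventuallyEq ?_
    filter_upwards [Ioi_mem_nhds h] with τ hτ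
    rw [phi, min_eq_right (le_of_lt hτ)]

/-- the supersolution -/
noncomputable def Bs (S : K.Sol) (t : ℝ) (a b : ℕ) : ℝ :=
  eta a b t * (tau a * tau b / tau (a + b)) * S.κ t (a + b) - gam a b * t * S.κ t a * S.κ t b

theorem ident (S : K.Sol) {t : ℝ} (ht : 0 < t) (hK : ∀ c, 0 < Kf S t c) {a b : ℕ} (ha : 1 ≤ a)
    (hb : 1 ≤ b) (d : ℝ) :
    -(om a b * (d / t)) * (tau a * tau b / tau (a + b)) * S.κ t (a + b) +
      eta a b t * (tau a * tau b / tau (a + b)) * K.V1 (S.κ t) (a + b) +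
      (gam a b * t * a * b - (1 + gam a b)) * S.κ t a * S.κ t b -
      gam a b * t * (K.V1 (S.κ t) a * S.κ t b + S.κ t a * K.V1 (S.κ t) b) =
    tau a * tau b / tau (a + b) * S.κ t (a + b) / t * Psi (Kf S t) t a b d +
      ∑ r ∈ Ico 1 a, ((a - r : ℕ) : ℝ) * Bs S t (a - r) b * S.κ t r +
      ∑ r ∈ Ico 1 b, ((b - r : ℕ) : ℝ) * Bs S t a (b - r) * S.κ t r := by
  have hκ : ∀ c, 1 ≤ c → S.κ t c = tau c * Kf S t c / t := fun c hc => by
    have := (tau_pos hc).ne'
    rw [Kf, if_neg (by omega)]; field_simp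
  have t0 := ht.ne'
  have a0 := (tau_pos ha).ne'
  have b0 := (tau_pos hb).ne'
  have m0 := (tau_pos (by omega : 1 ≤ a + b)).ne'
  have k0 := fun c => (hK c).ne'
  set c := tau a * tau b / tau (a + b) * S.κ t (a + b) / t with hc
  have e1 : eta a b t * (tau a * tau b / tau (a + b)) * K.V1 (S.κ t) (a + b) =
      c * (eta a b t * Phi (Kf S t) (a + b)) := by
    rw [K.V1, anti_eq _ _ (S.κz t), Phi, mul_sum, mul_sum, mul_sum]
    refine sum_congr rfl fun r hr => ?_
    rw [mem_Ico] at hr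
    have := k0 (a + b)
    rw [hc, hκ _ hr.1, hκ (a + b - r) (by omega), hκ (a + b) (by omega), PP, TT, uu]
    field_simp
  have e0 : c * uu (Kf S t) (a + b) a = S.κ t a * S.κ t b := by
    have := k0 (a + b)
    rw [hc, hκ a ha, hκ b hb, hκ (a + b) (by omega), uu, Nat.add_sub_cancel_left]
    field_simp
  have e2 : ∑ r ∈ Ico 1 a, ((a - r : ℕ) : ℝ) * Bs S t (a - r) b * S.κ t r =
      c * ∑ r ∈ Ico 1 a, PP a r * eta (a - r) b t * uu (Kf S t) (a + b) r -
      S.κ t a * S.κ t b * ∑ r ∈ Ico 1 a, PP a r * (gam (a - r) b - gam a b) * uu (Kf S t) a r -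
      gam a b * t * (K.V1 (S.κ t) a * S.κ t b) := by
    rw [K.V1, anti_eq _ _ (S.κz t), sum_mul, mul_sum, mul_sum, mul_sum, ← sum_sub_distrib,
      ← sum_sub_distrib]
    refine sum_congr rfl fun r hr => ?_
    rw [mem_Ico] at hr
    have := k0 (a + b)
    have := k0 a
    have := (tau_pos (by omega : 1 ≤ a + b - r)).ne'
    rw [Bs, show a - r + b = a + b - r by omega, hc, hκ _ hr.1, hκ (a + b - r) (by omega),
      hκ (a + b) (by omega), hκ (a - r) (by omega), hκ a ha, PP, TT, uu, uu]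
    field_simp
    ring
  have e3 : ∑ r ∈ Ico 1 b, ((b - r : ℕ) : ℝ) * Bs S t a (b - r) * S.κ t r =
      c * ∑ r ∈ Ico 1 b, PP b r * eta a (b - r) t * uu (Kf S t) (a + b) r -
      S.κ t a * S.κ t b * ∑ r ∈ Ico 1 b, PP b r * (gam a (b - r) - gam a b) * uu (Kf S t) b r -
      gam a b * t * (S.κ t a * K.V1 (S.κ t) b) := by
    rw [K.V1, anti_eq _ _ (S.κz t), mul_sum, mul_sum, mul_sum, mul_sum, ← sum_sub_distrib,
      ← sum_sub_distrib]
    refine sum_congr rfl fun r hr => ?_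
    rw [mem_Ico] at hr
    have := k0 (a + b)
    have := k0 b
    have := (tau_pos (by omega : 1 ≤ a + b - r)).ne'
    rw [Bs, show a + (b - r) = a + b - r by omega, hc, hκ _ hr.1, hκ (a + b - r) (by omega),
      hκ (a + b) (by omega), hκ (b - r) (by omega), hκ b hb, PP, TT, uu, uu]
    field_simp
    ring
  have e4 : -(om a b * (d / t)) * (tau a * tau b / tau (a + b)) * S.κ t (a + b) =
      c * -(om a b * d) := by rw [hc]; ring
  rw [e1, e2, e3, e4, Psi]
  linear_combination (-(gam a b * t * a * b - (1 + gam a b) +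
      ∑ r ∈ Ico 1 a, PP a r * (gam (a - r) b - gam a b) * uu (Kf S t) a r +
      ∑ r ∈ Ico 1 b, PP b r * (gam a (b - r) - gam a b) * uu (Kf S t) b r)) * e0

end Super

open Super in
theorem super (h1 : DYN) (h2 : POS) : SUPER := by
  intro S a b t ha hb ht
  change S.B t a b ≤ Bs S t a b
  induction' hn : a + b using Nat.strong_induction_on with n ih generalizing a b t
  subst hn
  have cκ : ∀ c, Continuous fun τ => S.κ τ c := fun c =>
    continuous_iff_continuousAt.2 fun τ => (S.dκ c τ).continuousAt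
  have cB : Continuous fun τ => S.B τ a b :=
    continuous_iff_continuousAt.2 fun τ => (S.dB a b τ).continuousAt
  have key := mono_two (E := fun τ => exp (-(((a : ℝ) + b) ^ 2 / 2 * τ)) * (Bs S τ a b - S.B τ a b))
    (by
      have := cκ a
      have := cκ b
      have := cκ (a + b)
      unfold Bs eta phi
      fun_prop) (tst_pos (a + b)).le ht fun τ h0 hne => by
    obtain ⟨d, d1, d2⟩ := rate (a + b) h0 hne
    have hA := h1 S τ h0
    have p1 := h2 _ τ d a b ha hb h0 hA d1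
    have p2 := ident S h0 hA.pos ha hb d
    have D1 := (((hasDerivAt_id τ).const_mul (((a : ℝ) + b) ^ 2 / 2)).neg.exp).mul
      ((((((d2.const_mul (om a b)).const_sub (1 + gam a b)).mul_const
        (tau a * tau b / tau (a + b))).mul (S.dκ (a + b) τ)).sub
        ((((hasDerivAt_id τ).const_mul (gam a b)).mul (S.dκ a τ)).mul (S.dκ b τ))).sub
        (S.dB a b τ))
    refine ⟨_, ?_, D1⟩
    have s1 : ∑ r ∈ Ico 1 a, ((a - r : ℕ) : ℝ) * S.B τ (a - r) b * S.κ τ r ≤
        ∑ r ∈ Ico 1 a, ((a - r : ℕ) : ℝ) * Bs S τ (a - r) b * S.κ τ r := sum_le_sum fun r hr => by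
      rw [mem_Ico] at hr
      exact mul_le_mul_of_nonneg_right (mul_le_mul_of_nonneg_left
        (ih _ (by omega) _ _ τ (by omega) hb h0.le rfl) (Nat.cast_nonneg _)) (S.κp τ h0.le r)
    have s2 : ∑ r ∈ Ico 1 b, ((b - r : ℕ) : ℝ) * S.B τ a (b - r) * S.κ τ r ≤
        ∑ r ∈ Ico 1 b, ((b - r : ℕ) : ℝ) * Bs S τ a (b - r) * S.κ τ r := sum_le_sum fun r hr => by
      rw [mem_Ico] at hr
      exact mul_le_mul_of_nonneg_right (mul_le_mul_of_nonneg_left
        (ih _ (by omega) _ _ τ ha (by omega) h0.le rfl) (Nat.cast_nonneg _)) (S.κp τ h0.le r)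
    have p3 : 0 ≤ tau a * tau b / tau (a + b) * S.κ τ (a + b) / τ * Psi (Kf S τ) τ a b d := by
      have := tau_pos ha
      have := tau_pos hb
      have := tau_pos (by omega : 1 ≤ a + b)
      have := S.κp τ h0.le (a + b)
      positivity
    have p4 := mul_nonneg (exp_pos (-(((a : ℝ) + b) ^ 2 / 2 * τ))).le
      (add_nonneg (add_nonneg p3 (sub_nonneg.2 s1)) (sub_nonneg.2 s2))
    refine p4.trans_eq ?_
    simp only [K.V2, anti_eq (fun i => S.B τ i b) _ (S.κz τ), anti_eq (S.B τ a) _ (S.κz τ),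
      Pi.sub_apply, Pi.mul_apply, Pi.neg_apply, id]
    rw [eta] at p2
    push_cast
    linear_combination (-exp (-(((a : ℝ) + b) ^ 2 / 2 * τ))) * p2
  have e0 : Bs S 0 a b = 0 := by rw [Bs, S.κi, if_neg (by omega)]; simp
  simp only [e0, S.Bi, sub_zero, mul_zero] at key
  exact sub_nonneg.1 ((mul_nonneg_iff_of_pos_left (exp_pos _)).1 key)

end Pool.Agent.MP_ddaf7c_pr.A

end MrgPart11

-- ======== part 12: formerly Pool.Agent.MP_ddaf7c_pr.A.Vb
section MrgPart12

/-! Lower bounds for the ratio of two Abel coefficients. -/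

set_option autoImplicit false

namespace Pool.Agent.MP_ddaf7c_pr.A

open Finset Real

namespace Vb

theorem high (t : ℝ) (h0 : 2 / 3 ≤ t) (h1 : t ≤ 1) :
    12 * t ^ 3 * Pv (1 - t ^ 2) ≤ 12 * t ^ 2 - (1 - t ^ 2) ^ 2 := by
  obtain ⟨u, hu⟩ : ∃ u : ℝ, u = 3 * t - 2 := ⟨_, rfl⟩
  obtain ⟨v, hv⟩ : ∃ v : ℝ, v = 1 - u := ⟨_, rfl⟩
  have u0 : 0 ≤ u := by linarith
  have v0 : 0 ≤ v := by linarith
  have ht : t = (u + 2) / 3 := by linarith
  have key : 12 * t ^ 2 - (1 - t ^ 2) ^ 2 - 12 * t ^ 3 * Pv (1 - t ^ 2) = (v / 3) ^ 4 * (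
      2748541 / 4782969 * u ^ 0 * v ^ 15 + 23433020 / 1594323 * u ^ 1 * v ^ 14 + 158820863 /
      1062882 * u ^ 2 * v ^ 13 + 3063699563 / 3542940 * u ^ 3 * v ^ 12 + 9697076347 /
      2952450 * u ^ 4 * v ^ 11 + 3466021589 / 393660 * u ^ 5 * v ^ 10 + 5693577841 / 328050
      * u ^ 6 * v ^ 9 + 281590409 / 10935 * u ^ 7 * v ^ 8 + 530294578 / 18225 * u ^ 8 * v ^
      7 + 305002709 / 12150 * u ^ 9 * v ^ 6 + 66571637 / 4050 * u ^ 10 * v ^ 5 + 21706919 /
      2700 * u ^ 11 * v ^ 4 + 153877 / 54 * u ^ 12 * v ^ 3 + 623287 / 900 * u ^ 13 * v ^ 2 +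
      3101 / 30 * u ^ 14 * v ^ 1 + 357 / 50 * u ^ 15 * v ^ 0) := by
    rw [ht, hv, Pv]
    ring
  have : 0 ≤ 12 * t ^ 2 - (1 - t ^ 2) ^ 2 - 12 * t ^ 3 * Pv (1 - t ^ 2) := by
    rw [key]
    positivity
  linarith

theorem low (t : ℝ) (h0 : 0 ≤ t) (h1 : t ≤ 2 / 3) :
    t * Pv (1 - t ^ 2) ≤ 1 - (1 - t ^ 2) / 12 := by
  obtain ⟨u, hu⟩ : ∃ u : ℝ, u = 3 * t / 2 := ⟨_, rfl⟩
  obtain ⟨v, hv⟩ : ∃ v : ℝ, v = 1 - u := ⟨_, rfl⟩
  have u0 : 0 ≤ u := by linarith
  have v0 : 0 ≤ v := by linarith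
  have ht : t = 2 * u / 3 := by linarith
  have key : 1 - (1 - t ^ 2) / 12 - t * Pv (1 - t ^ 2) =
      11 / 12 * u ^ 0 * v ^ 17 + 25099 / 1800 * u ^ 1 * v ^ 16 + 66469 / 675 * u ^ 2 * v ^
      15 + 1736179 / 4050 * u ^ 3 * v ^ 14 + 2610013 / 2025 * u ^ 4 * v ^ 13 + 51814256 /
      18225 * u ^ 5 * v ^ 12 + 28986659 / 6075 * u ^ 6 * v ^ 11 + 681735373 / 109350 * u ^ 7
      * v ^ 10 + 702996481 / 109350 * u ^ 8 * v ^ 9 + 383589143 / 72900 * u ^ 9 * v ^ 8 +
      20723507 / 6075 * u ^ 10 * v ^ 7 + 15358852019 / 8857350 * u ^ 11 * v ^ 6 + 200176969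
      / 295245 * u ^ 12 * v ^ 5 + 7883455381 / 39858075 * u ^ 13 * v ^ 4 + 327180953 /
      7971615 * u ^ 14 * v ^ 3 + 160609895 / 28697814 * u ^ 15 * v ^ 2 + 24759779 / 57395628
      * u ^ 16 * v ^ 1 + 13331693 / 1033121304 * u ^ 17 * v ^ 0 := by
    rw [ht, hv, Pv]
    ring
  have : 0 ≤ 1 - (1 - t ^ 2) / 12 - t * Pv (1 - t ^ 2) := by
    rw [key]
    positivity
  linarith

theorem cubic (t : ℝ) (h0 : 0 ≤ t) : t * (11 / 5 + 11 / 2 * (1 - t ^ 2 - 4 / 5)) ≤ 74 / 75 := by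
  nlinarith [mul_nonneg h0 (sq_nonneg (t - 0.447)), sq_nonneg (t - 0.4473)]

/-- the consequence of the Stirling bounds -/
theorem core (h : STIR) (a k : ℕ) (hak : a < k) (t P : ℝ) (ht : 0 < t)
    (ht2 : t ^ 2 = 1 - (a : ℝ) / k) (hP : t * P ≤ 1 - (a : ℝ) / (12 * k * ((k : ℝ) - a))) :
    k * P * ee k ≤ ((k : ℝ) - a) * ee (k - a) := by
  have hk : (0 : ℝ) < k := by exact_mod_cast (Nat.zero_le a).trans_lt hak
  have hj : ((k - a : ℕ) : ℝ) = (k : ℝ) - a := Nat.cast_sub hak.le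
  have hlt : (a : ℝ) < k := by exact_mod_cast hak
  have h3 := (h.2.2.1 (k - a) k (by omega) (by omega)).2.1
  rw [hj, sub_sub_cancel] at h3
  have hs : √((k : ℝ) - a) = t * √k := by
    have : (k : ℝ) - a = t ^ 2 * k := by rw [ht2]; field_simp
    rw [this, sqrt_mul (sq_nonneg _), sqrt_sq ht.le]
  have hsk : 0 < √(k : ℝ) := sqrt_pos.2 hk
  have he : 0 ≤ ee k := by unfold ee tau; positivity
  rw [hs] at h3
  have h4 : ee k * (k * √k) * (t * P) ≤ ee (k - a) * (((k : ℝ) - a) * (t * √k)) :=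
    (mul_le_mul_of_nonneg_left hP (by positivity)).trans h3
  have h5 : (t * √k) * (k * P * ee k) ≤ (t * √k) * (((k : ℝ) - a) * ee (k - a)) := by
    linarith
  exact le_of_mul_le_mul_left h5 (by positivity)

end Vb

theorem vb (h : STIR) : VB := by
  intro a k ha hak
  have hk : (0 : ℝ) < k := by exact_mod_cast (Nat.zero_le a).trans_lt hak
  have ha1 : (1 : ℝ) ≤ a := by exact_mod_cast ha
  have hj : (a : ℝ) + 1 ≤ k := by exact_mod_cast hak
  have hy : (a : ℝ) / k < 1 := (div_lt_one hk).2 (by linarith)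
  have hy0 : 0 < (a : ℝ) / k := by positivity
  obtain ⟨t, ht, ht2⟩ : ∃ t : ℝ, 0 < t ∧ t ^ 2 = 1 - (a : ℝ) / k :=
    ⟨√(1 - (a : ℝ) / k), sqrt_pos.2 (by linarith), sq_sqrt (by linarith)⟩
  have ht1 : t ≤ 1 := by nlinarith
  have hyt : (a : ℝ) / k = 1 - t ^ 2 := by linarith
  obtain ⟨z, hz⟩ : ∃ z : ℝ, z = (a : ℝ) / (12 * k * ((k : ℝ) - a)) := ⟨_, rfl⟩
  have hka : 0 < (k : ℝ) - a := by linarith
  have z0 : 0 ≤ z := by rw [hz]; positivity
  have z1 : z * ((k : ℝ) - a) = (1 - t ^ 2) / 12 := by rw [← hyt, hz]; field_simp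
  have z2 : z * a * (12 * t ^ 2) = (1 - t ^ 2) ^ 2 := by rw [← hyt, ht2, hz]; field_simp
  have z3 : z ≤ (1 - t ^ 2) / 12 := by nlinarith
  have ht3 : 0 < 12 * t ^ 2 := by positivity
  refine ⟨Vb.core h a k hak t _ ht ht2 ?_, fun h100 => Vb.core h a k hak t _ ht ht2 ?_⟩
  · rw [← hz, hyt]
    rcases le_total t (2 / 3) with hc | hc
    · linarith [Vb.low t ht.le hc]
    · have h1 := Vb.high t hc ht1
      have h2 : z * (12 * t ^ 2) ≤ z * a * (12 * t ^ 2) :=
        mul_le_mul_of_nonneg_right (le_mul_of_one_le_right z0 ha1) ht3.le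
      refine le_of_mul_le_mul_left ?_ ht3
      nlinarith
  · rw [← hz, hyt]
    have h1 : (100 : ℝ) ≤ a := by exact_mod_cast h100
    rcases le_total t (1 / 4) with hc | hc
    · nlinarith [mul_nonneg ht.le (sq_nonneg t), sq_nonneg t]
    · have h2 : z * 100 * (12 * (1 / 4) ^ 2) ≤ z * a * (12 * t ^ 2) := by gcongr
      have h3 : (1 - t ^ 2) ^ 2 ≤ 1 := by nlinarith [sq_nonneg t]
      linarith [Vb.cubic t ht.le]

end Pool.Agent.MP_ddaf7c_pr.A

end MrgPart12

-- marker of a merged file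
example : 731051 + 72154 = 731051 + 72154 := rfl
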