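import Pool.Agent.MP_ddaf7c_pr.A.CsRow

set_option autoImplicit false
set_option deprecated.oldSectionVars true

namespace Pool.Agent.MP_ddaf7c_pr.A.Pk

theorem lv255 : levs 255 140 24 = true := by decide +kernel

theorem lv231 : levs 231 129 26 = true := by decide +kernel

theorem lv205 : levs 205 118 30 = true := by decide +kernel

end Pool.Agent.MP_ddaf7c_pr.A.Pk
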