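import Pool.Agent.MP_ddaf7c_pr.A.CsRow

set_option autoImplicit false
set_option deprecated.oldSectionVars true

namespace Pool.Agent.MP_ddaf7c_pr.A.Pk

theorem lv175 : levs 175 106 36 = true := by decide +kernel

theorem lv139 : levs 139 92 44 = true := by decide +kernel

theorem lv95 : levs 95 72 48 = true := by decide +kernel

theorem lv47 : levs 47 36 24 = true := by decide +kernel

theorem lv23 : levs 23 18 12 = true := by decide +kernel

theorem lv11 : levs 11 9 6 = true := by decide +kernel

theorem lv5 : levs 5 4 3 = true := by decide +kernel

theorem lv2 : levs 2 2 1 = true := by decide +kernel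

end Pool.Agent.MP_ddaf7c_pr.A.Pk
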