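import Pool.Agent.MP_ddaf7c_pr.A.CsReal
import Pool.Agent.MP_ddaf7c_pr.A.CsA
import Pool.Agent.MP_ddaf7c_pr.A.CsB
import Pool.Agent.MP_ddaf7c_pr.A.Hinge

-- ======== part 0: formerly Pool.Agent.MP_ddaf7c_pr.A.CsLev
section MrgPart0

/-! Soundness of the kernel program. -/

set_option autoImplicit false

namespace Pool.Agent.MP_ddaf7c_pr.A.Pk

open Finset

noncomputable def gq (M s : ℕ) : ℝ := 68719476736 * qS M s
noncomputable def gF (M r a : ℕ) : ℝ := 68719476736 * PP a r * (((a - r : ℕ) : ℝ) * (M - a : ℕ))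
noncomputable def gB (M r a : ℕ) : ℝ :=
  68719476736 * PP (M - a) r * ((a : ℝ) * (M - a - r : ℕ))
noncomputable def g0 (M r a : ℕ) : ℝ := 68719476736 * PP (M - a) r
noncomputable def gA (M a : ℕ) : ℝ := (a : ℝ) * (M - a : ℕ)
noncomputable def gZ (T M r a : ℕ) : ℝ := 17592186044416 * g0 M r a * zz (kz T M r) M r a
noncomputable def gX (M r a : ℕ) : ℝ := 17592186044416 * be1 M r * gB M r a
noncomputable def tw (g : ℕ → ℕ → ℝ) (M s a : ℕ) : ℝ :=
  if 2 * s = M then g s a else g s a + g (M - s) a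

noncomputable def pI (z : ℝ) (M s a : ℕ) : ℝ :=
  17592186044416 * (139 / 100) * gq M s * 1 + 17592186044416 * be0 M s * (gF M s a + gB M s a) +
    z * (17592186044416 * be1 M s * (gF M s a + gB M s a))

noncomputable def nI (z : ℝ) (M s a : ℕ) : ℝ :=
  17592186044416 * be0 M 0 * gq M s * gA M a +
    17592186044416 * (139 / 100) * (68719476736 * PP a s + g0 M s a) +
    z * (17592186044416 * ka M * gq M s * gA M a)

noncomputable def pO (z : ℝ) (C T M s a : ℕ) : ℝ :=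
  17592186044416 * (139 / 100) * tw (g0 M) M s a + mu C T M a * gq M (s - a) +
    gq M s * (17592186044416 * be0 M 0 * gA M a + if M / 2 + 1 - s ≤ a then (mu C T M a : ℝ) else 0) +
    z * (17592186044416 * ka M * gq M s * gA M a)

noncomputable def nO (z : ℝ) (T M s a : ℕ) : ℝ :=
  17592186044416 * (139 / 100) * gq M s * 1 + tw (gZ T M) M s a + z * tw (gX M) M s a

noncomputable def cS (z : ℝ) (C T M s a : ℕ) : ℝ := 17592186044416 * 68719476736 *
  (mS (z * pmx M) a (M - a) s - mu C T M a / 17592186044416 * q2 a (M - a) s)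

theorem in_le (z : ℝ) {C T M s a : ℕ} (h1 : s < a) (h2 : a ≤ M / 2) :
    pI z M s a - nI z M s a ≤ cS z C T M s a := by
  obtain ⟨b, rfl⟩ : ∃ b, M = a + b := ⟨M - a, by omega⟩
  simp only [pI, nI, cS, gq, gF, gB, g0, gA, Nat.add_sub_cancel_left]
  rw [inner_eq z _ h1 (by omega)]
  exact le_of_eq (by ring)

theorem out_le (z : ℝ) {C T M s a : ℕ} (h0 : 1 ≤ a) (h1 : a < s) (h2 : s ≤ M / 2) :
    pO z C T M s a - nO z T M s a ≤ -cS z C T M s a := by
  obtain ⟨b, rfl⟩ : ∃ b, M = a + b := ⟨M - a, by omega⟩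
  have e1 := mm_le z (kz T (a + b) s) h0 h1 (show a ≤ b by omega)
  have e2 := mm_le z (kz T (a + b) (a + b - s)) h0 (show a < a + b - s by omega)
    (show a ≤ b by omega)
  have e3 : ((a + b) / 2 + 1 - s ≤ a) = ((a + b) / 2 < s + a) := propext (by omega)
  rw [QQ_symm (by omega)] at e2
  simp only [pO, nO, cS, gq, gB, g0, gA, gZ, gX, tw, Nat.add_sub_cancel_left, mS, q2, if_pos h1, e3]
  generalize qS (a + b) (s - a) = x
  unfold qS
  split_ifs <;> linarith

variable {C T M s : ℕ} {A : ℕ → Prop}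

theorem two_eq (f : ℕ → ℕ) (M s : ℕ) :
    two f M s = if 2 * s = M then f s else Nat.add (f s) (f (M - s)) := rec_beq _ _ _ _

theorem Lo.two {f : ℕ → ℕ} {g : ℕ → ℕ → ℝ} (h : Lo T A (f s) (g s))
    (h' : Lo T A (f (M - s)) (g (M - s))) : Lo T A (two f M s) (tw g M s) := by
  rw [two_eq]; unfold tw
  split_ifs
  exacts [h, h.add h']

theorem Up.two {f : ℕ → ℕ} {g : ℕ → ℕ → ℝ} (h : Up T A (f s) (g s))
    (h' : Up T A (f (M - s)) (g (M - s))) : Up T A (two f M s) (tw g M s) := by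
  rw [two_eq]; unfold tw
  split_ifs
  exacts [h, h.add h']

theorem mul_lo {x y : ℕ} {u v : ℝ} (h : (x : ℝ) ≤ u) (h' : (y : ℝ) ≤ v) :
    ((Nat.mul x y : ℕ) : ℝ) ≤ u * v := by
  rw [Nat.mul_eq, Nat.cast_mul]
  exact mul_le_mul h h' (Nat.cast_nonneg _) ((Nat.cast_nonneg _).trans h)

theorem mul_hi {x y : ℕ} {u v : ℝ} (h : u ≤ x) (h' : v ≤ y) (hv : 0 ≤ v) :
    u * v ≤ ((Nat.mul x y : ℕ) : ℝ) := by
  rw [Nat.mul_eq, Nat.cast_mul]
  exact mul_le_mul h h' hv (Nat.cast_nonneg _)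

theorem gq_nonneg (M s : ℕ) : 0 ≤ gq M s := (Nat.cast_nonneg _).trans (qq_bd M s).1

theorem c_lo : ((24453138601738 : ℕ) : ℝ) ≤ 17592186044416 * (139 / 100) := by norm_num

theorem c_hi : (17592186044416 * (139 / 100) : ℝ) ≤ (24453138601739 : ℕ) := by norm_num

theorem up_oZ (h0 : ABEL) (ok : Ok C T M) {r : ℕ} (hr : 1 ≤ r) :
    Up T (fun a => a ≤ M / 2) (oZ C T M r) (gZ T M r) := by
  have hk : kz T M r ≤ T := by
    rw [kz, frc_eq, cnd, rec_ble]
    split_ifs with h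
    exacts [le_rfl, not_le.1 h]
  refine (Up.mrg hk
    ((up_rBu h0 ok hr).mul (mul_nonneg (by norm_num) (be0_nonneg M r)) (b0_bd M r).2)
    ((up_rCu h0 ok hr).mul (mul_nonneg (by norm_num) (be0_nonneg M 0)) (b0_bd M 0).2)).mono
    fun a ha => ⟨by split_ifs <;> exact ha, le_of_eq ?_⟩
  simp only [gZ, g0, zz]
  split_ifs <;> ring

theorem up_oX (h0 : ABEL) (ok : Ok C T M) {r : ℕ} (hr : 1 ≤ r) :
    Up T (fun a => a ≤ M / 2) (oX C T M r) (gX M r) :=
  (up_rBu h0 ok hr).mul (mul_nonneg (by norm_num) (be1_nonneg M r)) (b1_bd M r).2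

theorem runs (h0 : ABEL) (ok : Ok C T M)
    (hf : fit T 128 (Nat.mul (muV C T M) (sumR (qq M) (Nat.add (M / 2) 1))) = true)
    (r0' : run (iP0 C T M) (tN0 C T M) (iN0 C T M) (tP0 C T M) T (M / 2) = true)
    (r1' : run (iP1 C T M) (tN1 C T M) (iN1 C T M) (tP1 C T M) T (M / 2) = true)
    {i a : ℕ} (hi : i ≤ M / 2) (ha : 1 ≤ a) (ha' : a ≤ M / 2) :
    (0 ≤ ∑ s ∈ Icc 1 (M / 2), cS 0 C T M s a * (((i - s : ℕ) : ℝ) - ((i - a : ℕ) : ℝ))) ∧
    0 ≤ ∑ s ∈ Icc 1 (M / 2), cS 1 C T M s a * (((i - s : ℕ) : ℝ) - ((i - a : ℕ) : ℝ)) := by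
  have hH : M / 2 < T := by have := ok.hT2; omega
  have o1 : Lo T (fun a => a ≤ M / 2) (ones T) fun _ => 1 :=
    Lo.of (rep_ones ok.hT) fun _ _ => by simp
  have o2 : Up T (fun a => a ≤ M / 2) (ones T) fun _ => 1 :=
    Up.of (rep_ones ok.hT) fun _ _ => by simp
  have a1 : Lo T (fun a => a ≤ M / 2) (vAB T M) (gA M) :=
    Lo.of (rep_AB ok) fun _ _ => by simp [gA]
  have a2 : Up T (fun a => a ≤ M / 2) (vAB T M) (gA M) :=
    Up.of (rep_AB ok) fun _ _ => by simp [gA]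
  have key : ∀ s, 1 ≤ s → s ≤ M / 2 →
      (Lo T (fun a => a ≤ M / 2) (iP0 C T M s) (pI 0 M s) ∧
        Lo T (fun a => a ≤ M / 2) (iP1 C T M s) (pI 1 M s)) ∧
      (Up T (fun a => a ≤ M / 2) (iN0 C T M s) (nI 0 M s) ∧
        Up T (fun a => a ≤ M / 2) (iN1 C T M s) (nI 1 M s)) ∧
      (Lo T (fun a => a ≤ s) (tN0 C T M s) (pO 0 C T M s) ∧
        Lo T (fun a => a ≤ s) (tN1 C T M s) (pO 1 C T M s)) ∧
      Up T (fun a => a ≤ M / 2) (tP0 C T M s) (nO 0 T M s) ∧
        Up T (fun a => a ≤ M / 2) (tP1 C T M s) (nO 1 T M s) := by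
    intro s hs hs'
    have hs2 : 1 ≤ M - s := by omega
    have w : ∀ {n : ℕ} {g : ℕ → ℝ}, Lo T (fun a => a ≤ M / 2) n g → Lo T (fun a => a ≤ s) n g :=
      fun h => h.mono fun a ha => ⟨ha.trans hs', le_rfl⟩
    have q := qq_bd M s
    have q0 := gq_nonneg M s
    have fr' := (lo_fB h0 ok hs).add (lo_rB h0 ok hs)
    have k1' := (o1.mul (mul_lo c_lo q.1)).add (fr'.mul (b0_bd M s).1)
    have k2 := fr'.mul (b1_bd M s).1
    have k3 := (a2.mul (mul_nonneg (mul_nonneg (by norm_num) (be0_nonneg M 0)) q0)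
      (mul_hi (b0_bd M 0).2 q.2 q0)).add ((up_i0 h0 ok hs).mul (by norm_num) c_hi)
    have k4 := a2.mul (mul_nonneg (mul_nonneg (by norm_num) (ka_nonneg M)) q0)
      (mul_hi (k1_bd M).2 q.2 q0)
    have k5 := ((w ((Lo.two (g := g0 M) (lo_r0 h0 ok hs) (lo_r0 h0 ok hs2)).mul c_lo)).add
      (lo_muR ok hf hs')).add (w (((a1.mul (b0_bd M 0).1).add
        ((lo_muV ok).hi (k := M / 2 + 1 - s) (by omega))).mul q.1))
    have k6 := w (a1.mul (mul_lo (k1_bd M).1 q.1))
    have k7 := (o2.mul (mul_nonneg (by norm_num) q0) (mul_hi c_hi q.2 q0)).add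
      (Up.two (up_oZ h0 ok hs) (up_oZ h0 ok hs2))
    have k8 := Up.two (up_oX h0 ok hs) (up_oX h0 ok hs2)
    refine ⟨⟨k1'.mono fun a ha => ⟨ha, le_of_eq ?_⟩, (k1'.add k2).mono fun a ha => ⟨ha, le_of_eq ?_⟩⟩,
      ⟨k3.mono fun a ha => ⟨ha, le_of_eq ?_⟩, (k3.add k4).mono fun a ha => ⟨ha, le_of_eq ?_⟩⟩,
      ⟨k5.mono fun a ha => ⟨ha, le_of_eq ?_⟩, (k5.add k6).mono fun a ha => ⟨ha, le_of_eq ?_⟩⟩,
      k7.mono fun a ha => ⟨ha, le_of_eq ?_⟩, (k7.add k8).mono fun a ha => ⟨ha, le_of_eq ?_⟩⟩ <;>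
    simp only [pI, nI, pO, nO, gq, gF, gB, g0, zero_mul, add_zero, one_mul]
  constructor
  · refine run_sound (p := pI 0 M) (p' := nI 0 M) (q := pO 0 C T M) (q' := nO 0 T M) ok.hT hH
      (fun s hs hs' => ?_) r0' hi ha ha'
    obtain ⟨⟨k1', -⟩, ⟨k2, -⟩, ⟨k3, -⟩, k4, -⟩ := key s hs hs'
    exact ⟨k1'.mono fun a ha => ⟨ha.2, le_rfl⟩, k2.mono fun a ha => ⟨ha.2, le_rfl⟩,
      k3.mono fun a ha => ⟨ha.2.le, le_rfl⟩, k4.mono fun a ha => ⟨ha.2.le.trans hs', le_rfl⟩,
      fun a h1 h2 => in_le 0 h1 h2, fun a h1 h2 => out_le 0 h1 h2 hs'⟩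
  · refine run_sound (p := pI 1 M) (p' := nI 1 M) (q := pO 1 C T M) (q' := nO 1 T M) ok.hT hH
      (fun s hs hs' => ?_) r1' hi ha ha'
    obtain ⟨⟨-, k1'⟩, ⟨-, k2⟩, ⟨-, k3⟩, -, k4⟩ := key s hs hs'
    exact ⟨k1'.mono fun a ha => ⟨ha.2, le_rfl⟩, k2.mono fun a ha => ⟨ha.2, le_rfl⟩,
      k3.mono fun a ha => ⟨ha.2.le, le_rfl⟩, k4.mono fun a ha => ⟨ha.2.le.trans hs', le_rfl⟩,
      fun a h1 h2 => in_le 1 h1 h2, fun a h1 h2 => out_le 1 h1 h2 hs'⟩

theorem sp_eq (a b : ℕ) : (sp (a + b) a : ℝ) = 1208925819614629174706176 * (a * b) := by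
  have e : sp (a + b) a = a * (a + b - a) * 2 ^ 80 := shl_eq _ _
  rw [e, Nat.add_sub_cancel_left]; push_cast; ring

theorem EE_le (h0 : ABEL) {a b : ℕ} (ok : Ok C T (a + b)) (hf : fit T 128 (eL C T (a + b)) = true)
    (ha : 1 ≤ a) (hb : a ≤ b) : 1208925819614629174706176 * EE a b ≤ eU C T (a + b) a := by
  have hl : eL C T (a + b) < Y * Y ^ T := fit_lt hf
  have h1 : Lo T (fun x => x ≤ (a + b) / 2) (eL C T (a + b)) fun x =>
      ∑ r ∈ Icc 1 ((a + b) / 2), 17592186044416 * ga (a + b) r * gF (a + b) r x +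
      ∑ r ∈ Icc 1 (a + b - 1), 17592186044416 * ga (a + b) r * gB (a + b) r x := by
    rw [eL, sumI_eq, sumI_eq]
    exact (Lo.sum _ fun r hr => (lo_fB h0 ok (mem_Icc.1 hr).1).mul (gl_le _ r)).add
      (Lo.sum _ fun r hr => (lo_rB h0 ok (mem_Icc.1 hr).1).mul (gl_le _ r))
  obtain ⟨f, h2, h3⟩ := h1.2 (by rwa [pow_succ'])
  have h4 := h3 a (by omega)
  have h5 : Nat.land (Nat.shiftRight (eL C T (a + b)) (Nat.mul 128 a)) (msk 1) = f a := by
    have h6 := h2.lt hl
    obtain ⟨t, h7, -⟩ := h2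
    rw [land_msk, shr_eq, Nat.mul_eq, Y_pow, pow_one, h7,
      pk_dig t h6 (by have := ok.hT2; omega)]
  have h6 := (div_bd (x := Nat.mul (sp (a + b) a) (Nat.mul 4 (Nat.sub (a + b) 2)))
    (y := Nat.pow (a + b) 2) (v := 1208925819614629174706176 * (om a b * (a + b - 2 : ℕ))) (by
      simp only [Nat.mul_eq, Nat.sub_eq, Nat.pow_eq, Nat.cast_mul, Nat.cast_pow, Nat.cast_add, sp_eq,
        om, Nat.cast_ofNat]
      ring)).2
  have h7 : ∀ x y : ℕ, (x : ℝ) - y ≤ (Nat.sub x y : ℕ) := fun x y => by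
    have : (x : ℝ) ≤ (Nat.sub x y : ℕ) + y := by exact_mod_cast (le_tsub_add : x ≤ x - y + y)
    linarith
  have e1 : ∑ r ∈ Icc 1 ((a + b) / 2), 17592186044416 * ga (a + b) r * gF (a + b) r a =
      1208925819614629174706176 *
        ∑ r ∈ Icc 1 ((a + b) / 2), ga (a + b) r * (PP a r * ((a - r : ℕ) * b)) := by
    rw [mul_sum]
    exact sum_congr rfl fun r _ => by rw [gF, Nat.add_sub_cancel_left]; ring
  have e2 : ∑ r ∈ Icc 1 (a + b - 1), 17592186044416 * ga (a + b) r * gB (a + b) r a =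
      1208925819614629174706176 *
        ∑ r ∈ Icc 1 (a + b - 1), ga (a + b) r * (PP b r * (a * (b - r : ℕ))) := by
    rw [mul_sum]
    exact sum_congr rfl fun r _ => by rw [gB, Nat.add_sub_cancel_left]; ring
  refine le_trans ?_ (h7 _ _)
  rw [h5, EE_eq h0 ha hb]
  simp only [e1, e2] at h4
  linarith

theorem mu_le {a b : ℕ} (ha : 1 ≤ a) (h : rN C T (a + b) a ≤ rP (a + b) a) :
    (mu C T (a + b) a : ℝ) / 17592186044416 * ((a : ℝ) + b) ^ 2 / 2 + hh (a + b) *
      (18 / 5 * om a b + eU C T (a + b) a / 1208925819614629174706176) ≤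
      (gam a b - L2 a b) * a * b := by
  have h1 : (1 : ℝ) ≤ a := by exact_mod_cast ha
  have h2 : (0 : ℝ) ≤ b := Nat.cast_nonneg b
  have hM : (a : ℝ) + b ≠ 0 := by linarith
  have e0 : Nat.sub (Nat.mul 2 (a + b)) a = a + 2 * b := by
    rw [Nat.mul_eq, Nat.sub_eq]; omega
  have e1 : Nat.sub (a + b) a = b := Nat.add_sub_cancel_left _ _
  have m1 : (mu C T (a + b) a : ℝ) * (((a : ℝ) + b) ^ 2 * 34359738368) + rN C T (a + b) a ≤
      rP (a + b) a := by
    have e : Nat.shiftLeft (Nat.pow (a + b) 2) 35 = (a + b) ^ 2 * 34359738368 := shl_eq _ _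
    have := Nat.div_mul_le_self (rP (a + b) a - rN C T (a + b) a) ((a + b) ^ 2 * 34359738368)
    have h3 : mu C T (a + b) a * ((a + b) ^ 2 * 34359738368) + rN C T (a + b) a ≤
        rP (a + b) a := by
      rw [mu, e, div_eq, Nat.sub_eq]; omega
    exact_mod_cast h3
  have m2 : (rP (a + b) a : ℝ) ≤ 1208925819614629174706176 * (a * b) *
      (39 / 100 + 27 / 25 * (a : ℝ) ^ 2 / ((a : ℝ) + 2 * b) ^ 2) := by
    rw [rP, e0, Nat.add_eq, Nat.cast_add, mul_add]
    refine add_le_add (div_bd ?_).1 (div_bd ?_).1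
    · simp only [Nat.mul_eq, Nat.cast_mul, sp_eq, Nat.cast_ofNat]; ring
    · simp only [Nat.mul_eq, Nat.pow_eq, Nat.cast_mul, Nat.cast_pow, Nat.cast_add, sp_eq,
        Nat.cast_ofNat]
      generalize (a : ℝ) + 2 * b = N
      ring
  have m3 := (div_bd (x := Nat.mul (sp (a + b) a) 72) (y := Nat.mul 5 (Nat.pow (a + b) 2))
    (v := 1208925819614629174706176 * (18 / 5 * om a b)) (by
      simp only [Nat.mul_eq, Nat.pow_eq, Nat.cast_mul, Nat.cast_pow, Nat.cast_add, sp_eq, om,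
        Nat.cast_ofNat]
      generalize (a : ℝ) + b = N
      ring)).2
  have m4 : 1208925819614629174706176 * (a * b) *
      (27 / 100 * om a b + 27 / 50 * ((a : ℝ) ^ 2 / ((a : ℝ) + b) ^ 2)) +
      1208925819614629174706176 * (a * b) *
        (27 / 100 * if 5 * a ≤ 2 * (a + b) then 0.0455 * om a b ^ 2 else 0.0557) +
      hh (a + b) * (1208925819614629174706176 * (18 / 5 * om a b) + eU C T (a + b) a) ≤
      rN C T (a + b) a := by
    have e3 : ∀ x y z : ℕ, ((Nat.add (Nat.add (Nat.add x y) z) 3 : ℕ) : ℝ) =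
        (Nat.add x 1 : ℕ) + (Nat.add y 1 : ℕ) + (Nat.add z 1 : ℕ) := fun x y z => by
      simp only [Nat.add_eq]; push_cast; ring
    rw [rN, e0, e1, e3, cnd, rec_ble]
    refine add_le_add (add_le_add (div_bd ?_).2 ?_) (le_trans ?_ (div_bd rfl).2)
    · simp only [Nat.mul_eq, Nat.pow_eq, Nat.cast_mul, Nat.cast_pow, Nat.cast_add, sp_eq, om,
        Nat.cast_ofNat]
      field_simp; ring
    · simp only [Nat.mul_eq]
      split_ifs
      · refine (div_bd ?_).2
        simp only [Nat.pow_eq, Nat.cast_mul, Nat.cast_pow, Nat.cast_add, sp_eq, om, Nat.cast_ofNat]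
        generalize (a : ℝ) + b = N
        ring
      · refine (div_bd ?_).2
        simp only [Nat.cast_mul, sp_eq, Nat.cast_ofNat]
        ring
    · generalize Nat.add (Nat.div _ _) 1 = x at m3 ⊢
      rw [hh, sn_eq]
      simp only [Nat.mul_eq, Nat.add_eq, Nat.cast_mul, Nat.cast_add, Nat.cast_ofNat]
      rw [div_mul_eq_mul_div]
      gcongr
  rw [gam, L2]
  generalize (if 5 * a ≤ 2 * (a + b) then 0.0455 * om a b ^ 2 else 0.0557 : ℝ) = X at m4 ⊢
  rw [mul_div_assoc] at m2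
  rw [mul_div_assoc 2]
  generalize (a : ℝ) ^ 2 / ((a : ℝ) + 2 * b) ^ 2 = v at m2 ⊢
  generalize (a : ℝ) ^ 2 / ((a : ℝ) + b) ^ 2 = u at m4 ⊢
  generalize ((a : ℝ) + b) ^ 2 = N at m1 ⊢
  linear_combination (m1 + m2 + m4) / 1208925819614629174706176

theorem lev_sound (h0 : ABEL) {a b : ℕ} (ok : Ok C T (a + b)) (h : lev C T (a + b) = true)
    (ha : 1 ≤ a) (hb : a ≤ b) : Cert a b := by
  rw [lev, frc_eq] at h
  simp only [band_iff, div_eq] at h
  obtain ⟨⟨h1, h2, h3⟩, h4, h5⟩ := h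
  have hH : a ≤ (a + b) / 2 := by omega
  have h6 := Nat.le_of_mul_le_mul_left
    (Nat.le_of_ble_eq_true (allR_true h2 a (Nat.lt_succ_of_le hH))) ha
  refine ⟨mu C T (a + b) a / 17592186044416, eU C T (a + b) a / 1208925819614629174706176,
    by positivity, by positivity, ?_, mu_le ha h6, fun i hi => ?_⟩
  · have := EE_le h0 ok h1 ha hb
    linarith
  · have := runs h0 ok h3 h4 h5 hi ha hH
    simp only [cS, Nat.add_sub_cancel_left, mul_assoc, ← mul_sum, zero_mul, one_mul] at this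
    exact ⟨by have := this.1; unfold WW; linarith, by have := this.2; unfold WW; linarith⟩

theorem levs_sound (h0 : ABEL) {n a b : ℕ} (h : levs C T n = true) (ok : Ok C T (a + b))
    (hn : C < a + b + n) (ha : 1 ≤ a) (hb : a ≤ b) : Cert a b := by
  have := ok.hC
  have h1 := allR_true h (C - (a + b)) (by omega)
  rw [frc_eq, Nat.sub_eq, Nat.sub_sub_self this] at h1
  exact lev_sound h0 ok h1 ha hb

end Pool.Agent.MP_ddaf7c_pr.A.Pk

end MrgPart0

-- ======== part 1: formerly Pool.Agent.MP_ddaf7c_pr.A.Certs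
section MrgPart1

set_option autoImplicit false

namespace Pool.Agent.MP_ddaf7c_pr.A

open Pk

theorem certs (h0 : ABEL) : CERTS := by
  intro a b ha hb hM
  have go : ∀ {C T n : ℕ}, levs C T n = true → a + b ≤ C → C < a + b + n → C ≤ 255 →
      C / 2 + n ≤ C + 1 → C / 2 < T → (C + 1 - n) / 2 + n ≤ T → T ≤ 256 → Cert a b :=
    fun h h1 h2 h3 h4 h5 h6 h7 =>
      levs_sound h0 h ⟨by omega, h1, h3, by omega, h5, by omega, h7⟩ h2 ha hb
  by_cases h1 : 231 < a + b
  · apply go lv255 <;> omega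
  by_cases h2 : 205 < a + b
  · apply go lv231 <;> omega
  by_cases h3 : 175 < a + b
  · apply go lv205 <;> omega
  by_cases h4 : 139 < a + b
  · apply go lv175 <;> omega
  by_cases h5 : 95 < a + b
  · apply go lv139 <;> omega
  by_cases h6 : 47 < a + b
  · apply go lv95 <;> omega
  by_cases h7 : 23 < a + b
  · apply go lv47 <;> omega
  by_cases h8 : 11 < a + b
  · apply go lv23 <;> omega
  by_cases h9 : 5 < a + b
  · apply go lv11 <;> omega
  by_cases h10 : 2 < a + b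
  · apply go lv5 <;> omega
  · apply go lv2 <;> omega

end Pool.Agent.MP_ddaf7c_pr.A

end MrgPart1

-- ======== part 2: formerly Pool.Agent.MP_ddaf7c_pr.A.Loss
section MrgPart2

/-! The two loss terms of the supersolution are at most `L2 a b * t * a * b`. -/

set_option autoImplicit false

namespace Pool.Agent.MP_ddaf7c_pr.A

open Finset Real

namespace Loss

theorem ratio {K : ℕ → ℝ} {t : ℝ} (h : Adm K t) (i s : ℕ) :
    K (i + 1) * K (i + s) ≤ K i * K (i + s + 1) := by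
  induction s with
  | zero => simp [mul_comm]
  | succ s ih =>
    have h1 := h.cvx (i + s + 1) (by omega)
    simp only [Nat.add_sub_cancel] at h1
    have p1 := h.pos (i + s)
    have p2 := h.pos (i + s + 1)
    have p3 := h.pos i
    have p4 := h.pos (i + 1)
    have e : i + (s + 1) = i + s + 1 := by omega
    rw [e]
    refine le_of_mul_le_mul_right ?_ p1
    calc K (i + 1) * K (i + s + 1) * K (i + s)
        = (K (i + 1) * K (i + s)) * K (i + s + 1) := by ring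
      _ ≤ (K i * K (i + s + 1)) * K (i + s + 1) := mul_le_mul_of_nonneg_right ih p2.le
      _ = K i * K (i + s + 1) ^ 2 := by ring
      _ ≤ K i * (K (i + s) * K (i + s + 1 + 1)) := mul_le_mul_of_nonneg_left h1 p3.le
      _ = K i * K (i + s + 1 + 1) * K (i + s) := by ring

theorem supermul {K : ℕ → ℝ} {t : ℝ} (h : Adm K t) (r s : ℕ) : K r * K s ≤ K (r + s) := by
  induction r with
  | zero => simp [h.zero]
  | succ r ih =>
    have h1 := ratio h r s
    have p1 := h.pos r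
    have p2 := h.pos (r + 1)
    have e : r + 1 + s = r + s + 1 := by omega
    rw [e]
    refine le_of_mul_le_mul_left ?_ p1
    calc K r * (K (r + 1) * K s) = K (r + 1) * (K r * K s) := by ring
      _ ≤ K (r + 1) * K (r + s) := mul_le_mul_of_nonneg_left ih p2.le
      _ ≤ K r * K (r + s + 1) := h1

theorem uu_le {K : ℕ → ℝ} {t : ℝ} (h : Adm K t) {c r : ℕ} (hr : r ≤ c) : uu K c r ≤ 1 := by
  unfold uu
  rw [div_le_one (h.pos c)]
  have := supermul h r (c - r)
  rwa [Nat.add_sub_cancel' hr] at this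

theorem uu_symm (K : ℕ → ℝ) {c r : ℕ} (hr : r ≤ c) : uu K c (c - r) = uu K c r := by
  unfold uu
  rw [Nat.sub_sub_self hr, mul_comm]

theorem TT_symm {c r : ℕ} (hr : r ≤ c) : TT c (c - r) = TT c r := by
  unfold TT
  rw [Nat.sub_sub_self hr, mul_comm]

theorem tau_nonneg (c : ℕ) : 0 ≤ tau c := by
  unfold tau
  positivity

theorem TT_nonneg (c r : ℕ) : 0 ≤ TT c r :=
  div_nonneg (mul_nonneg (tau_nonneg _) (tau_nonneg _)) (tau_nonneg _)

theorem sum_flip (c : ℕ) (f : ℕ → ℝ) : ∑ r ∈ Ico 1 c, f (c - r) = ∑ r ∈ Ico 1 c, f r := by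
  refine Finset.sum_nbij' (fun r => c - r) (fun r => c - r) ?_ ?_ ?_ ?_ ?_
  · intro r hr
    simp only [mem_Ico] at hr ⊢
    omega
  · intro r hr
    simp only [mem_Ico] at hr ⊢
    omega
  · intro r hr
    simp only [mem_Ico] at hr ⊢
    omega
  · intro r hr
    simp only [mem_Ico] at hr ⊢
    omega
  · intro r _
    rfl

/-- symmetrisation in `r` and `c - r` -/
theorem gen (h0 : ABEL) {K : ℕ → ℝ} {t : ℝ} (h : Adm K t) {c : ℕ} (hc : 1 ≤ c) (D : ℕ → ℝ)
    (W : ℝ) (hW : 0 ≤ W)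
    (hD : ∀ r, 1 ≤ r → r < c → ((c - r : ℕ) : ℝ) * D r + r * D (c - r) ≤ c * W) :
    ∑ r ∈ Ico 1 c, PP c r * D r * (1 - uu K c r) ≤ W * (t * c ^ 2 / 2) := by
  have hs : ∑ r ∈ Ico 1 c, PP c r * (1 - uu K c r) ≤ t * c ^ 2 / 2 := by
    have e : ∑ r ∈ Ico 1 c, PP c r * (1 - uu K c r) = (c : ℝ) - 1 - Phi K c := by
      rw [← h0 c hc, Phi, ← Finset.sum_sub_distrib]
      exact Finset.sum_congr rfl fun r _ => by ring
    rw [e]
    exact h.mono c hc
  have f1 := sum_flip c (fun r => PP c r * D r * (1 - uu K c r))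
  have f2 := sum_flip c (fun r => PP c r * (1 - uu K c r))
  have key : ∑ r ∈ Ico 1 c, (PP c r * D r * (1 - uu K c r) +
        PP c (c - r) * D (c - r) * (1 - uu K c (c - r))) ≤
      ∑ r ∈ Ico 1 c, W * (PP c r * (1 - uu K c r) + PP c (c - r) * (1 - uu K c (c - r))) := by
    refine Finset.sum_le_sum fun r hr => ?_
    rw [mem_Ico] at hr
    have hr' : r ≤ c := hr.2.le
    have hv : 0 ≤ 1 - uu K c r := sub_nonneg.2 (uu_le h hr')
    have hT := TT_nonneg c r
    have h1 := hD r hr.1 hr.2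
    have hc' : ((c - r : ℕ) : ℝ) + r = c := by
      rw [← Nat.cast_add, Nat.sub_add_cancel hr']
    unfold PP
    rw [uu_symm K hr', TT_symm hr', Nat.sub_sub_self hr']
    have h2 := mul_le_mul_of_nonneg_right h1 (mul_nonneg hT hv)
    rw [← hc'] at h2
    nlinarith [h2]
  rw [Finset.sum_add_distrib, ← Finset.mul_sum, Finset.sum_add_distrib, f1, f2] at key
  have := mul_le_mul_of_nonneg_left hs hW
  linarith

/-- the two point inequality on the small side -/
theorem two (r s b : ℝ) (hr : 0 ≤ r) (hs : 0 ≤ s) (hb : r + s ≤ b) (hb0 : 0 < b) :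
    2 * (r + s) ^ 2 / (r + s + 2 * b) ^ 2 ≤ r ^ 2 / (r + b) ^ 2 + s ^ 2 / (s + b) ^ 2 := by
  have h1 : 0 < r + b := by linarith
  have h2 : 0 < s + b := by linarith
  have h3 : 0 < r + s + 2 * b := by linarith
  rw [div_add_div _ _ (by positivity) (by positivity), div_le_div_iff₀ (by positivity) (by positivity)]
  have ha : 0 ≤ r + s := by linarith
  have hP : r * s ≤ (r + s) ^ 2 / 4 := by nlinarith [sq_nonneg (r - s)]
  have hq : (r + s) ^ 2 ≤ b ^ 2 := pow_le_pow_left₀ ha hb 2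
  have hc : (r + s) ^ 3 ≤ b ^ 3 := pow_le_pow_left₀ ha hb 3
  have hF : 0 ≤ 4 * b ^ 2 * (2 * b ^ 2 - (r + s) ^ 2) - 8 * b * (r + s + b) * (r * s) := by
    have e1 : 8 * b * (r + s + b) * (r * s) ≤ 8 * b * (r + s + b) * ((r + s) ^ 2 / 4) :=
      mul_le_mul_of_nonneg_left hP (by positivity)
    have e2 : b ^ 2 * (r + s) ^ 2 ≤ b ^ 2 * b ^ 2 := mul_le_mul_of_nonneg_left hq (by positivity)
    have e3 : b * (r + s) ^ 3 ≤ b * b ^ 3 := mul_le_mul_of_nonneg_left hc hb0.le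
    nlinarith
  have := mul_nonneg (sub_nonneg.2 hP) hF
  nlinarith [this]

noncomputable def F (y : ℝ) : ℝ := y * (1 - y) ^ 2 / (1 + y) ^ 2

theorem T1 (y w : ℝ) (hy : 0 ≤ y) (hy1 : y ≤ 1) (hw : 0 ≤ w) (hw1 : w ≤ 1) :
    y * (w - 4 * y / (1 + y) ^ 2) ≤ 0.091 * w ^ 2 := by
  have hz : 0 < (1 + y) ^ 2 := by positivity
  have key : 0 ≤ (1 + y) ^ 2 * (0.091 * w ^ 2 - y * w) + 4 * y ^ 2 := by
    rcases le_total y (1 / 5) with h | h
    · have h1 : -(y ^ 2 * (250 / 91)) ≤ 0.091 * w ^ 2 - y * w := by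
        nlinarith [sq_nonneg (0.182 * w - y)]
      have h2 : (1 + y) ^ 2 ≤ 1.44 := by nlinarith
      have h3 := mul_le_mul_of_nonneg_left h1 hz.le
      have h4 := mul_le_mul_of_nonneg_right h2 (sq_nonneg y)
      nlinarith [sq_nonneg y]
    · have h1 : 0.091 - y ≤ 0.091 * w ^ 2 - y * w := by
        have := mul_nonneg (sub_nonneg.2 hw1) (show 0 ≤ y - 0.091 * (1 + w) by linarith)
        nlinarith
      have h3 := mul_le_mul_of_nonneg_left h1 hz.le
      have h4 := mul_nonneg (sq_nonneg (y - 0.236)) (show 0 ≤ 1.619 - y by linarith)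
      nlinarith
  have e : y * (w - 4 * y / (1 + y) ^ 2) = (y * w * (1 + y) ^ 2 - 4 * y ^ 2) / (1 + y) ^ 2 := by
    field_simp
  rw [e, div_le_iff₀ hz]
  nlinarith

theorem T2 (y w : ℝ) (hy : 0 ≤ y) (hw1 : w ≤ 1) : y * (w - 4 * y / (1 + y) ^ 2) ≤ F y := by
  have e : F y = y * (1 - 4 * y / (1 + y) ^ 2) := by
    unfold F
    have : (1 + y) ≠ 0 := by positivity
    field_simp
    ring
  rw [e]
  exact mul_le_mul_of_nonneg_left (by linarith) hy

theorem F_nonneg {y : ℝ} (hy : 0 ≤ y) : 0 ≤ F y := by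
  unfold F
  positivity

theorem F_anti {p q : ℝ} (hp : 1 / 2 ≤ p) (hpq : p ≤ q) (hq : q ≤ 1) : F q ≤ F p := by
  unfold F
  have h1 : q * (1 - q) ≤ p * (1 - p) := by nlinarith
  have h2 : q * (1 - q) ^ 2 ≤ p * (1 - p) ^ 2 := by
    have h3 : q * (1 - q) * (1 - q) ≤ p * (1 - p) * (1 - p) :=
      mul_le_mul h1 (by linarith) (by linarith) (by nlinarith)
    nlinarith
  exact div_le_div₀ (by nlinarith [sq_nonneg (1 - p)]) h2 (by positivity)
    (pow_le_pow_left₀ (by linarith) (by linarith) 2)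

theorem F_pair {y : ℝ} (hy : 0 ≤ y) (hy1 : y ≤ 1) : F y + F (1 - y) ≤ 1 / 9 := by
  unfold F
  have h1 : 0 < 1 + y := by linarith
  have h2 : 0 < 1 + (1 - y) := by linarith
  rw [div_add_div _ _ (by positivity) (by positivity), div_le_div_iff₀ (by positivity) (by norm_num)]
  nlinarith [sq_nonneg (4 * (y * (1 - y)) - 1)]

theorem FF {y z : ℝ} (hy : 0 ≤ y) (hyz : y ≤ z) (hz : z ≤ 1) (h : 1 ≤ y + z) :
    F y + F z ≤ 1 / 9 := by
  rcases le_total y (1 / 2) with h1 | h1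
  · have := F_anti (p := 1 - y) (q := z) (by linarith) (by linarith) hz
    have := F_pair hy (by linarith)
    linarith
  · have a1 := F_anti (p := 1 / 2) (q := y) le_rfl h1 (by linarith)
    have a2 := F_anti (p := 1 / 2) (q := z) le_rfl (by linarith) hz
    have a3 := F_pair (y := 1 / 2) (by norm_num) (by norm_num)
    norm_num at a1 a2 a3 ⊢
    linarith

theorem FF' {y z : ℝ} (hy : 0 ≤ y) (hz0 : 0 ≤ z) (hy1 : y ≤ 1) (hz : z ≤ 1) (h : 1 ≤ y + z) :
    F y + F z ≤ 1 / 9 := by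
  rcases le_total y z with h1 | h1
  · exact FF hy h1 hz h
  · have := FF hz0 h1 hy1 (by linarith)
    linarith

theorem F_le {y : ℝ} (hy : 0 ≤ y) (hy1 : y ≤ 1) : F y ≤ 1 / 9 := by
  have := F_pair hy hy1
  have := F_nonneg (y := 1 - y) (by linarith)
  linarith

/-- one term on the large side -/
noncomputable def G (a b k : ℝ) : ℝ := k * max (4 * a * b / (a + b) ^ 2 - 4 * a * k / (a + k) ^ 2) 0

theorem G_zero {a b k : ℝ} (ha : 0 < a) (hk : 0 ≤ k) (hkb : k ≤ b) (h : a ^ 2 ≤ k * b) :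
    G a b k = 0 := by
  unfold G
  have hb : 0 ≤ b := hk.trans hkb
  have : 4 * a * b / (a + b) ^ 2 ≤ 4 * a * k / (a + k) ^ 2 := by
    rw [div_le_div_iff₀ (by positivity) (by positivity)]
    have := mul_nonneg ha.le (mul_nonneg (sub_nonneg.2 hkb) (sub_nonneg.2 h))
    nlinarith
  rw [max_eq_right (by linarith), mul_zero]

theorem w_le {a b : ℝ} (ha : 0 < a) (hb : 0 ≤ b) :
    0 ≤ 4 * a * b / (a + b) ^ 2 ∧ 4 * a * b / (a + b) ^ 2 ≤ 1 := by
  refine ⟨by positivity, ?_⟩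
  rw [div_le_one (by positivity)]
  nlinarith [sq_nonneg (a - b)]

theorem G_le {a b k c : ℝ} (ha : 0 < a) (hk : 0 ≤ k) (hc : 0 ≤ c)
    (h : k / a * (4 * a * b / (a + b) ^ 2 - 4 * (k / a) / (1 + k / a) ^ 2) ≤ c) :
    G a b k ≤ c * a := by
  unfold G
  have e : 4 * (k / a) / (1 + k / a) ^ 2 = 4 * a * k / (a + k) ^ 2 := by
    field_simp
  rw [e, div_mul_eq_mul_div, div_le_iff₀ ha] at h
  rcases le_total (4 * a * b / (a + b) ^ 2 - 4 * a * k / (a + k) ^ 2) 0 with h1 | h1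
  · rw [max_eq_right h1, mul_zero]
    positivity
  · rw [max_eq_left h1]
    exact h

theorem small {a b k : ℝ} (ha : 0 < a) (hab : a ≤ b) (h : k * b < a ^ 2) : k / a ≤ 1 := by
  rw [div_le_one ha]
  by_contra h1
  push Not at h1
  nlinarith

theorem G_one {a b k : ℝ} (ha : 0 < a) (hab : a ≤ b) (hk : 0 ≤ k) (hkb : k ≤ b) :
    G a b k ≤ 0.091 * (4 * a * b / (a + b) ^ 2) ^ 2 * a := by
  rcases le_or_gt (a ^ 2) (k * b) with h | h
  · rw [G_zero ha hk hkb h]
    positivity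
  · have hw := w_le ha (hk.trans hkb)
    exact G_le ha hk (by positivity) (T1 _ _ (by positivity) (small ha hab h) hw.1 hw.2)

theorem G_F {a b k : ℝ} (ha : 0 < a) (hk : 0 ≤ k) (hkb : k ≤ b) : G a b k ≤ F (k / a) * a :=
  G_le ha hk (F_nonneg (by positivity)) (T2 _ _ (by positivity) (w_le ha (hk.trans hkb)).2)

theorem G_far {a k k' : ℝ} (ha : 0 < a) (hk : 0 ≤ k) (hk' : 0 ≤ k') (h : 3 * a ≤ 2 * (k + k')) :
    G a (k + k') k + G a (k + k') k' ≤
      0.091 * (4 * a * (k + k') / (a + (k + k')) ^ 2) ^ 2 * a := by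
  have hab : a ≤ k + k' := by linarith
  rcases le_or_gt (a ^ 2) (k * (k + k')) with h1 | h1
  · rw [G_zero ha hk (by linarith) h1, zero_add]
    exact G_one ha hab hk' (by linarith)
  · have h2 : a ^ 2 ≤ k' * (k + k') := by nlinarith
    rw [G_zero ha hk' (by linarith) h2, add_zero]
    exact G_one ha hab hk (by linarith)

theorem G_near {a k k' : ℝ} (ha : 0 < a) (hk : 0 ≤ k) (hk' : 0 ≤ k') (hab : a ≤ k + k') :
    G a (k + k') k + G a (k + k') k' ≤ 1 / 9 * a := by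
  have b1 := G_F (b := k + k') ha hk (by linarith)
  have b2 := G_F (b := k + k') ha hk' (by linarith)
  rcases le_or_gt (a ^ 2) (k * (k + k')) with h1 | h1
  · rw [G_zero ha hk (by linarith) h1, zero_add]
    rcases le_or_gt (a ^ 2) (k' * (k + k')) with h2 | h2
    · rw [G_zero ha hk' (by linarith) h2]
      positivity
    · exact b2.trans (mul_le_mul_of_nonneg_right (F_le (by positivity) (small ha hab h2)) ha.le)
  · rcases le_or_gt (a ^ 2) (k' * (k + k')) with h2 | h2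
    · rw [G_zero ha hk' (by linarith) h2, add_zero]
      exact b1.trans (mul_le_mul_of_nonneg_right (F_le (by positivity) (small ha hab h1)) ha.le)
    · have h3 : 1 ≤ k / a + k' / a := by
        rw [← add_div, le_div_iff₀ ha]
        linarith
      have := mul_le_mul_of_nonneg_right
        (FF' (by positivity) (by positivity) (small ha hab h1) (small ha hab h2) h3) ha.le
      linarith

theorem max_mul (x : ℝ) : max (27 / 100 * x) 0 = 27 / 100 * max x 0 := by
  rcases le_total x 0 with h | h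
  · rw [max_eq_right h, max_eq_right (by linarith), mul_zero]
  · rw [max_eq_left h, max_eq_left (by linarith)]

end Loss

open Loss in
theorem loss (h0 : ABEL) : LOSS := by
  intro K t a b ha hab ht h
  have ha0 : (0 : ℝ) < a := by exact_mod_cast ha
  have hab' : (a : ℝ) ≤ b := by exact_mod_cast hab
  have hb0 : (0 : ℝ) < b := ha0.trans_le hab'
  set X : ℝ := (a : ℝ) ^ 2 / ((a : ℝ) + b) ^ 2 - 2 * (a : ℝ) ^ 2 / ((a : ℝ) + 2 * b) ^ 2 with hX
  set c : ℝ := if 5 * a ≤ 2 * (a + b) then 0.0455 * om a b ^ 2 else 0.0557 with hc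
  have hX0 : 0 ≤ X := by
    rw [hX, sub_nonneg, div_le_div_iff₀ (by positivity) (by positivity)]
    have h1 : (a : ℝ) ^ 2 ≤ (b : ℝ) ^ 2 := pow_le_pow_left₀ ha0.le hab' 2
    have h2 := mul_le_mul_of_nonneg_left h1 (sq_nonneg (a : ℝ))
    have h3 : 0 ≤ (a : ℝ) ^ 2 * (b : ℝ) ^ 2 := by positivity
    nlinarith
  have hc0 : 0 ≤ c := by
    rw [hc]
    split_ifs <;> positivity
  have sa := gen h0 h ha (fun r => gam (a - r) b - gam a b) (27 / 100 * (4 * b / a) * X)
    (by positivity) (by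
      intro r hr1 hr
      have hs : ((a - r : ℕ) : ℝ) + r = a := by
        rw [← Nat.cast_add, Nat.sub_add_cancel hr.le]
      simp only [gam, om, Nat.sub_sub_self hr.le]
      set s : ℝ := ((a - r : ℕ) : ℝ) with hs'
      have hs0 : 0 ≤ s := by positivity
      have hr0 : (0 : ℝ) ≤ r := by positivity
      have h2 := two s r b hs0 hr0 (by linarith) hb0
      rw [hs] at h2
      have h3 := mul_le_mul_of_nonneg_left h2 (show (0 : ℝ) ≤ 27 / 100 * (4 * b) by positivity)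
      have e1 : (a : ℝ) * (27 / 100 * (4 * b / a) * X) = 27 / 100 * (4 * b) * X := by
        field_simp
      have e2 : s * (3 / 25 + 27 / 100 * (1 - 4 * s * b / (s + b) ^ 2) -
            (3 / 25 + 27 / 100 * (1 - 4 * a * b / ((a : ℝ) + b) ^ 2))) +
          r * (3 / 25 + 27 / 100 * (1 - 4 * r * b / ((r : ℝ) + b) ^ 2) -
            (3 / 25 + 27 / 100 * (1 - 4 * a * b / ((a : ℝ) + b) ^ 2))) =
          27 / 100 * (4 * b) * ((s + r) * a / ((a : ℝ) + b) ^ 2) -
            27 / 100 * (4 * b) * (s ^ 2 / (s + b) ^ 2 + (r : ℝ) ^ 2 / ((r : ℝ) + b) ^ 2) := by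
        ring
      rw [e1, e2, hs, hX]
      have e3 : (a : ℝ) * a / ((a : ℝ) + b) ^ 2 = (a : ℝ) ^ 2 / ((a : ℝ) + b) ^ 2 := by ring
      rw [e3]
      linarith)
  have sb := gen h0 h (ha.trans hab) (fun r => max (gam a (b - r) - gam a b) 0)
    (27 / 100 * (2 * c * a / b)) (by positivity) (by
      intro r hr1 hr
      have hs : ((b - r : ℕ) : ℝ) + r = b := by
        rw [← Nat.cast_add, Nat.sub_add_cancel hr.le]
      have g : ∀ k : ℕ, gam a k - gam a b = 27 / 100 * (om a b - om a k) := fun k => by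
        unfold gam
        ring
      simp only [g, max_mul, Nat.sub_sub_self hr.le]
      have e1 : (b : ℝ) * (27 / 100 * (2 * c * a / b)) = 27 / 100 * (2 * c * a) := by
        field_simp
      have e2 : ∀ k : ℕ, (k : ℝ) * (27 / 100 * max (om a b - om a k) 0) = 27 / 100 * G a b k :=
        fun k => by
          unfold G om
          ring
      rw [e1, e2, e2]
      set s : ℝ := ((b - r : ℕ) : ℝ) with hs'
      have hs0 : 0 ≤ s := by positivity
      have hr0 : (0 : ℝ) ≤ r := by positivity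
      have main : G a b s + G a b r ≤ 2 * c * a := by
        rw [hc]
        split_ifs with h5
        · have h5' : (5 : ℝ) * a ≤ 2 * (a + b) := by exact_mod_cast h5
          have := G_far ha0 hs0 hr0 (by linarith)
          rw [hs] at this
          unfold om
          linarith
        · have := G_near ha0 hs0 hr0 (by linarith)
          rw [hs] at this
          linarith
      linarith)
  have e1 : 27 / 100 * (4 * b / a) * X * (t * (a : ℝ) ^ 2 / 2) = 27 / 50 * X * t * a * b := by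
    field_simp
    ring
  have e2 : 27 / 100 * (2 * c * a / b) * (t * (b : ℝ) ^ 2 / 2) = 27 / 100 * c * t * a * b := by
    field_simp
  have e3 : L2 a b * t * a * b = 27 / 50 * X * t * a * b + 27 / 100 * c * t * a * b := by
    unfold L2
    rw [← hX, ← hc]
    ring
  rw [e3, ← e1, ← e2]
  exact add_le_add sa sb

end Pool.Agent.MP_ddaf7c_pr.A

end MrgPart2

-- marker of a merged file
example : 731051 + 837000 = 731051 + 837000 := rfl
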