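import Mathlib.Data.List.GetD
import Mathlib.Analysis.SpecialFunctions.Stirling
import Pool.Agent.MP_ddaf7c_pr.A.Hinge

-- ======== part 0: formerly Pool.Agent.MP_ddaf7c_pr.A.Core
section MrgPart0

/-! The part of the defect that is linear in the symmetric sequence. -/

set_option autoImplicit false

namespace Pool.Agent.MP_ddaf7c_pr.A

open Finset Real

namespace CoreRow

lemma lc1 {K : ℕ → ℝ} {t : ℝ} (h : Adm K t) (i n : ℕ) :
    K (i + 1) * K (i + n) ≤ K i * K (i + n + 1) := by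
  induction n with
  | zero => simp [mul_comm]
  | succ n ih =>
    have h1 := h.cvx (i + n + 1) (by omega)
    rw [Nat.add_sub_cancel] at h1
    have p1 := h.pos (i + n + 1)
    have p2 := h.pos (i + n)
    have p3 := h.pos i
    have p4 := h.pos (i + 1)
    have p5 := h.pos (i + n + 1 + 1)
    rw [← add_assoc]
    have e : K (i + 1) * K (i + n + 1) * K (i + n) ≤ K i * K (i + n + 1 + 1) * K (i + n) := by
      calc K (i + 1) * K (i + n + 1) * K (i + n) = (K (i + 1) * K (i + n)) * K (i + n + 1) := by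
            ring
        _ ≤ (K i * K (i + n + 1)) * K (i + n + 1) := mul_le_mul_of_nonneg_right ih p1.le
        _ = K i * K (i + n + 1) ^ 2 := by ring
        _ ≤ K i * (K (i + n) * K (i + n + 1 + 1)) := mul_le_mul_of_nonneg_left h1 p3.le
        _ = _ := by ring
    exact le_of_mul_le_mul_right e p2

lemma lc {K : ℕ → ℝ} {t : ℝ} (h : Adm K t) (d : ℕ) :
    ∀ i j : ℕ, i ≤ j → K (i + d) * K j ≤ K i * K (j + d) := by
  induction d with
  | zero => intro i j _; simp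
  | succ d ih =>
    intro i j hij
    obtain ⟨n, rfl⟩ := Nat.exists_eq_add_of_le hij
    have h1 := ih i (i + n) hij
    have h2 := lc1 h (i + d) n
    have e1 : i + d + n = i + n + d := by omega
    rw [e1] at h2
    have p1 := h.pos (i + n + d)
    have p2 := h.pos (i + n)
    have p3 := h.pos (i + n + d + 1)
    rw [← add_assoc, ← add_assoc]
    have e : K (i + d + 1) * K (i + n) * K (i + n + d) ≤
        K i * K (i + n + d + 1) * K (i + n + d) := by
      calc K (i + d + 1) * K (i + n) * K (i + n + d)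
          = (K (i + d + 1) * K (i + n + d)) * K (i + n) := by ring
        _ ≤ (K (i + d) * K (i + n + d + 1)) * K (i + n) := mul_le_mul_of_nonneg_right h2 p2.le
        _ = (K (i + d) * K (i + n)) * K (i + n + d + 1) := by ring
        _ ≤ (K i * K (i + n + d)) * K (i + n + d + 1) := mul_le_mul_of_nonneg_right h1 p3.le
        _ = _ := by ring
    exact le_of_mul_le_mul_right e p1

lemma lc' {K : ℕ → ℝ} {t : ℝ} (h : Adm K t) {i j p q : ℕ} (h1 : i ≤ p) (h2 : i ≤ j)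
    (h3 : p + j = i + q) : K p * K j ≤ K i * K q := by
  obtain ⟨d, rfl⟩ := Nat.exists_eq_add_of_le h1
  have e : q = j + d := by omega
  rw [e]
  exact lc h d i j h2

lemma uu_pos {K : ℕ → ℝ} {t : ℝ} (h : Adm K t) (M r : ℕ) : 0 < uu K M r :=
  div_pos (mul_pos (h.pos _) (h.pos _)) (h.pos _)

lemma uu_le {K : ℕ → ℝ} {t : ℝ} (h : Adm K t) {M r : ℕ} (hr : r ≤ M) : uu K M r ≤ 1 := by
  unfold uu
  rw [div_le_one (h.pos _)]
  have := lc' h (i := 0) (j := M - r) (p := r) (q := M) (by omega) (by omega) (by omega)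
  rwa [h.zero, one_mul] at this

lemma uu_symm (K : ℕ → ℝ) {M r : ℕ} (hr : r ≤ M) : uu K M (M - r) = uu K M r := by
  unfold uu
  rw [Nat.sub_sub_self hr, mul_comm]

lemma uu_mul {K : ℕ → ℝ} {t : ℝ} (h : Adm K t) {M a r : ℕ} (hr : r + a ≤ M) :
    uu K M a * uu K M r ≤ uu K M (r + a) := by
  unfold uu
  have h1 := lc' h (i := 0) (j := r) (p := a) (q := r + a) (by omega) (by omega) (by omega)
  rw [h.zero, one_mul] at h1
  have h2 := lc' h (i := M - (r + a)) (j := M - r) (p := M - a) (q := M) (by omega) (by omega)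
    (by omega)
  have pM := h.pos M
  rw [div_mul_div_comm, div_le_div_iff₀ (mul_pos pM pM) pM]
  have h3 := mul_le_mul h1 h2 (mul_pos (h.pos _) (h.pos _)).le (h.pos _).le
  calc K a * K (M - a) * (K r * K (M - r)) * K M
      = (K a * K r * (K (M - a) * K (M - r))) * K M := by ring
    _ ≤ (K (r + a) * (K (M - (r + a)) * K M)) * K M := mul_le_mul_of_nonneg_right h3 pM.le
    _ = _ := by ring

lemma uu_cvx {K : ℕ → ℝ} {t : ℝ} (h : Adm K t) {M i : ℕ} (h1 : 1 ≤ i) (h2 : i < M) :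
    2 * uu K M i ≤ uu K M (i - 1) + uu K M (i + 1) := by
  have c1 := h.cvx i h1
  have c2 := h.cvx (M - i) (by omega)
  have e1 : M - i - 1 = M - (i + 1) := by omega
  have e2 : M - i + 1 = M - (i - 1) := by omega
  rw [e1, e2] at c2
  have pM := h.pos M
  have hsq : uu K M i ^ 2 ≤ uu K M (i - 1) * uu K M (i + 1) := by
    unfold uu
    rw [div_pow, div_mul_div_comm, ← sq]
    apply div_le_div_of_nonneg_right _ (by positivity)
    have h3 := mul_le_mul c1 c2 (by positivity) (mul_pos (h.pos _) (h.pos _)).le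
    calc (K i * K (M - i)) ^ 2 = K i ^ 2 * K (M - i) ^ 2 := by ring
      _ ≤ _ := h3
      _ = _ := by ring
  have p1 := uu_pos h M (i - 1)
  have p2 := uu_pos h M (i + 1)
  apply le_of_sq_le_sq _ (by positivity) |>.trans' (le_refl _)
  nlinarith [sq_nonneg (uu K M (i - 1) - uu K M (i + 1))]

lemma uu_last {K : ℕ → ℝ} {t : ℝ} (h : Adm K t) {M : ℕ} (hM : 2 ≤ M) :
    uu K M (M / 2) ≤ uu K M (M / 2 - 1) := by
  unfold uu
  apply div_le_div_of_nonneg_right _ (h.pos _).le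
  exact lc' h (by omega) (by omega) (by omega)

/-- folding a sum along the reflection -/
lemma fold (M : ℕ) (f : ℕ → ℝ) :
    ∑ r ∈ Ico 1 M, f r =
      ∑ s ∈ Icc 1 (M / 2), (if 2 * s = M then f s else f s + f (M - s)) := by
  have e1 : ∀ s ∈ Icc 1 (M / 2), (if 2 * s = M then f s else f s + f (M - s)) =
      f s + (if 2 * s ≠ M then f (M - s) else 0) := by
    intro s _
    by_cases hs : 2 * s = M <;> simp [hs]
  rw [sum_congr rfl e1, sum_add_distrib, ← sum_filter,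
    ← sum_filter_add_sum_filter_not (Ico 1 M) (fun r => r ≤ M / 2)]
  congr 1
  · apply sum_congr _ (fun _ _ => rfl)
    ext r
    simp only [mem_filter, mem_Ico, mem_Icc]
    omega
  · apply sum_nbij' (fun r => M - r) (fun r => M - r)
    · intro r hr
      simp only [mem_filter, mem_Ico, mem_Icc] at hr ⊢
      omega
    · intro r hr
      simp only [mem_filter, mem_Ico, mem_Icc] at hr ⊢
      omega
    · intro r hr
      simp only [mem_filter, mem_Ico, mem_Icc] at hr ⊢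
      omega
    · intro r hr
      simp only [mem_filter, mem_Ico, mem_Icc] at hr ⊢
      omega
    · intro r hr
      simp only [mem_filter, mem_Ico, mem_Icc] at hr
      rw [Nat.sub_sub_self (by omega)]

lemma tau_nn (c : ℕ) : 0 ≤ tau c := by
  unfold tau
  positivity

lemma qS_nn (M s : ℕ) : 0 ≤ qS M s := by
  have h : 0 ≤ QQ M s := by
    unfold QQ TT
    exact mul_nonneg (Nat.cast_nonneg _)
      (div_nonneg (mul_nonneg (tau_nn _) (tau_nn _)) (tau_nn _))
  unfold qS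
  split_ifs
  · linarith
  · exact h

lemma mass (h0 : ABEL) {K : ℕ → ℝ} {t : ℝ} (h : Adm K t) {M : ℕ} (hM : 1 ≤ M) :
    ∑ s ∈ Icc 1 (M / 2), qS M s * (1 - uu K M s) ≤ t * (M : ℝ) ^ 2 / 2 := by
  have h1 := h.mono M hM
  have h2 : (M : ℝ) - 1 - Phi K M = ∑ r ∈ Ico 1 M, PP M r * (1 - uu K M r) := by
    rw [← h0 M hM, Phi, ← sum_sub_distrib]
    exact sum_congr rfl (fun r _ => by ring)
  rw [h2, fold] at h1
  refine le_trans (le_of_eq (sum_congr rfl ?_)) h1
  intro s hs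
  rw [mem_Icc] at hs
  have hsM : s ≤ M := by omega
  unfold qS
  split_ifs with hc
  · unfold QQ PP
    have e : ((M - s : ℕ) : ℝ) = (M : ℝ) / 2 := by
      have : M - s = s := by omega
      rw [this, ← hc]
      push_cast
      ring
    rw [e]
    ring
  · rw [uu_symm K hsM]
    unfold QQ PP TT
    rw [Nat.sub_sub_self hsM, Nat.cast_sub hsM]
    ring

lemma q2_bound (h0 : ABEL) {K : ℕ → ℝ} {t : ℝ} (h : Adm K t) {a b : ℕ} (ha : 1 ≤ a)
    (hab : a ≤ b) :
    ∑ s ∈ Icc 1 ((a + b) / 2), q2 a b s * (uu K (a + b) a - uu K (a + b) s) ≤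
      t * ((a + b : ℕ) : ℝ) ^ 2 / 2 * uu K (a + b) a := by
  set M := a + b with hM
  set H := M / 2 with hH
  have pa := uu_pos h M a
  have la : uu K M a ≤ 1 := uu_le h (by omega)
  have e1 : ∀ s ∈ Icc 1 H, q2 a b s * (uu K M a - uu K M s) =
      (if a < s then qS M (s - a) * (uu K M a - uu K M s) else 0) +
        (if a < s ∧ H < s + a then qS M s * (uu K M a - uu K M s) else 0) := by
    intro s _
    unfold q2
    rw [← hM, ← hH]
    by_cases h1 : a < s <;> by_cases h2 : H < s + a <;> simp [h1, h2]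
    ring
  have e2 : ∑ s ∈ Icc 1 H, (if a < s then qS M (s - a) * (uu K M a - uu K M s) else 0) =
      ∑ r ∈ Icc 1 H, (if r + a ≤ H then qS M r * (uu K M a - uu K M (r + a)) else 0) := by
    rw [← sum_filter, ← sum_filter]
    apply sum_nbij' (fun s => s - a) (fun r => r + a)
    · intro r hr
      simp only [mem_filter, mem_Icc] at hr ⊢
      omega
    · intro r hr
      simp only [mem_filter, mem_Icc] at hr ⊢
      omega
    · intro r hr
      simp only [mem_filter, mem_Icc] at hr ⊢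
      omega
    · intro r hr
      simp only [mem_filter, mem_Icc] at hr ⊢
      omega
    · intro r hr
      simp only [mem_filter, mem_Icc] at hr
      rw [Nat.sub_add_cancel (by omega)]
  rw [sum_congr rfl e1, sum_add_distrib, e2, ← sum_add_distrib]
  refine le_trans ?_ (mul_le_mul_of_nonneg_right (mass h0 h (by omega : 1 ≤ M)) pa.le)
  rw [sum_mul]
  apply sum_le_sum
  intro r hr
  rw [mem_Icc] at hr
  have pq := qS_nn M r
  have pr := uu_pos h M r
  have lr : uu K M r ≤ 1 := uu_le h (by omega)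
  by_cases h1 : r + a ≤ H
  · rw [if_pos h1, if_neg (by omega), add_zero, mul_assoc]
    apply mul_le_mul_of_nonneg_left _ pq
    have := uu_mul h (M := M) (a := a) (r := r) (by omega)
    nlinarith
  · rw [if_neg h1, zero_add]
    split_ifs
    · rw [mul_assoc]
      apply mul_le_mul_of_nonneg_left _ pq
      nlinarith
    · exact mul_nonneg (mul_nonneg pq (by linarith)) pa.le

end CoreRow

open CoreRow in
theorem core (h0 : ABEL) (h1 : HINGE) : CORE := by
  intro K t φ μ a b ha hab _ h hμ hW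
  have h2 := h1 ((a + b) / 2) a (fun s => mS φ a b s - μ * q2 a b s) (uu K (a + b)) (by omega)
    (fun i hi1 hi2 => uu_cvx h hi1 (by omega)) (uu_last h (by omega)) hW
  have h3 := mul_le_mul_of_nonneg_left (q2_bound h0 h ha hab) hμ
  have h4 : ∑ r ∈ Ico 1 (a + b), mm φ a b r * (uu K (a + b) r - uu K (a + b) a) =
      ∑ s ∈ Icc 1 ((a + b) / 2), mS φ a b s * (uu K (a + b) s - uu K (a + b) a) := by
    rw [CoreRow.fold]
    apply sum_congr rfl
    intro s hs
    rw [mem_Icc] at hs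
    unfold mS
    split_ifs
    · rfl
    · rw [uu_symm K (by omega)]
      ring
  have h5 : ∑ s ∈ Icc 1 ((a + b) / 2),
      (mS φ a b s - μ * q2 a b s) * (uu K (a + b) s - uu K (a + b) a) =
      ∑ s ∈ Icc 1 ((a + b) / 2), mS φ a b s * (uu K (a + b) s - uu K (a + b) a) +
        μ * ∑ s ∈ Icc 1 ((a + b) / 2), q2 a b s * (uu K (a + b) a - uu K (a + b) s) := by
    rw [mul_sum, ← sum_add_distrib]
    exact sum_congr rfl (fun s _ => by ring)
  rw [h4]
  rw [h5] at h2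
  push_cast at h3
  linarith

end Pool.Agent.MP_ddaf7c_pr.A

end MrgPart0

-- ======== part 1: formerly Pool.Agent.MP_ddaf7c_pr.A.Eb
section MrgPart1

/-! The bound for the error sum on high levels. -/

set_option autoImplicit false

namespace Pool.Agent.MP_ddaf7c_pr.A

open Finset Real

namespace Eb

theorem refl (f : ℕ → ℝ) (c : ℕ) : ∑ r ∈ Ico 1 c, f (c - r) = ∑ r ∈ Ico 1 c, f r :=
  sum_nbij' (c - ·) (c - ·) (by simp only [mem_Ico]; omega) (by simp only [mem_Ico]; omega)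
    (by simp only [mem_Ico]; omega) (by simp only [mem_Ico]; omega) fun _ _ => rfl

theorem sums {l : ℝ} (hl : 0 ≤ l) (n : ℕ) (hn : 1 ≤ n) :
    ∑ r ∈ Icc 1 n, ((√(r : ℝ))⁻¹ - l * √(r : ℝ)) ≤ 2 * √(n : ℝ) - 1 - 2 / 3 * l * (n * √(n : ℝ)) := by
  induction n, hn using Nat.le_induction with
  | base => simp; linarith
  | succ n hn ih =>
    rw [sum_Icc_succ_top (by omega)]
    have a : √(n : ℝ) ^ 2 = n := sq_sqrt (by positivity)
    have b : √((n + 1 : ℕ) : ℝ) ^ 2 = (n + 1 : ℕ) := sq_sqrt (by positivity)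
    have c : √(n : ℝ) ≤ √((n + 1 : ℕ) : ℝ) := sqrt_le_sqrt (by simp)
    have d : 0 ≤ √(n : ℝ) := sqrt_nonneg _
    have e : 0 < √((n + 1 : ℕ) : ℝ) := sqrt_pos.2 (by positivity)
    have f : ((n + 1 : ℕ) : ℝ) = n + 1 := by simp
    generalize √((n + 1 : ℕ) : ℝ) = t at *
    generalize √(n : ℝ) = s at *
    rw [f] at b ⊢
    have g : t⁻¹ ≤ 2 * t - 2 * s := by
      rw [inv_le_iff_one_le_mul₀ e]
      nlinarith [sq_nonneg (t - s)]
    have h : 2 / 3 * ((n + 1) * t - n * s) ≤ t := by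
      have := mul_nonneg (sub_nonneg.2 c) (show 0 ≤ t ^ 2 + t * s - 2 * s ^ 2 by nlinarith)
      have e1 : (n : ℝ) * t = s ^ 2 * t := by rw [a]
      have e2 : (n : ℝ) * s = s ^ 3 := by rw [← a]; ring
      have e3 : t ^ 3 = s ^ 2 * t + t := by rw [a, pow_succ, b]; ring
      nlinarith
    nlinarith [mul_le_mul_of_nonneg_left h hl]

theorem ee_pos {c : ℕ} (hc : 1 ≤ c) : 0 < ee c := by
  unfold ee tau
  positivity

theorem TT_eq {c r : ℕ} (h : r ≤ c) : TT c r = ee r * (ee (c - r) / ee c) := by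
  have : exp (-(c : ℝ)) = exp (-(r : ℝ)) * exp (-((c - r : ℕ) : ℝ)) := by
    rw [← exp_add, Nat.cast_sub h]
    congr 1
    ring
  rw [TT, ee, ee, ee, this, ← mul_div_assoc, mul_mul_mul_comm,
    mul_div_mul_right _ _ (by positivity)]

theorem TT_symm {c r : ℕ} (h : r ≤ c) : TT c (c - r) = TT c r := by
  rw [TT, TT, Nat.sub_sub_self h, mul_comm]

theorem TT_nonneg (c r : ℕ) : 0 ≤ TT c r := by
  unfold TT tau
  positivity

theorem TT_le (h : STIR) {c r : ℕ} (h1 : 1 ≤ r) (h2 : r < c) : TT c r ≤ c0 / (r * √(r : ℝ)) *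
    (c * √(c : ℝ) / (((c - r : ℕ) : ℝ) * √((c - r : ℕ) : ℝ))) := by
  have a : 1 ≤ c - r := by omega
  have b := ee_pos (c := c) (by omega)
  have c1 := ee_pos a
  have c2 := h.1.1
  rw [TT_eq h2.le]
  refine mul_le_mul ((le_div_iff₀ (by positivity)).2 (h.2.1 r h1).2) ?_ (by positivity)
    (by positivity)
  rw [div_le_div_iff₀ b (by positivity), mul_comm _ (ee c)]
  exact (h.2.2.1 _ c a (by omega)).1

theorem one {c0 s t u T : ℝ} (h0 : 0 ≤ c0) (hs : 0 < s) (ht : 0 < t) (hu : 0 < u)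
    (e : u ^ 2 = s ^ 2 + t ^ 2) (h : T ≤ c0 / (s ^ 2 * s) * (u ^ 2 * u / (t ^ 2 * t))) :
    s ^ 2 * (t ^ 2 * T) ≤ c0 * u ^ 2 * ((s⁻¹ - 1 / (2 * u ^ 2) * s) + (t⁻¹ - 1 / (2 * u ^ 2) * t)) := by
  have k : ∀ s t : ℝ, 0 < s → 0 < t → u ^ 2 = s ^ 2 + t ^ 2 →
      t / s ≤ u * (s⁻¹ - 1 / (2 * u ^ 2) * s) := fun s t hs ht e => by
    rw [show u * (s⁻¹ - 1 / (2 * u ^ 2) * s) = (2 * u ^ 2 - s ^ 2) / (2 * u) / s by field_simp]
    refine div_le_div_of_nonneg_right ((le_div_iff₀ (by positivity)).2 ?_) hs.le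
    nlinarith [sq_nonneg (u - t)]
  have a := mul_le_mul_of_nonneg_left h (show 0 ≤ s ^ 2 * t ^ 2 by positivity)
  have b : s ^ 2 * t ^ 2 * (c0 / (s ^ 2 * s) * (u ^ 2 * u / (t ^ 2 * t))) =
      c0 * u * (t / s + s / t) := by
    field_simp
    rw [e]
    ring
  have c := mul_le_mul_of_nonneg_left (add_le_add (k s t hs ht e) (k t s ht hs (by linarith)))
    (show 0 ≤ c0 * u by positivity)
  linarith

theorem rb (h : STIR) {c : ℕ} (hc : 1 ≤ c) :
    ∑ r ∈ Ico 1 c, r * PP c r ≤ 1.33 * (c * √(c : ℝ)) := by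
  have c1 : (0 : ℝ) < c := by positivity
  have c2 := h.1
  set f : ℕ → ℝ := fun r => (√(r : ℝ))⁻¹ - 1 / (2 * c) * √(r : ℝ) with hf
  have a : ∀ r ∈ Ico 1 c, r * PP c r ≤ c0 * c * (f r + f (c - r)) := fun r hr => by
    obtain ⟨h1, h2⟩ := mem_Ico.1 hr
    have h3 : 1 ≤ c - r := by omega
    have := one (c0 := c0) (s := √(r : ℝ)) (t := √((c - r : ℕ) : ℝ)) (u := √(c : ℝ)) (T := TT c r)
      (by linarith) (by positivity) (by positivity) (by positivity)
    simp only [sq_sqrt (Nat.cast_nonneg _)] at this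
    exact this (by rw [Nat.cast_sub h2.le]; ring) (TT_le h h1 h2)
  have b : ∑ r ∈ Ico 1 c, f r ≤ ∑ r ∈ Icc 1 c, f r :=
    sum_le_sum_of_subset_of_nonneg Ico_subset_Icc_self fun r hr _ => by
      obtain ⟨h1, h2⟩ := mem_Icc.1 hr
      have h3 : (r : ℝ) ≤ c := Nat.cast_le.2 h2
      have h4 : 0 < √(r : ℝ) := by positivity
      rw [hf, sub_nonneg, ← one_div (√(r : ℝ)), le_div_iff₀ h4, mul_assoc,
        mul_self_sqrt (by positivity), div_mul_eq_mul_div, div_le_one (by positivity)]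
      linarith
  have d := sums (l := 1 / (2 * c)) (by positivity) c hc
  rw [show 2 / 3 * (1 / (2 * c)) * (c * √(c : ℝ)) = √(c : ℝ) / 3 by field_simp] at d
  refine (sum_le_sum a).trans ?_
  rw [← mul_sum, sum_add_distrib, refl f]
  have e : 0 ≤ √(c : ℝ) := sqrt_nonneg _
  have g := mul_le_mul_of_nonneg_left (show ∑ r ∈ Ico 1 c, f r + ∑ r ∈ Ico 1 c, f r ≤
    10 / 3 * √(c : ℝ) by linarith) (show 0 ≤ c0 * c by nlinarith)
  nlinarith [mul_nonneg c1.le e]

theorem side (h : STIR) {c : ℕ} (hc : 1 ≤ c) {y : ℝ} (hy : 0 < y) :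
    ∑ r ∈ Ico 1 c, r * PP c r / (c + y - r) ≤ 1.33 * (c * √(c : ℝ)) * ((1 / (c + y) + 1 / y) / 2) := by
  have a : ∑ r ∈ Ico 1 c, r * PP c r / (c + y - r) = ∑ r ∈ Ico 1 c, r * PP c r / (y + r) := by
    rw [← refl]
    refine sum_congr rfl fun r hr => ?_
    have h2 := (mem_Ico.1 hr).2.le
    rw [PP, PP, TT_symm h2, Nat.sub_sub_self h2, Nat.cast_sub h2]
    congr 1 <;> ring
  have b : ∀ r ∈ Ico 1 c, r * PP c r / (c + y - r) + r * PP c r / (y + r) ≤
      r * PP c r * (1 / (c + y) + 1 / y) := fun r hr => by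
    have h2 : (r : ℝ) < c := Nat.cast_lt.2 (mem_Ico.1 hr).2
    have h3 : (0 : ℝ) ≤ r := Nat.cast_nonneg r
    have h4 : 0 < c + y - r := by linarith
    rw [div_eq_mul_one_div, div_eq_mul_one_div _ (y + r), ← mul_add]
    refine mul_le_mul_of_nonneg_left ?_ (mul_nonneg h3 (mul_nonneg (Nat.cast_nonneg _)
      (TT_nonneg c r)))
    rw [div_add_div _ _ h4.ne' (by positivity), div_add_div _ _ (by linarith) hy.ne',
      show 1 * (y + r) + (c + y - r) * 1 = 1 * y + (c + y) * 1 by ring]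
    refine div_le_div_of_nonneg_left (by linarith) (by nlinarith) ?_
    nlinarith [mul_nonneg h3 (sub_nonneg.2 h2.le)]
  have d := sum_le_sum b
  rw [sum_add_distrib, ← a, ← sum_mul] at d
  have := mul_le_mul_of_nonneg_right (rb h hc) (show 0 ≤ 1 / (c + y) + 1 / y by positivity)
  linarith

theorem sN_top {j : ℕ} (h : 64 ≤ j) : sN j = 1000 := List.getD_eq_default _ _ h

theorem sN_low : ∀ j < 64, 2 ≤ j → 1000 * j ≤ 64 * sN j ∧ sN j ≤ 1000 := by decide

theorem two {c0 s t u T : ℝ} (h0 : 0 ≤ c0) (hs : 0 < s) (ht : 0 < t) (hu : 0 < u)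
    (e : u ^ 2 ≤ 1.325 * t ^ 2) (h : T ≤ c0 / (s ^ 2 * s) * (u ^ 2 * u / (t ^ 2 * t))) :
    s ^ 2 * T * (1 - s ^ 2 / 64) ≤ 1.53 * c0 * (s⁻¹ - 1 / 64 * s) ∨ 64 < s ^ 2 := by
  refine (le_or_gt (s ^ 2) 64).imp_left fun h1 => ?_
  have a : u ≤ 1.152 * t := by nlinarith
  have b : u ^ 2 * u / (t ^ 2 * t) ≤ 1.53 := by
    rw [div_le_iff₀ (by positivity)]
    nlinarith [mul_le_mul e a hu.le (by positivity), mul_pos (pow_pos ht 2) ht]
  have c := mul_le_mul_of_nonneg_left (h.trans (mul_le_mul_of_nonneg_left b (by positivity)))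
    (show 0 ≤ s ^ 2 * (1 - s ^ 2 / 64) from mul_nonneg (by positivity) (by linarith))
  have d : s ^ 2 * (1 - s ^ 2 / 64) * (c0 / (s ^ 2 * s) * 1.53) =
      1.53 * c0 * (s⁻¹ - 1 / 64 * s) := by field_simp
  linarith

theorem extra (h : STIR) {a b : ℕ} (ha : 1 ≤ a) (hab : a ≤ b) (hM : 256 ≤ a + b) :
    ∑ r ∈ Ico 1 b, PP b r * (1 - sN (a + (b - r)) / 1000) ≤
      6 * max 0 (1 - 4 * (a / ((a : ℝ) + b))) := by
  have c2 := h.1
  have m0 : 0 ≤ max 0 (1 - 4 * (a / ((a : ℝ) + b))) := le_max_left _ _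
  have m1 : 1 - (a : ℝ) / 64 ≤ max 0 (1 - 4 * (a / ((a : ℝ) + b))) := by
    have : (256 : ℝ) ≤ a + b := by exact_mod_cast hM
    have := div_le_div_of_nonneg_left (Nat.cast_nonneg (α := ℝ) a) (by norm_num) this
    exact le_max_of_le_right (by linarith)
  generalize max 0 (1 - 4 * (a / ((a : ℝ) + b))) = m at *
  have e : ∑ r ∈ Ico 1 b, PP b r * (1 - sN (a + (b - r)) / 1000) =
      ∑ k ∈ Icc 1 64, k * TT b k * (1 - sN (a + k) / 1000) := by
    rw [← refl, sum_subset (s₁ := Icc 1 64) (s₂ := Ico 1 b)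
      (fun k hk => by simp only [mem_Icc, mem_Ico] at *; omega) fun k h1 h2 => by
        rw [sN_top (by simp only [mem_Icc, mem_Ico] at *; omega)]; norm_num]
    refine sum_congr rfl fun r hr => ?_
    have h2 := (mem_Ico.1 hr).2.le
    rw [PP, TT_symm h2, Nat.sub_sub_self h2]
  have d := sums (l := 1 / 64) (by norm_num) 64 (by norm_num)
  rw [show √((64 : ℕ) : ℝ) = 8 by rw [sqrt_eq_iff_mul_self_eq] <;> norm_num] at d
  have g : ∀ k ∈ Icc 1 64, (k : ℕ) * TT b k * (1 - sN (a + k) / 1000) ≤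
      m * (1.53 * c0 * ((√(k : ℝ))⁻¹ - 1 / 64 * √(k : ℝ))) := fun k hk => by
    obtain ⟨h1, h2⟩ := mem_Icc.1 hk
    have h3 : (k : ℝ) ≤ 64 := by exact_mod_cast h2
    have h4 : 0 < √(k : ℝ) := by positivity
    rcases le_or_gt 64 (a + k) with h5 | h5
    · rw [sN_top h5, show (1 : ℝ) - (1000 : ℕ) / 1000 = 0 by norm_num, mul_zero]
      refine mul_nonneg m0 (mul_nonneg (by linarith) ?_)
      rw [sub_nonneg, ← one_div (√(k : ℝ)), le_div_iff₀ h4, mul_assoc, mul_self_sqrt (by positivity)]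
      linarith
    have h6 : 1 ≤ b - k := by omega
    have h7 := two (c0 := c0) (s := √(k : ℝ)) (t := √((b - k : ℕ) : ℝ)) (u := √(b : ℝ))
      (T := TT b k) (by linarith) h4 (by positivity) (sqrt_pos.2 (Nat.cast_pos.2 (by omega)))
    simp only [sq_sqrt (Nat.cast_nonneg _)] at h7
    have h8 : (1000 : ℝ) * b ≤ 1325 * (b - k : ℕ) := by exact_mod_cast (by omega)
    have h9 := (h7 (by linarith) (TT_le h h1 (by omega))).resolve_right (not_lt.2 h3)
    have h10 : (1000 : ℝ) * (a + k) ≤ 64 * sN (a + k) := by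
      exact_mod_cast (sN_low _ h5 (by omega)).1
    have h11 : 1 - (sN (a + k) : ℝ) / 1000 ≤ m * (1 - k / 64) := by
      nlinarith [mul_le_mul_of_nonneg_right m1 (show 0 ≤ 1 - (k : ℝ) / 64 by linarith),
        mul_nonneg (Nat.cast_nonneg (α := ℝ) a) (Nat.cast_nonneg (α := ℝ) k)]
    have h12 := mul_le_mul_of_nonneg_left h11
      (mul_nonneg (Nat.cast_nonneg (α := ℝ) k) (TT_nonneg b k))
    linarith [mul_le_mul_of_nonneg_left h9 m0]
  rw [e]
  refine (sum_le_sum g).trans ?_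
  rw [← mul_sum, ← mul_sum, mul_comm 6]
  refine mul_le_mul_of_nonneg_left ?_ m0
  push_cast at d
  nlinarith

theorem sN_le {j : ℕ} (h : 2 ≤ j) : (sN j : ℝ) ≤ 1000 := by
  rcases le_or_gt 64 j with h1 | h1
  · rw [sN_top h1]; norm_num
  · exact_mod_cast (sN_low j h1 h).2

end Eb

open Eb in
theorem eb (h : STIR) : EB := by
  intro a b ha hab hM
  have a0 : (0 : ℝ) < a := by positivity
  have b0 : (0 : ℝ) < b := Nat.cast_pos.2 (by omega)
  have hM' : hh (a + b) = (a + b) / 10 := by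
    rw [hh, sN_top (by omega)]
    push_cast
    ring
  have A : ∀ r ∈ Ico 1 a, PP a r * (om a b - hh (a - r + b) / hh (a + b) * om (a - r) b) =
      om a b * b / a * (r * PP a r / (a + b - r)) := fun r hr => by
    obtain ⟨h1, h2⟩ := mem_Ico.1 hr
    have h3 : (r : ℝ) < a := Nat.cast_lt.2 h2
    have h4 : (a : ℝ) - r + b ≠ 0 := by linarith
    rw [hM', hh, sN_top (by omega), om, om, Nat.cast_add, Nat.cast_sub h2.le,
      show (a : ℝ) + b - r = a - r + b by ring]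
    field_simp
    push_cast
    ring
  have B : ∀ r ∈ Ico 1 b, PP b r * (om a b - hh (a + (b - r)) / hh (a + b) * om a (b - r)) ≤
      om a b * a / b * (r * PP b r / (b + a - r)) +
        4 * a / (a + b) * (PP b r * (1 - sN (a + (b - r)) / 1000)) := fun r hr => by
    obtain ⟨h1, h2⟩ := mem_Ico.1 hr
    have h3 : (r : ℝ) < b := Nat.cast_lt.2 h2
    have h4 : 0 < (a : ℝ) + (b - r) := by linarith
    have h5 := sN_le (j := a + (b - r)) (by omega)
    have h6 : 0 ≤ PP b r := mul_nonneg (Nat.cast_nonneg _) (TT_nonneg b r)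
    rw [hM', hh, om, om, Nat.cast_add, Nat.cast_sub h2.le,
      show (b : ℝ) + a - r = a + (b - r) by ring, ← sub_nonneg]
    generalize (sN (a + (b - r)) : ℝ) = s at *
    have h7 : 0 ≤ 1000 - s := by linarith
    refine le_of_le_of_eq (b := PP b r * (1000 - s) * (4 * a * a) /
      (1000 * (a + b) * (a + (b - r)))) (by positivity) ?_
    field_simp
    ring
  have w0 : 0 ≤ om a b := by unfold om; positivity
  have s1 := mul_le_mul_of_nonneg_left (side h ha b0) (show 0 ≤ om a b * b / a by positivity)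
  have s2 := mul_le_mul_of_nonneg_left (side h (ha.trans hab) a0)
    (show 0 ≤ om a b * a / b by positivity)
  have s3 := mul_le_mul_of_nonneg_left (extra h ha hab hM)
    (show 0 ≤ 4 * (a : ℝ) / (a + b) by positivity)
  have s4 := sum_le_sum B
  rw [sum_add_distrib, ← mul_sum, ← mul_sum] at s4
  rw [EE, sum_congr rfl A, ← mul_sum]
  refine (add_le_add s1 (s4.trans (add_le_add s2 s3))).trans_eq ?_
  rw [EL, show 1 - a / ((a : ℝ) + b) = b / (a + b) by field_simp; ring, om]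
  generalize max 0 (1 - 4 * (a / ((a : ℝ) + b))) = m
  field_simp
  ring

end Pool.Agent.MP_ddaf7c_pr.A

end MrgPart1

-- ======== part 2: formerly Pool.Agent.MP_ddaf7c_pr.A.Out
section MrgPart2

/-! The outer hinges of the certificate. -/

set_option autoImplicit false

namespace Pool.Agent.MP_ddaf7c_pr.A

open Finset Real

namespace OutL

theorem tau_pos (c : ℕ) : 0 < tau c := by
  unfold tau
  rcases Nat.eq_zero_or_pos c with rfl | h
  · simp
  · positivity

theorem QQ_nonneg (c r : ℕ) : 0 ≤ QQ c r := by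
  have := tau_pos r
  have := tau_pos (c - r)
  have := tau_pos c
  unfold QQ TT
  positivity

theorem PP_nonneg (c r : ℕ) : 0 ≤ PP c r := by
  have := tau_pos r
  have := tau_pos (c - r)
  have := tau_pos c
  unfold PP TT
  positivity

theorem PP_zero {c r : ℕ} (h : c ≤ r) : PP c r = 0 := by simp [PP, Nat.sub_eq_zero_of_le h]

theorem QQ_symm {c r : ℕ} (h : r ≤ c) : QQ c (c - r) = QQ c r := by
  unfold QQ TT
  rw [Nat.sub_sub_self h, mul_comm (tau (c - r))]

theorem qS_nonneg (c r : ℕ) : 0 ≤ qS c r := by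
  have := QQ_nonneg c r
  unfold qS
  split_ifs <;> positivity

theorem cvx (h0 : STIR) (k : ℕ) (hk : 1 ≤ k) : tau (k + 1) ^ 2 ≤ tau k * tau (k + 1 + 1) := by
  have h := h0.2.2.2 (k + 1) (by omega)
  simp only [ee, Nat.add_sub_cancel] at h
  have e : exp (-((k + 1 : ℕ) : ℝ)) ^ 2 = exp (-(k : ℝ)) * exp (-((k + 1 + 1 : ℕ) : ℝ)) := by
    rw [← exp_add, sq, ← exp_add]
    congr 1
    push_cast
    ring
  rw [mul_pow, mul_mul_mul_comm, ← e] at h
  exact le_of_mul_le_mul_right h (by positivity)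

theorem r1 (h0 : STIR) {r r' : ℕ} (h1 : 1 ≤ r) (h : r ≤ r') :
    tau (r + 1) / tau r ≤ tau (r' + 1) / tau r' := by
  induction r', h using Nat.le_induction with
  | base => exact le_rfl
  | succ n hn ih =>
    refine ih.trans ?_
    rw [div_le_div_iff₀ (tau_pos _) (tau_pos _)]
    nlinarith [cvx h0 n (by omega)]

theorem ra (h0 : STIR) (a : ℕ) {r r' : ℕ} (h1 : 1 ≤ r) (h : r ≤ r') :
    tau (r + a) / tau r ≤ tau (r' + a) / tau r' := by
  induction a with
  | zero => simp [div_self (tau_pos _).ne']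
  | succ a ih =>
    have e : ∀ s, tau (s + (a + 1)) / tau s = tau (s + a + 1) / tau (s + a) * (tau (s + a) / tau s) :=
      fun s => by
        have := (tau_pos (s + a)).ne'
        rw [← add_assoc]
        field_simp
    rw [e, e]
    exact mul_le_mul (r1 h0 (by omega) (by omega)) ih (div_pos (tau_pos _) (tau_pos _)).le
      (div_pos (tau_pos _) (tau_pos _)).le

theorem QQ_shift {M a r : ℕ} (h : r + a ≤ M) : QQ M (r + a) =
    tau (r + a) / tau r / (tau (M - (r + a) + a) / tau (M - (r + a))) * QQ M r := by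
  have := (tau_pos r).ne'
  have := (tau_pos (M - (r + a))).ne'
  have := (tau_pos (M - r)).ne'
  have := (tau_pos M).ne'
  rw [show M - (r + a) + a = M - r by omega]
  unfold QQ TT
  field_simp

/-- one change of sign -/
theorem chg (h0 : STIR) {M a r r' : ℕ} {ρ : ℝ} (h1 : 1 ≤ r) (h : r ≤ r') (hM : r' + a < M)
    (hr : ρ * QQ M r < QQ M (r + a)) : ρ * QQ M r' ≤ QQ M (r' + a) := by
  rw [QQ_shift (by omega)] at hr ⊢
  refine mul_le_mul_of_nonneg_right ?_ (QQ_nonneg _ _)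
  refine (lt_of_mul_lt_mul_right hr (QQ_nonneg _ _)).le.trans ?_
  exact div_le_div₀ (div_pos (tau_pos _) (tau_pos _)).le (ra h0 a h1 h)
    (div_pos (tau_pos _) (tau_pos _)) (ra h0 a (by omega) (by omega))

theorem sN_hi {M : ℕ} (h : 64 ≤ M) : sN M = 1000 := by
  unfold sN
  exact List.getD_eq_default _ _ (by simpa using h)

theorem sN_le (M : ℕ) : sN M ≤ 1000 := by
  rcases lt_or_ge M 64 with h | h
  · revert M
    decide
  · exact (sN_hi h).le

theorem om_nonneg (a b : ℕ) : 0 ≤ om a b := by unfold om; positivity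

theorem om_le (a b : ℕ) (ha : 1 ≤ a) : om a b ≤ 1 := by
  have : (1 : ℝ) ≤ a := by exact_mod_cast ha
  unfold om
  rw [div_le_one (by positivity)]
  nlinarith [sq_nonneg ((a : ℝ) - b)]

theorem gam_nonneg (a b : ℕ) (ha : 1 ≤ a) : 0 ≤ gam a b := by
  have := om_le a b ha
  unfold gam
  linarith

theorem hh_le {a b k : ℕ} (ha : 1 ≤ a) (hk : k ≤ b) (hM : 64 ≤ a + b) :
    hh (a + k) / hh (a + b) * om a k ≤ om a b := by
  have h1 : (1 : ℝ) ≤ a := by exact_mod_cast ha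
  have h2 : (k : ℝ) ≤ b := by exact_mod_cast hk
  have h3 : (sN (a + k) : ℝ) ≤ 1000 := by exact_mod_cast sN_le (a + k)
  have h4 : (0 : ℝ) ≤ k := k.cast_nonneg
  have h5 : hh (a + k) / hh (a + b) ≤ ((a : ℝ) + k) / (a + b) := by
    unfold hh
    rw [sN_hi hM]
    push_cast
    rw [div_le_div_iff₀ (by positivity) (by positivity)]
    have : (0 : ℝ) ≤ (a + k) * (a + b) := by positivity
    nlinarith
  refine (mul_le_mul_of_nonneg_right h5 (om_nonneg _ _)).trans ?_
  have h6 : ((a : ℝ) + k) / (a + b) * om a k = 4 * a / (a + b) * (k / (a + k)) := by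
    unfold om
    field_simp
  have h7 : om a b = 4 * a / (a + b) * (b / (a + b)) := by
    unfold om
    field_simp
  rw [h6, h7]
  refine mul_le_mul_of_nonneg_left ?_ (by positivity)
  rw [div_le_div_iff₀ (by positivity) (by positivity)]
  nlinarith

variable {a b : ℕ} {φ : ℝ}

theorem mm_le (ha : 1 ≤ a) (hM : 256 ≤ a + b) (hφ : 0 ≤ φ) {r : ℕ} (hr : a ≤ r) :
    mm φ a b r ≤ (1 + gam a b - om a b * φ) * (QQ (a + b) r / 2 - PP b r) := by
  have h1 : (256 : ℝ) ≤ a + b := by exact_mod_cast hM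
  have h2 : 0 ≤ 13 / 5 * om a b * φ / ((a : ℝ) + b - 1) * (QQ (a + b) r / 2) := by
    have := om_nonneg a b
    have := QQ_nonneg (a + b) r
    have : (0 : ℝ) < a + b - 1 := by linarith
    positivity
  have h3 : 1 + gam a b - om a b * φ ≤
      etP φ (a + b) a (b - r) + max (gam a b - gam a (b - r)) 0 := by
    have h4 := mul_le_mul_of_nonneg_left (hh_le ha (Nat.sub_le b r) (by omega)) hφ
    have h5 := le_max_left (gam a b - gam a (b - r)) 0
    unfold etP
    linarith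
  have h4 := mul_le_mul_of_nonneg_left h3 (PP_nonneg b r)
  unfold mm
  rw [PP_zero hr, if_neg (by omega)]
  linarith

theorem mS_le (h1 : ALPHA) (ha : 1 ≤ a) (hb : a ≤ b) (hM : 256 ≤ a + b) (hφ : 0 ≤ φ)
    (hφ' : φ ≤ 3 / 25) {s : ℕ} (hs : a < s) (hs' : 2 * s ≤ a + b) :
    mS φ a b s ≤ (1 + gam a b) * al a b * QQ (a + b) s := by
  obtain ⟨h2, h3⟩ := h1 a b ha hb hM
  have h4 := h3 s hs hs'
  have h5 := mul_nonneg h2 (QQ_nonneg (a + b) s)
  have h6 := mul_nonneg (om_nonneg a b) hφ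
  have h7 : 0 ≤ 1 + gam a b - om a b * φ := by
    nlinarith [gam_nonneg a b ha, om_le a b ha, om_nonneg a b]
  have h8 := mul_le_mul_of_nonneg_left h4 h7
  have h9 := mul_nonneg h6 h5
  have h10 := mul_nonneg h7 h5
  have m1 := mm_le (φ := φ) ha hM hφ hs.le
  have m2 := mm_le (φ := φ) ha hM hφ (r := a + b - s) (by omega)
  rw [QQ_symm (by omega)] at m2
  unfold mS
  split_ifs with h
  · rw [show a + b - s = s by omega] at h8
    linarith
  · linarith

theorem rho_ok (h0 : STIR) (h2 : RHON) (h3 : RHOD) (ha : 1 ≤ a) (hM : 256 ≤ a + b)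
    (h5 : 5 * a ≤ 2 * (a + b)) : 0 ≤ rho a b ∧
      0 ≤ ∑ r ∈ Icc 1 ((a + b) / 2 - a), r * (rho a b * QQ (a + b) r - QQ (a + b) (r + a)) := by
  have n := h2 a (a + b) ha hM h5
  obtain ⟨d1, d2⟩ := h3 a (a + b) ha hM h5
  push_cast at n d1 d2
  have h1 : (256 : ℝ) ≤ a + b := by exact_mod_cast hM
  have hc : 0 < 2 * c0 * (((a : ℝ) + b) * √((a : ℝ) + b)) := by
    have := h0.1.1
    have : (0 : ℝ) < a + b := by linarith
    positivity
  have n0 : 0 ≤ ∑ r ∈ Icc 1 ((a + b) / 2 - a), r * QQ (a + b) (r + a) :=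
    sum_nonneg fun r _ => mul_nonneg r.cast_nonneg (QQ_nonneg _ _)
  have r0 : 0 ≤ rho a b := div_nonneg (nonneg_of_mul_nonneg_right (n0.trans n) hc) d1.le
  refine ⟨r0, ?_⟩
  have e : ∑ r ∈ Icc 1 ((a + b) / 2 - a), r * (rho a b * QQ (a + b) r - QQ (a + b) (r + a)) =
      rho a b * ∑ r ∈ Icc 1 ((a + b) / 2 - a), r * QQ (a + b) r -
        ∑ r ∈ Icc 1 ((a + b) / 2 - a), r * QQ (a + b) (r + a) := by
    rw [mul_sum, ← sum_sub_distrib]
    exact sum_congr rfl fun r _ => by ring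
  have h6 := mul_le_mul_of_nonneg_left d2 r0
  rw [e, sub_nonneg]
  refine n.trans (le_of_eq_of_le ?_ h6)
  unfold rho
  rw [div_mul_eq_mul_div, eq_div_iff d1.ne']
  ring

end OutL

open OutL in
theorem out (h0 : STIR) (h1 : ALPHA) (h2 : RHON) (h3 : RHOD) (h4 : SIGN) : OUT := by
  intro a b i φ ha hb hM hφ hφ'
  have hg : 0 ≤ (1 + gam a b) * al a b :=
    mul_nonneg (by linarith [gam_nonneg a b ha]) (h1 a b ha hb hM).1
  have hz : ¬ 5 * a ≤ 2 * (a + b) → al a b = 0 := fun h => if_neg h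
  have hμ : 0 ≤ muL a b := by
    unfold muL
    by_cases h5 : 5 * a ≤ 2 * (a + b)
    · exact mul_nonneg hg (rho_ok h0 h2 h3 ha hM h5).1
    · rw [hz h5, mul_zero, zero_mul]
  refine ⟨hμ, fun hi => ?_⟩
  obtain ⟨j, rfl⟩ := Nat.exists_eq_add_of_le hi
  have hS : 0 ≤ (1 + gam a b) * al a b * ∑ r ∈ Icc 1 ((a + b) / 2 - a),
      r * (rho a b * QQ (a + b) r - QQ (a + b) (r + a)) * (((min r j : ℕ) : ℝ) / r) := by
    by_cases h5 : 5 * a ≤ 2 * (a + b)
    swap
    · rw [hz h5, mul_zero, zero_mul]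
    refine mul_nonneg hg (h4 _ _ _ (fun r r' hr hr' hn hc => ?_) (fun r r' hr hr' _ => ?_)
      (fun r _ _ => by positivity) (rho_ok h0 h2 h3 ha hM h5).2)
    · have h6 : (0 : ℝ) < r := by exact_mod_cast hr
      exact mul_nonpos_of_nonneg_of_nonpos r'.cast_nonneg (sub_nonpos.2
        (chg h0 hr hr' (by omega) (sub_neg.1 (neg_of_mul_neg_right hc h6.le))))
    · have h6 : (0 : ℝ) < r := by exact_mod_cast hr
      have h7 : (0 : ℝ) < r' := by exact_mod_cast hr.trans hr'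
      rw [div_le_div_iff₀ h7 h6]
      have : min r' j * r ≤ min r j * r' := by
        rcases le_total r j with h | h
        · rw [min_eq_left h, mul_comm r]
          exact Nat.mul_le_mul_right _ (min_le_left _ _)
        · rw [min_eq_right h, min_eq_right (h.trans hr')]
          exact Nat.mul_le_mul_left _ hr'
      exact_mod_cast this
  rw [← sub_nonneg]
  unfold WW
  rw [← sum_sub_distrib, ← sum_subset (s₁ := (Icc 1 ((a + b) / 2 - a)).map (addRightEmbedding a)),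
    sum_map]
  · rw [mul_sum] at hS
    refine hS.trans (sum_le_sum fun r hr => ?_)
    obtain ⟨hr, hr'⟩ := mem_Icc.1 hr
    have h6 : (r : ℝ) ≠ 0 := by exact_mod_cast (by omega : r ≠ 0)
    have m := mS_le h1 ha hb hM hφ hφ' (s := r + a) (by omega) (by omega)
    have q : QQ (a + b) r ≤ q2 a b (r + a) := by
      have := qS_nonneg (a + b) (r + a)
      unfold q2
      rw [if_pos (by omega), Nat.add_sub_cancel, qS, if_neg (by omega)]
      split_ifs <;> linarith
    have d : ((a + j - (r + a) : ℕ) : ℝ) = ((a + j - a : ℕ) : ℝ) - (min r j : ℕ) := by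
      rw [eq_sub_iff_add_eq]
      exact_mod_cast (by omega : a + j - (r + a) + min r j = a + j - a)
    have q' := mul_le_mul_of_nonneg_left q hμ
    have l0 : (0 : ℝ) ≤ (min r j : ℕ) := Nat.cast_nonneg _
    have e : (r : ℝ) * (rho a b * QQ (a + b) r - QQ (a + b) (r + a)) * (((min r j : ℕ) : ℝ) / r) =
        (rho a b * QQ (a + b) r - QQ (a + b) (r + a)) * (min r j : ℕ) := by field_simp
    rw [addRightEmbedding_apply, d, show a - (r + a) = 0 by omega, Nat.sub_self, e]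
    have h7 := mul_le_mul_of_nonneg_right (add_le_add m q') l0
    unfold muL at h7 ⊢
    push_cast at h7 ⊢
    linarith
  · rw [map_add_right_Icc]
    exact Icc_subset_Icc (by omega) (by omega)
  · intro s hs hs'
    rw [map_add_right_Icc, mem_Icc] at hs'
    rw [mem_Icc] at hs
    have d : ((a + j - s : ℕ) : ℝ) = ((a + j - a : ℕ) : ℝ) + (a - s : ℕ) := by
      exact_mod_cast (by omega : a + j - s = a + j - a + (a - s))
    rw [d, Nat.sub_self]
    push_cast
    ring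

end Pool.Agent.MP_ddaf7c_pr.A

end MrgPart2

-- ======== part 3: formerly Pool.Agent.MP_ddaf7c_pr.A.Pfin
section MrgPart3

/-! The final numerical inequality on high levels. -/

set_option autoImplicit false

namespace Pool.Agent.MP_ddaf7c_pr.A

open Real

namespace Num2

noncomputable def pp (x : ℝ) : ℝ := 1 / 2 - x / 24 - x ^ 2 / 8 + 213 / 400 * x ^ 3 +
  543 / 400 * x ^ 4 - 12 / 25 * x ^ 5 - 512 / 5 * x ^ 7 + 768 / 5 * x ^ 8 - 192 / 5 * x ^ 9

noncomputable def gg (x : ℝ) : ℝ := 0.348 + 0.05 * x + 0.5 * x ^ 2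

noncomputable def ro (x : ℝ) : ℝ := 1 - 2 * x + 1.9 * x ^ 2 - 2.8 * x ^ 3

noncomputable def sg (x : ℝ) : ℝ := 1 - x / 2 - x ^ 2 / 8 - 0.09 * x ^ 3

noncomputable def Nb (u E Q : ℝ) : ℝ :=
  1 + 1.01 * E ^ 2 - 2 * u * sg (u ^ 2) + Q * ((0.28 + u ^ 2) * (1 + 0.75 * u ^ 2))

noncomputable def Db (x E : ℝ) : ℝ := (ro x - E) * (1 - 1 / 3072)

noncomputable def Rb (u E : ℝ) : ℝ := 0.39 - 27 / 100 * (4 * u ^ 2 * (1 - u ^ 2)) -
  (2 / 5 * E ^ 2 * (18 / 5 + 6 * (1 - 5 / 2 * u ^ 2)) +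
    2 / 5 * E * 1.33 * (u * (1 - u ^ 2 / 2) + (1 - u ^ 2 / 2) * (1 + u ^ 2) / 2) +
    27 / 50 * (u ^ 4 * (1 / 2 - u ^ 2 / 2 - 3 / 8 * u ^ 4 - u ^ 6 / 4)) +
    27 / 100 * (0.0455 * (4 * u ^ 2 * (1 - u ^ 2)) ^ 2))

theorem bt {p q : ℝ} (hp : 0 ≤ p) (hq : 0 ≤ q) (k m : ℕ) : 0 ≤ p ^ k * q ^ m := by positivity

theorem alx_eq (x : ℝ) : alx x = x * pp x := by
  unfold alx Pv pp
  ring

theorem pp_nonneg {x : ℝ} (h0 : 0 ≤ x) (h1 : x ≤ 2 / 5) : 0 ≤ pp x := by
  have B := bt h0 (sub_nonneg.2 h1)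
  unfold pp
  linarith [B 0 9, B 1 8, B 2 7, B 3 6, B 4 5, B 5 4, B 6 3, B 7 2, B 8 1, B 9 0]

theorem g_le {x : ℝ} (h0 : 0 ≤ x) (h1 : x ≤ 2 / 5) :
    (1.39 - 27 / 100 * (4 * x * (1 - x))) * pp x ≤ gg x * (2 * (1 - x)) := by
  have B := bt h0 (sub_nonneg.2 h1)
  unfold pp gg
  linarith [B 0 11, B 1 10, B 2 9, B 3 8, B 4 7, B 5 6, B 6 5, B 7 4, B 8 3, B 9 2, B 10 1, B 11 0]

theorem ro_le {x : ℝ} (h0 : 0 ≤ x) (h1 : x ≤ 2 / 5) :
    0.3 ≤ ro x ∧ ro x ≤ √((1 - 2 * x) / (1 + 2 * x)) := by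
  have B := bt h0 (sub_nonneg.2 h1)
  refine ⟨?_, le_sqrt_of_sq_le ?_⟩
  · unfold ro
    linarith [B 0 3, B 1 2, B 2 1, B 3 0]
  · rw [le_div_iff₀ (by positivity)]
    unfold ro
    linarith [B 0 7, B 1 6, B 2 5, B 3 4, B 4 3, B 5 2, B 6 1, B 7 0]

theorem sg_le {x : ℝ} (h0 : 0 ≤ x) (h1 : x ≤ 2 / 5) : sg x ≤ √(1 - x) := by
  have B := bt h0 (sub_nonneg.2 h1)
  refine le_sqrt_of_sq_le ?_
  unfold sg
  linarith [B 0 6, B 1 5, B 2 4, B 3 3, B 4 2, B 5 1, B 6 0]

theorem fin1 {u : ℝ} (h0 : 0 ≤ u) (h1 : u ≤ 1 / 16) :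
    gg (u ^ 2) * Nb u u u ≤ Rb u u * Db (u ^ 2) u := by
  have B := bt h0 (sub_nonneg.2 h1)
  unfold gg Nb Rb Db ro sg
  linarith [B 0 16, B 1 15, B 2 14, B 3 13, B 4 12, B 5 11, B 6 10, B 7 9, B 8 8, B 9 7, B 10 6, B 11 5,
    B 12 4, B 13 3, B 14 2, B 15 1, B 16 0]

theorem fin2 {u : ℝ} (h0 : 1 / 16 ≤ u) (h1 : u ≤ 0.633) :
    gg (u ^ 2) * Nb u (1 / 16) (1 / 256 / u) ≤ Rb u (1 / 16) * Db (u ^ 2) (1 / 16) := by
  have B := bt (sub_nonneg.2 h0) (sub_nonneg.2 h1)
  have hu : 0 < u := by linarith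
  have e : gg (u ^ 2) * Nb u (1 / 16) (1 / 256 / u) = gg (u ^ 2) * (u * Nb u (1 / 16) 0 +
      1 / 256 * ((0.28 + u ^ 2) * (1 + 0.75 * u ^ 2))) / u := by
    unfold Nb
    field_simp
    ring
  rw [e, div_le_iff₀ hu]
  unfold gg Nb Rb Db ro sg
  linarith [B 0 17, B 1 16, B 2 15, B 3 14, B 4 13, B 5 12, B 6 11, B 7 10, B 8 9, B 9 8, B 10 7, B 11
    6, B 12 5, B 13 4, B 14 3, B 15 2, B 16 1, B 17 0]

theorem nn_le {u e E Q : ℝ} (hu : 0 < u) (hx : u ^ 2 ≤ 2 / 5) (he : 0 < e) (heu : e ≤ u)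
    (hE : e ≤ E) (h16 : E ≤ 1 / 16) (hQ : e ^ 2 / u ≤ Q) :
    0 ≤ Nb u E Q ∧ Nn (u ^ 2) e ≤ Nb u E Q := by
  have h0 : 0 ≤ u ^ 2 := by positivity
  have hσ := sg_le h0 hx
  obtain ⟨q, hq⟩ : ∃ q, q = e ^ 2 / u := ⟨_, rfl⟩
  have q0 : 0 ≤ q := by rw [hq]; positivity
  have qu : e ^ 2 = q * u := by rw [hq]; field_simp
  have q1 : q ≤ u := by rw [hq, div_le_iff₀ hu]; nlinarith
  rw [← hq] at hQ
  have h1 : 0 < 1 - u ^ 2 := by linarith
  obtain ⟨s, hs⟩ : ∃ s, s = √(1 - u ^ 2) := ⟨_, rfl⟩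
  have s0 : 0 < s := by rw [hs]; positivity
  have s2 : s ^ 2 = 1 - u ^ 2 := by rw [hs]; exact sq_sqrt h1.le
  rw [← hs] at hσ
  have e2 : e ^ 2 ≤ E ^ 2 := by gcongr
  have e3 : e ^ 2 ≤ 1 / 256 := by nlinarith
  have hi : 1 ≤ (1 + 0.75 * u ^ 2) * s := by
    refine le_of_sq_le_sq ?_ (by positivity)
    rw [mul_pow, s2]
    generalize u ^ 2 = x at h0 hx
    nlinarith [mul_nonneg h0 (sub_nonneg.2 hx), mul_nonneg (mul_nonneg h0 h0) (sub_nonneg.2 hx)]
  have hA : (u + 0.22 * q) / s ≤ √((u ^ 2 + e ^ 2 / 2) / (1 - u ^ 2)) := by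
    refine le_sqrt_of_sq_le ?_
    rw [div_pow, s2, qu]
    gcongr
    nlinarith [mul_le_mul_of_nonneg_left q1 q0, mul_nonneg q0 hu.le]
  have c0 : 0 ≤ 1 - 2 * u ^ 2 - 2 * e ^ 2 := by linarith
  have hB : (1 - 2 * u ^ 2 - 2 * e ^ 2) * (u - q / 2) / s ≤
      u ^ 2 * (1 - 2 * u ^ 2 - 2 * e ^ 2) / √((u ^ 2 + e ^ 2) * (1 - u ^ 2)) := by
    have z1 : √((u ^ 2 + e ^ 2) * (1 - u ^ 2)) ≤ (u + q / 2) * s := by
      rw [sqrt_le_left (by positivity), mul_pow, s2, qu]
      gcongr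
      nlinarith [mul_nonneg q0 q0]
    rw [div_le_div_iff₀ s0 (by positivity)]
    have h2 : 0 ≤ u - q / 2 := by linarith
    refine (mul_le_mul_of_nonneg_left z1 (mul_nonneg c0 h2)).trans ?_
    nlinarith [mul_nonneg (mul_nonneg c0 s0.le) (mul_nonneg q0 q0)]
  have hC : (u + 0.22 * q) / s + (1 - 2 * u ^ 2 - 2 * e ^ 2) * (u - q / 2) / s =
      2 * u * s - q * (0.28 + u ^ 2 - e ^ 2) / s := by
    field_simp
    rw [s2, qu]
    ring
  have hD : q * (0.28 + u ^ 2 - e ^ 2) / s ≤ Q * ((0.28 + u ^ 2) * (1 + 0.75 * u ^ 2)) := by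
    rw [div_le_iff₀ s0]
    have Q0 : 0 ≤ Q := q0.trans hQ
    calc q * (0.28 + u ^ 2 - e ^ 2) ≤ Q * (0.28 + u ^ 2) * 1 := by
          rw [mul_one]
          exact mul_le_mul hQ (by nlinarith) (by linarith) Q0
      _ ≤ Q * (0.28 + u ^ 2) * ((1 + 0.75 * u ^ 2) * s) := by gcongr
      _ = _ := by ring
  have hF : u * sg (u ^ 2) ≤ u * s := by gcongr
  have hG : 0 ≤ Q * ((0.28 + u ^ 2) * (1 + 0.75 * u ^ 2)) :=
    mul_nonneg (q0.trans hQ) (by positivity)
  unfold Nb Nn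
  constructor
  · nlinarith [sq_nonneg (u - s), sq_nonneg E]
  · linarith

theorem main {u e E Q : ℝ} (hu : 0 < u) (hx : u ^ 2 ≤ 2 / 5) (he : 0 < e) (heu : e ≤ u)
    (hE : e ≤ E) (h16 : E ≤ 1 / 16) (hQ : e ^ 2 / u ≤ Q)
    (H : gg (u ^ 2) * Nb u E Q ≤ Rb u E * Db (u ^ 2) E) :
    (1.39 - 27 / 100 * (4 * u ^ 2 * (1 - u ^ 2))) * alx (u ^ 2) * (Nn (u ^ 2) e / Dd (u ^ 2) e) /
        (2 * u ^ 2 * (1 - u ^ 2)) +
      2 / 5 * e ^ 2 * (18 / 5 + 6 * max 0 (1 - 4 * u ^ 2) / (1 - u ^ 2)) +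
      2 / 5 * e * 1.33 * (u * (1 - u ^ 2 / 2) + √(1 - u ^ 2) * (1 + u ^ 2) / 2) +
      27 / 50 * ((u ^ 2) ^ 2 - 2 * (u ^ 2) ^ 2 / (2 - u ^ 2) ^ 2) +
      27 / 100 * (0.0455 * (4 * u ^ 2 * (1 - u ^ 2)) ^ 2) ≤
      0.39 - 27 / 100 * (4 * u ^ 2 * (1 - u ^ 2)) := by
  obtain ⟨n0, n1⟩ := nn_le hu hx he heu hE h16 hQ
  have h0 : 0 < u ^ 2 := by positivity
  have h1 : 0 < 1 - u ^ 2 := by linarith
  obtain ⟨r0, r1⟩ := ro_le h0.le hx
  have e2 : e ^ 2 ≤ E ^ 2 := by gcongr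
  have e3 : e ^ 2 ≤ 1 / 256 := by nlinarith
  have d0 : 0 < Db (u ^ 2) E := mul_pos (by linarith) (by norm_num)
  have d1 : Db (u ^ 2) E ≤ Dd (u ^ 2) e :=
    mul_le_mul (by linarith) (by linarith) (by norm_num) (by linarith)
  have p0 := pp_nonneg h0.le hx
  have w0 : 0 ≤ 1.39 - 27 / 100 * (4 * u ^ 2 * (1 - u ^ 2)) := by nlinarith
  have a1 : (1.39 - 27 / 100 * (4 * u ^ 2 * (1 - u ^ 2))) * alx (u ^ 2) *
      (Nn (u ^ 2) e / Dd (u ^ 2) e) / (2 * u ^ 2 * (1 - u ^ 2)) ≤ Rb u E := by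
    calc _ = (1.39 - 27 / 100 * (4 * u ^ 2 * (1 - u ^ 2))) * pp (u ^ 2) / (2 * (1 - u ^ 2)) *
          (Nn (u ^ 2) e / Dd (u ^ 2) e) := by
          rw [alx_eq]
          field_simp
      _ ≤ (1.39 - 27 / 100 * (4 * u ^ 2 * (1 - u ^ 2))) * pp (u ^ 2) / (2 * (1 - u ^ 2)) *
          (Nb u E Q / Db (u ^ 2) E) :=
          mul_le_mul_of_nonneg_left (div_le_div₀ n0 n1 d0 d1) (by positivity)
      _ ≤ gg (u ^ 2) * (Nb u E Q / Db (u ^ 2) E) :=
          mul_le_mul_of_nonneg_right ((div_le_iff₀ (by positivity)).2 (g_le h0.le hx))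
            (by positivity)
      _ ≤ _ := by rw [← mul_div_assoc, div_le_iff₀ d0]; exact H
  have a2 : 6 * max 0 (1 - 4 * u ^ 2) / (1 - u ^ 2) ≤ 6 * (1 - 5 / 2 * u ^ 2) := by
    rw [mul_div_assoc]
    gcongr
    rw [div_le_iff₀ h1]
    exact max_le (mul_nonneg (by linarith) h1.le) (by nlinarith)
  have a3 : √(1 - u ^ 2) ≤ 1 - u ^ 2 / 2 := by
    rw [sqrt_le_left (by linarith)]
    nlinarith [sq_nonneg (u ^ 2)]
  have a4 : (u ^ 2) ^ 2 - 2 * (u ^ 2) ^ 2 / (2 - u ^ 2) ^ 2 ≤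
      u ^ 4 * (1 / 2 - u ^ 2 / 2 - 3 / 8 * u ^ 4 - u ^ 6 / 4) := by
    have h2 : 0 < 2 - u ^ 2 := by linarith
    rw [sub_le_comm, le_div_iff₀ (by positivity)]
    have : 0 ≤ u ^ 12 * (1 - u ^ 2) := by positivity
    have : 0 ≤ u ^ 12 := by positivity
    linarith
  have E0 : 0 ≤ E := by linarith
  have b2 : 2 / 5 * e ^ 2 * (18 / 5 + 6 * max 0 (1 - 4 * u ^ 2) / (1 - u ^ 2)) ≤
      2 / 5 * E ^ 2 * (18 / 5 + 6 * (1 - 5 / 2 * u ^ 2)) := by gcongr
  have h3 : 0 ≤ 1 - u ^ 2 / 2 := by linarith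
  have b3 : 2 / 5 * e * 1.33 * (u * (1 - u ^ 2 / 2) + √(1 - u ^ 2) * (1 + u ^ 2) / 2) ≤
      2 / 5 * E * 1.33 * (u * (1 - u ^ 2 / 2) + (1 - u ^ 2 / 2) * (1 + u ^ 2) / 2) := by gcongr
  unfold Rb at a1
  linarith

end Num2

open Num2 in
theorem pfin : PFIN := by
  intro x e he h16 hx
  have x0 : 0 < x := lt_of_lt_of_le (by positivity) hx
  refine ⟨fun h => ?_, fun h h' => ?_⟩
  · obtain ⟨u, hu, rfl⟩ : ∃ u, 0 < u ∧ x = u ^ 2 := ⟨√x, by positivity, (sq_sqrt x0.le).symm⟩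
    have heu : e ≤ u := le_of_sq_le_sq hx hu.le
    rw [sqrt_sq hu.le]
    rcases le_total u (1 / 16) with h1 | h1
    · refine main hu h he heu heu h1 ?_ (fin1 hu.le h1)
      rw [div_le_iff₀ hu]
      linarith
    · refine main hu h he heu h16 le_rfl ?_ (fin2 h1 (le_of_sq_le_sq (by linarith) (by norm_num)))
      gcongr
      nlinarith
  · have a1 : √x ≤ 0.71 := by
      rw [sqrt_le_left (by norm_num)]
      linarith
    have a2 : √(1 - x) ≤ 0.78 := by
      rw [sqrt_le_left (by norm_num)]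
      linarith
    have a3 : 0.78 * x ^ 2 ≤ 2 * x ^ 2 / (2 - x) ^ 2 := by
      have h2 : 0 < 2 - x := by linarith
      rw [le_div_iff₀ (by positivity)]
      have : (2 - x) ^ 2 ≤ 2.56 := by nlinarith
      nlinarith [sq_nonneg x]
    have h3 : 0 ≤ 1 - x / 2 := by linarith
    have a4 : 2 / 5 * e * 1.33 * (√x * (1 - x / 2) + √(1 - x) * (1 + x) / 2) ≤
        2 / 5 * (1 / 16) * 1.33 * (0.71 * (1 - 2 / 5 / 2) + 0.78 * (1 + 1 / 2) / 2) := by gcongr
    have a5 : e ^ 2 ≤ 1 / 256 := by nlinarith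
    have a6 : x ^ 2 ≤ 1 / 4 := by nlinarith
    nlinarith [sq_nonneg (1 - 2 * x)]

end Pool.Agent.MP_ddaf7c_pr.A

end MrgPart3

-- ======== part 4: formerly Pool.Agent.MP_ddaf7c_pr.A.Sand
section MrgPart4

/-! Two-sided bounds and the logarithmic derivative of the one-colour sequence. -/

set_option autoImplicit false

namespace Pool.Agent.MP_ddaf7c_pr.A

open Finset Real

namespace Sand

theorem grow {f f' : ℝ → ℝ} (hf : ∀ t, HasDerivAt f (f' t) t) (h : ∀ t, 0 ≤ t → 0 ≤ f' t) {t : ℝ}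
    (ht : 0 ≤ t) : f 0 ≤ f t := by
  have hm : MonotoneOn f (Set.Ici 0) :=
    monotoneOn_of_deriv_nonneg (convex_Ici 0)
      (fun x _ => (hf x).continuousAt.continuousWithinAt)
      (fun x _ => (hf x).differentiableAt.differentiableWithinAt)
      (fun x hx => by rw [(hf x).deriv]; exact h x (interior_subset hx))
  exact hm Set.self_mem_Ici ht ht

theorem tau_pos {c : ℕ} (hc : 1 ≤ c) : 0 < tau c := by
  have : (0 : ℝ) < c := by exact_mod_cast hc
  unfold tau
  positivity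

theorem V1_eq {f : ℕ → ℝ} (h : f 0 = 0) (c : ℕ) :
    K.V1 f c = ∑ r ∈ Ico 1 c, ((c - r : ℕ) : ℝ) * (f r * f (c - r)) := by
  unfold K.V1
  rw [← Finset.Nat.sum_antidiagonal_swap, Finset.Nat.sum_antidiagonal_eq_sum_range_succ_mk]
  symm
  refine (Finset.sum_congr rfl fun r _ => ?_).trans (Finset.sum_subset (fun r hr => ?_)
    fun r hr hr' => ?_)
  · simp only [Prod.fst_swap, Prod.snd_swap]
    ring
  · simp only [mem_Ico, mem_range] at hr ⊢
    omega
  · simp only [mem_Ico, mem_range] at hr hr'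
    rcases Nat.eq_zero_or_pos r with h1 | h1
    · simp [h1, h]
    · have : c - r = 0 := by omega
      simp [this]

theorem abel' (h0 : ABEL) {c : ℕ} (hc : 1 ≤ c) :
    ∑ r ∈ Ico 1 c, ((c - r : ℕ) : ℝ) * (tau r * tau (c - r)) = ((c - 1 : ℕ) : ℝ) * tau c := by
  have h := h0 c hc
  rw [Nat.cast_sub hc, Nat.cast_one, ← h, Finset.sum_mul]
  refine Finset.sum_congr rfl fun r _ => ?_
  have := (tau_pos hc).ne'
  unfold PP TT
  field_simp

theorem init (S : K.Sol) {c : ℕ} (hc : 1 ≤ c) : S.κ 0 c = tau c * 0 ^ (c - 1) := by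
  rw [S.κi]
  split_ifs with h
  · subst h
    simp [tau]
  · rw [zero_pow (by omega), mul_zero]

theorem pw {c r : ℕ} (hr : r ∈ Ico 1 c) (t : ℝ) :
    tau r * t ^ (r - 1) * (tau (c - r) * t ^ (c - r - 1)) =
      tau r * tau (c - r) * t ^ (c - 1 - 1) := by
  have : c - 1 - 1 = r - 1 + (c - r - 1) := by
    simp only [mem_Ico] at hr
    omega
  rw [this, pow_add]
  ring

theorem lower (h0 : ABEL) (S : K.Sol) (c : ℕ) :
    1 ≤ c → ∀ t, 0 ≤ t → tau c * t ^ (c - 1) ≤ S.κ t c := by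
  induction c using Nat.strong_induction_on with
  | _ c ih =>
  intro hc t ht
  have := grow (f := fun t => S.κ t c - tau c * t ^ (c - 1))
    (fun t => (S.dκ c t).sub ((hasDerivAt_pow (c - 1) t).const_mul (tau c))) (fun t ht => ?_) ht
  · simp only [init S hc] at this
    linarith
  have h1 : ((c - 1 : ℕ) : ℝ) * tau c * t ^ (c - 1 - 1) ≤ K.V1 (S.κ t) c := by
    rw [V1_eq (S.κz t), ← abel' h0 hc, Finset.sum_mul]
    refine Finset.sum_le_sum fun r hr => ?_
    rw [mul_assoc, ← pw hr]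
    simp only [mem_Ico] at hr
    have := tau_pos (c := c - r) (by omega)
    exact mul_le_mul_of_nonneg_left (mul_le_mul (ih r hr.2 hr.1 t ht)
      (ih (c - r) (by omega) (by omega) t ht) (by positivity) (S.κp t ht r)) (Nat.cast_nonneg _)
  have h2 := mul_nonneg (by positivity : (0 : ℝ) ≤ (c : ℝ) ^ 2 / 2) (S.κp t ht c)
  linarith

theorem dexp (a t : ℝ) : HasDerivAt (fun t => exp (-(a * t))) (exp (-(a * t)) * -a) t := by
  simpa using ((hasDerivAt_id t).const_mul a).neg.exp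

theorem upper (h0 : ABEL) (S : K.Sol) (c : ℕ) :
    1 ≤ c → ∀ t, 0 ≤ t → S.κ t c ≤ tau c * t ^ (c - 1) * exp (c ^ 2 / 2 * t) := by
  induction c using Nat.strong_induction_on with
  | _ c ih =>
  intro hc t ht
  have := grow (f := fun t => tau c * t ^ (c - 1) - exp (-(c ^ 2 / 2 * t)) * S.κ t c)
    (fun t => ((hasDerivAt_pow (c - 1) t).const_mul (tau c)).sub
      ((dexp (c ^ 2 / 2) t).mul (S.dκ c t))) (fun t ht => ?_) ht
  · simp only [init S hc, mul_zero, neg_zero, exp_zero, one_mul, sub_self, exp_neg] at this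
    rw [sub_nonneg, inv_mul_le_iff₀ (exp_pos _)] at this
    linarith
  have h1 : K.V1 (S.κ t) c ≤
      ((c - 1 : ℕ) : ℝ) * tau c * (t ^ (c - 1 - 1) * exp (c ^ 2 / 2 * t)) := by
    rw [V1_eq (S.κz t), ← abel' h0 hc, Finset.sum_mul]
    refine Finset.sum_le_sum fun r hr => ?_
    rw [mul_assoc, ← mul_assoc (tau r * _), ← pw hr]
    simp only [mem_Ico] at hr
    have p1 := tau_pos (c := c - r) (by omega)
    have p2 := tau_pos hr.1
    refine mul_le_mul_of_nonneg_left ((mul_le_mul (ih r hr.2 hr.1 t ht)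
      (ih (c - r) (by omega) (by omega) t ht) (S.κp t ht _) (by positivity)).trans ?_)
      (Nat.cast_nonneg _)
    rw [mul_mul_mul_comm, ← exp_add]
    refine mul_le_mul_of_nonneg_left (exp_le_exp.2 ?_) (by positivity)
    rw [← add_mul, Nat.cast_sub hr.2.le]
    refine mul_le_mul_of_nonneg_right ?_ ht
    have q1 : (0 : ℝ) ≤ r := Nat.cast_nonneg r
    have q2 : (r : ℝ) ≤ c := by exact_mod_cast hr.2.le
    nlinarith [mul_nonneg q1 (sub_nonneg.2 q2)]
  have h2 := mul_le_mul_of_nonneg_left h1 (exp_pos (-(c ^ 2 / 2 * t))).le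
  have h3 : exp (-((c : ℝ) ^ 2 / 2 * t)) * exp (c ^ 2 / 2 * t) = 1 := by
    rw [← exp_add, neg_add_cancel, exp_zero]
  have h4 : exp (-((c : ℝ) ^ 2 / 2 * t)) *
      (((c - 1 : ℕ) : ℝ) * tau c * (t ^ (c - 1 - 1) * exp (c ^ 2 / 2 * t))) =
      ((c - 1 : ℕ) : ℝ) * tau c * t ^ (c - 1 - 1) := by
    linear_combination ((c - 1 : ℕ) : ℝ) * tau c * t ^ (c - 1 - 1) * h3
  linarith

/-- the time derivative -/
noncomputable def dd (S : K.Sol) (t : ℝ) (c : ℕ) : ℝ := (c : ℝ) ^ 2 / 2 * S.κ t c + K.V1 (S.κ t) c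

theorem mono (S : K.Sol) (c : ℕ) :
    1 ≤ c → ∀ t, 0 ≤ t → ((c : ℝ) - 1) * S.κ t c ≤ t * dd S t c := by
  induction c using Nat.strong_induction_on with
  | _ c ih =>
  intro hc t ht
  have hV : ∀ t, HasDerivAt (fun t => K.V1 (S.κ t) c) (∑ r ∈ Ico 1 c, ((c - r : ℕ) : ℝ) *
      (dd S t r * S.κ t (c - r) + S.κ t r * dd S t (c - r))) t := fun t => by
    have := HasDerivAt.fun_sum (u := Ico 1 c) fun r _ =>
      ((S.dκ r t).mul (S.dκ (c - r) t)).const_mul ((c - r : ℕ) : ℝ)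
    refine (funext fun t => V1_eq (S.κz t) c : (fun t => K.V1 (S.κ t) c) = _) ▸ this
  have := grow (f := fun t => exp (-(c ^ 2 / 2 * t)) * (t * dd S t c - ((c : ℝ) - 1) * S.κ t c))
    (fun t => (dexp (c ^ 2 / 2) t).mul (((hasDerivAt_id' t).mul
      (((S.dκ c t).const_mul ((c : ℝ) ^ 2 / 2)).add (hV t))).sub
        ((S.dκ c t).const_mul ((c : ℝ) - 1)))) (fun t ht => ?_) ht
  · have h1 : ((c : ℝ) - 1) * S.κ 0 c = 0 := by
      rw [S.κi]
      split_ifs with h
      · simp [h]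
      · simp
    simp only [h1, zero_mul, sub_self, mul_zero] at this
    exact sub_nonneg.1 (nonneg_of_mul_nonneg_right this (exp_pos _))
  have h1 : ((c : ℝ) - 2) * K.V1 (S.κ t) c ≤ t * ∑ r ∈ Ico 1 c, ((c - r : ℕ) : ℝ) *
      (dd S t r * S.κ t (c - r) + S.κ t r * dd S t (c - r)) := by
    rw [V1_eq (S.κz t), Finset.mul_sum, Finset.mul_sum]
    refine Finset.sum_le_sum fun r hr => ?_
    simp only [mem_Ico] at hr
    have a1 := mul_le_mul_of_nonneg_right (ih r hr.2 hr.1 t ht) (S.κp t ht (c - r))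
    have a2 := mul_le_mul_of_nonneg_right (ih (c - r) (by omega) (by omega) t ht) (S.κp t ht r)
    have a3 := mul_le_mul_of_nonneg_left (add_le_add a1 a2) (Nat.cast_nonneg (α := ℝ) (c - r))
    have a4 : (c : ℝ) = r + ((c - r : ℕ) : ℝ) := by
      rw [Nat.cast_sub hr.2.le]
      ring
    generalize ((c - r : ℕ) : ℝ) = m at a3 a4
    rw [a4]
    linarith
  have h2 := mul_nonneg (by positivity : (0 : ℝ) ≤ (c : ℝ) ^ 2 / 2) (S.κp t ht c)
  have h3 := mul_nonneg (exp_pos (-((c : ℝ) ^ 2 / 2 * t))).le (add_nonneg (sub_nonneg.2 h1) h2)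
  refine h3.trans_eq ?_
  simp only [dd, Pi.add_apply, Pi.mul_apply, Pi.sub_apply]
  ring

theorem phi_eq (S : K.Sol) {t : ℝ} (ht : 0 < t) {c : ℕ} (hc : 1 ≤ c) (hκ : 0 < S.κ t c) :
    Phi (Kf S t) c = t * K.V1 (S.κ t) c / S.κ t c := by
  rw [V1_eq (S.κz t), Finset.mul_sum, Finset.sum_div]
  refine Finset.sum_congr rfl fun r hr => ?_
  simp only [mem_Ico] at hr
  have p1 := tau_pos (c := c - r) (by omega)
  have p2 := tau_pos hr.1
  have p3 := tau_pos hc
  unfold PP TT uu Kf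
  rw [if_neg (by omega), if_neg (by omega), if_neg (by omega)]
  field_simp

end Sand

open Sand in
theorem sand (h0 : ABEL) : SAND := by
  intro S t ht c hc
  have p := tau_pos hc
  have h1 := lower h0 S c hc t ht.le
  have h2 := upper h0 S c hc t ht.le
  have h3 := mono S c hc t ht.le
  have hκ : 0 < S.κ t c := lt_of_lt_of_le (by positivity) h1
  have hK : ∀ τ, Kf S τ c = τ * S.κ τ c / tau c := fun τ => if_neg (by omega)
  have hp : t ^ c = t * t ^ (c - 1) := by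
    rw [← pow_succ', Nat.sub_add_cancel hc]
  rw [phi_eq S ht hc hκ]
  simp only [hK]
  refine ⟨?_, ?_, ?_, ?_⟩
  · rw [le_div_iff₀ p, hp]
    nlinarith [mul_le_mul_of_nonneg_left h1 ht.le]
  · rw [div_le_iff₀ p, hp, show (c : ℝ) ^ 2 * t / 2 = c ^ 2 / 2 * t by ring]
    nlinarith [mul_le_mul_of_nonneg_left h2 ht.le]
  · rw [sub_le_iff_le_add, ← sub_le_iff_le_add', le_div_iff₀ hκ]
    unfold dd at h3
    linarith
  · refine (((hasDerivAt_id' t).mul (S.dκ c t)).div_const (tau c)).congr_deriv ?_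
    field_simp
    ring

end Pool.Agent.MP_ddaf7c_pr.A

end MrgPart4

-- ======== part 5: formerly Pool.Agent.MP_ddaf7c_pr.A.Static
section MrgPart5

/-! The time-free certificate gives the sign of the defect. -/

set_option autoImplicit false

namespace Pool.Agent.MP_ddaf7c_pr.A

open Finset Real

namespace Static

theorem tau_nonneg (c : ℕ) : 0 ≤ tau c := by unfold tau; positivity

theorem PP_nonneg (c r : ℕ) : 0 ≤ PP c r :=
  mul_nonneg (Nat.cast_nonneg _)
    (div_nonneg (mul_nonneg (tau_nonneg _) (tau_nonneg _)) (tau_nonneg _))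

theorem om_nonneg (a b : ℕ) : 0 ≤ om a b := by unfold om; positivity

theorem om_symm (a b : ℕ) : om a b = om b a := by unfold om; ring

theorem gam_symm (a b : ℕ) : gam a b = gam b a := by rw [gam, gam, om_symm]

theorem eta_symm (a b : ℕ) (t : ℝ) : eta a b t = eta b a t := by
  rw [eta, eta, om_symm, gam_symm, add_comm a b]

theorem hh_nonneg (M : ℕ) : 0 ≤ hh M := by unfold hh; positivity

theorem sN_pos {M : ℕ} (h : 2 ≤ M) : 0 < sN M := by
  rcases lt_or_ge M 64 with h' | h'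
  · exact (by decide : ∀ M < 64, 2 ≤ M → 0 < sN M) M h' h
  · rw [sN, List.getD_eq_default _ _ (by simpa using h')]
    norm_num

theorem hh_pos {M : ℕ} (h : 2 ≤ M) : 0 < hh M := by
  have := sN_pos h
  have : 0 < M := by omega
  unfold hh
  positivity

theorem tst_pos (M : ℕ) : 0 < tst M := by
  have : 0 < max M 64 := lt_max_of_lt_right (by norm_num)
  unfold tst
  positivity

theorem tst_anti {j M : ℕ} (h : j ≤ M) : tst M ≤ tst j := by
  have : 0 < max j 64 := lt_max_of_lt_right (by norm_num)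
  unfold tst
  gcongr

theorem eta_le {M j k : ℕ} (t : ℝ) (hM : 2 ≤ M) (h : j + k ≤ M) :
    eta j k t ≤ etP (phi M t) M j k := by
  have e : phi M t * (hh (j + k) / hh M) = hh (j + k) * min t (tst M) := by
    have := (hh_pos hM).ne'
    rw [phi]
    field_simp
  rw [eta, etP, e, phi, mul_comm (om j k)]
  have := mul_le_mul_of_nonneg_right (mul_le_mul_of_nonneg_left
    (min_le_min_left t (tst_anti h)) (hh_nonneg (j + k))) (om_nonneg j k)
  linarith

variable {K : ℕ → ℝ} {t : ℝ}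

theorem ratio (h : Adm K t) (i n : ℕ) : K (i + 1) * K (i + n) ≤ K i * K (i + n + 1) := by
  induction n with
  | zero => rw [add_zero, mul_comm]
  | succ n ih =>
    have c := h.cvx (i + n + 1) (by omega)
    rw [Nat.add_sub_cancel] at c
    refine le_of_mul_le_mul_right ?_ (h.pos (i + n))
    have h1 := mul_le_mul_of_nonneg_right ih (h.pos (i + n + 1)).le
    have h2 := mul_le_mul_of_nonneg_left c (h.pos i).le
    rw [← add_assoc]
    linarith

theorem sup (h : Adm K t) (i j : ℕ) : K i * K j ≤ K (i + j) := by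
  induction i with
  | zero => rw [h.zero, one_mul, zero_add]
  | succ i ih =>
    refine le_of_mul_le_mul_left ?_ (h.pos i)
    have h1 := mul_le_mul_of_nonneg_left ih (h.pos (i + 1)).le
    have h2 := ratio h i j
    rw [add_right_comm i 1 j]
    linarith

theorem uu_nonneg (h : Adm K t) (c r : ℕ) : 0 ≤ uu K c r :=
  div_nonneg (mul_pos (h.pos _) (h.pos _)).le (h.pos _).le

theorem uu_le (h : Adm K t) {c r : ℕ} (hr : r ≤ c) : uu K c r ≤ 1 := by
  have := sup h r (c - r)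
  rw [Nat.add_sub_cancel' hr] at this
  exact (div_le_one (h.pos _)).2 this

theorem uu_symm (K : ℕ → ℝ) {c r : ℕ} (hr : r ≤ c) : uu K c (c - r) = uu K c r := by
  rw [uu, uu, Nat.sub_sub_self hr, mul_comm]

theorem uu_mul (h : Adm K t) (a : ℕ) {b r : ℕ} (hr : r ≤ b) :
    uu K (a + b) a * uu K b r ≤ uu K (a + b) r := by
  have h1 := mul_le_mul_of_nonneg_left (sup h a (b - r)) (h.pos r).le
  have p1 := (h.pos b).ne'
  have e : uu K (a + b) a * uu K b r = K r * (K a * K (b - r)) / K (a + b) := by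
    have p2 := (h.pos (a + b)).ne'
    rw [uu, uu, Nat.add_sub_cancel_left]
    field_simp
  rw [e, uu, Nat.add_sub_assoc hr]
  exact div_le_div_of_nonneg_right h1 (h.pos _).le

theorem fold (M : ℕ) (v : ℕ → ℝ) (hv : ∀ r ≤ M, v (M - r) = v r) :
    ∑ r ∈ Ico 1 M, QQ M r / 2 * v r = ∑ r ∈ Ico 1 M, PP M r * v r := by
  have e := sum_Ico_reflect (fun r => PP M r * v r) 1 (m := M) (n := M) (Nat.le_succ M)
  rw [Nat.add_sub_cancel_left, Nat.add_sub_cancel] at e
  have e2 : ∑ r ∈ Ico 1 M, QQ M r / 2 * v r =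
      ∑ r ∈ Ico 1 M, (PP M r * v r + PP M (M - r) * v (M - r)) / 2 :=
    sum_congr rfl fun r hr => by
      have hr' := (mem_Ico.1 hr).2.le
      rw [hv r hr', QQ, PP, PP, TT, TT, Nat.sub_sub_self hr', Nat.cast_sub hr']
      ring
  rw [e2, ← sum_div, sum_add_distrib, e]
  ring

theorem ext {a M : ℕ} (h : a ≤ M) (F : ℕ → ℝ) :
    ∑ r ∈ Ico 1 M, PP a r * F r = ∑ r ∈ Ico 1 a, PP a r * F r :=
  (sum_subset (Ico_subset_Ico_right h) fun r h1 h2 => by
    have : a - r = 0 := by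
      rw [mem_Ico] at h1 h2
      omega
    rw [PP, this, Nat.cast_zero, zero_mul, zero_mul]).symm

theorem mm_sum (φ : ℝ) (a b : ℕ) (v : ℕ → ℝ) (hv : ∀ r ≤ a + b, v (a + b - r) = v r) :
    ∑ r ∈ Ico 1 (a + b), mm φ a b r * v r =
      (1 + gam a b - om a b * φ - 13 / 5 * om a b * φ / ((a : ℝ) + b - 1)) *
          ∑ r ∈ Ico 1 (a + b), PP (a + b) r * v r -
        ∑ r ∈ Ico 1 a, PP a r * (etP φ (a + b) (a - r) b * v r) -
        ∑ r ∈ Ico 1 b, PP b r * ((etP φ (a + b) a (b - r) +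
          if r < a then 0 else max (gam a b - gam a (b - r)) 0) * v r) := by
  rw [← fold _ v hv, ← ext (Nat.le_add_right a b), ← ext (Nat.le_add_left b a), mul_sum,
    ← sum_sub_distrib, ← sum_sub_distrib]
  refine sum_congr rfl fun r _ => ?_
  rw [mm]
  ring

theorem mm_aff (φ : ℝ) (a b r : ℕ) : mm φ a b r = mm 0 a b r + φ * (mm 1 a b r - mm 0 a b r) := by
  simp only [mm, etP]
  ring

theorem mS_aff (φ : ℝ) (a b r : ℕ) : mS φ a b r = mS 0 a b r + φ * (mS 1 a b r - mS 0 a b r) := by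
  simp only [mS]
  split_ifs
  · exact mm_aff φ a b r
  · rw [mm_aff φ a b r, mm_aff φ a b (a + b - r)]
    ring

theorem WW_aff (φ μ : ℝ) (a b i : ℕ) :
    WW φ μ a b i = WW 0 μ a b i + φ * (WW 1 μ a b i - WW 0 μ a b i) := by
  simp only [WW]
  rw [← sum_sub_distrib, mul_sum, ← sum_add_distrib]
  refine sum_congr rfl fun r _ => ?_
  rw [mS_aff φ]
  ring

theorem WW_nonneg {φ p μ : ℝ} {a b i : ℕ} (h0 : 0 ≤ φ) (h1 : φ ≤ p) (h2 : 0 ≤ WW 0 μ a b i)
    (h3 : 0 ≤ WW p μ a b i) : 0 ≤ WW φ μ a b i := by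
  rw [WW_aff] at h3 ⊢
  rcases le_total 0 (WW 1 μ a b i - WW 0 μ a b i) with h | h
  · linarith [mul_nonneg h0 h]
  · linarith [mul_le_mul_of_nonpos_right h1 h]

theorem rate {M : ℕ} (hM : 2 ≤ M) (h : t ≤ tst M) : 13 * (t * M ^ 2) ≤ 16 * ((M : ℝ) - 1) := by
  have h2 : (2 : ℝ) ≤ M := by exact_mod_cast hM
  rw [tst] at h
  rcases le_total M 64 with h' | h'
  · have h3 : (M : ℝ) ≤ 64 := by exact_mod_cast h'
    rw [max_eq_right h'] at h
    have := mul_le_mul_of_nonneg_right h (sq_nonneg (M : ℝ))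
    push_cast at this
    nlinarith [mul_nonneg (sub_nonneg.2 h2) (sub_nonneg.2 h3)]
  · have h3 : (64 : ℝ) ≤ M := by exact_mod_cast h'
    rw [max_eq_left h', le_div_iff₀ (by linarith)] at h
    have := mul_le_mul_of_nonneg_right h (show (0 : ℝ) ≤ M by linarith)
    linarith

theorem psi_symm (K : ℕ → ℝ) (t d : ℝ) (a b : ℕ) : Psi K t a b d = Psi K t b a d := by
  have e : uu K (a + b) b = uu K (a + b) a := by
    rw [← uu_symm K (Nat.le_add_right a b), Nat.add_sub_cancel_left]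
  simp only [Psi, add_comm b a, e, om_symm b a, gam_symm b, gam_symm _ a, eta_symm b,
    eta_symm _ a]
  ring

end Static

open Static

theorem static (h0 : ABEL) (h1 : LOSS) (h2 : CORE) : STATIC := by
  intro K t d a b ha hab ht hK ⟨μ, E, hμ, hE, hEE, hc, hW⟩ hr
  have hM : 2 ≤ a + b := by omega
  have hM' : (0 : ℝ) < (a : ℝ) + b - 1 := by
    have : (2 : ℝ) ≤ (a + b : ℕ) := by exact_mod_cast hM
    push_cast at this
    linarith
  have f0 : 0 ≤ phi (a + b) t := mul_nonneg (hh_nonneg _) (le_min ht.le (tst_pos _).le)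
  have f1 : phi (a + b) t ≤ pmx (a + b) := mul_le_mul_of_nonneg_left (min_le_right _ _) (hh_nonneg _)
  have f2 : phi (a + b) t ≤ hh (a + b) * t :=
    mul_le_mul_of_nonneg_left (min_le_left _ _) (hh_nonneg _)
  have core := h2 K t (phi (a + b) t) μ a b ha hab ht hK hμ
    fun i hi => WW_nonneg f0 f1 (hW i hi).1 (hW i hi).2
  have loss := h1 K t a b ha hab ht hK
  have ua := uu_nonneg hK (a + b) a
  have w0 := om_nonneg a b
  have e1 : ∑ r ∈ Ico 1 (a + b), PP (a + b) r * (uu K (a + b) r - uu K (a + b) a) =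
      Phi K (a + b) - uu K (a + b) a * ((a : ℝ) + b - 1) := by
    simp only [mul_sub, sum_sub_distrib, ← sum_mul, h0 (a + b) (by omega), Phi]
    push_cast
    ring
  rw [mm_sum _ a b _ (fun r hr => by rw [uu_symm K hr]), e1] at core
  have HA : 0 ≤ ∑ r ∈ Ico 1 a, (PP a r * (etP (phi (a + b) t) (a + b) (a - r) b *
      (uu K (a + b) r - uu K (a + b) a)) - PP a r * eta (a - r) b t * uu K (a + b) r +
      uu K (a + b) a * (eta a b t * PP a r +
        phi (a + b) t * (PP a r * (om a b - hh (a - r + b) / hh (a + b) * om (a - r) b)) +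
        PP a r * (gam (a - r) b - gam a b) * (1 - uu K a r) +
        PP a r * (gam (a - r) b - gam a b) * uu K a r)) := sum_nonneg fun r _ => by
    have := mul_nonneg (mul_nonneg (PP_nonneg a r) (uu_nonneg hK (a + b) r))
      (sub_nonneg.2 (eta_le (j := a - r) (k := b) t hM (by omega)))
    rw [eta.eq_1 a b]
    simp only [etP] at this ⊢
    linarith
  have HB : 0 ≤ ∑ r ∈ Ico 1 b, (PP b r * ((etP (phi (a + b) t) (a + b) a (b - r) +
      if r < a then 0 else max (gam a b - gam a (b - r)) 0) *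
      (uu K (a + b) r - uu K (a + b) a)) - PP b r * eta a (b - r) t * uu K (a + b) r +
      uu K (a + b) a * (eta a b t * PP b r +
        phi (a + b) t * (PP b r * (om a b - hh (a + (b - r)) / hh (a + b) * om a (b - r))) +
        PP b r * max (gam a (b - r) - gam a b) 0 * (1 - uu K b r) +
        PP b r * (gam a (b - r) - gam a b) * uu K b r)) := sum_nonneg fun r hr => by
    have hr' := (mem_Ico.1 hr).2.le
    have x0 : 0 ≤ if r < a then 0 else max (gam a b - gam a (b - r)) 0 := by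
      split_ifs
      exacts [le_rfl, le_max_right _ _]
    have x1 : (gam a (b - r) - gam a b + if r < a then 0 else max (gam a b - gam a (b - r)) 0) ≤
        max (gam a (b - r) - gam a b) 0 := by
      split_ifs
      · exact (add_zero _).trans_le (le_max_left _ _)
      · rcases le_total (gam a b - gam a (b - r)) 0 with h | h
        · rw [max_eq_right h]
          exact (add_zero _).trans_le (le_max_left _ _)
        · rw [max_eq_left h]
          exact le_max_of_le_right (by linarith)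
    generalize (if r < a then 0 else max (gam a b - gam a (b - r)) 0 : ℝ) = X at x0 x1 ⊢
    have p := PP_nonneg b r
    have t1 := mul_nonneg (mul_nonneg p (uu_nonneg hK (a + b) r))
      (sub_nonneg.2 (eta_le (j := a) (k := b - r) t hM (by omega)))
    have t2 := mul_nonneg (mul_nonneg p x0) (sub_nonneg.2 (uu_mul hK a hr'))
    have t3 := mul_nonneg (mul_nonneg (mul_nonneg ua p) (sub_nonneg.2 x1))
      (sub_nonneg.2 (uu_le hK hr'))
    rw [eta.eq_1 a b]
    simp only [etP] at t1 ⊢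
    linarith
  simp only [sum_add_distrib, sum_sub_distrib, ← mul_sum, h0 a ha, h0 b (by omega)] at HA HB
  have hσ : 13 / 5 * om a b * phi (a + b) t / ((a : ℝ) + b - 1) * ((a : ℝ) + b - 1) =
      13 / 5 * om a b * phi (a + b) t := div_mul_cancel₀ _ hM'.ne'
  have s0 : 0 ≤ 13 / 5 * om a b * phi (a + b) t / ((a : ℝ) + b - 1) := by positivity
  generalize 13 / 5 * om a b * phi (a + b) t / ((a : ℝ) + b - 1) = σ at core hσ s0
  have P0 : 0 ≤ Phi K (a + b) := sum_nonneg fun r _ => mul_nonneg (PP_nonneg _ _) (uu_nonneg hK _ _)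
  have R : om a b * d ≤ σ * Phi K (a + b) := by
    rcases hr with h | ⟨h, h'⟩
    · exact (mul_nonpos_of_nonneg_of_nonpos w0 h).trans (mul_nonneg s0 P0)
    · have r1 := rate hM h'
      have r2 := hK.mono (a + b) (by omega)
      push_cast at r1 r2
      have r3 := mul_le_mul_of_nonneg_left
        (show 5 / 13 * ((a : ℝ) + b - 1) ≤ Phi K (a + b) by linarith) s0
      have r4 := mul_le_mul_of_nonneg_left h w0
      linarith
  have c1 := mul_le_mul_of_nonneg_left hEE f0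
  have c2 := mul_le_mul_of_nonneg_right f2 (show 0 ≤ 18 / 5 * om a b + E by positivity)
  have c3 := mul_le_mul_of_nonneg_left hc ht.le
  rw [EE] at c1
  have c4 := mul_le_mul_of_nonneg_left c1 ua
  have c5 := mul_le_mul_of_nonneg_left c2 ua
  have c6 := mul_le_mul_of_nonneg_left c3 ua
  have c7 := mul_le_mul_of_nonneg_left loss ua
  have c8 := congrArg (uu K (a + b) a * ·) hσ
  rw [Psi]
  rw [eta.eq_1 a b] at HA HB ⊢
  linarith

theorem pos (h : STATIC) (hs : CERTS) (hl : CERTL) : POS := by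
  have key : ∀ (K : ℕ → ℝ) (t d : ℝ) (a b : ℕ), 1 ≤ a → a ≤ b → 0 < t → Adm K t →
      Rate (a + b) t d → 0 ≤ Psi K t a b d := fun K t d a b ha hab ht hK hr =>
    h K t d a b ha hab ht hK ((lt_or_ge (a + b) 256).elim (hs a b ha hab) (hl a b ha hab)) hr
  intro K t d a b ha hb ht hK hr
  rcases le_total a b with hab | hab
  · exact key K t d a b ha hab ht hK hr
  · rw [psi_symm]
    exact key K t d b a hb hab ht hK (add_comm a b ▸ hr)

end Pool.Agent.MP_ddaf7c_pr.A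

end MrgPart5

-- ======== part 6: formerly Pool.Agent.MP_ddaf7c_pr.A.Term
section MrgPart6

/-! The termwise lower bound for the inner hinges. -/

set_option autoImplicit false

namespace Pool.Agent.MP_ddaf7c_pr.A

open Finset Real

namespace Term

theorem ee_pos {c : ℕ} (hc : 1 ≤ c) : 0 < ee c := by
  have : (0 : ℝ) < c := by exact_mod_cast hc
  unfold ee tau
  positivity

theorem TT_eq {c r : ℕ} (h : r ≤ c) : TT c r = ee r * (ee (c - r) / ee c) := by
  have e : exp (-(c : ℝ)) = exp (-(r : ℝ)) * exp (-((c - r : ℕ) : ℝ)) := by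
    rw [← exp_add, Nat.cast_sub h]
    congr 1
    ring
  have h1 := exp_ne_zero (-(r : ℝ))
  have h2 := exp_ne_zero (-((c - r : ℕ) : ℝ))
  unfold TT ee
  rw [e]
  by_cases h0 : tau c = 0
  · simp [h0]
  field_simp

theorem sq_sqrt' {c r : ℝ} (h0 : 0 ≤ r) (h : r < c) :
    0 < √(1 - r / c) ∧ √(1 - r / c) ^ 2 = (c - r) / c := by
  have hc : 0 < c := h0.trans_lt h
  have h1 : 0 < 1 - r / c := by rw [sub_pos, div_lt_one hc]; exact h
  refine ⟨sqrt_pos.2 h1, ?_⟩
  rw [sq_sqrt h1.le]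
  field_simp

/-- The Stirling bounds for a ratio. -/
theorem ratio (h : STIR) {c r : ℕ} (hr : r < c) {τ : ℝ} (h0 : 0 < τ)
    (hτ : τ ^ 2 = ((c : ℝ) - r) / c) :
    ee (c - r) / ee c * τ ^ 3 ≤ 1 ∧
      1 - r / (12 * c * ((c : ℝ) - r)) ≤ ee (c - r) / ee c * τ ^ 3 ∧
      (c : ℝ) ≤ ((c : ℝ) - r) * (ee (c - r) / ee c) := by
  obtain ⟨h1, h2, h3⟩ := h.2.2.1 (c - r) c (by omega) (by omega)
  have hc : (0 : ℝ) < c := by exact_mod_cast (by omega : 0 < c)
  have he := ee_pos (c := c) (by omega)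
  rw [Nat.cast_sub hr.le] at h1 h2 h3
  have e1 : (c : ℝ) - r = c * τ ^ 2 := by rw [hτ]; field_simp
  have e2 : ((c : ℝ) - r) * √((c : ℝ) - r) = c * √c * τ ^ 3 := by
    rw [e1, sqrt_mul hc.le, sqrt_sq h0.le]
    ring
  have hp : 0 < c * √(c : ℝ) := by positivity
  rw [e2] at h1 h2
  rw [sub_sub_cancel] at h2
  refine ⟨?_, ?_, ?_⟩
  · rw [div_mul_eq_mul_div, div_le_one he]
    exact le_of_mul_le_mul_right (by linarith) hp
  · rw [div_mul_eq_mul_div, le_div_iff₀ he]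
    exact le_of_mul_le_mul_right (by linarith) hp
  · rw [← mul_div_assoc, le_div_iff₀ he]
    exact h3

/-- Convexity along the segment from `1` to `s`. -/
theorem cvx {θ s τ : ℝ} (h0 : 0 ≤ θ) (h1 : θ ≤ 1) (hs : 0 < s) (hτ : 0 < τ)
    (e : τ ^ 2 = 1 - θ * (1 - s ^ 2)) :
    s ^ 2 ≤ τ * ((1 - θ) * s ^ 2 + θ * s) ∧
      s ^ 2 ≤ τ * (1 + τ) * ((1 - θ) * s ^ 2 / 2 + θ * (s / (1 + s))) := by
  have h2 : 0 ≤ 1 - θ := by linarith
  obtain ⟨u, hu⟩ : ∃ u, u = 1 - θ + θ * s := ⟨_, rfl⟩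
  have u0 : 0 ≤ u := by rw [hu]; positivity
  have p : 0 ≤ θ * (1 - θ) * (1 - s) ^ 2 := by positivity
  have ut : u ≤ τ := (abs_le_of_sq_le_sq' (by rw [e, hu]; linarith) hτ.le).2
  constructor
  · have : s ^ 2 ≤ u * ((1 - θ) * s ^ 2 + θ * s) := by
      have := mul_nonneg p hs.le
      rw [hu]
      linarith
    exact this.trans (mul_le_mul_of_nonneg_right ut (by positivity))
  · have h3 : s ^ 2 ≤ u * (1 + u) * ((1 - θ) * s ^ 2 / 2 + θ * (s / (1 + s))) := by
      have e1 : u * (1 + u) * ((1 - θ) * s ^ 2 / 2 + θ * (s / (1 + s))) = s ^ 2 +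
          θ * (1 - θ) * (1 - s) ^ 2 * (s * (2 + 2 * s + 2 * u + s * u) / (2 * (1 + s))) := by
        rw [hu]
        field_simp
        ring
      rw [e1]
      exact le_add_of_nonneg_right (by positivity)
    exact h3.trans (mul_le_mul_of_nonneg_right
      (mul_le_mul ut (by linarith) (by positivity) hτ.le) (by positivity))

/-- The two bounds on the top level. -/
theorem top {M r t R σ w : ℝ} (hM : 256 ≤ M) (h0 : 0 ≤ r) (hr : 2 * r ≤ M) (ht : 0 < t)
    (e : t ^ 2 = (M - r) / M) (h1 : R * t ^ 3 ≤ 1) (h2 : 1 - r / (12 * M * (M - r)) ≤ R * t ^ 3)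
    (s0 : 0 ≤ σ) (s1 : σ ≤ 0.312 * w) (w1 : w ≤ 1) :
    M + r * ((1 + t + t ^ 2) / (t ^ 3 * (1 + t))) - r * 0.00185 ≤ M * R ∧
      σ / (M - 1) * (M * R) ≤ 0.314 * w + r * 0.0046 := by
  have M0 : 0 < M := by linarith
  have e0 : r = M * (1 - t ^ 2) := by rw [e]; field_simp; ring
  have t1 : 0.707 ≤ t := by
    refine abs_le_of_sq_le_sq' ?_ ht.le |>.2
    rw [e, le_div_iff₀ M0]
    linarith
  have t3 : 0.3533 ≤ t ^ 3 := le_trans (by norm_num) (pow_le_pow_left₀ (by norm_num) t1 3)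
  have p3 : 0 < t ^ 3 := by positivity
  have e1 : M + r * ((1 + t + t ^ 2) / (t ^ 3 * (1 + t))) = M / t ^ 3 := by
    rw [e0]
    field_simp
    ring
  constructor
  · rw [e1, sub_le_iff_le_add, div_le_iff₀ p3]
    have h3 : r / (12 * M * (M - r)) ≤ r * (0.00185 * 0.3533) / M := by
      rw [div_le_div_iff₀ (by have : 0 < M - r := by linarith
                              positivity) M0]
      have : 0 ≤ r * M * ((0.00185 * 0.3533) * 12 * (M - r) - 1) :=
        mul_nonneg (by positivity) (by linarith)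
      linarith
    have h4 : M * (1 - r * (0.00185 * 0.3533) / M) ≤ M * (R * t ^ 3) :=
      mul_le_mul_of_nonneg_left (by linarith) M0.le
    rw [mul_sub, mul_div_cancel₀ _ M0.ne'] at h4
    have h5 := mul_le_mul_of_nonneg_left t3 h0
    linarith
  · have h3 : (1 + t + t ^ 2) / (t ^ 3 * (1 + t)) ≤ 3.75 := by
      rw [div_le_iff₀ (by positivity)]
      obtain ⟨d, rfl⟩ := exists_add_of_le t1
      have : 0 ≤ d := by linarith
      nlinarith [pow_nonneg this 2, pow_nonneg this 3, pow_nonneg this 4]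
    have h4 : M * R ≤ M + r * 3.75 := by
      refine le_trans ?_ (add_le_add le_rfl (mul_le_mul_of_nonneg_left h3 h0))
      rw [e1, le_div_iff₀ p3, mul_assoc]
      exact mul_le_of_le_one_right M0.le h1
    have M1 : 0 < M - 1 := by linarith
    refine (mul_le_mul_of_nonneg_left h4 (div_nonneg s0 M1.le)).trans ?_
    rw [div_mul_eq_mul_div, div_le_iff₀ M1]
    have w0 : 0 ≤ w := by linarith
    have h5 : σ * M ≤ 0.312 * w * M := mul_le_mul_of_nonneg_right s1 M0.le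
    have h6 : σ * r ≤ 0.312 * r := mul_le_mul_of_nonneg_right (by linarith) h0
    have h7 : 0 ≤ w * (M - 256) := mul_nonneg w0 (by linarith)
    have h8 : 0 ≤ r * (M - 256) := mul_nonneg h0 (by linarith)
    linarith

/-- The assembly. -/
theorem fin {a b r s η σ w Q A B T F G Da Db Dn : ℝ} (ha : 0 < a) (hb : 0 < b) (hr : 0 ≤ r)
    (hs : 0 < s) (e : r = a * (1 - s ^ 2)) (n0 : 0 ≤ η) (n1 : η ≤ 1.39) (d1 : 0 ≤ Da) (d2 : 0 ≤ Db)
    (d3 : 0 ≤ Dn) (q1 : a + b + r * T - r * 0.00185 ≤ Q) (q2 : σ * Q ≤ 0.314 * w + r * 0.0046)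
    (a1 : s ^ 2 * A ≤ a * s) (b1 : s ^ 2 * B ≤ b * s ^ 2 + r * F) (b2 : s ^ 2 * B ≤ b * G)
    (b3 : b ≤ B) :
    r * (η * (s ^ 2 * T - F - s / (1 + s)) - 0.0072 * s ^ 2 - (s * Da + G * Db - s ^ 2 * Dn)) -
      0.314 * w * s ^ 2 ≤
      s ^ 2 * ((η - σ) * Q - A * (η + r * Da / a) - B * (η + r * Db / b - r * Dn / b)) := by
  have s2 : 0 ≤ s ^ 2 := by positivity
  have a2 : a * s = a * s ^ 2 + r * (s / (1 + s)) := by rw [e]; field_simp; ring
  have h1 := mul_le_mul_of_nonneg_left q1 (mul_nonneg n0 s2)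
  have h2 := mul_le_mul_of_nonneg_left q2 s2
  have h3 := mul_le_mul_of_nonneg_left (a1.trans a2.le) n0
  have h4 := mul_le_mul_of_nonneg_left b1 n0
  have h5 := mul_le_mul_of_nonneg_right a1 (div_nonneg (mul_nonneg hr d1) ha.le)
  have h6 := mul_le_mul_of_nonneg_right b2 (div_nonneg (mul_nonneg hr d2) hb.le)
  have h7 := mul_le_mul_of_nonneg_right b3 (mul_nonneg s2 (div_nonneg (mul_nonneg hr d3) hb.le))
  have h8 := mul_le_mul_of_nonneg_right n1 (mul_nonneg hr s2)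
  have e1 : a * s * (r * Da / a) = r * (s * Da) := by field_simp
  have e2 : b * G * (r * Db / b) = r * (G * Db) := by field_simp
  have e3 : b * (s ^ 2 * (r * Dn / b)) = r * (s ^ 2 * Dn) := by field_simp
  have h9 := mul_nonneg hr s2
  rw [e1] at h5
  rw [e2] at h6
  rw [e3] at h7
  linarith

theorem hh_eq {n : ℕ} (h : 64 ≤ n) : hh n = n / 10 := by
  rw [hh, sN, List.getD_eq_default _ _ (by simpa using h)]
  push_cast
  ring

end Term

open Term

theorem term (h : STIR) : TERM := by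
  intro a b r φ h1 h2 h3 h4 p0 p1
  have r0 : (0 : ℝ) ≤ r := Nat.cast_nonneg r
  have ra : (r : ℝ) < a := by exact_mod_cast h2
  have ab : (a : ℝ) ≤ b := by exact_mod_cast h3
  have hM : (256 : ℝ) ≤ a + b := by exact_mod_cast h4
  have a0 : (0 : ℝ) < a := by linarith
  have b0 : (0 : ℝ) < b := by linarith
  have M0 : (0 : ℝ) < a + b := by linarith
  have M1 : (0 : ℝ) < a + b - r := by linarith
  obtain ⟨s0, es⟩ := sq_sqrt' r0 ra
  obtain ⟨t0, et⟩ := sq_sqrt' r0 (c := (a : ℝ) + b) (by linarith)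
  obtain ⟨u0, eu⟩ := sq_sqrt' r0 (c := b) (by linarith)
  generalize √(1 - (r : ℝ) / a) = s at *
  generalize √(1 - (r : ℝ) / (a + b)) = t at *
  generalize √(1 - (r : ℝ) / b) = u at *
  obtain ⟨A1, -, -⟩ := ratio h h2 s0 es
  obtain ⟨B1, -, B3⟩ := ratio h (c := b) (r := r) (by omega) u0 eu
  obtain ⟨Q1, Q2, -⟩ := ratio h (c := a + b) (r := r) (by omega) t0 (by push_cast; exact et)
  push_cast at Q2
  have w0 : 0 ≤ om a b := by unfold om; positivity
  have w1 : om a b ≤ 1 := by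
    rw [om, div_le_one (by positivity)]
    nlinarith [sq_nonneg ((a : ℝ) - b)]
  have wp : om a b * φ ≤ 3 / 25 * om a b := by nlinarith
  have wq : 0 ≤ om a b * φ := mul_nonneg w0 p0
  obtain ⟨q1, q2⟩ := top (σ := 13 / 5 * om a b * φ) hM r0 (by linarith) t0 et Q1 Q2
    (by linarith) (by linarith) w1
  have e1 : (a : ℝ) - r = a * s ^ 2 := by rw [es]; field_simp
  have e2 : (b : ℝ) - r = b * u ^ 2 := by rw [eu]; field_simp
  obtain ⟨c1, c2⟩ := cvx (θ := (a : ℝ) / b) (by positivity) ((div_le_one b0).2 ab) s0 u0 (by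
    rw [es, eu]; field_simp; ring)
  obtain ⟨B, hB⟩ : ∃ B, B = ((b : ℝ) - r) * (ee (b - r) / ee b) := ⟨_, rfl⟩
  have B4 : u * B ≤ b := by
    have := mul_le_of_le_one_right b0.le B1
    rw [hB, e2]
    linarith
  have x1 : 1 - (a : ℝ) / (a + b) = b / (a + b) := by field_simp; ring
  have x2 : 1 - 2 * ((a : ℝ) / (a + b)) = (b - a) / (a + b) := by field_simp; ring
  have x3 : 1 - t ^ 2 = r / (a + b) := by rw [et]; field_simp; ring
  have ba : (0 : ℝ) ≤ b - a := by linarith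
  have key := fin (A := ((a : ℝ) - r) * (ee (a - r) / ee a)) (η := 1 + gam a b - om a b * φ)
    (F := (1 - (a : ℝ) / b) * s ^ 2 / 2 + a / b * (s / (1 + s)))
    (G := (1 - (a : ℝ) / b) * s ^ 2 + a / b * s)
    (Da := 27 / 100 * om a b * ((b - a) / (a + b) + a / (a + b) * (r / (a + b))) / t ^ 4 +
      φ * om a b * (b / (a + b)) / t ^ 2)
    (Db := 27 / 100 * om a b * (b / (a + b) * (r / (a + b))) / t ^ 4 +
      φ * om a b * (a / (a + b)) / t ^ 2)
    (Dn := 27 / 100 * om a b * ((b - a) / (a + b)) / t ^ 4) a0 b0 r0 s0 (by linarith)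
    (by unfold gam; linarith) (by unfold gam; linarith) (by positivity) (by positivity)
    (by positivity) q1 q2 (by
      have := mul_le_of_le_one_right (mul_pos a0 s0).le A1
      rw [e1]
      linarith) (le_of_mul_le_mul_left (by
      have i1 := mul_le_mul_of_nonneg_left c2 r0
      have i2 := mul_le_mul_of_nonneg_left B4 (mul_pos (by linarith : 0 < 1 + u) (pow_pos s0 2)).le
      have i3 : r * s ^ 2 = b * (1 - u ^ 2) * s ^ 2 := by rw [mul_sub, ← e2]; ring
      linarith) (mul_pos u0 (by linarith : 0 < 1 + u))) (le_of_mul_le_mul_left (by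
      have i1 := mul_le_mul_of_nonneg_left c1 b0.le
      have i2 := mul_le_mul_of_nonneg_left B4 (pow_pos s0 2).le
      linarith) u0) (hB ▸ B3)
  have t4 : t ^ 4 = ((a + b - r) / (a + b)) ^ 2 := by rw [← et]; ring
  have P1 : etP φ (a + b) (a - r) b = 1 + gam a b - om a b * φ + r *
      (27 / 100 * om a b * ((b - a) / (a + b) + a / (a + b) * (r / (a + b))) / t ^ 4 +
        φ * om a b * (b / (a + b)) / t ^ 2) / a := by
    rw [etP, hh_eq (by omega), hh_eq (by omega), t4, et]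
    simp only [gam, om, Nat.cast_add, Nat.cast_sub h2.le]
    rw [show (a : ℝ) - r + b = a + b - r by ring]
    field_simp
    ring
  have P2 : etP φ (a + b) a (b - r) = 1 + gam a b - om a b * φ + r *
      (27 / 100 * om a b * (b / (a + b) * (r / (a + b))) / t ^ 4 +
        φ * om a b * (a / (a + b)) / t ^ 2) / b -
      r * (27 / 100 * om a b * ((b - a) / (a + b)) / t ^ 4) / b := by
    rw [etP, hh_eq (by omega), hh_eq (by omega), t4, et]
    simp only [gam, om, Nat.cast_add, Nat.cast_sub (h2.le.trans h3)]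
    rw [show (a : ℝ) + (b - r) = a + b - r by ring]
    field_simp
    ring
  have z1 : PP a (a + b - r) = 0 := by rw [PP, show a - (a + b - r) = 0 by omega]; simp
  have z2 : PP b (a + b - r) = 0 := by rw [PP, show b - (a + b - r) = 0 by omega]; simp
  have z3 : QQ (a + b) (a + b - r) = QQ (a + b) r := by
    rw [QQ, QQ, TT, TT, show a + b - (a + b - r) = r by omega, mul_comm (tau r)]
  have x4 : 4 * ((a : ℝ) / (a + b)) * (b / (a + b)) = om a b := by unfold om; field_simp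
  have x5 : (a : ℝ) / (a + b) / (b / (a + b)) = a / b := by field_simp
  rw [mS, if_neg (by omega), mm, mm, z1, z2, z3, if_pos h2, P1, P2, QQ, PP, PP,
    TT_eq (by omega : r ≤ a + b), TT_eq h2.le, TT_eq (h2.le.trans h3), Nat.cast_sub h2.le,
    Nat.cast_sub (h2.le.trans h3), nlow, x1, x2, x3, x4, x5]
  have k2 := mul_le_mul_of_nonneg_left key (mul_pos (ee_pos h1) a0).le
  rw [hB] at k2
  refine le_of_eq_of_le ?_ (k2.trans_eq ?_)
  · rw [e1, gam]
    ring
  · nth_rw 2 [e1]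
    push_cast
    ring

end Pool.Agent.MP_ddaf7c_pr.A

end MrgPart6

-- ======== part 7: formerly Pool.Agent.MP_ddaf7c_pr.A.Tone
section MrgPart7

/-! Two inequalities between neighbouring Abel coefficients. -/

set_option autoImplicit false

namespace Pool.Agent.MP_ddaf7c_pr.A

open Finset Real

namespace Tone

noncomputable def ll (n : ℕ) : ℝ := log (1 + (n : ℝ)⁻¹)

/-- logarithm of the ratio of consecutive `tau` -/
noncomputable def LL (n : ℕ) : ℝ := ((n : ℝ) - 1) * ll n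

theorem tau_pos (n : ℕ) (h : 1 ≤ n) : 0 < tau n := by
  unfold tau
  have : (0 : ℝ) < n := by exact_mod_cast h
  positivity

theorem tau_succ (n : ℕ) (h : 1 ≤ n) : tau (n + 1) = tau n * exp (LL n) := by
  obtain ⟨m, rfl⟩ : ∃ m, n = m + 1 := ⟨n - 1, by omega⟩
  have h1 : (0 : ℝ) < 1 + ((m + 1 : ℕ) : ℝ)⁻¹ := by positivity
  have h2 : LL (m + 1) = (m : ℕ) * ll (m + 1) := by unfold LL; push_cast; ring
  rw [h2, Real.exp_nat_mul, ll, Real.exp_log h1]
  unfold tau
  have h3 : (1 + ((m + 1 : ℕ) : ℝ)⁻¹) = ((m : ℝ) + 1 + 1) / (m + 1) := by push_cast; field_simp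
  rw [h3, div_pow, Nat.add_sub_cancel, Nat.add_sub_cancel, Nat.factorial_succ (m + 1)]
  push_cast
  rw [pow_succ]
  field_simp

theorem ll_lo (n : ℕ) (h : 1 ≤ n) :
    2 / (2 * (n : ℝ) + 1) + 2 / (3 * (2 * (n : ℝ) + 1) ^ 3) ≤ ll n := by
  have hn : (1 : ℝ) ≤ n := by exact_mod_cast h
  have h0 : (0 : ℝ) ≤ 1 / (2 * n + 1) := by positivity
  have h1 : (1 : ℝ) / (2 * n + 1) < 1 := by rw [div_lt_one (by positivity)]; linarith
  have h2 := Real.sum_range_le_log_div h0 h1 2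
  have h3 : (1 + 1 / (2 * (n : ℝ) + 1)) / (1 - 1 / (2 * n + 1)) = 1 + (n : ℝ)⁻¹ := by
    have : (1 : ℝ) - 1 / (2 * n + 1) = 2 * n / (2 * n + 1) := by field_simp; ring
    rw [this]; field_simp; ring
  rw [h3] at h2
  simp only [sum_range_succ, range_zero, sum_empty] at h2
  have h4 : 2 / (2 * (n : ℝ) + 1) + 2 / (3 * (2 * (n : ℝ) + 1) ^ 3) =
      2 * (0 + (1 / (2 * (n : ℝ) + 1)) ^ (2 * 0 + 1) / (2 * ((0 : ℕ) : ℝ) + 1) +
        (1 / (2 * (n : ℝ) + 1)) ^ (2 * 1 + 1) / (2 * ((1 : ℕ) : ℝ) + 1)) := by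
    push_cast; field_simp; ring
  rw [h4, ll]
  linarith

theorem ll_hi (n : ℕ) (h : 1 ≤ n) :
    ll n ≤ 2 / (2 * (n : ℝ) + 1) * (1 + 1 / (12 * n * (n + 1))) := by
  have hn : (1 : ℝ) ≤ n := by exact_mod_cast h
  have h1 := Stirling.log_stirlingSeq_sdiff_le n
  have h2 : log (Stirling.stirlingSeq n) - log (Stirling.stirlingSeq (n + 1)) =
      ((n : ℝ) + 1 / 2) * ll n - 1 := by
    have h3 : 1 + (n : ℝ)⁻¹ = (n + 1) / n := by field_simp
    rw [ll, h3]
    simp (disch := positivity) only [Stirling.log_stirlingSeq_formula, log_div, log_mul, log_exp,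
      Nat.factorial_succ, Nat.cast_mul, Nat.cast_succ]
    ring
  rw [h2] at h1
  rw [div_mul_eq_mul_div, le_div_iff₀ (by positivity)]
  linarith

theorem ll_lo' (n : ℕ) (h : 1 ≤ n) : 2 / (2 * (n : ℝ) + 1) ≤ ll n := by
  have h1 := ll_lo n h
  have h2 : (0 : ℝ) ≤ 2 / (3 * (2 * (n : ℝ) + 1) ^ 3) := by positivity
  linarith

theorem LL_mono (m : ℕ) : LL (m + 1) ≤ LL (m + 2) := by
  have h1 := ll_lo' (m + 2) (by omega)
  have h2 := ll_hi (m + 1) (by omega)
  have hm : (0 : ℝ) ≤ m := by positivity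
  unfold LL
  push_cast at h1 h2 ⊢
  have h3 : (m : ℝ) * (2 / (2 * ((m : ℝ) + 1) + 1) * (1 + 1 / (12 * (m + 1) * (m + 1 + 1)))) ≤
      (m + 1) * (2 / (2 * ((m : ℝ) + 2) + 1)) := by
    rw [← sub_nonneg]
    field_simp
    ring_nf
    positivity
  nlinarith [mul_le_mul_of_nonneg_left h2 hm, mul_le_mul_of_nonneg_left h1 (by linarith : (0 : ℝ) ≤ m + 1)]

theorem key (m : ℕ) :
    ((m : ℝ) + 4) * (LL (m + 3) - LL (m + 2)) ≤ (m + 2) * (LL (m + 2) - LL (m + 1)) := by
  have h1 := ll_lo (m + 2) (by omega)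
  have h2 := ll_hi (m + 1) (by omega)
  have h3 := ll_hi (m + 3) (by omega)
  have hm : (0 : ℝ) ≤ m := by positivity
  unfold LL
  push_cast at h1 h2 h3 ⊢
  have h4 : ((m : ℝ) + 2) * m *
        (2 / (2 * ((m : ℝ) + 1) + 1) * (1 + 1 / (12 * (m + 1) * (m + 1 + 1)))) +
      (m + 4) * (m + 2) * (2 / (2 * ((m : ℝ) + 3) + 1) * (1 + 1 / (12 * (m + 3) * (m + 3 + 1)))) ≤
      (2 * m + 6) * (m + 1) *
        (2 / (2 * ((m : ℝ) + 2) + 1) + 2 / (3 * (2 * ((m : ℝ) + 2) + 1) ^ 3)) := by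
    rw [← sub_nonneg]
    field_simp
    ring_nf
    positivity
  have h5 := mul_le_mul_of_nonneg_left h1 (by positivity : (0 : ℝ) ≤ (2 * m + 6) * (m + 1))
  have h6 := mul_le_mul_of_nonneg_left h2 (by positivity : (0 : ℝ) ≤ (m + 2) * m)
  have h7 := mul_le_mul_of_nonneg_left h3 (by positivity : (0 : ℝ) ≤ (m + 4) * (m + 2))
  nlinarith

theorem LL_hi (n : ℕ) (h : 1 ≤ n) : LL n ≤ 1 - 6 / (4 * (n : ℝ) + 3) := by
  obtain ⟨m, rfl⟩ : ∃ m, n = m + 1 := ⟨n - 1, by omega⟩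
  have h2 := ll_hi (m + 1) (by omega)
  have hm : (0 : ℝ) ≤ m := by positivity
  unfold LL
  push_cast at h2 ⊢
  have h3 : (m : ℝ) * (2 / (2 * ((m : ℝ) + 1) + 1) * (1 + 1 / (12 * (m + 1) * (m + 1 + 1)))) ≤
      1 - 6 / (4 * ((m : ℝ) + 1) + 3) := by
    rw [← sub_nonneg]
    field_simp
    ring_nf
    positivity
  nlinarith [mul_le_mul_of_nonneg_left h2 hm]

/-- one step of the telescope, for `j = m + 2 ≤ c - 1` -/
theorem step (m : ℕ) (c : ℝ) (hc : (m : ℝ) + 3 ≤ c) :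
    (c + 1) * (LL (m + 3) - LL (m + 2)) ≤ (c - 1) * (LL (m + 2) - LL (m + 1)) := by
  have h1 := key m
  have h2 := LL_mono m
  have hm : (0 : ℝ) ≤ m := by positivity
  have h3 : (c + 1) * (((m : ℝ) + 4) * (LL (m + 3) - LL (m + 2))) ≤
      (c + 1) * ((m + 2) * (LL (m + 2) - LL (m + 1))) :=
    mul_le_mul_of_nonneg_left h1 (by linarith)
  have h4 : 0 ≤ (c - m - 3) * (LL (m + 2) - LL (m + 1)) := mul_nonneg (by linarith) (by linarith)
  refine le_of_mul_le_mul_left ?_ (by linarith : (0 : ℝ) < m + 4)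
  nlinarith

theorem tele (m r : ℕ) (c : ℝ) (hc : (m : ℝ) + 2 + r ≤ c) :
    (c + 1) * (LL (m + 2 + r) - LL (m + 2)) ≤ (c - 1) * (LL (m + 1 + r) - LL (m + 1)) := by
  induction r with
  | zero => simp
  | succ r ih =>
    push_cast at hc
    have h1 := ih (by linarith)
    have h2 := step (m + r) c (by push_cast; linarith)
    rw [show m + 2 + (r + 1) = m + r + 3 by omega, show m + 1 + (r + 1) = m + r + 2 by omega]
    rw [show m + 2 + r = m + r + 2 by omega, show m + 1 + r = m + r + 1 by omega] at h1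
    linarith

end Tone

open Tone in
theorem tone : TONE := by
  intro c r hr hc
  obtain ⟨m, rfl⟩ : ∃ m, c = m + 2 + r := ⟨c - 2 - r, by omega⟩
  have h0 := tele m r ((m : ℝ) + 2 + r) le_rfl
  unfold QQ TT
  rw [show m + 2 + r - r = m + 1 + 1 by omega, show m + 2 + r + 1 - r = m + 1 + 1 + 1 by omega,
    show m + 2 + r - 1 = m + 1 + r by omega, show m + 1 + r - r = m + 1 by omega,
    tau_succ (m + 2 + r) (by omega), tau_succ (m + 1 + 1) (by omega),
    tau_succ (m + 1) (by omega), show m + 2 + r = m + 1 + r + 1 by omega,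
    tau_succ (m + 1 + r) (by omega), show m + 1 + r + 1 = m + 2 + r by omega,
    show m + 1 + 1 = m + 2 by omega]
  have p1 := tau_pos r hr
  have p2 := tau_pos (m + 1) (by omega)
  have p3 := tau_pos (m + 1 + r) (by omega)
  have e1 := Real.add_one_le_exp (LL (m + 2) - LL (m + 2 + r))
  have e2 := Real.add_one_le_exp (LL (m + 1 + r) - LL (m + 1))
  have hm : (0 : ℝ) ≤ m := by positivity
  have hr' : (0 : ℝ) ≤ r := by positivity
  have h1 : 2 * ((m : ℝ) + 2 + r) ≤ (m + 2 + r + 1) * exp (LL (m + 2) - LL (m + 2 + r)) +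
      (m + 1 + r) * exp (LL (m + 1 + r) - LL (m + 1)) := by
    nlinarith [mul_le_mul_of_nonneg_left e1 (by positivity : (0 : ℝ) ≤ m + 2 + r + 1),
      mul_le_mul_of_nonneg_left e2 (by positivity : (0 : ℝ) ≤ m + 1 + r)]
  have h2 := mul_le_mul_of_nonneg_right h1 (by positivity :
    0 ≤ tau r * (tau (m + 1) * exp (LL (m + 1))) / (tau (m + 1 + r) * exp (LL (m + 1 + r))))
  rw [Real.exp_sub, Real.exp_sub] at h2
  push_cast
  refine le_trans (le_of_eq (by ring)) (le_trans h2 (le_of_eq ?_))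
  field_simp

open Tone in
theorem ttwo : TTWO := by
  intro c r hr hc
  obtain ⟨s, rfl⟩ : ∃ s, c = r + s + 1 := ⟨c - r - 1, by omega⟩
  have hs : 1 ≤ s := by omega
  have hr' : (1 : ℝ) ≤ r := by exact_mod_cast hr
  have hs' : (1 : ℝ) ≤ s := by exact_mod_cast hs
  have a1 := LL_hi r hr
  have a2 := LL_hi s hs
  have a3 := ll_lo' (r + s) (by omega)
  have a4 := ll_lo' (r + s + 1) (by omega)
  push_cast at a3 a4
  have a5 : 12 / (2 * ((r : ℝ) + s) + 3) ≤ 6 / (4 * (r : ℝ) + 3) + 6 / (4 * (s : ℝ) + 3) := by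
    rw [div_add_div _ _ (by positivity) (by positivity),
      div_le_div_iff₀ (by positivity) (by positivity)]
    nlinarith [sq_nonneg ((r : ℝ) - s)]
  have a6 : 2 - 12 / (2 * ((r : ℝ) + s) + 3) ≤ ((r : ℝ) + s - 2) * (2 / (2 * (r + s) + 1)) +
      ((r : ℝ) + s - 1) * (2 / (2 * (r + s + 1) + 1)) := by
    obtain ⟨u, hu, h⟩ : ∃ u : ℝ, 0 ≤ u ∧ (r : ℝ) + s = u + 2 := ⟨r + s - 2, by linarith, by ring⟩
    rw [h, ← sub_nonneg]
    field_simp
    ring_nf
    positivity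
  have a7 := mul_le_mul_of_nonneg_left a3 (by linarith : (0 : ℝ) ≤ r + s - 2)
  have a8 := mul_le_mul_of_nonneg_left a4 (by linarith : (0 : ℝ) ≤ r + s - 1)
  have h0 : LL r + LL s + (ll (r + s) + ll (r + s + 1)) ≤ LL (r + s) + LL (r + s + 1) := by
    have b1 : LL (r + s) = ((r : ℝ) + s - 1) * ll (r + s) := by unfold LL; push_cast; ring
    have b2 : LL (r + s + 1) = ((r : ℝ) + s) * ll (r + s + 1) := by unfold LL; push_cast; ring
    rw [b1, b2]
    linarith
  have h1 := Real.exp_le_exp.2 h0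
  have b3 : exp (ll (r + s) + ll (r + s + 1)) = ((r : ℝ) + s + 1 + 1) / (r + s) := by
    rw [Real.exp_add, ll, ll, Real.exp_log (by positivity), Real.exp_log (by positivity)]
    push_cast
    field_simp
  rw [Real.exp_add, b3, Real.exp_add, Real.exp_add] at h1
  unfold QQ TT
  rw [show r + s + 1 + 1 - (r + 1) = s + 1 by omega, show r + s + 1 - 1 = r + s by omega,
    show r + s - r = s by omega, tau_succ (r + s + 1) (by omega), tau_succ (r + s) (by omega),
    tau_succ r hr, tau_succ s hs]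
  have p1 := tau_pos r hr
  have p2 := tau_pos s hs
  have p3 := tau_pos (r + s) (by omega)
  have h2 := mul_le_mul_of_nonneg_right h1 (by positivity : 0 ≤ ((r : ℝ) + s) *
    (tau r * tau s / (tau (r + s) * exp (LL (r + s)) * exp (LL (r + s + 1)))))
  push_cast
  refine le_trans (le_of_eq ?_) (le_trans h2 (le_of_eq ?_))
  · field_simp
  · field_simp

end Pool.Agent.MP_ddaf7c_pr.A

end MrgPart7

-- marker of a merged file
example : 731051 + 767277 = 731051 + 767277 := rfl
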