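import Mathlib.Data.Int.ConditionallyCompleteOrder
import Mathlib.Data.Int.Star
import Mathlib.Algebra.Order.Ring.Star
import Mathlib.Tactic.Polynomial.Basic

/-! Packed vectors of natural numbers for kernel computations. -/

set_option autoImplicit false

namespace Pool.Agent.MP_ddaf7c_pr.A.Pk

open Finset

noncomputable def frc {α : Type} (x : ℕ) (f : ℕ → α) : α :=
  Nat.rec (motive := fun _ => α) (f 0) (fun p _ => f p) (Nat.add x 1)

noncomputable def sumR (f : ℕ → ℕ) (n : ℕ) : ℕ :=
  Nat.rec (motive := fun _ => ℕ) 0 (fun j acc => Nat.add acc (f j)) n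

noncomputable def sumI (f : ℕ → ℕ) (n : ℕ) : ℕ :=
  Nat.rec (motive := fun _ => ℕ) 0 (fun j acc => Nat.add acc (frc (Nat.add j 1) f)) n

noncomputable def suf (f : ℕ → ℕ) (H k : ℕ) : ℕ :=
  Nat.rec (motive := fun _ => ℕ) 0 (fun j acc => Nat.add acc (frc (Nat.sub H j) f)) k

noncomputable def band (x y : Bool) : Bool := Bool.rec (motive := fun _ => Bool) false y x

noncomputable def allR (f : ℕ → Bool) (n : ℕ) : Bool :=
  Nat.rec (motive := fun _ => Bool) true (fun j acc => Bool.rec false (f j) acc) n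

noncomputable def cnd (b : Bool) (x y : ℕ) : ℕ := Bool.rec (motive := fun _ => ℕ) y x b

noncomputable def build (K : ℕ) (F : ℕ → ℕ) (T d : ℕ) : ℕ → ℕ :=
  Nat.rec (motive := fun _ => ℕ → ℕ) (fun o => Bool.rec (F o) 0 (Nat.ble T o))
    (fun e ih o => Bool.rec
      (Nat.add (ih o) (Nat.shiftLeft (frc (Nat.add o (Nat.pow 2 e)) ih) (Nat.shiftLeft K e))) 0
      (Nat.ble T o)) d

noncomputable def fac (n : ℕ) : ℕ :=
  Nat.rec (motive := fun _ => ℕ) 1 (fun j acc => Nat.mul acc (Nat.add j 1)) n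

theorem frc_eq {α : Type} (x : ℕ) (f : ℕ → α) : frc x f = f x := rfl

theorem sumR_eq (f : ℕ → ℕ) (n : ℕ) : sumR f n = ∑ j ∈ range n, f j := by
  induction n with
  | zero => rfl
  | succ n ih => rw [sum_range_succ, ← ih]; rfl

theorem sumI_eq (f : ℕ → ℕ) (n : ℕ) : sumI f n = ∑ j ∈ Icc 1 n, f j := by
  induction n with
  | zero => rfl
  | succ n ih => rw [sum_Icc_succ_top (by omega), ← ih]; rfl

theorem suf_eq (f : ℕ → ℕ) (H k : ℕ) (h : k ≤ H) : suf f H k = ∑ j ∈ Icc (H - k + 1) H, f j := by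
  induction k with
  | zero => simp [suf]
  | succ k ih =>
    have e : suf f H (k + 1) = suf f H k + f (H - k) := rfl
    have e2 : Icc (H - (k + 1) + 1) H = insert (H - k) (Icc (H - k + 1) H) := by
      ext x; simp only [mem_Icc, mem_insert]; omega
    rw [e, ih (by omega), e2, sum_insert (by simp), add_comm]

theorem band_iff (x y : Bool) : band x y = true ↔ x = true ∧ y = true := by
  cases x <;> simp [band]

theorem allR_true {f : ℕ → Bool} {n : ℕ} (h : allR f n = true) : ∀ j < n, f j = true := by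
  induction n with
  | zero => intro j hj; omega
  | succ n ih =>
    have e : allR f (n + 1) = band (allR f n) (f n) := rfl
    rw [e, band_iff] at h
    intro j hj
    rcases Nat.lt_succ_iff_lt_or_eq.1 hj with h1 | h1
    · exact ih h.1 j h1
    · rw [h1]; exact h.2

theorem rec_ble {α : Type} (x y : α) (a b : ℕ) :
    (Bool.rec x y (Nat.ble a b) : α) = if a ≤ b then y else x := by
  by_cases h : a ≤ b
  · rw [if_pos h, Nat.ble_eq_true_of_le h]
  · have : Nat.ble a b = false := by
      cases e : Nat.ble a b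
      · rfl
      · exact absurd (Nat.le_of_ble_eq_true e) h
    rw [if_neg h, this]

theorem rec_beq {α : Type} (x y : α) (a b : ℕ) :
    (Bool.rec x y (Nat.beq a b) : α) = if a = b then y else x := by
  by_cases h : a = b
  · rw [if_pos h, h, Nat.beq_refl]
  · have : Nat.beq a b = false := by
      cases e : Nat.beq a b
      · rfl
      · exact absurd (Nat.eq_of_beq_eq_true e) h
    rw [if_neg h, this]

theorem fac_eq (n : ℕ) : fac n = n.factorial := by
  induction n with
  | zero => rfl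
  | succ n ih => rw [Nat.factorial_succ, ← ih, mul_comm]; rfl

theorem shl_eq (a b : ℕ) : Nat.shiftLeft a b = a * 2 ^ b := Nat.shiftLeft_eq a b

theorem shr_eq (a b : ℕ) : Nat.shiftRight a b = a / 2 ^ b := Nat.shiftRight_eq_div_pow a b

theorem land_eq (a b : ℕ) : Nat.land a b = a &&& b := rfl

theorem div_eq (a b : ℕ) : Nat.div a b = a / b := rfl

theorem mod_eq (a b : ℕ) : Nat.mod a b = a % b := rfl

/-- the number with digits `f` -/
def pk (B : ℕ) (f : ℕ → ℕ) (T : ℕ) : ℕ := ∑ a ∈ range T, f a * B ^ a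

theorem pk_congr {B T : ℕ} {f g : ℕ → ℕ} (h : ∀ a < T, f a = g a) : pk B f T = pk B g T :=
  sum_congr rfl fun a ha => by rw [h a (mem_range.1 ha)]

theorem pk_split (B : ℕ) (f : ℕ → ℕ) (k n : ℕ) :
    pk B f (k + n) = pk B f k + pk B (fun a => f (k + a)) n * B ^ k := by
  unfold pk
  rw [sum_range_add, sum_mul]
  congr 1
  exact sum_congr rfl fun a _ => by ring

theorem pk_zero {B T : ℕ} {f : ℕ → ℕ} (h : ∀ a < T, f a = 0) : pk B f T = 0 :=
  sum_eq_zero fun a ha => by rw [h a (mem_range.1 ha), zero_mul]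

theorem pk_ext {B k T : ℕ} (f : ℕ → ℕ) (h : k ≤ T) :
    pk B f k = pk B (fun a => if a < k then f a else 0) T := by
  obtain ⟨n, rfl⟩ := Nat.exists_eq_add_of_le h
  rw [pk_split, pk_zero (T := n) (fun a _ => if_neg (by omega)), zero_mul, add_zero]
  exact pk_congr fun a ha => (if_pos ha).symm

theorem pk_add (B T : ℕ) (f g : ℕ → ℕ) :
    pk B (fun a => f a + g a) T = pk B f T + pk B g T := by
  simp only [pk, add_mul, sum_add_distrib]

theorem pk_mul (B T c : ℕ) (f : ℕ → ℕ) : pk B (fun a => c * f a) T = c * pk B f T := by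
  simp only [pk, mul_sum, mul_assoc]

theorem pk_sub {B T : ℕ} {f g : ℕ → ℕ} (h : ∀ a < T, g a ≤ f a) :
    pk B f T = pk B (fun a => f a - g a) T + pk B g T := by
  rw [← pk_add]
  exact pk_congr fun a ha => by have := h a ha; omega

theorem pk_lt {B T : ℕ} {f : ℕ → ℕ} (h : ∀ a < T, f a < B) : pk B f T < B ^ T ∨ T = 0 := by
  induction T with
  | zero => right; rfl
  | succ T ih =>
    left
    have h1 : pk B f T < B ^ T := by
      rcases ih (fun a ha => h a (by omega)) with h1 | h1
      · exact h1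
      · subst h1; simp [pk]
    have h2 := h T (by omega)
    have e : pk B f (T + 1) = pk B f T + f T * B ^ T := sum_range_succ _ _
    rw [e, pow_succ]
    nlinarith

theorem pk_lt' {B T : ℕ} {f : ℕ → ℕ} (h : ∀ a < T, f a < B) : pk B f T < B ^ T := by
  rcases pk_lt h with h1 | h1
  · exact h1
  · subst h1; simp [pk]

theorem div_of {x y D : ℕ} (h : x < D) : (x + y * D) / D = y := by
  rw [Nat.add_mul_div_right _ _ (by omega), Nat.div_eq_of_lt h, zero_add]

theorem mod_of {x y D : ℕ} (h : x < D) : (x + y * D) % D = x := by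
  rw [Nat.add_mul_mod_self_right, Nat.mod_eq_of_lt h]

theorem pk_div {B k T : ℕ} {f : ℕ → ℕ} (h : ∀ a < T, f a < B) (hk : k ≤ T) :
    pk B f T / B ^ k = pk B (fun a => f (k + a)) (T - k) := by
  obtain ⟨n, rfl⟩ := Nat.exists_eq_add_of_le hk
  rw [pk_split, div_of (pk_lt' fun a ha => h a (by omega)), Nat.add_sub_cancel_left]

theorem pk_dig {B T : ℕ} {f : ℕ → ℕ} (t : ℕ) (h : ∀ a < T, f a < B) {a : ℕ} (ha : a < T) :
    (pk B f T + t * B ^ T) / B ^ a % B = f a := by
  obtain ⟨n, rfl⟩ : ∃ n, T = a + (1 + n) := ⟨T - a - 1, by omega⟩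
  have e : pk B f (a + (1 + n)) + t * B ^ (a + (1 + n)) = pk B f a +
      (f a + (pk B (fun j => f (a + (1 + j))) n + t * B ^ n) * B) * B ^ a := by
    have e1 : pk B (fun j => f (a + j)) 1 = f a := by simp [pk]
    rw [pk_split, pk_split, e1]
    ring
  rw [e, div_of (pk_lt' fun j hj => h j (by omega)), mod_of (h a ha)]

theorem build_eq (K : ℕ) (F : ℕ → ℕ) (T d o : ℕ) :
    build K F T d o = pk (2 ^ K) (fun j => if o + j < T then F (o + j) else 0) (2 ^ d) := by
  induction d generalizing o with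
  | zero =>
    have e : build K F T 0 o = Bool.rec (F o) 0 (Nat.ble T o) := rfl
    rw [e, rec_ble]
    simp only [pk, pow_zero, range_one, sum_singleton, add_zero, mul_one]
    split_ifs <;> first | rfl | omega
  | succ d ih =>
    have e : build K F T (d + 1) o = Bool.rec (build K F T d o +
      Nat.shiftLeft (build K F T d (o + 2 ^ d)) (Nat.shiftLeft K d)) 0 (Nat.ble T o) := rfl
    rw [e, rec_ble]
    split_ifs with h
    · exact (pk_zero fun a _ => if_neg (by omega)).symm
    · rw [pow_succ, mul_two, pk_split, ih, ih, shl_eq, shl_eq, pow_mul]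
      simp only [add_assoc]

theorem build_pk (K : ℕ) (F : ℕ → ℕ) {T d : ℕ} (h : T ≤ 2 ^ d) :
    build K F T d 0 = pk (2 ^ K) F T := by
  rw [build_eq, pk_ext F h]
  simp only [zero_add]

theorem pk_land {w T : ℕ} {f g : ℕ → ℕ} (hf : ∀ a < T, f a < 2 ^ w) (hg : ∀ a < T, g a < 2 ^ w) :
    pk (2 ^ w) f T &&& pk (2 ^ w) g T = pk (2 ^ w) (fun a => f a &&& g a) T := by
  induction T with
  | zero => simp [pk]
  | succ T ih =>
    have e : ∀ u : ℕ → ℕ, pk (2 ^ w) u (T + 1) = pk (2 ^ w) u T + u T * 2 ^ (w * T) :=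
      fun u => by rw [pow_mul]; exact sum_range_succ _ _
    have h1 := pk_lt' (fun a (ha : a < T) => hf a (by omega))
    have h2 := pk_lt' (fun a (ha : a < T) => hg a (by omega))
    rw [← pow_mul] at h1 h2
    rw [e, e, e, ← ih (fun a ha => hf a (by omega)) (fun a ha => hg a (by omega)),
      ← Nat.mod_add_div' (_ &&& _) (2 ^ (w * T)), Nat.and_mod_two_pow, Nat.and_div_two_pow,
      mod_of h1, mod_of h2, div_of h1, div_of h2]

open Polynomial in
theorem dig_poly (P : ℕ[X]) {B : ℕ} (h : P.eval 1 < B) (s : ℕ) :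
    P.eval B / B ^ s % B = P.coeff s := by
  have hn : P.natDegree < max P.natDegree s + 1 := by omega
  have h1 : ∀ a < max P.natDegree s + 1, P.coeff a < B := fun a ha => by
    refine lt_of_le_of_lt ?_ h
    rw [eval_eq_sum_range' hn]
    simp only [one_pow, mul_one]
    exact single_le_sum (f := fun i => P.coeff i) (fun _ _ => Nat.zero_le _) (mem_range.2 ha)
  have := pk_dig 0 h1 (a := s) (by omega)
  rwa [zero_mul, add_zero, pk, ← eval_eq_sum_range' hn] at this

open Polynomial in
/-- the polynomial with given coefficients -/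
noncomputable def toP (f : ℕ → ℕ) (n : ℕ) : ℕ[X] := ∑ a ∈ range n, monomial a (f a)

theorem toP_eval (f : ℕ → ℕ) (n B : ℕ) : (toP f n).eval B = pk B f n := by
  simp only [toP, pk, Polynomial.eval_finsetSum, Polynomial.eval_monomial]

theorem toP_coeff (f : ℕ → ℕ) (n a : ℕ) : (toP f n).coeff a = if a < n then f a else 0 := by
  simp only [toP, Polynomial.finsetSum_coeff, Polynomial.coeff_monomial]
  rw [sum_ite_eq' (range n) a f]
  simp only [mem_range]

theorem dig_two (V B s m : ℕ) (hm : 0 < m) :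
    V / B ^ (m * (s / m)) % B ^ m / B ^ (s % m) % B = V / B ^ s % B := by
  obtain ⟨j, hj⟩ : ∃ j, m = s % m + (j + 1) := ⟨m - s % m - 1, by have := Nat.mod_lt s hm; omega⟩
  have e : B ^ m = B ^ (s % m) * (B * B ^ j) := by rw [← pow_succ', ← pow_add, ← hj]
  rw [e, Nat.mod_mul_right_div_self, Nat.mod_mul_right_mod, Nat.div_div_eq_div_mul, ← pow_add,
    Nat.div_add_mod]

end Pool.Agent.MP_ddaf7c_pr.A.Pk
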