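import Mathlib.Tactic.Monotonicity.Lemmas
import Mathlib.Algebra.Order.Archimedean.Real.Basic
import Pool.Agent.MP_ddaf7c_pr.A.Pk

/-! Packed vectors with a top lane that bounds all lanes; one-sided real semantics. -/

set_option autoImplicit false

namespace Pool.Agent.MP_ddaf7c_pr.A.Pk

open Finset

def msk (k : ℕ) : ℕ := Nat.sub (Nat.pow 2 (Nat.mul 128 k)) 1
def top (v T : ℕ) : ℕ := Nat.shiftLeft v (Nat.mul 128 T)
noncomputable def one (T : ℕ) : ℕ := build 128 (fun _ => 1) T 8 0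
noncomputable def ones (T : ℕ) : ℕ := Nat.add (one T) (top 1 T)
def fit (T b x : ℕ) : Bool := Nat.ble (Nat.shiftRight x (Nat.add (Nat.mul 128 T) b)) 0
def hi (k P : ℕ) : ℕ := Nat.shiftLeft (Nat.shiftRight P (Nat.mul 128 k)) (Nat.mul 128 k)
def mrg (T k P Q : ℕ) : ℕ :=
  Nat.add (Nat.add (Nat.shiftLeft (Nat.shiftRight P (Nat.mul 128 k)) (Nat.mul 128 k))
    (Nat.land Q (msk k))) (Nat.shiftLeft (Nat.shiftRight Q (Nat.mul 128 T)) (Nat.mul 128 T))
noncomputable def hb (T : ℕ) : ℕ := Nat.shiftLeft (ones T) 127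
noncomputable def vm (H : ℕ) : ℕ := Nat.shiftLeft (one H) 255
noncomputable def chk (T H P N : ℕ) : Bool :=
  Nat.beq (Nat.land (Nat.sub (Nat.add P (hb T)) N) (vm H)) (vm H)

noncomputable def bm (g : ℕ → ℕ) (T b : ℕ) : ℕ :=
  build 128 (fun l => Nat.mul (Nat.land (Nat.shiftRight (g l) b) 1) (msk 1)) T 8 0

noncomputable def mI (g : ℕ → ℕ) (T n : ℕ) : ℕ :=
  sumR (fun b => Nat.shiftLeft (Nat.land n (bm g T b)) b) 8

noncomputable def ww (f g : ℕ → ℕ) (T H i : ℕ) : ℕ :=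
  Nat.rec (motive := fun _ => ℕ) 0
    (fun j acc => Nat.add acc (mrg T (Nat.add j 1) (sumI f j) (suf g H (Nat.sub H j)))) i

noncomputable def run (f g f' g' : ℕ → ℕ) (T H : ℕ) : Bool :=
  band (allR (fun i => chk T H (ww f g T H i) (ww f' g' T H i)) (Nat.add H 1))
    (band (fit T 127 (ww f g T H H)) (fit T 127 (ww f' g' T H H)))

/-- the lane base -/
def Y : ℕ := 2 ^ 128

theorem Y_pow (k : ℕ) : 2 ^ (128 * k) = Y ^ k := pow_mul 2 128 k

theorem Y_pos : 0 < Y := Nat.two_pow_pos 128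

theorem top_eq (v T : ℕ) : top v T = v * Y ^ T := by rw [top, shl_eq, Nat.mul_eq, Y_pow]

theorem land_msk (x k : ℕ) : Nat.land x (msk k) = x % Y ^ k := by
  rw [← Y_pow]; exact Nat.and_two_pow_sub_one_eq_mod x _

theorem hi_eq (k P : ℕ) : hi k P = P / Y ^ k * Y ^ k := by
  rw [hi, shl_eq, shr_eq, Nat.mul_eq, Y_pow]

theorem mrg_eq (T k P Q : ℕ) : mrg T k P Q = hi k P + (Q % Y ^ k + hi T Q) := by
  rw [← land_msk, ← add_assoc]; rfl

theorem fit_lt {T b x : ℕ} (h : fit T b x = true) : x < 2 ^ b * Y ^ T := by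
  have h1 := Nat.le_of_ble_eq_true h
  rw [shr_eq, Nat.add_eq, Nat.mul_eq, Nat.le_zero, Nat.div_eq_zero_iff, pow_add, Y_pow] at h1
  rcases h1 with h1 | h1
  · exact absurd h1 (by have := Y_pos; positivity)
  · rwa [mul_comm]

theorem hi_lt {k T P : ℕ} (hk : k ≤ T) (h : hi k P < Y ^ T) : P < Y ^ T := by
  obtain ⟨n, rfl⟩ := Nat.exists_eq_add_of_le hk
  have h0 : 0 < Y ^ k := pow_pos Y_pos k
  rw [hi_eq, pow_add, mul_comm (Y ^ k)] at h
  rw [pow_add, mul_comm, ← Nat.div_lt_iff_lt_mul h0]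
  exact Nat.lt_of_mul_lt_mul_right h

def Rep (T n : ℕ) (f : ℕ → ℕ) : Prop := ∃ t, n = pk Y f T + t * Y ^ T ∧ ∀ a < T, f a ≤ t

theorem Rep.lt {T n B : ℕ} {f : ℕ → ℕ} (h : Rep T n f) (hn : n < B * Y ^ T) :
    ∀ a < T, f a < B := by
  obtain ⟨t, rfl, ht⟩ := h
  intro a ha
  exact lt_of_le_of_lt (ht a ha) (Nat.lt_of_mul_lt_mul_right (a := Y ^ T) (by omega))

theorem Rep.add {T n m : ℕ} {f g : ℕ → ℕ} (h : Rep T n f) (h' : Rep T m g) :
    Rep T (n + m) fun a => f a + g a := by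
  obtain ⟨t, rfl, ht⟩ := h
  obtain ⟨u, rfl, hu⟩ := h'
  exact ⟨t + u, by rw [pk_add]; ring, fun a ha => Nat.add_le_add (ht a ha) (hu a ha)⟩

theorem Rep.mul {T n : ℕ} {f : ℕ → ℕ} (c : ℕ) (h : Rep T n f) :
    Rep T (c * n) fun a => c * f a := by
  obtain ⟨t, rfl, ht⟩ := h
  exact ⟨c * t, by rw [pk_mul]; ring, fun a ha => Nat.mul_le_mul_left c (ht a ha)⟩

theorem Rep.sub {T n : ℕ} {f g : ℕ → ℕ} (h : Rep T n f) (hg : ∀ a < T, g a ≤ f a) :
    Rep T (n - pk Y g T) fun a => f a - g a := by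
  obtain ⟨t, rfl, ht⟩ := h
  exact ⟨t, by rw [pk_sub hg]; omega, fun a ha => (Nat.sub_le _ _).trans (ht a ha)⟩

theorem Rep.zero (T : ℕ) : Rep T 0 fun _ => 0 :=
  ⟨0, by rw [pk_zero fun _ _ => rfl, zero_mul, zero_add], fun _ _ => le_rfl⟩

theorem Rep.split {T n k : ℕ} {f : ℕ → ℕ} (h : Rep T n f) (hn : n < Y ^ (T + 1)) (hk : k ≤ T) :
    ∃ t, (∀ a < T, f a ≤ t) ∧ hi T n = t * Y ^ T ∧
      n % Y ^ k = pk Y (fun a => if a < k then f a else 0) T ∧
      hi k n = pk Y (fun a => if k ≤ a then f a else 0) T + t * Y ^ T := by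
  have hl := h.lt (B := Y) (by rwa [pow_succ'] at hn)
  obtain ⟨t, rfl, ht⟩ := h
  have e0 : (pk Y f T + t * Y ^ T) % Y ^ k = pk Y f k := by
    obtain ⟨j, rfl⟩ := Nat.exists_eq_add_of_le hk
    have e : pk Y f (k + j) + t * Y ^ (k + j) =
        pk Y f k + (pk Y (fun a => f (k + a)) j + t * Y ^ j) * Y ^ k := by rw [pk_split]; ring
    rw [e, mod_of (pk_lt' fun a ha => hl a (by omega))]
  rw [pk_ext f hk] at e0
  refine ⟨t, ht, by rw [hi_eq, div_of (pk_lt' hl)], e0, ?_⟩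
  have e1 := Nat.mod_add_div' (pk Y f T + t * Y ^ T) (Y ^ k)
  have e2 : pk Y f T = pk Y (fun a => if a < k then f a else 0) T +
      pk Y (fun a => if k ≤ a then f a else 0) T := by
    rw [← pk_add]
    exact pk_congr fun a _ => by split_ifs <;> omega
  rw [hi_eq]; omega

theorem Rep.mrg {T n m k : ℕ} {f g : ℕ → ℕ} (h : Rep T n f) (h' : Rep T m g)
    (hn : n < Y ^ (T + 1)) (hm : m < Y ^ (T + 1)) (hk : k ≤ T) :
    Rep T (mrg T k n m) fun a => if k ≤ a then f a else g a := by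
  obtain ⟨t, h1, -, -, h2⟩ := h.split hn hk
  obtain ⟨u, h3, h4, h5, -⟩ := h'.split hm hk
  refine ⟨t + u, ?_, fun a ha => ?_⟩
  · have e : pk Y (fun a => if k ≤ a then f a else g a) T =
        pk Y (fun a => if k ≤ a then f a else 0) T + pk Y (fun a => if a < k then g a else 0) T := by
      rw [← pk_add]
      exact pk_congr fun a _ => by split_ifs <;> omega
    rw [mrg_eq, h2, h4, h5, e]; ring
  · have := h1 a ha; have := h3 a ha
    show (if k ≤ a then f a else g a) ≤ t + u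
    split_ifs <;> omega

theorem mrg_lt {T k n m : ℕ} (hk : k ≤ T) (h : mrg T k n m < Y ^ (T + 1)) :
    n < Y ^ (T + 1) ∧ m < Y ^ (T + 1) := by
  rw [mrg_eq] at h
  generalize m % Y ^ k = z at h
  exact ⟨hi_lt (k := k) (by omega) (by omega), hi_lt (k := T) (by omega) (by omega)⟩

def Lo (T : ℕ) (A : ℕ → Prop) (n : ℕ) (g : ℕ → ℝ) : Prop :=
  (∀ a, A a → 0 ≤ g a) ∧ (n < Y ^ (T + 1) → ∃ f, Rep T n f ∧ ∀ a, A a → (f a : ℝ) ≤ g a)

def Up (T : ℕ) (A : ℕ → Prop) (n : ℕ) (g : ℕ → ℝ) : Prop :=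
  n < Y ^ (T + 1) → ∃ f, Rep T n f ∧ ∀ a, A a → g a ≤ f a

variable {T n m c k : ℕ} {A A' : ℕ → Prop} {g g' : ℕ → ℝ} {γ : ℝ}

theorem Lo.of {f : ℕ → ℕ} (h : Rep T n f) (h1 : ∀ a, A a → (f a : ℝ) ≤ g a) : Lo T A n g :=
  ⟨fun a ha => (Nat.cast_nonneg _).trans (h1 a ha), fun _ => ⟨f, h, h1⟩⟩

theorem Up.of {f : ℕ → ℕ} (h : Rep T n f) (h1 : ∀ a, A a → g a ≤ f a) : Up T A n g :=
  fun _ => ⟨f, h, h1⟩

theorem Lo.mono (h : Lo T A n g) (h1 : ∀ a, A' a → A a ∧ g a ≤ g' a) : Lo T A' n g' :=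
  ⟨fun a ha => (h.1 a (h1 a ha).1).trans (h1 a ha).2, fun hn => by
    obtain ⟨f, h2, h3⟩ := h.2 hn
    exact ⟨f, h2, fun a ha => (h3 a (h1 a ha).1).trans (h1 a ha).2⟩⟩

theorem Up.mono (h : Up T A n g) (h1 : ∀ a, A' a → A a ∧ g' a ≤ g a) : Up T A' n g' := fun hn => by
  obtain ⟨f, h2, h3⟩ := h hn
  exact ⟨f, h2, fun a ha => (h1 a ha).2.trans (h3 a (h1 a ha).1)⟩

theorem Lo.add (h : Lo T A n g) (h' : Lo T A m g') : Lo T A (Nat.add n m) fun a => g a + g' a :=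
  ⟨fun a ha => add_nonneg (h.1 a ha) (h'.1 a ha), fun hn => by
    rw [Nat.add_eq] at hn
    obtain ⟨f, h1, h2⟩ := h.2 (by omega)
    obtain ⟨f', h3, h4⟩ := h'.2 (by omega)
    exact ⟨_, h1.add h3, fun a ha => by push_cast; exact add_le_add (h2 a ha) (h4 a ha)⟩⟩

theorem Up.add (h : Up T A n g) (h' : Up T A m g') :
    Up T A (Nat.add n m) fun a => g a + g' a := fun hn => by
  rw [Nat.add_eq] at hn
  obtain ⟨f, h1, h2⟩ := h (by omega)
  obtain ⟨f', h3, h4⟩ := h' (by omega)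
  exact ⟨_, h1.add h3, fun a ha => by push_cast; exact add_le_add (h2 a ha) (h4 a ha)⟩

theorem Lo.mul (hc : (c : ℝ) ≤ γ) (h : Lo T A n g) : Lo T A (Nat.mul c n) fun a => γ * g a := by
  have h0 : 0 ≤ γ := (Nat.cast_nonneg c).trans hc
  refine ⟨fun a ha => mul_nonneg h0 (h.1 a ha), fun hn => ?_⟩
  rw [Nat.mul_eq] at hn ⊢
  rcases Nat.eq_zero_or_pos c with rfl | h1
  · rw [zero_mul]
    exact ⟨_, Rep.zero T, fun a ha => by simpa using mul_nonneg h0 (h.1 a ha)⟩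
  · obtain ⟨f, h2, h3⟩ := h.2 (lt_of_le_of_lt (Nat.le_mul_of_pos_left n h1) hn)
    exact ⟨_, h2.mul c, fun a ha => by
      push_cast; exact mul_le_mul hc (h3 a ha) (Nat.cast_nonneg _) h0⟩

theorem Up.mul (h0 : 0 ≤ γ) (hc : γ ≤ c) (h : Up T A n g) :
    Up T A (Nat.mul c n) fun a => γ * g a := by
  intro hn
  rw [Nat.mul_eq] at hn ⊢
  rcases Nat.eq_zero_or_pos c with rfl | h1
  · have : γ = 0 := le_antisymm (by simpa using hc) h0
    rw [zero_mul]
    exact ⟨_, Rep.zero T, fun a _ => by simp [this]⟩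
  · obtain ⟨f, h2, h3⟩ := h (lt_of_le_of_lt (Nat.le_mul_of_pos_left n h1) hn)
    exact ⟨_, h2.mul c, fun a ha => by
      push_cast
      exact (mul_le_mul_of_nonneg_left (h3 a ha) h0).trans
        (mul_le_mul_of_nonneg_right hc (Nat.cast_nonneg _))⟩

theorem Lo.mrg (hk : k ≤ T) (h : Lo T A n g) (h' : Lo T A' m g') :
    Lo T (fun a => if k ≤ a then A a else A' a) (mrg T k n m)
      fun a => if k ≤ a then g a else g' a := by
  refine ⟨fun a ha => ?_, fun hn => ?_⟩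
  · by_cases e : k ≤ a <;> simp only [e, if_true, if_false] at ha ⊢
    exacts [h.1 a ha, h'.1 a ha]
  · obtain ⟨h1, h2⟩ := mrg_lt hk hn
    obtain ⟨f, h3, h4⟩ := h.2 h1
    obtain ⟨f', h5, h6⟩ := h'.2 h2
    refine ⟨_, h3.mrg h5 h1 h2 hk, fun a ha => ?_⟩
    by_cases e : k ≤ a <;> simp only [e, if_true, if_false] at ha ⊢
    exacts [h4 a ha, h6 a ha]

theorem Up.mrg (hk : k ≤ T) (h : Up T A n g) (h' : Up T A' m g') :
    Up T (fun a => if k ≤ a then A a else A' a) (mrg T k n m)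
      fun a => if k ≤ a then g a else g' a := by
  intro hn
  obtain ⟨h1, h2⟩ := mrg_lt hk hn
  obtain ⟨f, h3, h4⟩ := h h1
  obtain ⟨f', h5, h6⟩ := h' h2
  refine ⟨_, h3.mrg h5 h1 h2 hk, fun a ha => ?_⟩
  by_cases e : k ≤ a <;> simp only [e, if_true, if_false] at ha ⊢
  exacts [h4 a ha, h6 a ha]

theorem Lo.hi (hk : k ≤ T) (h : Lo T A n g) :
    Lo T A (hi k n) fun a => if k ≤ a then g a else 0 := by
  refine ⟨fun a ha => ?_, fun hn => ?_⟩
  · show 0 ≤ if k ≤ a then g a else 0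
    split_ifs
    exacts [h.1 a ha, le_rfl]
  · have h1 := hi_lt (by omega) hn
    obtain ⟨f, h3, h4⟩ := h.2 h1
    obtain ⟨t, h5, -, -, h6⟩ := h3.split h1 hk
    refine ⟨fun a => if k ≤ a then f a else 0, ⟨t, h6, fun a ha => ?_⟩, fun a ha => ?_⟩
    · have := h5 a ha
      show (if k ≤ a then f a else 0) ≤ t
      split_ifs <;> omega
    · by_cases e : k ≤ a <;> simp only [e, if_true, if_false]
      exacts [h4 a ha, by simp]

theorem Lo.sum {ι : Type} (s : Finset ι) {F : ι → ℕ} {G : ι → ℕ → ℝ}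
    (h : ∀ i ∈ s, Lo T A (F i) (G i)) : Lo T A (∑ i ∈ s, F i) fun a => ∑ i ∈ s, G i a := by
  classical
  induction s using Finset.induction_on with
  | empty => exact Lo.of (Rep.zero T) fun a _ => by simp
  | insert i s hi ih =>
    simp only [sum_insert hi]
    exact (h i (mem_insert_self i s)).add (ih fun j hj => h j (mem_insert_of_mem hj))

theorem Up.sum {ι : Type} (s : Finset ι) {F : ι → ℕ} {G : ι → ℕ → ℝ}
    (h : ∀ i ∈ s, Up T A (F i) (G i)) : Up T A (∑ i ∈ s, F i) fun a => ∑ i ∈ s, G i a := by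
  classical
  induction s using Finset.induction_on with
  | empty => exact Up.of (Rep.zero T) fun a _ => by simp
  | insert i s hi ih =>
    simp only [sum_insert hi]
    exact (h i (mem_insert_self i s)).add (ih fun j hj => h j (mem_insert_of_mem hj))

theorem one_eq (hT : T ≤ 256) : one T = pk Y (fun _ => 1) T := build_pk 128 _ (d := 8) hT

theorem rep_ones (hT : T ≤ 256) : Rep T (ones T) fun _ => 1 :=
  ⟨1, by rw [ones, Nat.add_eq, one_eq hT, top_eq], fun _ _ => le_rfl⟩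

theorem bit_dig (x a : ℕ) : x.testBit (128 * a + 127) = (x / Y ^ a % Y).testBit 127 := by
  rw [← Y_pow, Y, Nat.testBit_mod_two_pow, Nat.testBit_div_two_pow, add_comm]
  simp

theorem chk_aux {P N Z : ℕ} {f h : ℕ → ℕ} (hT : T ≤ 256) (hP : Rep T P f)
    (hN : Rep T N h) (hY : Y = Z + Z) (h1 : P < Z * Y ^ T) (h2 : N < Z * Y ^ T) {a : ℕ}
    (ha : a < T) (h3 : Z ≤ (P + ones T * Z - N) / Y ^ a % Y) : h a ≤ f a := by
  have l1 := hP.lt h1
  have l2 := hN.lt h2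
  obtain ⟨t, rfl, -⟩ := hP
  obtain ⟨u, rfl, -⟩ := hN
  have hu : u < Z := Nat.lt_of_mul_lt_mul_right (a := Y ^ T) (by omega)
  obtain ⟨v, hv⟩ : ∃ v, t + Z = u + v := ⟨t + Z - u, by omega⟩
  have e1 : pk Y f T + t * Y ^ T + ones T * Z - (pk Y h T + u * Y ^ T) =
      pk Y (fun a => f a + Z * 1 - h a) T + v * Y ^ T := by
    have e := pk_sub (B := Y) (T := T) (f := fun a => f a + Z * 1) (g := h)
      fun a ha => by have := l2 a ha; omega
    rw [pk_add, pk_mul] at e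
    have e3 : t * Y ^ T + Z * Y ^ T = u * Y ^ T + v * Y ^ T := by
      rw [← add_mul, hv, add_mul]
    rw [ones, Nat.add_eq, one_eq hT, top_eq, add_mul, one_mul, mul_comm (Y ^ T), mul_comm _ Z]
    omega
  rw [e1, pk_dig _ (fun a ha => by have := l1 a ha; omega) ha] at h3
  have := l2 a ha
  omega

theorem vm_eq (H : ℕ) : vm H = one H * 2 ^ 255 := shl_eq _ _

theorem hb_eq (T : ℕ) : hb T = ones T * 2 ^ 127 := shl_eq _ _

theorem vm_bit {H j : ℕ} (hH : H ≤ 256) (hj : j < H) :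
    (vm H).testBit (128 * (1 + j) + 127) = true := by
  have e : 128 * (1 + j) + 127 = 128 * j + 255 := by ring
  have hY : 1 < Y := Nat.one_lt_two_pow (by norm_num)
  have h := pk_dig (B := Y) (T := H) (f := fun _ => 1) 0 (fun _ _ => hY) hj
  rw [zero_mul, add_zero, ← one_eq hH] at h
  have e4 : ∀ x : ℕ, (x / Y ^ j % Y).testBit 0 = x.testBit (128 * j) := fun x => by
    rw [← Y_pow, Y, Nat.testBit_mod_two_pow, Nat.testBit_div_two_pow, zero_add]
    simp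
  have e5 : ∀ x n : ℕ, (x * 2 ^ n).testBit (128 * j + n) = x.testBit (128 * j) := fun x n => by
    rw [Nat.testBit_mul_two_pow]
    simp
  rw [vm_eq, e, e5, ← e4, h]
  rfl

theorem chk_le {H P N : ℕ} {f h : ℕ → ℕ} (hT : T ≤ 256) (hH : H < T) (hP : Rep T P f)
    (hN : Rep T N h) (h1 : P < 2 ^ 127 * Y ^ T) (h2 : N < 2 ^ 127 * Y ^ T)
    (hc : chk T H P N = true) {a : ℕ} (ha : 1 ≤ a) (ha' : a ≤ H) : h a ≤ f a := by
  have hlt : a < T := lt_of_le_of_lt ha' hH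
  have e2 : (vm H).testBit (128 * a + 127) = true := by
    obtain ⟨j, rfl⟩ := Nat.exists_eq_add_of_le ha
    exact vm_bit (hH.le.trans hT) (by clear h1 h2; omega)
  have e0 : (P + hb T - N) &&& vm H = vm H := Nat.eq_of_beq_eq_true hc
  have e3 : ((P + hb T - N) &&& vm H).testBit (128 * a + 127) = true := by rw [e0, e2]
  rw [Nat.testBit_and, e2, Bool.and_true, bit_dig, hb_eq] at e3
  exact chk_aux hT hP hN (by norm_num [Y]) h1 h2 hlt (Nat.ge_two_pow_of_testBit e3)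

theorem mI_eq {G u : ℕ → ℕ} (hT : T ≤ 256) (hG : ∀ l < T, G l < 256) (hu : ∀ l < T, u l < Y) :
    mI G T (pk Y u T) = pk Y (fun l => G l * u l) T := by
  have e0 : ∀ x < 256, ∑ b ∈ range 8, x / 2 ^ b % 2 * 2 ^ b = x := by decide +kernel
  have e1 : ∀ b, Nat.land (pk Y u T) (bm G T b) = pk Y (fun l => G l / 2 ^ b % 2 * u l) T := by
    intro b
    have hm : msk 1 = 2 ^ 128 - 1 := rfl
    rw [bm, build_pk 128 _ (d := 8) hT, land_eq, Y, pk_land hu]
    · refine pk_congr fun l hl => ?_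
      rw [land_eq, Nat.and_one_is_mod, shr_eq, Nat.mul_eq, hm]
      rcases Nat.mod_two_eq_zero_or_one (G l / 2 ^ b) with h | h <;> rw [h]
      · simp
      · rw [one_mul, one_mul, Nat.and_two_pow_sub_one_eq_mod]
        exact Nat.mod_eq_of_lt (hu l hl)
    · intro l _
      rw [land_eq, Nat.and_one_is_mod, Nat.mul_eq, hm]
      rcases Nat.mod_two_eq_zero_or_one (Nat.shiftRight (G l) b) with h | h <;> rw [h] <;> norm_num
  rw [mI, sumR_eq]
  simp only [e1]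
  simp only [shl_eq, pk, sum_mul]
  rw [sum_comm]
  refine sum_congr rfl fun l hl => ?_
  conv_rhs => rw [← e0 (G l) (hG l (mem_range.1 hl))]
  rw [sum_mul, sum_mul]
  exact sum_congr rfl fun b _ => by ring

theorem ww_eq (f g : ℕ → ℕ) (T H i : ℕ) :
    ww f g T H i = ∑ j ∈ range i, mrg T (j + 1) (sumI f j) (suf g H (H - j)) := by
  induction i with
  | zero => rfl
  | succ i ih => rw [sum_range_succ, ← ih]; rfl

theorem hinge_sum (H a : ℕ) (c : ℕ → ℝ) (i : ℕ) (hi : i ≤ H) :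
    ∑ s ∈ Icc 1 H, c s * (((i - s : ℕ) : ℝ) - ((i - a : ℕ) : ℝ)) =
      ∑ j ∈ range i, if j + 1 ≤ a then ∑ s ∈ Icc 1 j, c s else -∑ s ∈ Icc (j + 1) H, c s := by
  induction i with
  | zero => simp
  | succ i ih =>
    have e1 : ∑ s ∈ Icc 1 i, c s = ∑ s ∈ Icc 1 H, if s ≤ i then c s else 0 := by
      rw [← sum_filter]
      exact sum_congr (by ext x; simp only [mem_Icc, mem_filter]; omega) fun _ _ => rfl
    have e2 : ∑ s ∈ Icc (i + 1) H, c s = ∑ s ∈ Icc 1 H, if s ≤ i then 0 else c s := by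
      simp only [← ite_not (_ ≤ i)]
      rw [← sum_filter]
      exact sum_congr (by ext x; simp only [mem_Icc, mem_filter]; omega) fun _ _ => rfl
    rw [sum_range_succ, ← ih (by omega), e1, e2]
    split_ifs with h
    · rw [← sum_add_distrib]
      refine sum_congr rfl fun s _ => ?_
      rw [Nat.sub_eq_zero_of_le h, Nat.sub_eq_zero_of_le (by omega : i ≤ a)]
      split_ifs with h1
      · rw [Nat.succ_sub h1]; push_cast; ring
      · rw [Nat.sub_eq_zero_of_le (by omega), Nat.sub_eq_zero_of_le (by omega)]; ring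
    · rw [← sub_eq_add_neg, ← sum_sub_distrib]
      refine sum_congr rfl fun s _ => ?_
      rw [Nat.succ_sub (by omega : a ≤ i)]
      split_ifs with h1
      · rw [Nat.succ_sub h1]; push_cast; ring
      · rw [Nat.sub_eq_zero_of_le (by omega : i + 1 ≤ s), Nat.sub_eq_zero_of_le (by omega : i ≤ s)]
        push_cast; ring

theorem run_sound {H : ℕ} {f g f' g' : ℕ → ℕ} {p q p' q' c : ℕ → ℕ → ℝ} (hT : T ≤ 256)
    (hH : H < T)
    (h1 : ∀ s, 1 ≤ s → s ≤ H → Lo T (fun a => s < a ∧ a ≤ H) (f s) (p s) ∧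
      Up T (fun a => s < a ∧ a ≤ H) (f' s) (p' s) ∧
      Lo T (fun a => 1 ≤ a ∧ a < s) (g s) (q s) ∧ Up T (fun a => 1 ≤ a ∧ a < s) (g' s) (q' s) ∧
      (∀ a, s < a → a ≤ H → p s a - p' s a ≤ c s a) ∧
      ∀ a, 1 ≤ a → a < s → q s a - q' s a ≤ -c s a)
    (h : run f g f' g' T H = true) {i a : ℕ} (hi : i ≤ H) (ha : 1 ≤ a) (ha' : a ≤ H) :
    0 ≤ ∑ s ∈ Icc 1 H, c s a * (((i - s : ℕ) : ℝ) - ((i - a : ℕ) : ℝ)) := by
  rw [run, band_iff, band_iff] at h
  have mono : ∀ u v : ℕ → ℕ, ww u v T H i ≤ ww u v T H H := fun u v => by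
    rw [ww_eq, ww_eq]
    exact sum_le_sum_of_subset (range_mono hi)
  have l1 := lt_of_le_of_lt (mono f g) (fit_lt h.2.1)
  have l2 := lt_of_le_of_lt (mono f' g') (fit_lt h.2.2)
  have hY : 2 ^ 127 * Y ^ T ≤ Y ^ (T + 1) := by
    rw [pow_succ' Y]; exact Nat.mul_le_mul_right _ (by norm_num [Y])
  have L : Lo T (fun a => 1 ≤ a ∧ a ≤ H) (ww f g T H i) fun a => ∑ j ∈ range i,
      if j + 1 ≤ a then ∑ s ∈ Icc 1 j, p s a else ∑ s ∈ Icc (j + 1) H, q s a := by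
    rw [ww_eq]
    refine Lo.sum _ fun j hj => ?_
    rw [mem_range] at hj
    rw [sumI_eq, suf_eq _ _ _ (by omega), Nat.sub_sub_self (by omega)]
    refine (Lo.mrg (by omega) (Lo.sum (A := fun a => j < a ∧ a ≤ H) _ fun s hs => ?_)
      (Lo.sum (A := fun a => 1 ≤ a ∧ a ≤ j) _ fun s hs => ?_)).mono fun a ha => ⟨?_, le_rfl⟩
    · rw [mem_Icc] at hs
      exact (h1 s hs.1 (by omega)).1.mono fun a ha => ⟨by omega, le_rfl⟩
    · rw [mem_Icc] at hs
      exact (h1 s (by omega) hs.2).2.2.1.mono fun a ha => ⟨by omega, le_rfl⟩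
    · split_ifs <;> omega
  have U : Up T (fun a => 1 ≤ a ∧ a ≤ H) (ww f' g' T H i) fun a => ∑ j ∈ range i,
      if j + 1 ≤ a then ∑ s ∈ Icc 1 j, p' s a else ∑ s ∈ Icc (j + 1) H, q' s a := by
    rw [ww_eq]
    refine Up.sum _ fun j hj => ?_
    rw [mem_range] at hj
    rw [sumI_eq, suf_eq _ _ _ (by omega), Nat.sub_sub_self (by omega)]
    refine (Up.mrg (by omega) (Up.sum (A := fun a => j < a ∧ a ≤ H) _ fun s hs => ?_)
      (Up.sum (A := fun a => 1 ≤ a ∧ a ≤ j) _ fun s hs => ?_)).mono fun a ha => ⟨?_, le_rfl⟩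
    · rw [mem_Icc] at hs
      exact (h1 s hs.1 (by omega)).2.1.mono fun a ha => ⟨by omega, le_rfl⟩
    · rw [mem_Icc] at hs
      exact (h1 s (by omega) hs.2).2.2.2.1.mono fun a ha => ⟨by omega, le_rfl⟩
    · split_ifs <;> omega
  obtain ⟨u, r1, r2⟩ := L.2 (l1.trans_le hY)
  obtain ⟨v, r3, r4⟩ := U (l2.trans_le hY)
  have k1 : (v a : ℝ) ≤ u a := by
    exact_mod_cast chk_le hT hH r1 r3 l1 l2 (allR_true h.1 i (Nat.lt_succ_of_le hi)) ha ha'
  have k2 := sub_nonneg.2 (((r4 a ⟨ha, ha'⟩).trans k1).trans (r2 a ⟨ha, ha'⟩))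
  rw [hinge_sum H a (fun s => c s a) i hi]
  refine k2.trans ?_
  rw [← sum_sub_distrib]
  refine sum_le_sum fun j hj => ?_
  rw [mem_range] at hj
  split_ifs with e
  · rw [← sum_sub_distrib]
    refine sum_le_sum fun s hs => ?_
    rw [mem_Icc] at hs
    exact (h1 s hs.1 (by omega)).2.2.2.2.1 a (by omega) ha'
  · rw [← sum_sub_distrib, ← sum_neg_distrib]
    refine sum_le_sum fun s hs => ?_
    rw [mem_Icc] at hs
    exact (h1 s (by omega) hs.2).2.2.2.2.2 a ha (by omega)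

end Pool.Agent.MP_ddaf7c_pr.A.Pk
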