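import Mathlib.Algebra.Order.Floor.Semifield
import Pool.Agent.MP_ddaf7c_pr.A.Vec
import Pool.Agent.MP_ddaf7c_pr.A.Hinge

-- ======== part 0: formerly Pool.Agent.MP_ddaf7c_pr.A.CsDef
section MrgPart0

/-! The kernel program that checks the certificate on one level `M`; lane `a` is the pair
`(a, M - a)`. -/

set_option autoImplicit false

namespace Pool.Agent.MP_ddaf7c_pr.A.Pk

def t1 (c : ℕ) : ℕ := Nat.pow c (Nat.sub c 1)

noncomputable def tt (k c r j : ℕ) : ℕ :=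
  Nat.div (Nat.mul (Nat.mul (Nat.mul k (t1 r)) (t1 j)) (fac c))
    (Nat.mul (Nat.mul (fac r) (fac j)) (t1 c))

noncomputable def pj (c r j : ℕ) : ℕ := tt (Nat.mul 68719476736 j) c r j

noncomputable def pp (r c : ℕ) : ℕ := Bool.rec (frc (Nat.sub c r) (pj c r)) 0 (Nat.ble c r)

def idn (c : ℕ) : ℕ := c

noncomputable def uF0 (C r : ℕ) : ℕ := build 128 (pp r) (Nat.add (Nat.div C 2) 1) 7 0
noncomputable def uF1 (C T r : ℕ) : ℕ := Nat.sub (mI idn T (uF0 C r)) (Nat.mul r (uF0 C r))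
noncomputable def uF2 (C T r : ℕ) : ℕ := mI idn T (uF1 C T r)
noncomputable def f0 (C T r : ℕ) : ℕ := Nat.add (uF0 C r) (top 17592186044416 T)
noncomputable def fB (C T M r : ℕ) : ℕ :=
  Nat.sub (Nat.add (Nat.mul M (uF1 C T r)) (top 1152921504606846976 T)) (uF2 C T r)

noncomputable def uR0 (C T r : ℕ) : ℕ :=
  build 128 (fun l => frc (Nat.sub C l) (pp r))
    (cnd (Nat.ble T (Nat.sub C r)) T (Nat.sub C r)) 8 0
noncomputable def uR1 (C T r : ℕ) : ℕ :=
  Nat.sub (mI (Nat.sub C) T (uR0 C T r)) (Nat.mul r (uR0 C T r))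
noncomputable def uR2 (C T r : ℕ) : ℕ := mI (Nat.sub C) T (uR1 C T r)
def off (C M : ℕ) : ℕ := Nat.mul 128 (Nat.sub C M)
noncomputable def r0 (C T M r : ℕ) : ℕ :=
  Nat.add (Nat.shiftRight (uR0 C T r) (off C M)) (top 17592186044416 T)
noncomputable def r1 (C T M r : ℕ) : ℕ := Nat.shiftRight (uR1 C T r) (off C M)
noncomputable def rB (C T M r : ℕ) : ℕ :=
  Nat.sub (Nat.add (Nat.mul M (r1 C T M r)) (top 1152921504606846976 T))
    (Nat.shiftRight (uR2 C T r) (off C M))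
noncomputable def slk (T : ℕ) : ℕ := Nat.shiftLeft (ones T) 16
noncomputable def rBu (C T M r : ℕ) : ℕ := Nat.add (rB C T M r) (slk T)
noncomputable def rCu (C T M r : ℕ) : ℕ := Nat.add (rBu C T M r)
  (Nat.mul r (Nat.sub (Nat.mul (Nat.sub M r) (r0 C T M r)) (r1 C T M r)))

noncomputable def vAB (T M : ℕ) : ℕ :=
  Nat.add (build 128 (fun a => Nat.mul a (Nat.sub M a)) T 8 0) (top 65536 T)

noncomputable def qq (M s : ℕ) : ℕ := frc (Nat.sub M s)
  (tt (Nat.mul M (cnd (Nat.beq (Nat.mul 2 s) M) 34359738368 68719476736)) M s)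

noncomputable def sn (N : ℕ) : ℕ := Bool.rec
  (Nat.land (Nat.shiftRight 0xf9be0f63cff1bbded3abe8798e3b85def71d9f5dd4f49cff35cab20c570abfef4ba6ddb4ac6aeaaea8a95a267c9be62952478e22b86e0e7f5ef771ce6edab65d865c55e5213146cfd37cc13647a00000 (Nat.mul 10 N)) 1023) 1000 (Nat.ble 64 N)
noncomputable def mx (M : ℕ) : ℕ := cnd (Nat.ble M 64) 64 M
def b0 (M r : ℕ) : ℕ := Nat.div 1899956092796928 (Nat.mul 100 (Nat.pow (Nat.sub M r) 2))
noncomputable def b1 (M r : ℕ) : ℕ :=
  Nat.div (Nat.mul 422212465065984 (sn (Nat.sub M r)))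
    (Nat.mul (Nat.mul 50000 (mx M)) (Nat.sub M r))
noncomputable def gl (M r : ℕ) : ℕ :=
  Nat.div (Nat.mul 70368744177664 (sn (Nat.sub M r))) (Nat.mul (Nat.mul M (sn M)) (Nat.sub M r))
noncomputable def k1 (M : ℕ) : ℕ :=
  Nat.div (Nat.mul (Nat.mul 422212465065984 (sn M)) (Nat.add (Nat.mul 5 M) 8))
    (Nat.mul (Nat.mul (Nat.mul 250000 (mx M)) M) (Nat.sub M 1))

noncomputable def eF (C T M r : ℕ) : ℕ := Nat.mul (gl M r) (fB C T M r)
noncomputable def eR (C T M r : ℕ) : ℕ := Nat.mul (gl M r) (rB C T M r)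
noncomputable def eL (C T M : ℕ) : ℕ :=
  Nat.add (sumI (eF C T M) (Nat.div M 2)) (sumI (eR C T M) (Nat.sub M 1))

def sp (M a : ℕ) : ℕ := Nat.shiftLeft (Nat.mul a (Nat.sub M a)) 80

noncomputable def eU (C T M a : ℕ) : ℕ :=
  Nat.sub (Nat.add (Nat.div (Nat.mul (sp M a) (Nat.mul 4 (Nat.sub M 2))) (Nat.pow M 2)) 1)
    (Nat.land (Nat.shiftRight (eL C T M) (Nat.mul 128 a)) (msk 1))

def rP (M a : ℕ) : ℕ := Nat.add (Nat.div (Nat.mul (sp M a) 39) 100)
  (Nat.div (Nat.mul (sp M a) (Nat.mul 108 (Nat.pow a 2)))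
    (Nat.mul 100 (Nat.pow (Nat.sub (Nat.mul 2 M) a) 2)))

noncomputable def rN (C T M a : ℕ) : ℕ :=
  Nat.add (Nat.add (Nat.add
    (Nat.div (Nat.mul (sp M a) (Nat.mul (Nat.mul 54 a) (Nat.sub (Nat.mul 2 M) a)))
      (Nat.mul 100 (Nat.pow M 2)))
    (cnd (Nat.ble (Nat.mul 5 a) (Nat.mul 2 M))
      (Nat.div (Nat.mul (sp M a) (Nat.mul 196560 (Nat.pow (Nat.mul a (Nat.sub M a)) 2)))
        (Nat.mul 1000000 (Nat.pow M 4)))
      (Nat.div (Nat.mul (sp M a) 15039) 1000000)))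
    (Nat.div (Nat.mul (Nat.mul M (sn M))
      (Nat.add (Nat.add (Nat.div (Nat.mul (sp M a) 72) (Nat.mul 5 (Nat.pow M 2))) 1) (eU C T M a)))
      10000)) 3

noncomputable def mu (C T M a : ℕ) : ℕ :=
  Nat.div (Nat.sub (rP M a) (rN C T M a)) (Nat.shiftLeft (Nat.pow M 2) 35)

noncomputable def muL (C T M a : ℕ) : ℕ := Nat.add (top (mu C T M a) a) (top (mu C T M a) T)

noncomputable def muV (C T M : ℕ) : ℕ := sumR (muL C T M) (Nat.add (Nat.div M 2) 1)

def kk (T : ℕ) : ℕ := Nat.mul 128 (Nat.add T 1)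

noncomputable def vV (C T M : ℕ) : ℕ :=
  Nat.mul (build (kk T) (muL C T M) (Nat.add (Nat.div M 2) 1) 7 0)
    (build (kk T) (qq M) (Nat.add (Nat.div M 2) 1) 7 0)

noncomputable def blk (C T M t : ℕ) : ℕ :=
  Nat.land (Nat.shiftRight (vV C T M) (Nat.mul (kk T) (Nat.mul 16 t)))
    (msk (Nat.mul (Nat.add T 1) 16))

noncomputable def muR (C T M s : ℕ) : ℕ :=
  Nat.land (Nat.shiftRight (frc (Nat.div s 16) (blk C T M)) (Nat.mul (kk T) (Nat.mod s 16)))
    (msk (Nat.add T 1))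

noncomputable def kz (T M r : ℕ) : ℕ := frc
  (Nat.div (Nat.mul M (Nat.sub M r)) (Nat.sub (Nat.mul 2 M) r)) fun k =>
  cnd (Nat.ble T k) T (Nat.add k 1)

noncomputable def oZ (C T M r : ℕ) : ℕ :=
  mrg T (kz T M r) (Nat.mul (Nat.add (b0 M r) 1) (rBu C T M r))
    (Nat.mul (Nat.add (b0 M 0) 1) (rCu C T M r))

noncomputable def oX (C T M r : ℕ) : ℕ := Nat.mul (Nat.add (b1 M r) 1) (rBu C T M r)

noncomputable def two (f : ℕ → ℕ) (M s : ℕ) : ℕ :=
  Bool.rec (Nat.add (f s) (frc (Nat.sub M s) f)) (f s) (Nat.beq (Nat.mul 2 s) M)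

noncomputable def fr (C T M s : ℕ) : ℕ := Nat.add (fB C T M s) (rB C T M s)

noncomputable def iP0 (C T M s : ℕ) : ℕ :=
  Nat.add (Nat.mul (Nat.mul 24453138601738 (qq M s)) (ones T)) (Nat.mul (b0 M s) (fr C T M s))
noncomputable def iP1 (C T M s : ℕ) : ℕ := Nat.add (iP0 C T M s) (Nat.mul (b1 M s) (fr C T M s))

noncomputable def iN0 (C T M s : ℕ) : ℕ :=
  Nat.add (Nat.mul (Nat.mul (Nat.add (b0 M 0) 1) (Nat.add (qq M s) 1)) (vAB T M))
    (Nat.mul 24453138601739 (Nat.add (Nat.add (f0 C T s) (r0 C T M s)) (slk T)))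
noncomputable def iN1 (C T M s : ℕ) : ℕ := Nat.add (iN0 C T M s)
  (Nat.mul (Nat.mul (Nat.add (k1 M) 1) (Nat.add (qq M s) 1)) (vAB T M))

noncomputable def tN0 (C T M s : ℕ) : ℕ :=
  Nat.add (Nat.add (Nat.mul 24453138601738 (two (r0 C T M) M s)) (muR C T M s))
    (Nat.mul (qq M s) (Nat.add (Nat.mul (b0 M 0) (vAB T M))
      (hi (Nat.sub (Nat.add (Nat.div M 2) 1) s) (muV C T M))))
noncomputable def tN1 (C T M s : ℕ) : ℕ :=
  Nat.add (tN0 C T M s) (Nat.mul (Nat.mul (k1 M) (qq M s)) (vAB T M))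

noncomputable def tP0 (C T M s : ℕ) : ℕ :=
  Nat.add (Nat.mul (Nat.mul 24453138601739 (Nat.add (qq M s) 1)) (ones T)) (two (oZ C T M) M s)
noncomputable def tP1 (C T M s : ℕ) : ℕ := Nat.add (tP0 C T M s) (two (oX C T M) M s)

noncomputable def lev (C T M : ℕ) : Bool := frc (Nat.div M 2) fun H =>
  band (band (fit T 128 (eL C T M)) (band
    (allR (fun a => Nat.ble (Nat.mul a (rN C T M a)) (Nat.mul a (rP M a))) (Nat.add H 1))
    (fit T 128 (Nat.mul (muV C T M) (sumR (qq M) (Nat.add H 1))))))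
    (band (run (iP0 C T M) (tN0 C T M) (iN0 C T M) (tP0 C T M) T H)
      (run (iP1 C T M) (tN1 C T M) (iN1 C T M) (tP1 C T M) T H))

noncomputable def levs (C T n : ℕ) : Bool := allR (fun j => frc (Nat.sub C j) (lev C T)) n

end Pool.Agent.MP_ddaf7c_pr.A.Pk

end MrgPart0

-- ======== part 1: formerly Pool.Agent.MP_ddaf7c_pr.A.CsRow
section MrgPart1

/-! Meaning of the tables of the kernel program. -/

set_option autoImplicit false

namespace Pool.Agent.MP_ddaf7c_pr.A.Pk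

open Finset

theorem div_lo (x y : ℕ) : ((Nat.div x y : ℕ) : ℝ) ≤ (x : ℝ) / y := Nat.cast_div_le

theorem div_hi (x y : ℕ) : (x : ℝ) / y ≤ ((Nat.div x y : ℕ) : ℝ) + 1 := by
  have := Nat.lt_floor_add_one ((x : ℝ) / y)
  rw [Nat.floor_div_eq_div] at this
  exact this.le

theorem tau_pos (c : ℕ) : 0 < tau c := by
  rcases Nat.eq_zero_or_pos c with rfl | h
  · simp [tau]
  · unfold tau; positivity

theorem TT_pos (c r : ℕ) : 0 < TT c r :=
  div_pos (mul_pos (tau_pos _) (tau_pos _)) (tau_pos _)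

theorem PP_nonneg (c r : ℕ) : 0 ≤ PP c r := mul_nonneg (Nat.cast_nonneg _) (TT_pos c r).le

theorem PP_zero {c r : ℕ} (h : c ≤ r) : PP c r = 0 := by simp [PP, Nat.sub_eq_zero_of_le h]

theorem tt_bd (k c r : ℕ) : (tt k c r (c - r) : ℝ) ≤ k * TT c r ∧
    k * TT c r ≤ (tt k c r (c - r) : ℝ) + 1 := by
  have t : ∀ n, ((t1 n : ℕ) : ℝ) = tau n * n.factorial := fun n => by
    rw [tau, div_mul_cancel₀ _ (by positivity), t1, Nat.pow_eq, Nat.sub_eq]; push_cast; rfl
  have e : (k : ℝ) * TT c r = ((Nat.mul (Nat.mul (Nat.mul k (t1 r)) (t1 (c - r))) (fac c) : ℕ) : ℝ) /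
      ((Nat.mul (Nat.mul (fac r) (fac (c - r))) (t1 c) : ℕ) : ℝ) := by
    simp only [Nat.mul_eq, fac_eq, Nat.cast_mul, t, TT]
    have := (tau_pos c).ne'
    field_simp
  rw [e]
  exact ⟨div_lo _ _, div_hi _ _⟩

theorem pp_zero {r c : ℕ} (h : c ≤ r) : pp r c = 0 := by rw [pp, rec_ble, if_pos h]

theorem pp_bd (r c : ℕ) : (pp r c : ℝ) ≤ 68719476736 * PP c r ∧
    68719476736 * PP c r ≤ (pp r c : ℝ) + 1 := by
  by_cases h : c ≤ r
  · rw [pp_zero h, PP_zero h]; norm_num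
  · have := tt_bd (68719476736 * (c - r)) c r
    rw [pp, rec_ble, if_neg h, PP, ← mul_assoc]
    rw [Nat.cast_mul, Nat.cast_ofNat] at this
    exact this

theorem pp_le (h0 : ABEL) {r c : ℕ} (hr : 1 ≤ r) (hc : c ≤ 255) : pp r c ≤ 17592186044416 := by
  by_cases h : c ≤ r
  · rw [pp_zero h]; norm_num
  · have h1 := single_le_sum (f := fun r => PP c r) (fun i _ => PP_nonneg c i)
      (mem_Ico.2 ⟨hr, not_le.1 h⟩)
    rw [h0 c (by omega)] at h1
    have h2 := (pp_bd r c).1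
    have h3 : (c : ℝ) ≤ 255 := by exact_mod_cast hc
    have : (pp r c : ℝ) ≤ (17592186044416 : ℕ) := by push_cast; linarith
    exact_mod_cast this

theorem qq_bd (M s : ℕ) : (qq M s : ℝ) ≤ 68719476736 * qS M s ∧
    68719476736 * qS M s ≤ ((Nat.add (qq M s) 1 : ℕ) : ℝ) := by
  have := tt_bd (M * (if 2 * s = M then 34359738368 else 68719476736)) M s
  have e : qq M s = tt (M * (if 2 * s = M then 34359738368 else 68719476736)) M s (M - s) := by
    rw [← rec_beq]; rfl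
  have e2 : 68719476736 * qS M s =
      ((M * (if 2 * s = M then 34359738368 else 68719476736) : ℕ) : ℝ) * TT M s := by
    unfold qS QQ
    split_ifs <;> push_cast <;> ring
  rw [e2, Nat.add_eq, Nat.cast_add, Nat.cast_one, e]
  exact this

theorem rows {T r : ℕ} {G u : ℕ → ℕ} (hT : T ≤ 256) (hG : ∀ l < T, G l < 256)
    (hu : ∀ l < T, u l ≤ 17592186044416) (h0 : ∀ l < T, G l ≤ r → u l = 0) :
    Nat.sub (mI G T (pk Y u T)) (Nat.mul r (pk Y u T)) = pk Y (fun l => (G l - r) * u l) T ∧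
    mI G T (pk Y (fun l => (G l - r) * u l) T) = pk Y (fun l => G l * ((G l - r) * u l)) T := by
  constructor
  · rw [mI_eq hT hG fun l hl => (hu l hl).trans_lt (by norm_num [Y]), Nat.mul_eq, Nat.sub_eq,
      ← pk_mul, pk_sub (g := fun l => r * u l), Nat.add_sub_cancel]
    · exact pk_congr fun l _ => (Nat.sub_mul _ _ _).symm
    · intro l hl
      by_cases h : G l ≤ r
      · simp [h0 l hl h]
      · exact Nat.mul_le_mul_right _ (by omega)
  · refine mI_eq hT hG fun l hl => ?_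
    have := Nat.mul_le_mul (show G l - r ≤ 256 by have := hG l hl; omega) (hu l hl)
    exact this.trans_lt (by norm_num [Y])

theorem shift {T o : ℕ} {u : ℕ → ℕ} (hu : ∀ l < T, u l < Y) (ho : o ≤ T) :
    Nat.shiftRight (pk Y u T) (Nat.mul 128 o) =
      pk Y (fun a => if a < T - o then u (o + a) else 0) T := by
  rw [shr_eq, Nat.mul_eq, Y_pow, pk_div hu ho, pk_ext _ (Nat.sub_le T o)]

theorem rep_B {T M r : ℕ} {G u : ℕ → ℕ} (hM : M ≤ 255) (hu : ∀ l < T, u l ≤ 17592186044416)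
    (h0 : ∀ l < T, G l ≤ M ∨ u l = 0) :
    Rep T (Nat.sub (Nat.add (Nat.mul M (pk Y (fun l => (G l - r) * u l) T))
      (top 1152921504606846976 T)) (pk Y (fun l => G l * ((G l - r) * u l)) T))
      fun l => (M - G l) * ((G l - r) * u l) := by
  have h1 : Rep T (M * pk Y (fun l => (G l - r) * u l) T + top 1152921504606846976 T)
      fun l => M * ((G l - r) * u l) := by
    refine ⟨_, by rw [pk_mul, top_eq], fun l hl => ?_⟩
    rcases h0 l hl with h | h
    · exact (Nat.mul_le_mul hM (Nat.mul_le_mul (show G l - r ≤ 255 by omega) (hu l hl))).trans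
        (by norm_num)
    · simp [h]
  have h2 := h1.sub (g := fun l => G l * ((G l - r) * u l)) fun l hl => by
    rcases h0 l hl with h | h
    · exact Nat.mul_le_mul_right _ h
    · simp [h]
  have e : (fun l => (M - G l) * ((G l - r) * u l)) =
      fun l => M * ((G l - r) * u l) - G l * ((G l - r) * u l) :=
    funext fun l => Nat.sub_mul _ _ _
  rw [e]
  exact h2

structure Ok (C T M : ℕ) : Prop where
  h2 : 2 ≤ M
  hC : M ≤ C
  h255 : C ≤ 255
  hF : C / 2 ≤ M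
  hT1 : C / 2 < T
  hT2 : M / 2 + (C - M) < T
  hT : T ≤ 256

noncomputable def vF (C r a : ℕ) : ℕ := if a < C / 2 + 1 then pp r a else 0

noncomputable def vR (C T M r a : ℕ) : ℕ := if a < T - (C - M) then pp r (M - a) else 0

variable {C T M r : ℕ}

theorem vF_le (h0 : ABEL) (ok : Ok C T M) (hr : 1 ≤ r) (a : ℕ) : vF C r a ≤ 17592186044416 := by
  have := ok.h255
  unfold vF
  split_ifs
  · exact pp_le h0 hr (by omega)
  · norm_num

theorem vR_le (h0 : ABEL) (ok : Ok C T M) (hr : 1 ≤ r) (a : ℕ) :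
    vR C T M r a ≤ 17592186044416 := by
  have := ok.h255
  have := ok.hC
  unfold vR
  split_ifs
  · exact pp_le h0 hr (by omega)
  · norm_num

theorem uF0_eq (ok : Ok C T M) : uF0 C r = pk Y (vF C r) T := by
  have h : C / 2 + 1 ≤ 2 ^ 7 := by have := ok.h255; omega
  exact (build_pk 128 _ h).trans (pk_ext _ ok.hT1)

theorem rep_f0 (h0 : ABEL) (ok : Ok C T M) (hr : 1 ≤ r) : Rep T (f0 C T r) (vF C r) :=
  ⟨_, by rw [f0, uF0_eq ok, top_eq, Nat.add_eq], fun a _ => vF_le h0 ok hr a⟩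

theorem rep_fB (h0 : ABEL) (ok : Ok C T M) (hr : 1 ≤ r) :
    Rep T (fB C T M r) fun a => (M - a) * ((a - r) * vF C r a) := by
  have h := rows (r := r) (G := idn) (u := vF C r) ok.hT (fun l hl => hl.trans_le ok.hT)
    (fun l _ => vF_le h0 ok hr l) fun l _ hl => by
      unfold vF; split_ifs; exacts [pp_zero hl, rfl]
  rw [fB, uF2, uF1, uF0_eq ok, h.1, h.2]
  refine rep_B (ok.hC.trans ok.h255) (fun l _ => vF_le h0 ok hr l) fun l _ => ?_
  have := ok.hF
  unfold vF idn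
  split_ifs
  · left; omega
  · right; rfl

theorem uR_eq (h0 : ABEL) (ok : Ok C T M) (hr : 1 ≤ r) :
    Nat.shiftRight (uR0 C T r) (off C M) = pk Y (vR C T M r) T ∧
    r1 C T M r = pk Y (fun a => (M - a - r) * vR C T M r a) T ∧
    Nat.shiftRight (uR2 C T r) (off C M) =
      pk Y (fun a => (M - a) * ((M - a - r) * vR C T M r a)) T := by
  have c1 := ok.h255
  have c2 := ok.hC
  have c3 := ok.hT2
  have c4 := ok.hT
  have e0 : uR0 C T r = pk Y (fun l => pp r (C - l)) T := by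
    have e : cnd (Nat.ble T (Nat.sub C r)) T (Nat.sub C r) = if T ≤ C - r then T else C - r :=
      rec_ble _ _ _ _
    have h : (if T ≤ C - r then T else C - r) ≤ T := by split_ifs <;> omega
    rw [uR0, e, build_pk 128 _ (d := 8) (h.trans c4), pk_ext _ h]
    refine pk_congr fun l hl => ?_
    split_ifs with h1 h2
    · rfl
    · rfl
    · exact (pp_zero (by omega)).symm
  have hu : ∀ l, pp r (C - l) ≤ 17592186044416 := fun l => pp_le h0 hr (by omega)
  have h := rows (r := r) (G := Nat.sub C) (u := fun l => pp r (C - l)) ok.hT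
    (fun l _ => by rw [Nat.sub_eq]; omega) (fun l _ => hu l) fun l _ hl => pp_zero hl
  have b1 : ∀ l, (C - l - r) * pp r (C - l) ≤ 255 * 17592186044416 := fun l =>
    Nat.mul_le_mul (by omega) (hu l)
  have e : ∀ a, C - (C - M + a) = M - a := fun a => by omega
  have ho : Nat.sub C M ≤ T := by rw [Nat.sub_eq]; omega
  rw [r1, uR2, uR1, e0, h.1, h.2, off,
    shift (fun l _ => (hu l).trans_lt (by norm_num [Y])) ho,
    shift (u := fun l => (C.sub l - r) * pp r (C - l))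
      (fun l _ => (b1 l).trans_lt (by norm_num [Y])) ho,
    shift (u := fun l => C.sub l * ((C.sub l - r) * pp r (C - l)))
      (fun l _ => (Nat.mul_le_mul (show C - l ≤ 255 by omega) (b1 l)).trans_lt
      (by norm_num [Y])) ho]
  refine ⟨pk_congr fun a _ => ?_, pk_congr fun a _ => ?_, pk_congr fun a _ => ?_⟩ <;>
    simp only [vR, Nat.sub_eq, e] <;> split_ifs <;> simp

theorem rep_r0 (h0 : ABEL) (ok : Ok C T M) (hr : 1 ≤ r) : Rep T (r0 C T M r) (vR C T M r) :=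
  ⟨_, by rw [r0, (uR_eq h0 ok hr).1, top_eq, Nat.add_eq], fun a _ => vR_le h0 ok hr a⟩

theorem rep_rB (h0 : ABEL) (ok : Ok C T M) (hr : 1 ≤ r) :
    Rep T (rB C T M r) fun a => (M - (M - a)) * ((M - a - r) * vR C T M r a) := by
  rw [rB, (uR_eq h0 ok hr).2.1, (uR_eq h0 ok hr).2.2]
  exact rep_B (G := fun a => M - a) (ok.hC.trans ok.h255) (fun l _ => vR_le h0 ok hr l)
    fun l _ => Or.inl (Nat.sub_le _ _)

theorem rep_slk (hT : T ≤ 256) : Rep T (slk T) fun _ => 65536 * 1 := by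
  have e : slk T = 65536 * ones T := (shl_eq _ _).trans (mul_comm _ _)
  rw [e]
  exact (rep_ones hT).mul _

theorem vF_eq (ok : Ok C T M) {a : ℕ} (ha : a ≤ M / 2) : vF C r a = pp r a :=
  if_pos (by have := ok.hC; omega)

theorem vR_eq (ok : Ok C T M) {a : ℕ} (ha : a ≤ M / 2) : vR C T M r a = pp r (M - a) :=
  if_pos (by have := ok.hT2; omega)

theorem lo_fB (h0 : ABEL) (ok : Ok C T M) (hr : 1 ≤ r) : Lo T (fun a => a ≤ M / 2) (fB C T M r)
    fun a => 68719476736 * PP a r * (((a - r : ℕ) : ℝ) * (M - a : ℕ)) :=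
  Lo.of (rep_fB h0 ok hr) fun a ha => by
    rw [vF_eq ok ha]
    have := mul_le_mul_of_nonneg_right (pp_bd r a).1
      (show (0 : ℝ) ≤ ((a - r : ℕ) : ℝ) * (M - a : ℕ) by positivity)
    rw [Nat.cast_mul, Nat.cast_mul]
    linarith

theorem lo_rB (h0 : ABEL) (ok : Ok C T M) (hr : 1 ≤ r) : Lo T (fun a => a ≤ M / 2) (rB C T M r)
    fun a => 68719476736 * PP (M - a) r * ((a : ℝ) * (M - a - r : ℕ)) :=
  Lo.of (rep_rB h0 ok hr) fun a ha => by
    rw [vR_eq ok ha, Nat.sub_sub_self (by omega)]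
    have := mul_le_mul_of_nonneg_right (pp_bd r (M - a)).1
      (show (0 : ℝ) ≤ (a : ℝ) * (M - a - r : ℕ) by positivity)
    rw [Nat.cast_mul, Nat.cast_mul]
    linarith

theorem lo_r0 (h0 : ABEL) (ok : Ok C T M) (hr : 1 ≤ r) : Lo T (fun a => a ≤ M / 2) (r0 C T M r)
    fun a => 68719476736 * PP (M - a) r :=
  Lo.of (rep_r0 h0 ok hr) fun a ha => by rw [vR_eq ok ha]; exact (pp_bd r _).1

theorem up_aux {x : ℝ} {p w : ℕ} (h : x ≤ (p : ℝ) + 1) (hw : w ≤ 65536) :
    x * w ≤ ((w * p + 65536 * 1 : ℕ) : ℝ) := by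
  have h1 : (w : ℝ) ≤ 65536 := by exact_mod_cast hw
  have h2 := mul_le_mul_of_nonneg_right h (Nat.cast_nonneg (α := ℝ) w)
  push_cast
  linarith

theorem up_rBu (h0 : ABEL) (ok : Ok C T M) (hr : 1 ≤ r) :
    Up T (fun a => a ≤ M / 2) (rBu C T M r)
    fun a => 68719476736 * PP (M - a) r * ((a : ℝ) * (M - a - r : ℕ)) :=
  Up.of ((rep_rB h0 ok hr).add (rep_slk ok.hT)) fun a ha => by
    have := ok.hC.trans ok.h255
    rw [vR_eq ok ha, Nat.sub_sub_self (by omega), ← Nat.cast_mul, ← mul_assoc]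
    exact up_aux (pp_bd r _).2
      ((Nat.mul_le_mul (show a ≤ 255 by omega) (show _ ≤ 255 by omega)).trans (by norm_num))

theorem up_rCu (h0 : ABEL) (ok : Ok C T M) (hr : 1 ≤ r) :
    Up T (fun a => a ≤ M / 2) (rCu C T M r)
    fun a => 68719476736 * PP (M - a) r * ((a : ℝ) * (M - a : ℕ)) := by
  have h1 := ((rep_r0 h0 ok hr).mul (M - r)).sub (g := fun a => (M - a - r) * vR C T M r a)
    fun a _ => Nat.mul_le_mul_right _ (by omega)
  rw [← (uR_eq h0 ok hr).2.1] at h1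
  refine Up.of (((rep_rB h0 ok hr).add (rep_slk ok.hT)).add (h1.mul r)) fun a ha => ?_
  have := ok.hC.trans ok.h255
  by_cases h : M - a ≤ r
  · rw [PP_zero h, mul_zero, zero_mul]
    exact Nat.cast_nonneg _
  · obtain ⟨k, hk⟩ : ∃ k, M = a + r + k := ⟨M - a - r, by omega⟩
    have e1 : M - a - r = k := by omega
    have e2 : M - r = a + k := by omega
    have e3 : M - a = r + k := by omega
    rw [vR_eq ok ha, Nat.sub_sub_self (by omega), ← Nat.cast_mul, ← Nat.sub_mul, e1, e2,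
      Nat.add_sub_cancel]
    refine (up_aux (pp_bd r _).2 ((Nat.mul_le_mul (show a ≤ 255 by omega)
      (show M - a ≤ 255 by omega)).trans (by norm_num))).trans (le_of_eq ?_)
    rw [e3]; congr 1; ring

theorem up_i0 (h0 : ABEL) (ok : Ok C T M) (hr : 1 ≤ r) :
    Up T (fun a => a ≤ M / 2) (Nat.add (Nat.add (f0 C T r) (r0 C T M r)) (slk T))
    fun a => 68719476736 * PP a r + 68719476736 * PP (M - a) r :=
  Up.of (((rep_f0 h0 ok hr).add (rep_r0 h0 ok hr)).add (rep_slk ok.hT)) fun a ha => by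
    rw [vF_eq ok ha, vR_eq ok ha]
    have := (pp_bd r a).2
    have := (pp_bd r (M - a)).2
    push_cast
    linarith

theorem rep_AB (ok : Ok C T M) : Rep T (vAB T M) fun a => a * (M - a) := by
  have := ok.hC.trans ok.h255
  have := ok.hT
  refine ⟨65536, by rw [vAB, build_pk 128 _ (d := 8) ok.hT, top_eq]; rfl, fun a ha => ?_⟩
  exact (Nat.mul_le_mul (show a ≤ 256 by omega) (show M - a ≤ 256 by omega)).trans (by norm_num)

theorem rep_diag {n : ℕ} (x : ℕ → ℕ) (hn : n ≤ T) :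
    Rep T (∑ a ∈ range n, (x a * Y ^ a + x a * Y ^ T)) fun a => if a < n then x a else 0 := by
  refine ⟨∑ a ∈ range n, x a, by rw [sum_add_distrib, ← pk_ext x hn, sum_mul, pk], fun a _ => ?_⟩
  show (if a < n then x a else 0) ≤ _
  split_ifs with h
  · exact single_le_sum (f := x) (fun _ _ => Nat.zero_le _) (mem_range.2 h)
  · exact Nat.zero_le _

theorem muL_eq (a : ℕ) : muL C T M a = mu C T M a * Y ^ a + mu C T M a * Y ^ T := by
  rw [muL, top_eq, top_eq, Nat.add_eq]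

theorem lo_muV (ok : Ok C T M) : Lo T (fun a => a ≤ M / 2) (muV C T M) fun a => mu C T M a := by
  have h := rep_diag (T := T) (n := M / 2 + 1) (mu C T M) (by have := ok.hT2; omega)
  rw [muV, sumR_eq]
  simp only [muL_eq]
  exact Lo.of h fun a ha => by rw [if_pos (by omega)]

theorem lo_muR (ok : Ok C T M)
    (hf : fit T 128 (Nat.mul (muV C T M) (sumR (qq M) (Nat.add (M / 2) 1))) = true) {s : ℕ}
    (hs : s ≤ M / 2) : Lo T (fun a => a ≤ s) (muR C T M s)
      fun a => mu C T M a * (68719476736 * qS M (s - a)) := by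
  have c1 := ok.hC.trans ok.h255
  have c2 := ok.hT2
  have hn : M / 2 + 1 ≤ 2 ^ 7 := by omega
  have hK : 2 ^ kk T = Y ^ (T + 1) := Y_pow _
  have e1 : vV C T M = (toP (muL C T M) (M / 2 + 1) * toP (qq M) (M / 2 + 1)).eval (Y ^ (T + 1)) := by
    rw [Polynomial.eval_mul, toP_eval, toP_eval, ← hK, ← build_pk _ _ hn, ← build_pk _ _ hn]
    rfl
  have e2 : (toP (muL C T M) (M / 2 + 1) * toP (qq M) (M / 2 + 1)).eval 1 < Y ^ (T + 1) := by
    have := fit_lt hf
    rw [muV, sumR_eq, sumR_eq] at this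
    rw [Polynomial.eval_mul, toP_eval, toP_eval, pow_succ' Y]
    simp only [pk, one_pow, mul_one]
    exact this
  have e3 : muR C T M s = vV C T M / (Y ^ (T + 1)) ^ s % Y ^ (T + 1) := by
    rw [← dig_two _ _ s 16 (by norm_num), muR, land_msk, shr_eq, frc_eq, blk, land_msk, shr_eq]
    simp only [Nat.mul_eq, Nat.add_eq, div_eq, mod_eq, pow_mul, hK]
  rw [e3, e1, dig_poly _ e2, Polynomial.coeff_mul,
    Nat.sum_antidiagonal_eq_sum_range_succ_mk]
  have h := rep_diag (T := T) (n := s + 1) (fun a => mu C T M a * qq M (s - a)) (by omega)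
  have e4 : ∑ a ∈ range (s + 1), (toP (muL C T M) (M / 2 + 1)).coeff a *
      (toP (qq M) (M / 2 + 1)).coeff (s - a) = ∑ a ∈ range (s + 1),
      (mu C T M a * qq M (s - a) * Y ^ a + mu C T M a * qq M (s - a) * Y ^ T) := by
    refine sum_congr rfl fun a ha => ?_
    rw [mem_range] at ha
    rw [toP_coeff, toP_coeff, if_pos (by omega), if_pos (by omega), muL_eq]
    ring
  simp only [Nat.succ_eq_add_one, e4]
  refine Lo.of h fun a ha => ?_
  rw [if_pos (by omega), Nat.cast_mul]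
  exact mul_le_mul_of_nonneg_left (qq_bd M _).1 (Nat.cast_nonneg _)

end Pool.Agent.MP_ddaf7c_pr.A.Pk

end MrgPart1

-- marker of a merged file
example : 731051 + 393374 = 731051 + 393374 := rfl
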