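import Mathlib.Data.List.GetD
import Pool.Agent.MP_ddaf7c_pr.A.CsRow

/-! The certificate in the shape used by the kernel program. -/

set_option autoImplicit false

namespace Pool.Agent.MP_ddaf7c_pr.A.Pk

open Finset

noncomputable def be0 (M r : ℕ) : ℝ := 108 / (100 * ((M - r : ℕ) : ℝ) ^ 2)

noncomputable def be1 (M r : ℕ) : ℝ :=
  24 * sN (M - r) / (50000 * (max M 64 : ℕ) * ((M - r : ℕ) : ℝ))

noncomputable def ga (M r : ℕ) : ℝ := 4 * sN (M - r) / (M * sN M * ((M - r : ℕ) : ℝ))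

noncomputable def ka (M : ℕ) : ℝ :=
  24 * sN M * (5 * M + 8) / (250000 * (max M 64 : ℕ) * M * ((M - 1 : ℕ) : ℝ))

theorem sn_eq (N : ℕ) : sn N = sN N := by
  by_cases h : N < 64
  · revert N; decide +kernel
  · rw [sn, rec_ble, if_pos (by omega), sN, List.getD_eq_default _ _ (by simpa using h)]

theorem sN_pos {M : ℕ} (h : 2 ≤ M) : (0 : ℝ) < sN M := by
  have : 0 < sN M := by
    by_cases h1 : M < 64
    · have : ∀ N < 64, 2 ≤ N → 0 < sN N := by decide +kernel
      exact this M h1 h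
    · rw [sN, List.getD_eq_default _ _ (by simpa using h1)]; norm_num
  exact_mod_cast this

theorem mx_eq (M : ℕ) : mx M = max M 64 := by
  rw [mx, cnd, rec_ble]
  split_ifs <;> omega

theorem be0_nonneg (M r : ℕ) : 0 ≤ be0 M r := by unfold be0; positivity
theorem be1_nonneg (M r : ℕ) : 0 ≤ be1 M r := by unfold be1; positivity
theorem ka_nonneg (M : ℕ) : 0 ≤ ka M := by unfold ka; positivity

theorem div_bd {x y : ℕ} {v : ℝ} (h : v = (x : ℝ) / y) :
    ((Nat.div x y : ℕ) : ℝ) ≤ v ∧ v ≤ ((Nat.add (Nat.div x y) 1 : ℕ) : ℝ) := by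
  rw [h, Nat.add_eq, Nat.cast_add, Nat.cast_one]
  exact ⟨div_lo _ _, div_hi _ _⟩

theorem b0_bd (M r : ℕ) : (b0 M r : ℝ) ≤ 17592186044416 * be0 M r ∧
    17592186044416 * be0 M r ≤ ((Nat.add (b0 M r) 1 : ℕ) : ℝ) :=
  div_bd (by simp only [be0, Nat.mul_eq, Nat.pow_eq, Nat.sub_eq]; push_cast; ring)

theorem b1_bd (M r : ℕ) : (b1 M r : ℝ) ≤ 17592186044416 * be1 M r ∧
    17592186044416 * be1 M r ≤ ((Nat.add (b1 M r) 1 : ℕ) : ℝ) :=
  div_bd (by
    simp only [be1, Nat.mul_eq, Nat.sub_eq, sn_eq, mx_eq, Nat.cast_mul, Nat.cast_ofNat]; ring)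

theorem k1_bd (M : ℕ) : (k1 M : ℝ) ≤ 17592186044416 * ka M ∧
    17592186044416 * ka M ≤ ((Nat.add (k1 M) 1 : ℕ) : ℝ) :=
  div_bd (by
    simp only [ka, Nat.mul_eq, Nat.add_eq, Nat.sub_eq, sn_eq, mx_eq, Nat.cast_mul, Nat.cast_add,
      Nat.cast_ofNat]
    ring)

theorem gl_le (M r : ℕ) : (gl M r : ℝ) ≤ 17592186044416 * ga M r :=
  (div_bd (by
    simp only [ga, Nat.mul_eq, Nat.sub_eq, sn_eq, Nat.cast_mul, Nat.cast_ofNat]; ring)).1

theorem om_be {M j k r : ℕ} (h : j + k = M - r) : 27 / 100 * om j k = be0 M r * (j * k) := by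
  rw [om, be0, ← h, Nat.cast_add]
  generalize (j : ℝ) + k = N
  ring

theorem om_ga {M j k r : ℕ} (h : j + k = M - r) (h0 : 0 < j + k) (hM : 2 ≤ M) :
    hh (j + k) / hh M * om j k = ga M r * (j * k) := by
  have h1 := (sN_pos hM).ne'
  have h2 : (M : ℝ) ≠ 0 := by positivity
  have h3 : (j : ℝ) + k ≠ 0 := by exact_mod_cast h0.ne'
  rw [om, ga, ← h, hh, hh]; push_cast; field_simp

theorem pmx_ga {M : ℕ} (r : ℕ) (hM : 2 ≤ M) : pmx M * ga M r = be1 M r := by
  have h1 := (sN_pos hM).ne'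
  have h2 : (M : ℝ) ≠ 0 := by positivity
  have h3 : ((max M 64 : ℕ) : ℝ) ≠ 0 := by positivity
  rw [pmx, ga, be1, hh, tst]
  rcases eq_or_ne ((M - r : ℕ) : ℝ) 0 with h | h
  · simp [h]
  · field_simp; ring

theorem etP_eq (z : ℝ) {M j k r : ℕ} (h : j + k = M - r) (h0 : 0 < j + k) (hM : 2 ≤ M) :
    etP (z * pmx M) M j k = 139 / 100 - (be0 M r + z * be1 M r) * (j * k) := by
  have h1 := om_be h
  have h2 := om_ga h h0 hM
  rw [etP, gam, mul_assoc (z * pmx M), h2, ← pmx_ga r hM]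
  linarith

theorem c1_eq (z : ℝ) {a b : ℕ} (ha : 1 ≤ a) (hb : 1 ≤ b) :
    1 + gam a b - om a b * (z * pmx (a + b)) -
      13 / 5 * om a b * (z * pmx (a + b)) / ((a : ℝ) + b - 1) =
    139 / 100 - (be0 (a + b) 0 + z * ka (a + b)) * (a * b) := by
  have h1 := om_be (M := a + b) (j := a) (k := b) (r := 0) rfl
  have h2 : om a b * pmx (a + b) * (1 + 13 / 5 / ((a : ℝ) + b - 1)) = ka (a + b) * (a * b) := by
    have h3 : ((max (a + b) 64 : ℕ) : ℝ) ≠ 0 := by positivity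
    have h4 : (1 : ℝ) ≤ a := by exact_mod_cast ha
    have h5 : (1 : ℝ) ≤ b := by exact_mod_cast hb
    have h6 : (a : ℝ) + b - 1 ≠ 0 := by linarith
    have h7 : (a : ℝ) + b ≠ 0 := by linarith
    rw [om, pmx, ka, hh, tst, Nat.cast_sub (by omega)]
    simp only [Nat.cast_add, Nat.cast_one]
    field_simp; ring
  rw [gam]
  linear_combination (-1 : ℝ) * h1 - z * h2

theorem QQ_symm {M s : ℕ} (h : s ≤ M) : QQ M (M - s) = QQ M s := by
  rw [QQ, QQ, TT, TT, Nat.sub_sub_self h, mul_comm (tau s)]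

theorem inner_eq (z μ : ℝ) {a b s : ℕ} (h1 : s < a) (h2 : a ≤ b) :
    mS (z * pmx (a + b)) a b s - μ * q2 a b s =
      (139 / 100 - (be0 (a + b) 0 + z * ka (a + b)) * (a * b)) * qS (a + b) s -
      PP a s * (139 / 100 - (be0 (a + b) s + z * be1 (a + b) s) * ((a - s : ℕ) * b)) -
      PP b s * (139 / 100 - (be0 (a + b) s + z * be1 (a + b) s) * (a * (b - s : ℕ))) := by
  have e : ¬2 * s = a + b := by omega
  rw [mS, qS, q2, if_neg e, if_neg e, if_neg (by omega), mm, mm, c1_eq z (by omega) (by omega),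
    QQ_symm (by omega), PP_zero (show a ≤ a + b - s by omega),
    PP_zero (show b ≤ a + b - s by omega), if_pos h1,
    etP_eq z (r := s) (by omega) (by omega) (by omega),
    etP_eq z (j := a) (k := b - s) (r := s) (by omega) (by omega) (by omega)]
  ring

/-- the part of the loss that is kept on lane `a` -/
noncomputable def zz (k M r a : ℕ) : ℝ :=
  if k ≤ a then be0 M r * (a * (M - a - r : ℕ)) else be0 M 0 * (a * (M - a : ℕ))

theorem mm_le (z : ℝ) (k : ℕ) {a b r : ℕ} (ha : 1 ≤ a) (h1 : a < r) (h2 : a ≤ b) :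
    mm (z * pmx (a + b)) a b r ≤
      (139 / 100 - (be0 (a + b) 0 + z * ka (a + b)) * (a * b)) * (QQ (a + b) r / 2) -
      PP b r * (139 / 100 - z * be1 (a + b) r * (a * (b - r : ℕ)) - zz k (a + b) r a) := by
  rw [mm, c1_eq z ha (by omega), PP_zero h1.le, zero_mul, sub_zero, if_neg (by omega)]
  refine sub_le_sub_left ?_ _
  by_cases h : b ≤ r
  · rw [PP_zero h, zero_mul, zero_mul]
  · refine mul_le_mul_of_nonneg_left ?_ (PP_nonneg _ _)
    have e1 := om_be (M := a + b) (j := a) (k := b) (r := 0) rfl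
    have e2 := om_be (M := a + b) (j := a) (k := b - r) (r := r) (by omega)
    have e3 := le_max_left (gam a b - gam a (b - r)) 0
    have e4 := le_max_right (gam a b - gam a (b - r)) 0
    rw [etP_eq z (r := r) (by omega) (by omega) (by omega), zz, Nat.add_sub_cancel_left]
    generalize max (gam a b - gam a (b - r)) 0 = X at e3 e4 ⊢
    unfold gam at e3
    split_ifs <;> linarith

theorem EE_eq (h0 : ABEL) {a b : ℕ} (ha : 1 ≤ a) (hb : a ≤ b) :
    EE a b = om a b * ((a + b - 2 : ℕ) : ℝ) -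
      (∑ r ∈ Icc 1 ((a + b) / 2), ga (a + b) r * (PP a r * ((a - r : ℕ) * b)) +
        ∑ r ∈ Icc 1 (a + b - 1), ga (a + b) r * (PP b r * (a * (b - r : ℕ)))) := by
  have e1 : ∑ r ∈ Icc 1 ((a + b) / 2), ga (a + b) r * (PP a r * ((a - r : ℕ) * b)) =
      ∑ r ∈ Ico 1 a, PP a r * (hh (a - r + b) / hh (a + b) * om (a - r) b) := by
    rw [← sum_subset (s₁ := Ico 1 a) (fun r hr => by rw [mem_Ico] at hr; rw [mem_Icc]; omega)
      fun r h1 h2 => by
        rw [mem_Icc] at h1; rw [mem_Ico] at h2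
        rw [PP_zero (by omega), zero_mul, mul_zero]]
    refine sum_congr rfl fun r hr => ?_
    rw [mem_Ico] at hr
    rw [om_ga (r := r) (by omega) (by omega) (by omega)]; ring
  have e2 : ∑ r ∈ Icc 1 (a + b - 1), ga (a + b) r * (PP b r * (a * (b - r : ℕ))) =
      ∑ r ∈ Ico 1 b, PP b r * (hh (a + (b - r)) / hh (a + b) * om a (b - r)) := by
    rw [← sum_subset (s₁ := Ico 1 b) (fun r hr => by rw [mem_Ico] at hr; rw [mem_Icc]; omega)
      fun r h1 h2 => by
        rw [mem_Icc] at h1; rw [mem_Ico] at h2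
        rw [PP_zero (by omega), zero_mul, mul_zero]]
    refine sum_congr rfl fun r hr => ?_
    rw [mem_Ico] at hr
    rw [om_ga (r := r) (by omega) (by omega) (by omega)]; ring
  rw [e1, e2, EE, Nat.cast_sub (by omega)]
  simp only [mul_sub, sum_sub_distrib, ← sum_mul, h0 a ha, h0 b (by omega)]
  push_cast; ring

end Pool.Agent.MP_ddaf7c_pr.A.Pk
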