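import Mathlib.Algebra.Ring.IsFormallyReal
import Mathlib.Analysis.Complex.ExponentialBounds
import Pool.Agent.MP_ddaf7c_pr.A.Hinge

/-! The weighted sum of the inner certificate is nonnegative. -/

set_option autoImplicit false

namespace Pool.Agent.MP_ddaf7c_pr.A

open Finset Real

namespace FA

/-- lower bound of `10^12 * ee r` -/
def lo (r : ℕ) : ℕ := 10 ^ 12 * r ^ (r - 1) * 36787944 ^ r / (r.factorial * 100000000 ^ r)

/-- upper bound of `10^12 * ee r` -/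
def hi (r : ℕ) : ℕ := 10 ^ 12 * r ^ (r - 1) * 36787945 ^ r / (r.factorial * 100000000 ^ r) + 1

theorem ee_eq (r : ℕ) : ee r = (r : ℝ) ^ (r - 1) / r.factorial * exp (-1) ^ r := by
  rw [ee, tau, ← Real.exp_nat_mul]
  congr 2
  ring

theorem lo_le (r : ℕ) : (lo r : ℝ) ≤ 10 ^ 12 * ee r := by
  have h1 : (36787944 / 100000000 : ℝ) ≤ exp (-1) := by
    have := Real.exp_neg_one_gt_d9
    linarith
  have h2 : (36787944 / 100000000 : ℝ) ^ r ≤ exp (-1) ^ r := pow_le_pow_left₀ (by norm_num) h1 r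
  refine Nat.cast_div_le.trans ?_
  rw [ee_eq]
  push_cast
  calc _ = 10 ^ 12 * ((r : ℝ) ^ (r - 1) / r.factorial * (36787944 / 100000000 : ℝ) ^ r) := by
        rw [div_pow]; field_simp; norm_num
    _ ≤ _ := by gcongr

theorem le_hi (r : ℕ) : 10 ^ 12 * ee r ≤ (hi r : ℝ) := by
  have h1 : exp (-1) ≤ (36787945 / 100000000 : ℝ) := by
    have := Real.exp_neg_one_lt_d9
    linarith
  have h2 : exp (-1) ^ r ≤ (36787945 / 100000000 : ℝ) ^ r :=
    pow_le_pow_left₀ (exp_pos _).le h1 r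
  have hp : 0 < r.factorial * 100000000 ^ r := by positivity
  have h3 := Nat.lt_div_mul_add (a := 10 ^ 12 * r ^ (r - 1) * 36787945 ^ r) hp
  have h4 : ((10 ^ 12 * r ^ (r - 1) * 36787945 ^ r : ℕ) : ℝ) ≤
      (hi r : ℝ) * ((r.factorial * 100000000 ^ r : ℕ) : ℝ) := by
    rw [← Nat.cast_mul, Nat.cast_le, hi, add_mul, one_mul]
    exact h3.le
  rw [← div_le_iff₀ (Nat.cast_pos.2 hp)] at h4
  refine le_trans ?_ h4
  rw [ee_eq]
  push_cast
  calc _ ≤ 10 ^ 12 * ((r : ℝ) ^ (r - 1) / r.factorial * (36787945 / 100000000 : ℝ) ^ r) := by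
        gcongr
    _ = _ := by rw [div_pow]; field_simp; norm_num

/-- the largest weight, times `16384` -/
def top (a : ℕ) : ℕ := if a ≤ 128 then a * (256 - a) else 16384

/-- the test at the two ends -/
def ok (a s0 s1 s2 : ℕ) : Bool :=
  Nat.ble (117 * s2) (66 * a * s1) &&
    Nat.ble (1170 * 16384 * s2 + 315 * top a * a * s1 + 314 * top a * a * s0)
      (660 * 16384 * a * s1 + 314 * top a * s1 + 350 * top a * s2)

/-- the loop -/
def go : ℕ → ℕ → ℕ → ℕ → ℕ → Bool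
  | 0, _, _, _, _ => true
  | f + 1, a, s0, s1, s2 =>
    ok a s0 s1 s2 && go f (a + 1) (s0 + hi a) (s1 + a * lo a) (s2 + a * a * hi a)

theorem run : go 168 1 0 0 0 = true := by decide +kernel

/-- the moments -/
noncomputable def S (k a : ℕ) : ℝ := ∑ r ∈ Ico 1 a, (r : ℝ) ^ k * ee r

theorem S_succ (k : ℕ) {a : ℕ} (h : 1 ≤ a) : S k (a + 1) = S k a + (a : ℝ) ^ k * ee a :=
  sum_Ico_succ_top h _

theorem sum_eq (a : ℕ) (w : ℝ) : ∑ r ∈ Ico 1 a, ee r * cc a w r =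
    ((0.66 - 0.315 * w) * a + 0.314 * w) * S 1 a - (1.17 - 0.35 * w) * S 2 a -
      0.314 * w * a * S 0 a := by
  simp only [S, mul_sum, ← sum_sub_distrib]
  refine sum_congr rfl fun r _ => ?_
  rw [cc]
  ring

theorem of_ok {a s0 s1 s2 : ℕ} (h : ok a s0 s1 s2 = true) (h0 : 10 ^ 12 * S 0 a ≤ s0)
    (h1 : (s1 : ℝ) ≤ 10 ^ 12 * S 1 a) (h2 : 10 ^ 12 * S 2 a ≤ s2) {w : ℝ} (w0 : 0 ≤ w)
    (w1 : w ≤ 1) (w2 : 16384 * w ≤ top a) : 0 ≤ ∑ r ∈ Ico 1 a, ee r * cc a w r := by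
  rw [ok, Bool.and_eq_true, Nat.ble_eq, Nat.ble_eq] at h
  obtain ⟨k1, k2⟩ := h
  have k1 := (Nat.cast_le (α := ℝ)).2 k1
  have k2 := (Nat.cast_le (α := ℝ)).2 k2
  push_cast at k1 k2
  have ha : (0 : ℝ) ≤ a := Nat.cast_nonneg a
  rw [sum_eq]
  have e1 := mul_le_mul_of_nonneg_left h1
    (show 0 ≤ (0.66 - 0.315 * w) * a + 0.314 * w from
      add_nonneg (mul_nonneg (by linarith) ha) (by linarith))
  have e2 := mul_le_mul_of_nonneg_left h2 (show 0 ≤ 1.17 - 0.35 * w by linarith)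
  have e0 := mul_le_mul_of_nonneg_left h0 (show 0 ≤ 0.314 * w * a by positivity)
  have key : 0 ≤ ((0.66 - 0.315 * w) * a + 0.314 * w) * s1 - (1.17 - 0.35 * w) * s2 -
      0.314 * w * a * s0 := by
    rcases le_total 0 (315 * (a : ℝ) * s1 + 314 * a * s0 - 314 * s1 - 350 * s2) with hB | hB
    · have := mul_le_mul_of_nonneg_right w2 hB
      nlinarith
    · have := mul_nonneg w0 (neg_nonneg.2 hB)
      nlinarith
  nlinarith

theorem of_go (f : ℕ) : ∀ a s0 s1 s2 : ℕ, 1 ≤ a → go f a s0 s1 s2 = true →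
    10 ^ 12 * S 0 a ≤ s0 → (s1 : ℝ) ≤ 10 ^ 12 * S 1 a → 10 ^ 12 * S 2 a ≤ s2 →
    ∀ b, a ≤ b → b < a + f → ∀ w : ℝ, 0 ≤ w → w ≤ 1 → 16384 * w ≤ top b →
      0 ≤ ∑ r ∈ Ico 1 b, ee r * cc b w r := by
  induction f with
  | zero => intro a _ _ _ _ _ _ _ _ b h1 h2; omega
  | succ f ih =>
    intro a s0 s1 s2 ha h h0 h1 h2 b hb hb' w w0 w1 w2
    rw [go, Bool.and_eq_true] at h
    rcases hb.eq_or_lt with rfl | hb
    · exact of_ok h.1 h0 h1 h2 w0 w1 w2
    have ha' : (0 : ℝ) ≤ a := Nat.cast_nonneg a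
    have l := lo_le a
    have u := le_hi a
    refine ih (a + 1) _ _ _ (by omega) h.2 ?_ ?_ ?_ b hb (by omega) w w0 w1 w2
    · rw [S_succ _ ha]; push_cast; linarith
    · rw [S_succ _ ha]; push_cast
      have := mul_le_mul_of_nonneg_left l ha'
      linarith
    · rw [S_succ _ ha]; push_cast
      have := mul_le_mul_of_nonneg_left u (mul_nonneg ha' ha')
      linarith

theorem step {c e x y : ℝ} (hc : 0 ≤ c) (hx : 1 ≤ x) (hy : 0 ≤ y) (h : y ^ 2 = x ^ 2 + 1)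
    (l : c * (1 - 1 / (12 * x ^ 2)) ≤ e * (x ^ 2 * x)) (u : e * (x ^ 2 * x) ≤ c) :
    2 * c * (y - x) ≤ x ^ 2 * e ∧ (x ^ 2) ^ 2 * e ≤ 2 / 3 * c * (y ^ 2 * y - x ^ 2 * x) ∧
      e ≤ 7 / 2 * c * (1 / x - 1 / y) := by
  have x0 : 0 < x := by linarith
  have hxy : x < y := by nlinarith
  have y0 : 0 < y := by linarith
  have h2 : y ≤ 2 * x := by nlinarith
  have h3 : (y - x) * (y + x) = 1 := by linarith
  refine ⟨?_, ?_, ?_⟩
  · have h4 : 1 / (12 * x ^ 2) ≤ (y - x) ^ 2 := by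
      rw [div_le_iff₀ (by positivity)]
      have h5 : (y + x) ^ 2 ≤ 12 * x ^ 2 := by nlinarith
      calc (1 : ℝ) = (y - x) ^ 2 * (y + x) ^ 2 := by rw [← mul_pow, h3, one_pow]
        _ ≤ _ := by gcongr
    have h6 : 2 * (y - x) * x ≤ 1 - 1 / (12 * x ^ 2) := by nlinarith
    have h7 := mul_le_mul_of_nonneg_left h6 hc
    refine le_of_mul_le_mul_right ?_ x0
    nlinarith
  · have h4 : x ≤ 2 / 3 * (y ^ 2 * y - x ^ 2 * x) := by
      have := mul_nonneg (sq_nonneg (y - x)) (show 0 ≤ 2 * y + x by linarith)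
      have e3 : x * (y ^ 2 - x ^ 2) = x := by rw [h]; ring
      nlinarith
    have h5 := mul_le_mul_of_nonneg_left h4 hc
    have h6 := mul_le_mul_of_nonneg_left u x0.le
    nlinarith
  · have h4 : y * (y + x) ≤ 7 / 2 * x ^ 2 := by nlinarith [sq_nonneg (y - x)]
    have h5 : y ≤ 7 / 2 * x ^ 2 * (y - x) := by
      calc y = y * (y + x) * (y - x) := by rw [mul_assoc, mul_comm (y + x), h3, mul_one]
        _ ≤ _ := mul_le_mul_of_nonneg_right h4 (by linarith)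
    have h6 : 1 ≤ 7 / 2 * (1 / x - 1 / y) * (x ^ 2 * x) := by
      have : 7 / 2 * (1 / x - 1 / y) * (x ^ 2 * x) = 7 / 2 * x ^ 2 * (y - x) / y := by
        field_simp
      rw [this, le_div_iff₀ y0, one_mul]
      exact h5
    have h7 := mul_le_mul_of_nonneg_left h6 hc
    refine le_of_mul_le_mul_right ?_ (show 0 < x ^ 2 * x by positivity)
    nlinarith

theorem moments (h : STIR) (a : ℕ) (ha : 1 ≤ a) : 2 * c0 * (√a - 1) ≤ S 1 a ∧
    S 2 a ≤ 2 / 3 * c0 * (a * √a) ∧ S 0 a ≤ 7 / 2 * c0 * (1 - 1 / √a) := by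
  have hc : 0 ≤ c0 := by linarith [h.1.1]
  induction a, ha using Nat.le_induction with
  | base => simp [S]; positivity
  | succ a ha ih =>
    obtain ⟨i1, i2, i0⟩ := ih
    obtain ⟨l, u⟩ := h.2.1 a ha
    have a1 : (1 : ℝ) ≤ a := Nat.one_le_cast.2 ha
    have e1 : √(a : ℝ) ^ 2 = a := Real.sq_sqrt (by linarith)
    have e2 : √((a : ℝ) + 1) ^ 2 = a + 1 := Real.sq_sqrt (by linarith)
    obtain ⟨s1, s2, s0⟩ := step (e := ee a) (x := √a) (y := √((a : ℝ) + 1)) hc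
      (Real.one_le_sqrt.2 a1) (Real.sqrt_nonneg _) (by rw [e1, e2]) (by rw [e1]; exact l)
      (by rw [e1]; exact u)
    rw [e1] at s1 s2
    rw [e2] at s2
    rw [S_succ _ ha, S_succ _ ha, S_succ _ ha]
    push_cast
    refine ⟨?_, ?_, ?_⟩ <;> linarith

end FA

theorem fa (h : STIR) : FA := by
  intro a w ha w0 w1 w2
  have a2 : (2 : ℝ) ≤ a := by exact_mod_cast ha
  constructor
  · rw [cc]
    push_cast
    rcases le_or_gt a 16 with h1 | h1
    · have h2 : (a : ℝ) ≤ 16 := by exact_mod_cast h1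
      have h3 := w2 (by omega)
      have h4 : w ≤ 1 / 4 := by nlinarith
      nlinarith
    · have h2 : (17 : ℝ) ≤ a := by exact_mod_cast h1
      nlinarith
  rcases lt_or_ge a 169 with h1 | h1
  · refine FA.of_go 168 1 0 0 0 le_rfl FA.run (by simp [FA.S]) (by simp [FA.S]) (by simp [FA.S]) a
      (by omega) (by omega) w w0 w1 ?_
    rw [FA.top]
    split_ifs with h2
    · have := w2 h2
      rw [Nat.cast_mul, Nat.cast_sub (by omega)]
      push_cast
      linarith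
    · push_cast
      linarith
  · obtain ⟨i1, i2, i0⟩ := FA.moments h a (by omega)
    have hc : 0 ≤ c0 := by linarith [h.1.1]
    have h2 : (13 : ℝ) ≤ √a := Real.le_sqrt_of_sq_le (by exact_mod_cast h1)
    have i3 : FA.S 0 a ≤ 7 / 2 * c0 := by
      have : 0 ≤ c0 * (1 / √a) := by positivity
      linarith
    have i4 : 0 ≤ FA.S 1 a := le_trans (mul_nonneg (by linarith) (by linarith)) i1
    rw [FA.sum_eq]
    have e1 := mul_le_mul_of_nonneg_left i1
      (show 0 ≤ (0.66 - 0.315 * w) * a from mul_nonneg (by linarith) (by linarith))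
    have e2 := mul_le_mul_of_nonneg_left i2 (show 0 ≤ 1.17 - 0.35 * w by linarith)
    have e0 := mul_le_mul_of_nonneg_left i3 (show 0 ≤ 0.314 * w * a by positivity)
    have e4 : 0 ≤ 0.314 * w * FA.S 1 a := by positivity
    have e5 : 0 ≤ (0.66 - 0.315 * w) * 2 * (√a - 1) - (1.17 - 0.35 * w) * (2 / 3) * √a -
        0.314 * w * (7 / 2) := by nlinarith
    have e6 := mul_nonneg (mul_nonneg hc (show (0 : ℝ) ≤ a by linarith)) e5
    nlinarith

end Pool.Agent.MP_ddaf7c_pr.A
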