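import Mathlib.CategoryTheory.Category.Init
import Mathlib.Tactic.Bound
import Mathlib.Algebra.Order.Star.Real
import Mathlib.Tactic.Algebra.Basic

/-!
A small verified evaluator: expressions in two real variables, affine forms in fixed point
arithmetic with outward rounding, bisection of a box.
-/

set_option autoImplicit false

namespace Pool.Agent.MP_ddaf7c_pr.A.Iv

open Real

/-- expressions; `c n d` is `n / d`, `lt p q` evaluates `q` with the value of `p` as variable `0` -/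
inductive Ex where
  | c (n : ℤ) (d : ℕ) : Ex
  | v (i : ℕ) : Ex
  | add (p q : Ex) : Ex
  | neg (p : Ex) : Ex
  | mul (p q : Ex) : Ex
  | inv (p : Ex) : Ex
  | sqrt (p : Ex) : Ex
  | lt (p q : Ex) : Ex

noncomputable def Ex.val : Ex → List ℝ → ℝ
  | .c n d, _ => (n : ℝ) / d
  | .v i, ρ => ρ.getD i 0
  | .add p q, ρ => p.val ρ + q.val ρ
  | .neg p, ρ => -p.val ρ
  | .mul p q, ρ => p.val ρ * q.val ρ
  | .inv p, ρ => (p.val ρ)⁻¹
  | .sqrt p, ρ => √(p.val ρ)
  | .lt p q, ρ => q.val (p.val ρ :: ρ)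

/-- the scale `2 ^ 40` -/
def D : ℤ := 1099511627776

/-- centre, two slopes, error bound, validity -/
structure Af where
  c : ℤ
  a : ℤ
  b : ℤ
  e : ℤ
  ok : Bool

def Af.mem (A : Af) (u v z : ℝ) : Prop :=
  A.ok = true → |z * D - (A.c + A.a * u + A.b * v)| ≤ A.e

noncomputable def fN {α : Type} (x : ℕ) (k : ℕ → α) : α :=
  @Nat.rec (fun _ => α) (k 0) (fun n _ => k (Nat.succ n)) x

noncomputable def fZ {α : Type} (x : ℤ) (k : ℤ → α) : α :=
  @Int.rec (fun _ => α) (fun n => fN n fun m => k (Int.ofNat m))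
    (fun n => fN n fun m => k (Int.negSucc m)) x

noncomputable def fB {α : Type} (x : Bool) (k : Bool → α) : α :=
  @Bool.rec (fun _ => α) (k false) (k true) x

noncomputable def fA {α : Type} (x : Af) (k : Af → α) : α :=
  @Af.rec (fun _ => α) (fun c a b e o => k ⟨c, a, b, e, o⟩) x

theorem fN_eq {α : Type} (x : ℕ) (k : ℕ → α) : fN x k = k x := by cases x <;> rfl

theorem fZ_eq {α : Type} (x : ℤ) (k : ℤ → α) : fZ x k = k x := by
  cases x with
  | ofNat n => exact fN_eq n fun m => k (Int.ofNat m)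
  | negSucc n => exact fN_eq n fun m => k (Int.negSucc m)

theorem fB_eq {α : Type} (x : Bool) (k : Bool → α) : fB x k = k x := by cases x <;> rfl

theorem fA_eq {α : Type} (x : Af) (k : Af → α) : fA x k = k x := rfl

/-- an affine form with evaluated fields -/
noncomputable def mkA (c a b e : ℤ) (o : Bool) : Af :=
  fZ c fun c => fZ a fun a => fZ b fun b => fZ e fun e => fB o fun o => ⟨c, a, b, e, o⟩

theorem mkA_eq (c a b e : ℤ) (o : Bool) : mkA c a b e o = ⟨c, a, b, e, o⟩ := by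
  simp only [mkA, fZ_eq, fB_eq]

def ab (x : ℤ) : ℤ := Int.ofNat x.natAbs

theorem ab_cast (x : ℤ) : ((ab x : ℤ) : ℝ) = |(x : ℝ)| := by
  simp [ab]

def Af.rad (A : Af) : ℤ := ab A.a + ab A.b + A.e

def bad : Af := ⟨0, 0, 0, 0, false⟩

/-- `(n * A + m) / d` with the extra error `x / y` -/
noncomputable def lin (A : Af) (n m d x y : ℤ) : Af :=
  mkA ((n * A.c + m) / d) (n * A.a / d) (n * A.b / d) (ab n * A.e / d + x / y + 5)
    (A.ok && decide (0 < d) && decide (0 < y))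

noncomputable def Af.add (A B : Af) : Af :=
  mkA (A.c + B.c) (A.a + B.a) (A.b + B.b) (A.e + B.e) (A.ok && B.ok)

noncomputable def Af.neg (A : Af) : Af := mkA (-A.c) (-A.a) (-A.b) A.e A.ok

noncomputable def Af.mul (A B : Af) : Af :=
  mkA (A.c * B.c / D) ((A.c * B.a + A.a * B.c) / D) ((A.c * B.b + A.b * B.c) / D)
    ((ab A.c * B.e + ab B.c * A.e + A.rad * B.rad) / D + 4) (A.ok && B.ok)

noncomputable def Af.inv (A : Af) : Af :=
  fZ (D * D / A.c) fun k => fZ A.rad fun r => fZ (ab (D * D - k * A.c) + ab k * r) fun m =>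
    lin A (-(k * k)) (2 * k * (D * D)) (D * D) (m * m) (D * D * (A.c - r))

noncomputable def Af.sqrt (A : Af) : Af :=
  fZ (Int.ofNat (Nat.sqrt (A.c * D).toNat)) fun n =>
    fZ (ab (A.c * D - n * n) + A.rad * D) fun m =>
      lin A D (n * n) (2 * n) (m * m) (2 * (n * n * n))

noncomputable def Ex.aff : Ex → List Af → Af
  | .c n d, _ => mkA (n * D / d) 0 0 1 (decide (0 < d))
  | .v i, σ => σ.getD i bad
  | .add p q, σ => fA (p.aff σ) fun A => fA (q.aff σ) fun B => A.add B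
  | .neg p, σ => fA (p.aff σ) fun A => A.neg
  | .mul p q, σ => fA (p.aff σ) fun A => fA (q.aff σ) fun B => A.mul B
  | .inv p, σ => fA (p.aff σ) fun A => A.inv
  | .sqrt p, σ => fA (p.aff σ) fun A => A.sqrt
  | .lt p q, σ => fA (p.aff σ) fun A => q.aff (A :: σ)

theorem D_pos : (0 : ℝ) < (D : ℤ) := by unfold D; norm_num

theorem ediv_bd (n : ℤ) {d : ℤ} (hd : 0 < d) :
    ((n / d : ℤ) : ℝ) ≤ (n : ℝ) / d ∧ (n : ℝ) / d ≤ ((n / d : ℤ) : ℝ) + 1 := by
  have h0 : (0 : ℝ) < d := by exact_mod_cast hd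
  have h1 : n / d * d ≤ n := Int.ediv_mul_le n hd.ne'
  have h2 : n < (n / d + 1) * d := Int.lt_ediv_add_one_mul_self n hd
  rw [le_div_iff₀ h0, div_le_iff₀ h0]
  exact ⟨by exact_mod_cast h1, by exact_mod_cast h2.le⟩

/-- rounding of the three coefficients costs at most `3` -/
theorem round3 {u v : ℝ} (hu : |u| ≤ 1) (hv : |v| ≤ 1) (c a b : ℤ) {d : ℤ} (hd : 0 < d) :
    |((c : ℝ) + a * u + b * v) / d -
      (((c / d : ℤ) : ℝ) + ((a / d : ℤ) : ℝ) * u + ((b / d : ℤ) : ℝ) * v)| ≤ 3 := by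
  obtain ⟨c1, c2⟩ := ediv_bd c hd
  obtain ⟨a1, a2⟩ := ediv_bd a hd
  obtain ⟨b1, b2⟩ := ediv_bd b hd
  have e : ((c : ℝ) + a * u + b * v) / d -
      (((c / d : ℤ) : ℝ) + ((a / d : ℤ) : ℝ) * u + ((b / d : ℤ) : ℝ) * v) =
      ((c : ℝ) / d - ((c / d : ℤ) : ℝ)) + ((a : ℝ) / d - ((a / d : ℤ) : ℝ)) * u +
        ((b : ℝ) / d - ((b / d : ℤ) : ℝ)) * v := by ring
  rw [e]
  rw [abs_le] at hu hv ⊢
  constructor <;> nlinarith

theorem Af.mem.rad {A : Af} {u v z : ℝ} (h : A.mem u v z) (ho : A.ok = true) (hu : |u| ≤ 1)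
    (hv : |v| ≤ 1) : |z * D - A.c| ≤ A.rad := by
  have h1 := h ho
  have e : z * D - A.c = (z * D - (A.c + A.a * u + A.b * v)) + (A.a * u + A.b * v) := by ring
  have h2 : |(A.a : ℝ) * u| ≤ |(A.a : ℝ)| := by
    rw [abs_mul]; exact mul_le_of_le_one_right (abs_nonneg _) hu
  have h3 : |(A.b : ℝ) * v| ≤ |(A.b : ℝ)| := by
    rw [abs_mul]; exact mul_le_of_le_one_right (abs_nonneg _) hv
  have h4 := abs_add_le ((A.a : ℝ) * u) (A.b * v)
  have h5 := abs_add_le (z * D - (A.c + A.a * u + A.b * v)) (A.a * u + A.b * v)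
  rw [e]
  unfold Af.rad
  push_cast [ab_cast]
  linarith

theorem lin_mem {A : Af} {u v z w : ℝ} (h : A.mem u v z) (hu : |u| ≤ 1) (hv : |v| ≤ 1)
    {n m d x y : ℤ}
    (hw : A.ok = true → 0 < d → 0 < y → |w * D - (n * (z * D) + m) / d| ≤ (x : ℝ) / y) :
    (lin A n m d x y).mem u v w := by
  unfold lin
  rw [mkA_eq]
  intro ho
  simp only [Bool.and_eq_true, decide_eq_true_eq] at ho
  obtain ⟨⟨ho, hd⟩, hy⟩ := ho
  have h0 : (0 : ℝ) < d := by exact_mod_cast hd
  have h1 := h ho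
  have h2 := hw ho hd hy
  have h3 := round3 hu hv (n * A.c + m) (n * A.a) (n * A.b) hd
  have h4 := (ediv_bd (ab n * A.e) hd).2
  have h5 := (ediv_bd x hy).2
  have h6 : |(n * (z * D) + m) / d -
      (((n * A.c + m : ℤ) : ℝ) + ((n * A.a : ℤ) : ℝ) * u + ((n * A.b : ℤ) : ℝ) * v) / d| ≤
      ((ab n * A.e : ℤ) : ℝ) / d := by
    rw [← sub_div, abs_div, abs_of_pos h0]
    refine div_le_div_of_nonneg_right ?_ h0.le
    have e : (n * (z * D) + m) -
        (((n * A.c + m : ℤ) : ℝ) + ((n * A.a : ℤ) : ℝ) * u + ((n * A.b : ℤ) : ℝ) * v) =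
        n * (z * D - (A.c + A.a * u + A.b * v)) := by push_cast; ring
    rw [e, abs_mul]
    push_cast [ab_cast]
    exact mul_le_mul_of_nonneg_left h1 (abs_nonneg _)
  simp only [Int.cast_add, Int.cast_ofNat] at h3 h6 ⊢
  rw [abs_le] at h2 h3 h6 ⊢
  constructor <;> linarith [h2.1, h2.2, h3.1, h3.2, h6.1, h6.2]

theorem add_mem {A B : Af} {u v z w : ℝ} (h : A.mem u v z) (k : B.mem u v w) :
    (A.add B).mem u v (z + w) := by
  unfold Af.add
  rw [mkA_eq]
  intro ho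
  simp only [Bool.and_eq_true] at ho
  have h1 := abs_le.1 (h ho.1)
  have h2 := abs_le.1 (k ho.2)
  push_cast
  rw [abs_le]
  constructor <;> linarith [h1.1, h1.2, h2.1, h2.2]

theorem neg_mem {A : Af} {u v z : ℝ} (h : A.mem u v z) : A.neg.mem u v (-z) := by
  unfold Af.neg
  rw [mkA_eq]
  intro ho
  have h1 := abs_le.1 (h ho)
  push_cast
  rw [abs_le]
  constructor <;> linarith [h1.1, h1.2]

theorem mul_mem {A B : Af} {u v z w : ℝ} (h : A.mem u v z) (k : B.mem u v w) (hu : |u| ≤ 1)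
    (hv : |v| ≤ 1) : (A.mul B).mem u v (z * w) := by
  unfold Af.mul
  rw [mkA_eq]
  intro ho
  simp only [Bool.and_eq_true] at ho
  have hD : 0 < D := by decide
  have h1 := h ho.1
  have h2 := k ho.2
  have r1 := h.rad ho.1 hu hv
  have r2 := k.rad ho.2 hu hv
  have h3 := round3 hu hv (A.c * B.c) (A.c * B.a + A.a * B.c) (A.c * B.b + A.b * B.c) hD
  have h4 := (ediv_bd (ab A.c * B.e + ab B.c * A.e + A.rad * B.rad) hD).2
  have h6 : |z * w * D - (((A.c * B.c : ℤ) : ℝ) + ((A.c * B.a + A.a * B.c : ℤ) : ℝ) * u +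
      ((A.c * B.b + A.b * B.c : ℤ) : ℝ) * v) / D| ≤
      ((ab A.c * B.e + ab B.c * A.e + A.rad * B.rad : ℤ) : ℝ) / D := by
    have e : z * w * D - (((A.c * B.c : ℤ) : ℝ) + ((A.c * B.a + A.a * B.c : ℤ) : ℝ) * u +
        ((A.c * B.b + A.b * B.c : ℤ) : ℝ) * v) / D =
        (A.c * (w * D - (B.c + B.a * u + B.b * v)) + B.c * (z * D - (A.c + A.a * u + A.b * v)) +
          (z * D - A.c) * (w * D - B.c)) / D := by
      have := D_pos.ne'
      push_cast
      field_simp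
      ring
    rw [e, abs_div, abs_of_pos D_pos]
    refine div_le_div_of_nonneg_right ((abs_add_three _ _ _).trans ?_) D_pos.le
    simp only [abs_mul, Int.cast_add, Int.cast_mul, ab_cast]
    exact add_le_add (add_le_add (mul_le_mul_of_nonneg_left h2 (abs_nonneg _))
      (mul_le_mul_of_nonneg_left h1 (abs_nonneg _)))
      (mul_le_mul r1 r2 (abs_nonneg _) ((abs_nonneg _).trans r1))
  simp only [Int.cast_add (_ / D), Int.cast_ofNat]
  rw [abs_le] at h3 h6 ⊢
  constructor <;> linarith [h3.1, h3.2, h6.1, h6.2]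

theorem sq_le_of_abs {x m : ℝ} (h : |x| ≤ m) : x ^ 2 ≤ m * m := by
  rw [← sq_abs, sq]
  exact mul_le_mul h h (abs_nonneg _) ((abs_nonneg _).trans h)

theorem inv_mem {A : Af} {u v z : ℝ} (h : A.mem u v z) (hu : |u| ≤ 1) (hv : |v| ≤ 1) :
    A.inv.mem u v z⁻¹ := by
  unfold Af.inv
  simp only [fZ_eq]
  generalize D * D / A.c = k
  refine lin_mem h hu hv fun ho _ hy => ?_
  have r := h.rad ho hu hv
  have hD := D_pos
  have l0 : (0 : ℝ) < A.c - A.rad := by
    have : (0 : ℝ) < D * D * (A.c - A.rad) := by exact_mod_cast hy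
    exact (mul_pos_iff_of_pos_left (by positivity)).1 this
  have l1 : (A.c : ℝ) - A.rad ≤ z * D := by linarith [(abs_le.1 r).1]
  have z0 : 0 < z := (mul_pos_iff_of_pos_right hD).1 (l0.trans_le l1)
  have m : |(D : ℝ) * D - k * (z * D)| ≤ |(D : ℝ) * D - k * A.c| + |(k : ℝ)| * A.rad := by
    have e : (D : ℝ) * D - k * (z * D) = (D * D - k * A.c) - k * (z * D - A.c) := by ring
    rw [e]
    refine (abs_sub _ _).trans (add_le_add le_rfl ?_)
    rw [abs_mul]
    exact mul_le_mul_of_nonneg_left r (abs_nonneg _)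
  have e : z⁻¹ * D - (((-(k * k) : ℤ) : ℝ) * (z * D) + ((2 * k * (D * D) : ℤ) : ℝ)) /
      ((D * D : ℤ) : ℝ) = ((D : ℝ) * D - k * (z * D)) ^ 2 / (D * D * (z * D)) := by
    push_cast
    field_simp
    ring
  rw [e, abs_of_nonneg (by positivity)]
  push_cast [ab_cast]
  exact div_le_div₀ (mul_self_nonneg _) (sq_le_of_abs m) (by positivity)
    (mul_le_mul_of_nonneg_left l1 (by positivity))

theorem sqrt_lin (z : ℝ) {q : ℝ} (hq : 0 < q) :
    |√z - (z + q ^ 2) / (2 * q)| ≤ (z - q ^ 2) ^ 2 / (2 * q ^ 3) := by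
  rcases le_total 0 z with hz | hz
  · obtain ⟨s, hs, rfl⟩ : ∃ s, 0 ≤ s ∧ z = s ^ 2 := ⟨√z, sqrt_nonneg z, (sq_sqrt hz).symm⟩
    have e : s - (s ^ 2 + q ^ 2) / (2 * q) = -((s - q) ^ 2 * q ^ 2 / (2 * q ^ 3)) := by
      field_simp
      ring
    rw [sqrt_sq hs, e, abs_neg, abs_of_nonneg (by positivity)]
    refine div_le_div_of_nonneg_right ?_ (by positivity)
    have e2 : (s ^ 2 - q ^ 2) ^ 2 = (s - q) ^ 2 * (s + q) ^ 2 := by ring
    rw [e2]
    exact mul_le_mul_of_nonneg_left (by nlinarith) (sq_nonneg _)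
  · have e : (0 : ℝ) - (z + q ^ 2) / (2 * q) = -((z + q ^ 2) * q ^ 2) / (2 * q ^ 3) := by
      field_simp
      ring
    rw [sqrt_eq_zero_of_nonpos hz, e, abs_div, abs_of_pos (by positivity : 0 < 2 * q ^ 3)]
    refine div_le_div_of_nonneg_right ?_ (by positivity)
    have := sq_nonneg q
    rw [abs_le]
    constructor <;> nlinarith [sq_nonneg z, mul_nonneg (neg_nonneg.2 hz) this]

theorem sqrt_mem {A : Af} {u v z : ℝ} (h : A.mem u v z) (hu : |u| ≤ 1) (hv : |v| ≤ 1) :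
    A.sqrt.mem u v (√z) := by
  unfold Af.sqrt
  simp only [fZ_eq]
  generalize Int.ofNat (Nat.sqrt (A.c * D).toNat) = n
  refine lin_mem h hu hv fun ho hd _ => ?_
  have r := h.rad ho hu hv
  have hD := D_pos
  have n0 : (0 : ℝ) < n := by exact_mod_cast (by omega : 0 < n)
  have m : |z * D * D - n * n| ≤ |(A.c : ℝ) * D - n * n| + A.rad * D := by
    have e : z * D * D - n * n = ((A.c : ℝ) * D - n * n) + (z * D - A.c) * D := by ring
    rw [e]
    refine (abs_add_le _ _).trans (add_le_add le_rfl ?_)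
    rw [abs_mul, abs_of_pos hD]
    exact mul_le_mul_of_nonneg_right r hD.le
  have s := mul_le_mul_of_nonneg_right (sqrt_lin z (div_pos n0 hD)) hD.le
  have e1 : √z * D - ((D : ℝ) * (z * D) + ((n * n : ℤ) : ℝ)) / ((2 * n : ℤ) : ℝ) =
      (√z - (z + ((n : ℝ) / D) ^ 2) / (2 * ((n : ℝ) / D))) * D := by
    push_cast
    field_simp
  have e2 : (z - ((n : ℝ) / D) ^ 2) ^ 2 / (2 * ((n : ℝ) / D) ^ 3) * D =
      (z * D * D - n * n) ^ 2 / (2 * (n * n * n)) := by
    field_simp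
  rw [e1, abs_mul, abs_of_pos hD]
  refine s.trans ?_
  rw [e2]
  push_cast [ab_cast]
  exact div_le_div_of_nonneg_right (sq_le_of_abs m) (by positivity)

theorem aff_mem {u v : ℝ} (hu : |u| ≤ 1) (hv : |v| ≤ 1) (e : Ex) : ∀ (σ : List Af) (ρ : List ℝ),
    (∀ i, (σ.getD i bad).mem u v (ρ.getD i 0)) → (e.aff σ).mem u v (e.val ρ) := by
  induction e with
  | c n d =>
    intro σ ρ _
    simp only [Ex.aff, Ex.val, mkA_eq]
    intro ho
    have hd : 0 < (d : ℤ) := by simpa using ho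
    have := ediv_bd (n * D) hd
    have e : (n : ℝ) / d * D = ((n * D : ℤ) : ℝ) / ((d : ℤ) : ℝ) := by push_cast; ring
    rw [e, abs_le]
    simp only [Int.cast_zero, Int.cast_one, zero_mul, add_zero]
    constructor <;> linarith [this.1, this.2]
  | v i => exact fun σ ρ h => h i
  | add p q hp hq => exact fun σ ρ h => add_mem (hp σ ρ h) (hq σ ρ h)
  | neg p hp => exact fun σ ρ h => neg_mem (hp σ ρ h)
  | mul p q hp hq => exact fun σ ρ h => mul_mem (hp σ ρ h) (hq σ ρ h) hu hv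
  | inv p hp => exact fun σ ρ h => inv_mem (hp σ ρ h) hu hv
  | sqrt p hp => exact fun σ ρ h => sqrt_mem (hp σ ρ h) hu hv
  | lt p q hp hq =>
    intro σ ρ h
    refine hq (p.aff σ :: σ) (p.val ρ :: ρ) fun i => ?_
    cases i with
    | zero => exact hp σ ρ h
    | succ i => exact h i

/-- the test on the box with centre `(c, c')` and radii `(r, r')` -/
noncomputable def leaf (e : Ex) (c r c' r' : ℤ) : Bool :=
  fA (e.aff [⟨c, r, 0, 0, true⟩, ⟨c', 0, r', 0, true⟩]) fun A => A.ok && decide (A.rad ≤ A.c)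

theorem noise {x : ℝ} {c r : ℤ} (h : |x * D - c| ≤ r) : ∃ u : ℝ, |u| ≤ 1 ∧ x * D = c + r * u := by
  rcases ((abs_nonneg _).trans h).eq_or_lt with r0 | r0
  · refine ⟨0, by simp, ?_⟩
    rw [← r0, abs_nonpos_iff] at h
    linarith
  · refine ⟨(x * D - c) / r, ?_, by field_simp; ring⟩
    rw [abs_div, abs_of_pos r0]
    exact (div_le_one r0).2 h

theorem leaf_sound {e : Ex} {c r c' r' : ℤ} (h : leaf e c r c' r' = true) {x y : ℝ}
    (hx : |x * D - c| ≤ r) (hy : |y * D - c'| ≤ r') : 0 ≤ e.val [x, y] := by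
  obtain ⟨u, hu, eu⟩ := noise hx
  obtain ⟨v, hv, ev⟩ := noise hy
  simp only [leaf, fA_eq, Bool.and_eq_true, decide_eq_true_eq] at h
  have m := aff_mem hu hv e [⟨c, r, 0, 0, true⟩, ⟨c', 0, r', 0, true⟩] [x, y] fun i =>
    match i with
    | 0 => fun _ => by simp [eu]
    | 1 => fun _ => by simp [ev]
    | _ + 2 => fun k => by simp [bad] at k
  have r := (abs_le.1 (m.rad h.1 hu hv)).1
  have l : ((Af.rad _ : ℤ) : ℝ) ≤ (Af.c _ : ℤ) := Int.cast_le.2 h.2
  exact (mul_nonneg_iff_of_pos_right D_pos).1 (by linarith)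

/-- bisection of the longer side, at most `n` times -/
noncomputable def chk (e : Ex) (n : ℕ) : ℤ → ℤ → ℤ → ℤ → Bool :=
  @Nat.rec (fun _ => ℤ → ℤ → ℤ → ℤ → Bool) (leaf e) (fun _ ih c r c' r' =>
    leaf e c r c' r' || cond (decide (r' ≤ r))
      (fZ (r / 2) fun h => fZ (r - h) fun k => fZ (c - h) fun l => fZ (c + h) fun m =>
        ih l k c' r' && ih m k c' r')
      (fZ (r' / 2) fun h => fZ (r' - h) fun k => fZ (c' - h) fun l => fZ (c' + h) fun m =>
        ih c r l k && ih c r m k)) n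

theorem halve {x : ℝ} {c r : ℤ} (h : |x - c| ≤ r) :
    |x - (c - r / 2 : ℤ)| ≤ (r - r / 2 : ℤ) ∨ |x - (c + r / 2 : ℤ)| ≤ (r - r / 2 : ℤ) := by
  have k : ((r / 2 : ℤ) : ℝ) ≤ r - (r / 2 : ℤ) := by exact_mod_cast (by omega : r / 2 ≤ r - r / 2)
  simp only [Int.cast_sub, Int.cast_add, abs_le] at h ⊢
  rcases le_total x c with l | l
  · exact Or.inl ⟨by linarith [h.1], by linarith⟩
  · exact Or.inr ⟨by linarith, by linarith [h.2]⟩

theorem chk_sound {e : Ex} {x y : ℝ} (n : ℕ) : ∀ {c r c' r' : ℤ}, chk e n c r c' r' = true →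
    |x * D - c| ≤ r → |y * D - c'| ≤ r' → 0 ≤ e.val [x, y] := by
  induction n with
  | zero => exact fun h hx hy => leaf_sound h hx hy
  | succ n ih =>
    intro c r c' r' h hx hy
    have h' : (leaf e c r c' r' || cond (decide (r' ≤ r))
        (chk e n (c - r / 2) (r - r / 2) c' r' && chk e n (c + r / 2) (r - r / 2) c' r')
        (chk e n c r (c' - r' / 2) (r' - r' / 2) && chk e n c r (c' + r' / 2) (r' - r' / 2))) =
        true := by
      simpa only [chk, fZ_eq] using h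
    rw [Bool.or_eq_true] at h'
    rcases h' with k | k
    · exact leaf_sound k hx hy
    · cases hb : decide (r' ≤ r) <;> rw [hb] at k <;>
        simp only [cond_true, cond_false, Bool.and_eq_true] at k
      · exact (halve hy).elim (ih k.1 hx) (ih k.2 hx)
      · exact (halve hx).elim (fun j => ih k.1 j hy) (fun j => ih k.2 j hy)

/-- the box `[a / k, b / k] × [a' / k, b' / k]` -/
noncomputable def box (e : Ex) (n : ℕ) (a b a' b' : ℤ) (k : ℕ) : Bool :=
  decide (0 < k) && chk e n ((a + b) * D / (2 * k)) ((b - a) * D / (2 * k) + 2)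
    ((a' + b') * D / (2 * k)) ((b' - a') * D / (2 * k) + 2)

theorem cover {x : ℝ} {a b : ℤ} {k : ℕ} (hk : 0 < k) (h1 : (a : ℝ) / k ≤ x) (h2 : x ≤ (b : ℝ) / k) :
    |x * D - ((a + b) * D / (2 * k) : ℤ)| ≤ ((b - a) * D / (2 * k) + 2 : ℤ) := by
  have k0 : 0 < 2 * (k : ℤ) := by omega
  obtain ⟨p1, p2⟩ := ediv_bd ((a + b) * D) k0
  obtain ⟨-, q2⟩ := ediv_bd ((b - a) * D) k0
  have e1 : (((a + b) * D : ℤ) : ℝ) / ((2 * (k : ℤ) : ℤ) : ℝ) = ((a : ℝ) / k * D + b / k * D) / 2 := by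
    push_cast; ring
  have e2 : (((b - a) * D : ℤ) : ℝ) / ((2 * (k : ℤ) : ℤ) : ℝ) = ((b : ℝ) / k * D - a / k * D) / 2 := by
    push_cast; ring
  have l1 := mul_le_mul_of_nonneg_right h1 D_pos.le
  have l2 := mul_le_mul_of_nonneg_right h2 D_pos.le
  rw [e1] at p1 p2
  rw [e2] at q2
  rw [Int.cast_add, abs_le]
  simp only [Int.cast_ofNat]
  constructor <;> linarith

theorem box_sound {e : Ex} {n : ℕ} {a b a' b' : ℤ} {k : ℕ} (h : box e n a b a' b' k = true)
    {x y : ℝ} (h1 : (a : ℝ) / k ≤ x) (h2 : x ≤ (b : ℝ) / k) (h3 : (a' : ℝ) / k ≤ y)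
    (h4 : y ≤ (b' : ℝ) / k) : 0 ≤ e.val [x, y] := by
  simp only [box, Bool.and_eq_true, decide_eq_true_eq] at h
  exact chk_sound n h.2 (cover h.1 h1 h2) (cover h.1 h3 h4)

end Pool.Agent.MP_ddaf7c_pr.A.Iv
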