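import Pool.Agent.MP_ddaf7c_pr.A.Hinge
import Pool.Agent.MP_ddaf7c_pr.A.Iv

/-!
Row NUM1: the lower bound for `nlow` on the box `[0, 1/2] × [0, 1]`, by the verified evaluator.
-/

set_option autoImplicit false

namespace Pool.Agent.MP_ddaf7c_pr.A

open Real

namespace Num1

open Iv

/-- the difference of the two sides, with `p` for the rate -/
def ex (p : Ex) : Ex :=
  .lt (.add (.c 1 1) (.neg (.v 0))) <|
  .lt (.mul (.mul (.c 4 1) (.v 1)) (.v 0)) <|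
  .lt (.mul (.v 2) (.inv (.v 1))) <|
  .lt (.mul (.v 4) (.v 4)) <|
  .lt (.sqrt (.add (.c 1 1) (.neg (.mul (.v 4) (.add (.c 1 1) (.neg (.v 0))))))) <|
  .lt (.mul (.v 0) (.v 0)) <|
  .lt (.inv (.v 0)) <|
  .lt (.add (.mul (.add (.c 1 1) (.neg (.v 4))) (.v 3)) (.mul (.v 4) (.v 8))) <|
  .lt (.mul (.v 9) (.inv (.add (.c 1 1) (.v 9)))) <|
  .lt (.add (.c 1 1) (.neg (.v 3))) <|
  .lt (.mul (.v 8) p) <|
  (.add (.add (.add (.add (.mul (.add (.add (.c 28 25) (.mul (.c 27 100) (.add (.c 1 1) (.neg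
    (.v 9))))) (.neg (.v 0))) (.add (.add (.mul (.v 7) (.mul (.add (.add (.c 1 1) (.v 6)) (.v
    5)) (.inv (.mul (.mul (.v 5) (.v 6)) (.add (.c 1 1) (.v 6)))))) (.neg (.add (.mul (.mul
    (.add (.c 1 1) (.neg (.v 8))) (.v 7)) (.c 1 2)) (.mul (.v 8) (.v 2))))) (.neg (.v 2))))
    (.neg (.mul (.c 9 1250) (.v 7)))) (.neg (.mul (.mul (.mul (.c 27 100) (.v 9)) (.add (.add
    (.mul (.add (.c 1 1) (.neg (.mul (.c 2 1) (.v 11)))) (.add (.v 12) (.neg (.v 7)))) (.mul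
    (.mul (.v 11) (.v 1)) (.v 12))) (.mul (.mul (.v 10) (.v 1)) (.v 3)))) (.mul (.v 4) (.v
    4))))) (.neg (.mul (.mul (.v 0) (.add (.mul (.v 10) (.v 12)) (.mul (.v 11) (.v 3)))) (.v
    4)))) (.neg (.add (.add (.c 33 50) (.neg (.mul (.c 63 200) (.v 9)))) (.neg (.mul (.add (.c
    117 100) (.neg (.mul (.c 7 20) (.v 9)))) (.add (.c 1 1) (.neg (.v 7))))))))

theorem b0 : box (ex (.c 0 1)) 24 0 1 0 2 2 = true := by decide +kernel

theorem b1 : box (ex (.c 3 25)) 24 0 1 0 2 2 = true := by decide +kernel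

theorem link {x s t : ℝ} (n : ℤ) (d : ℕ) (hx : x ≤ 1 / 2) (hs : 0 ≤ s) (ht : 0 < t)
    (e : t ^ 2 = 1 - x * (1 - s ^ 2)) :
    (ex (.c n d)).val [x, s] = nlow x s t ((n : ℝ) / d) -
      (0.66 - 0.315 * (4 * x * (1 - x)) - (1.17 - 0.35 * (4 * x * (1 - x))) * (1 - s ^ 2)) := by
  have e1 : √(1 + -(x * (1 + -(s * s)))) = t := by
    rw [show 1 + -(x * (1 + -(s * s))) = t ^ 2 by rw [e]; ring]
    exact sqrt_sq ht.le
  have h1 : 1 - x ≠ 0 := by linarith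
  have h2 : 1 + -x ≠ 0 := by linarith
  have h3 : 1 + s ≠ 0 := by linarith
  have h4 : 1 + t ≠ 0 := by linarith
  simp only [ex, Ex.val, List.getD_cons_zero, List.getD_cons_succ, Int.cast_one, Nat.cast_one,
    div_one, e1, nlow, Int.cast_ofNat, Nat.cast_ofNat]
  simp only [← sub_eq_add_neg]
  generalize (n : ℝ) / d = φ
  field_simp
  ring

end Num1

theorem nlowT : NLOW := by
  intro x s t φ h0 h1 s0 s1 ht e hφ
  have k : ∀ (n : ℤ) (d : ℕ), Iv.box (Num1.ex (.c n d)) 24 0 1 0 2 2 = true →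
      0.66 - 0.315 * (4 * x * (1 - x)) - (1.17 - 0.35 * (4 * x * (1 - x))) * (1 - s ^ 2) ≤
        nlow x s t ((n : ℝ) / d) := fun n d h => by
    have := Iv.box_sound h (x := x) (y := s) (by simpa using h0) (by simpa using h1)
      (by simpa using s0) (by simpa using s1)
    rw [Num1.link n d h1 s0 ht e] at this
    linarith
  rcases hφ with rfl | rfl
  · have := k 0 1 Num1.b0
    rwa [Int.cast_zero, zero_div] at this
  · have := k 3 25 Num1.b1
    rwa [Int.cast_ofNat, Nat.cast_ofNat] at this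

end Pool.Agent.MP_ddaf7c_pr.A
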