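import Pool.Agent.MP_ddaf7c_pr.K.All
import Pool.Agent.MP_ddaf7c_pr.A.Vb
import Pool.Agent.MP_ddaf7c_pr.A.Loss
import Pool.Agent.MP_ddaf7c_pr.A.Tone
import Pool.Agent.MP_ddaf7c_pr.A.Fa
import Pool.Agent.MP_ddaf7c_pr.A.Hinge
import Pool.Agent.MP_ddaf7c_pr.A.Nlow

set_option autoImplicit false

namespace Pool.Agent.MP_ddaf7c_pr.A

open Real Filter Topology

theorem certl_all : CERTL :=
  certl (out stir (alpha (vb stir) stir) (rhon stir) (rhod stir) sign)
    (inn (term stir) nlowT (fa stir) sign) (eb stir) pfin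

theorem super_all : SUPER :=
  super (dyn (sand abel) (fone abel tone ttwo))
    (pos (static abel (loss abel) (core abel hinge)) (certs abel) certl_all)

theorem all_of (hs : SMALL) (n : ℕ) (hn : 1 ≤ n) :
    pMST (⊤ : SimpleGraph (Fin (2 * n))) ≤ pUST (⊤ : SimpleGraph (Fin (2 * n))) := by
  obtain ⟨S⟩ := K.ex
  refine le_trans ?_ (ust2 K.pit K.upp K.low n hn)
  have hlim : Tendsto (fun t : ℝ => ((2 * n - 1).choose (n - 1) : ℝ) * (4 / 4 ^ n) +
      (2 * n : ℝ) ^ 2 * exp (-t)) atTop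
      (𝓝 (((2 * n - 1).choose (n - 1) : ℝ) * (4 / 4 ^ n) + (2 * n : ℝ) ^ 2 * 0)) :=
    tendsto_const_nhds.add (tendsto_exp_neg_atTop_nhds_zero.const_mul _)
  rw [mul_zero, add_zero] at hlim
  refine ge_of_tendsto hlim ?_
  filter_upwards [eventually_ge_atTop 1] with t h1
  have h0 : (0 : ℝ) ≤ t := by linarith
  have h2 : K.p2 S n n t ≤ 4 / 4 ^ n := by
    by_cases h : n < 32
    · exact hs S n t hn h h0
    · exact bign super_all K.mass S n t (by omega) h1
  have h3 := link2 K.cut K.tree (K.ktwo K.kinv K.ind K.dini K.pder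
    (K.kone K.kinv K.ind K.dini K.pder)) S n t hn h0
  have h4 := mul_le_mul_of_nonneg_left h2 (Nat.cast_nonneg (α := ℝ) ((2 * n - 1).choose (n - 1)))
  linarith

end Pool.Agent.MP_ddaf7c_pr.A
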