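import Pool.Agent.MP_ddaf7c_pr.A.Pk

/-! Kernel computation for the small sizes. -/

set_option autoImplicit false

namespace Pool.Agent.MP_ddaf7c_pr.A.Sm

open Pk

noncomputable def cdiv (x y : ℕ) : ℕ := Nat.div (Nat.add x (Nat.sub y 1)) y

noncomputable def nxt (C k g s : ℕ) : ℕ :=
  Nat.mod (cdiv (Nat.add (Nat.shiftLeft (Nat.mul (Nat.sub C k) g) 112) (Nat.mod s (Nat.pow 2 256)))
    (Nat.shiftLeft (Nat.add k 1) 116)) (Nat.pow 2 256)

noncomputable def go (C d : ℕ) : ℕ → ℕ → ℕ → ℕ → ℕ :=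
  Nat.rec (motive := fun _ => ℕ → ℕ → ℕ → ℕ → ℕ) (fun _ S k g => nxt C k g S)
    (fun _ ih n S k g => Bool.rec (motive := fun _ => ℕ)
      (frc (ih (Nat.div n 2) (Nat.mod S (Nat.pow 2 (Nat.mul 256 (Nat.div n 2)))) k g) fun r =>
        Nat.add r (Nat.shiftLeft (ih (Nat.sub n (Nat.div n 2))
          (Nat.shiftRight S (Nat.mul 256 (Nat.div n 2))) (Nat.add k (Nat.div n 2))
          (Nat.shiftRight r (Nat.mul 256 (Nat.sub (Nat.div n 2) 1)))) (Nat.mul 256 (Nat.div n 2))))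
      (nxt C k g S) (Nat.ble n 1)) d

noncomputable def gm (V : ℕ) : ℕ := Nat.shiftRight V 41216

noncomputable def tm (c V W : ℕ) : ℕ := Nat.mul (Nat.mul c V) W

noncomputable def tl (C K c d V W : ℕ) : ℕ :=
  cdiv (Nat.mul (Nat.mul (Nat.mul c (gm V)) (gm W)) (Nat.pow (Nat.sub C K) d))
    (Nat.shiftLeft (Nat.mul d (Nat.pow C d)) 320)

noncomputable def c2 (M : ℕ) : ℕ := Nat.div (Nat.mul M (Nat.sub M 1)) 2

noncomputable def mn (x y : ℕ) : ℕ := Bool.rec (motive := fun _ => ℕ) y x (Nat.ble x y)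

noncomputable def kf (M : ℕ) : ℕ := mn (c2 M) (mn (Nat.mul 3 M) 160)

noncomputable def chs (n k : ℕ) : ℕ := Nat.div (fac n) (Nat.mul (fac k) (frc (Nat.sub n k) fac))

noncomputable def mk (M C K S τ : ℕ) : ℕ :=
  frc (Nat.shiftLeft (frc S fun S => frc (Nat.add (Nat.mod S 1000000007) (Nat.shiftLeft S 256)) fun S' =>
    go C 8 160 (Nat.shiftRight S' 256) 0 0) 256) fun N =>
    Nat.add N (Nat.shiftLeft (Nat.add (cdiv
      (Nat.shiftLeft (Nat.mod (Nat.shiftRight N (Nat.mul 256 K)) (Nat.pow 2 256))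
        (Nat.add (Nat.mul 4 K) 320))
      (Nat.shiftLeft (chs C K) (Nat.add (Nat.mul 2 M) 112))) τ) 41216)

noncomputable def mask : ℕ := build 256 (fun _ => Nat.sub (Nat.pow 2 118) 1) 161 8 0

noncomputable def ok (V : ℕ) : Bool :=
  frc (Nat.mod V (Nat.pow 2 41216)) fun N => Nat.beq (Nat.land N mask) N

noncomputable def fill (val : (ℕ → ℕ) → ℕ → ℕ) (n : ℕ) :
    ℕ → (ℕ → ℕ) → ((ℕ → ℕ) → Bool) → Bool :=
  Nat.rec (motive := fun _ => ℕ → (ℕ → ℕ) → ((ℕ → ℕ) → Bool) → Bool) (fun _ f k => k f)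
    (fun _ ih j f k => frc (val f j) fun v => Bool.rec (motive := fun _ => Bool) false
      (frc (Nat.add j 1) fun j' => ih j' (fun x => Bool.rec (motive := fun _ => ℕ) (f x) v (Nat.beq x j)) k) (ok v)) n

noncomputable def val1 (F : ℕ → ℕ) (s : ℕ) : ℕ :=
  frc (c2 s) fun C => frc (kf s) fun K =>
    mk s C K (sumI (fun j => frc (Nat.sub s j) fun i => tm j (F j) (F i)) (Nat.sub s 1))
      (sumI (fun j => frc (Nat.sub s j) fun i => tl C K j (Nat.mul j i) (F j) (F i)) (Nat.sub s 1))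

noncomputable def get (tb : ℕ → ℕ → ℕ) (x y : ℕ) : ℕ :=
  Bool.rec (motive := fun _ => ℕ) (tb x y) (tb y x) (Nat.ble x y)

noncomputable def val2 (F : ℕ → ℕ) (G : ℕ → ℕ → ℕ) (a b : ℕ) : ℕ :=
  frc (Nat.add a b) fun M => frc (c2 M) fun C => frc (kf M) fun K =>
    mk M C K
      (Nat.add (Nat.add
        (sumI (fun j => frc (Nat.sub a j) fun i => tm j (G j b) (F i)) (Nat.sub a 1))
        (sumI (fun j => frc (Nat.sub b j) fun i => tm j (G a j) (F i)) (Nat.sub b 1)))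
        (tm 1 (F a) (F b)))
      (Nat.add (Nat.add
        (sumI (fun j => frc (Nat.sub a j) fun i =>
          tl C K j (Nat.mul (Nat.add j b) i) (G j b) (F i)) (Nat.sub a 1))
        (sumI (fun j => frc (Nat.sub b j) fun i =>
          tl C K j (Nat.mul (Nat.add a j) i) (G a j) (F i)) (Nat.sub b 1)))
        (tl C K 1 (Nat.mul a b) (F a) (F b)))

noncomputable def fin (V n : ℕ) : Bool :=
  Nat.ble (Nat.mul (Nat.mul (gm V) (Nat.mul (fac n) (fac n))) (Nat.pow 4 n)) (Nat.pow 2 322)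

noncomputable def rows (F : ℕ → ℕ) (n : ℕ) : ℕ → (ℕ → ℕ → ℕ) → Bool :=
  Nat.rec (motive := fun _ => ℕ → (ℕ → ℕ → ℕ) → Bool) (fun _ _ => true)
    (fun _ ih b tb => fill (fun cur a => val2 F (get fun x => Bool.rec (motive := fun _ => ℕ → ℕ) (tb x) cur (Nat.beq x b)) a b) b 1 (fun _ => 0)
      fun row => Bool.rec (motive := fun _ => Bool) false
        (frc (Nat.add b 1) fun b' => ih b' fun x => Bool.rec (motive := fun _ => ℕ → ℕ) (tb x) row (Nat.beq x b)) (fin (row b) b)) n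

noncomputable def one : ℕ := Nat.add (Nat.pow 2 114) (Nat.pow 2 41536)

noncomputable def chk (n : ℕ) : Bool :=
  frc one fun v => fill val1 (Nat.sub n 1) 2 (fun _ => v) fun F => rows F n 1 fun _ _ => 0

theorem run : chk 31 = true := by decide +kernel

theorem run1 : ok one = true ∧ one % 2 ^ 256 = 2 ^ 114 ∧ gm one = 2 ^ 320 := by decide +kernel

/-! ## Specifications -/

/-- digits in base `2 ^ 256` -/
def dg (V k : ℕ) : ℕ := V / (2 ^ 256) ^ k % 2 ^ 256

theorem cdiv_le {x y : ℕ} (hy : 0 < y) : x ≤ cdiv x y * y := by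
  have e : cdiv x y = (x + (y - 1)) / y := rfl
  have h1 := Nat.div_add_mod (x + (y - 1)) y
  have h2 := Nat.mod_lt (x + (y - 1)) hy
  rw [e, mul_comm]
  omega

theorem cdiv_lt {x y z : ℕ} (hy : 0 < y) (h : x < z * y) : cdiv x y ≤ z := by
  have e : cdiv x y = (x + (y - 1)) / y := rfl
  rw [e, ← Nat.lt_succ_iff, Nat.div_lt_iff_lt_mul hy, Nat.succ_mul]
  omega

theorem nxt_eq (C k g s : ℕ) : nxt C k g s =
    cdiv ((C - k) * g * 2 ^ 112 + s % 2 ^ 256) ((k + 1) * 2 ^ 116) % 2 ^ 256 := by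
  rw [nxt, shl_eq, shl_eq]; rfl

/-- the rounded recurrence -/
noncomputable def sq (C S k g : ℕ) : ℕ → ℕ
  | 0 => g
  | j + 1 => nxt C (k + j) (sq C S k g j) (dg S j)

theorem sq_lt (C S k g j : ℕ) : sq C S k g (j + 1) < 2 ^ 256 := by
  rw [sq, nxt_eq]; exact Nat.mod_lt _ (by positivity)

theorem dg_mod (S : ℕ) {h j : ℕ} (hj : j < h) : dg (S % (2 ^ 256) ^ h) j = dg S j := by
  obtain ⟨i, rfl⟩ : ∃ i, h = j + (i + 1) := ⟨h - j - 1, by omega⟩
  rw [dg, dg, pow_add, Nat.mod_mul_right_div_self, pow_succ' _ i, Nat.mod_mul_right_mod]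

theorem dg_div (S h j : ℕ) : dg (S / (2 ^ 256) ^ h) j = dg S (h + j) := by
  rw [dg, dg, Nat.div_div_eq_div_mul, ← pow_add]

theorem sq_mod (C S k g : ℕ) {h : ℕ} : ∀ j ≤ h, sq C (S % (2 ^ 256) ^ h) k g j = sq C S k g j
  | 0, _ => rfl
  | j + 1, hj => by rw [sq, sq, sq_mod C S k g j (by omega), dg_mod S hj]

theorem sq_div (C S k g h : ℕ) :
    ∀ j, sq C (S / (2 ^ 256) ^ h) (k + h) (sq C S k g h) j = sq C S k g (h + j)
  | 0 => rfl
  | j + 1 => by rw [sq, sq_div C S k g h j, dg_div, add_assoc]; rfl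

theorem nxt_one (C S k g : ℕ) :
    nxt C k g S = pk (2 ^ 256) (fun j => sq C S k g (j + 1)) 1 := by
  simp [pk, sq, nxt_eq, dg]

theorem go_eq (C d : ℕ) : ∀ n S k g, 1 ≤ n → n ≤ 2 ^ d →
    go C d n S k g = pk (2 ^ 256) (fun j => sq C S k g (j + 1)) n := by
  induction d with
  | zero =>
    intro n S k g h1 h2
    obtain rfl : n = 1 := by omega
    exact nxt_one C S k g
  | succ d ih =>
    intro n S k g h1 h2
    have e : go C (d + 1) n S k g = Bool.rec
        (go C d (n / 2) (S % 2 ^ (256 * (n / 2))) k g + Nat.shiftLeft (go C d (n - n / 2)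
          (Nat.shiftRight S (256 * (n / 2))) (k + n / 2) (Nat.shiftRight
            (go C d (n / 2) (S % 2 ^ (256 * (n / 2))) k g) (256 * (n / 2 - 1)))) (256 * (n / 2)))
        (nxt C k g S) (Nat.ble n 1) := rfl
    rw [e, rec_ble]
    split_ifs with hn
    · obtain rfl : n = 1 := by omega
      exact nxt_one C S k g
    · rw [pow_succ] at h2
      obtain ⟨h, hh⟩ : ∃ h, n / 2 = h + 1 := ⟨n / 2 - 1, by omega⟩
      obtain ⟨m, rfl⟩ : ∃ m, n = h + 1 + m := ⟨n - (h + 1), by omega⟩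
      have e1 : go C d (h + 1) (S % 2 ^ (256 * (h + 1))) k g =
          pk (2 ^ 256) (fun j => sq C S k g (j + 1)) (h + 1) := by
        rw [ih _ _ _ _ (by omega) (by omega), pow_mul]
        exact pk_congr fun a ha => sq_mod C S k g _ ha
      rw [hh, e1, shl_eq, shr_eq, shr_eq, pow_mul, pow_mul, Nat.add_sub_cancel_left,
        Nat.add_sub_cancel, pk_div (fun a _ => sq_lt C S k g a) (Nat.le_succ h),
        ih _ _ _ _ (by omega) (by omega), pk_split _ _ (h + 1) m]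
      have e2 : pk (2 ^ 256) (fun a => sq C S k g (h + a + 1)) (h + 1 - h) =
          sq C S k g (h + 1) := by simp [pk]
      rw [e2]
      simp only [sq_div, add_assoc]

theorem pk_dg (V T : ℕ) : V % (2 ^ 256) ^ T = pk (2 ^ 256) (dg V) T := by
  induction T with
  | zero => simp [pk, Nat.mod_one]
  | succ T ih => rw [Nat.mod_pow_succ, ih, mul_comm]; exact (Finset.sum_range_succ _ _).symm

theorem dg_lt (V k : ℕ) : dg V k < 2 ^ 256 := Nat.mod_lt _ (by positivity)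

theorem ok_lt {V : ℕ} (h : ok V = true) : ∀ k < 161, dg V k < 2 ^ 118 := by
  intro k hk
  rw [ok, frc_eq] at h
  have e := Nat.eq_of_beq_eq_true h
  have e4 : 2 ^ 41216 = (2 ^ 256) ^ 161 := by rw [← pow_mul]
  have hm : ∀ a < 161, (fun _ : ℕ => 2 ^ 118 - 1) a < 2 ^ 256 := fun _ _ => by norm_num
  have em : mask = pk (2 ^ 256) (fun _ => 2 ^ 118 - 1) 161 := build_pk 256 _ (by norm_num)
  rw [land_eq, mod_eq, Nat.pow_eq, e4, pk_dg, em, pk_land (fun a _ => dg_lt V a) hm] at e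
  have h1 := pk_dig 0 (f := fun a => dg V a &&& (2 ^ 118 - 1))
    (fun a _ => lt_of_le_of_lt Nat.and_le_left (dg_lt V a)) hk
  rw [e, pk_dig 0 (fun a _ => dg_lt V a) hk] at h1
  have h2 : dg V k &&& (2 ^ 118 - 1) ≤ 2 ^ 118 - 1 := Nat.and_le_right
  omega

theorem chs_eq {n k : ℕ} (h : k ≤ n) : chs n k = n.choose k := by
  rw [Nat.choose_eq_factorial_div_factorial h, ← fac_eq, ← fac_eq, ← fac_eq]; rfl

theorem mk_spec {M C K : ℕ} (S τ : ℕ) (hK : K < 161) (hC : K ≤ C) :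
    (∀ k < 161, dg (mk M C K S τ) k = sq C S 0 0 k) ∧ gm (mk M C K S τ) =
      cdiv (sq C S 0 0 K * 2 ^ (4 * K + 320)) (C.choose K * 2 ^ (2 * M + 112)) + τ := by
  have hl : ∀ a < 161, sq C S 0 0 a < 2 ^ 256 := fun a _ => by
    cases a with
    | zero => exact Nat.two_pow_pos 256
    | succ a => exact sq_lt C S 0 0 a
  have e0 : Nat.shiftRight (Nat.add (Nat.mod S 1000000007) (Nat.shiftLeft S 256)) 256 = S := by
    rw [shl_eq, shr_eq]
    exact div_of (lt_trans (Nat.mod_lt _ (by norm_num)) (by norm_num))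
  have e1 : Nat.shiftLeft (go C 8 160 S 0 0) 256 = pk (2 ^ 256) (sq C S 0 0) 161 := by
    rw [go_eq C 8 160 S 0 0 (by norm_num) (by norm_num), shl_eq,
      show 161 = 1 + 160 from rfl, pk_split]
    simp [pk, sq, add_comm 1]
  have e2 := pk_dig 0 hl hK
  rw [zero_mul, add_zero] at e2
  have e3 : ∀ V, gm V = V / (2 ^ 256) ^ 161 := fun V => by rw [gm, shr_eq, ← pow_mul]
  have e4 : 2 ^ 41216 = (2 ^ 256) ^ 161 := by rw [← pow_mul]
  rw [mk, frc_eq, frc_eq, frc_eq, e0, e1, e3]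
  simp only [shl_eq, shr_eq, mod_eq, Nat.add_eq, Nat.mul_eq, Nat.pow_eq, pow_mul 2 256, e2, e4,
    chs_eq hC]
  exact ⟨fun k hk => pk_dig _ hl hk, div_of (pk_lt' hl)⟩

theorem c2_eq (M : ℕ) : c2 M = M.choose 2 := (Nat.choose_two_right M).symm

theorem kf_le (M : ℕ) : kf M < 161 ∧ kf M ≤ M.choose 2 := by
  rw [kf, mn, mn, rec_ble, rec_ble, c2_eq]
  split_ifs <;> omega

theorem tm_eq (c V W : ℕ) : tm c V W = c * V * W := rfl

theorem tl_eq (C K c d V W : ℕ) :
    tl C K c d V W = cdiv (c * gm V * gm W * (C - K) ^ d) (d * C ^ d * 2 ^ 320) := by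
  rw [tl, shl_eq]; rfl

theorem fill_spec {val : (ℕ → ℕ) → ℕ → ℕ} {P : ℕ → ℕ → Prop} {k : (ℕ → ℕ) → Bool} {lo hi : ℕ}
    (hs : ∀ f j, lo ≤ j → j < hi → (∀ x, 1 ≤ x → x < j → P x (f x)) → ok (val f j) = true →
      P j (val f j)) (n : ℕ) : ∀ j f, lo ≤ j → j + n = hi → (∀ x, 1 ≤ x → x < j → P x (f x)) →
      fill val n j f k = true → ∃ f', (∀ x, 1 ≤ x → x < hi → P x (f' x)) ∧ k f' = true := by
  induction n with
  | zero => intro j f _ h hf hk; exact ⟨f, h ▸ hf, hk⟩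
  | succ n ih =>
    intro j f h1 h hf hk
    have e : fill val (n + 1) j f k = band (ok (val f j)) (fill val n (j + 1)
      (fun x => Bool.rec (f x) (val f j) (Nat.beq x j)) k) := rfl
    rw [e, band_iff] at hk
    refine ih _ _ (by omega) (by omega) (fun x x1 x2 => ?_) hk.2
    rw [rec_beq]
    split_ifs with hx
    · exact hx ▸ hs f x (by omega) (by omega) (hx ▸ hf) (hx ▸ hk.1)
    · exact hf x x1 (by omega)

theorem rows_spec {F : ℕ → ℕ} {P : ℕ → ℕ → ℕ → Prop} {hi : ℕ}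
    (hy : ∀ a b V, P a b V → P b a V)
    (hs : ∀ (G : ℕ → ℕ → ℕ) a b, 1 ≤ a → a ≤ b → b < hi → (∀ j, 1 ≤ j → j < a → P j b (G j b)) →
      (∀ j, 1 ≤ j → j < b → P a j (G a j)) → ok (val2 F G a b) = true → P a b (val2 F G a b))
    (n : ℕ) : ∀ b tb, b + n = hi → (∀ y x, y < b → 1 ≤ x → x ≤ y → P x y (tb y x)) →
      rows F n b tb = true → ∀ y, b ≤ y → y < hi → 1 ≤ y → ∃ V, P y y V ∧ fin V y = true := by
  induction n with
  | zero => intro b tb h _ _ y h1 h2; omega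
  | succ n ih =>
    intro b tb h htb hk y y1 y2 y3
    have e : rows F (n + 1) b tb = fill (fun cur a => val2 F
      (get fun x => Bool.rec (tb x) cur (Nat.beq x b)) a b) b 1 (fun _ => 0) fun row =>
        band (fin (row b) b) (rows F n (b + 1) fun x => Bool.rec (tb x) row (Nat.beq x b)) := rfl
    rw [e] at hk
    obtain ⟨row, hrow, hk⟩ := fill_spec (P := fun x V => P x b V) (lo := 1) (hi := 1 + b)
      (fun cur a a1 a2 hc ho => hs _ a b a1 (by omega) (by omega) (fun j j1 j2 => by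
        rw [get, rec_ble, if_pos (by omega), rec_beq, if_pos rfl]
        exact hc j j1 j2) (fun j j1 j2 => by
        rw [get, rec_ble]
        split_ifs with h1
        · rw [rec_beq, if_neg (by omega)]
          exact htb j a j2 a1 h1
        · rw [rec_beq]
          split_ifs with h2
          · exact hy _ _ _ (h2 ▸ hc j j1 (by omega))
          · exact hy _ _ _ (htb a j (by omega) j1 (by omega))) ho) b 1 _ le_rfl rfl
      (fun x x1 x2 => by omega) hk
    rw [band_iff] at hk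
    rcases y1.eq_or_lt with rfl | y4
    · exact ⟨_, hrow b y3 (by omega), hk.1⟩
    refine ih (b + 1) _ (by omega) (fun z x z1 x1 x2 => ?_) hk.2 y y4 y2 y3
    rw [rec_beq]
    split_ifs with hz
    · exact hz ▸ hrow x x1 (by omega)
    · exact htb z x (by omega) x1 x2

end Pool.Agent.MP_ddaf7c_pr.A.Sm
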