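import Mathlib.Data.Nat.Choose.Vandermonde
import Pool.Agent.MP_ddaf7c_pr.A.Hinge
import Pool.Agent.MP_ddaf7c_pr.A.SmallK

/-! The two-colour probabilities for small sizes. -/

set_option autoImplicit false

namespace Pool.Agent.MP_ddaf7c_pr.A

open Finset Real Polynomial

namespace Sm

open Pk

attribute [local irreducible] mk go tl tm ok kf gm dg sumI Sm.fin fill rows

/-- `φ` is dominated by a polynomial in `exp t - 1` whose coefficients are bounded by `V` -/
def Dom (φ : K.Sol → ℝ → ℝ) (M V : ℕ) : Prop := ∃ P : ℝ[X], (∀ k, 0 ≤ P.coeff k) ∧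
  (∀ S t, 0 ≤ t → 0 ≤ φ S t ∧ φ S t ≤ P.eval (exp t - 1)) ∧
  (∀ k < 161, dg V k < 2 ^ 118 ∧ P.coeff k * 2 ^ (2 * M + 112) ≤ 16 ^ k * (dg V k : ℝ)) ∧
  ∀ k, P.coeff k * 2 ^ 320 ≤ gm V * ((M.choose 2).choose k : ℝ)

/-- the same for a source term -/
def Src (ψ : K.Sol → ℝ → ℝ) (M K n W τ : ℕ) : Prop := ∃ (R : ℝ[X]) (Q : ℕ[X]) (U : ℕ → ℝ),
  (∀ k, 0 ≤ R.coeff k) ∧ (∀ S t, 0 ≤ t → ψ S t ≤ R.eval (exp t - 1)) ∧
  W ≡ Q.eval (2 ^ 256) [MOD (2 ^ 256) ^ 161] ∧
  (∀ k < 161, Q.coeff k ≤ n * 2 ^ 244 ∧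
    R.coeff k * 2 ^ (2 * M + 224) ≤ 16 ^ k * (Q.coeff k : ℝ)) ∧
  (∀ k, 0 ≤ U k ∧
    R.coeff k * 2 ^ 320 + (k + 1) * U (k + 1) ≤ ((M.choose 2 - k : ℕ) : ℝ) * U k) ∧
  U K ≤ τ * ((M.choose 2).choose K : ℝ)

theorem src_add {ψ ψ' : K.Sol → ℝ → ℝ} {M K n n' W W' τ τ' : ℕ} (h : Src ψ M K n W τ)
    (h' : Src ψ' M K n' W' τ') :
    Src (fun S t => ψ S t + ψ' S t) M K (n + n') (W + W') (τ + τ') := by
  obtain ⟨R, Q, U, a1, a2, a3, a4, a5, a6⟩ := h
  obtain ⟨R', Q', U', b1, b2, b3, b4, b5, b6⟩ := h'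
  refine ⟨R + R', Q + Q', fun k => U k + U' k, fun k => ?_, fun S t ht => ?_, ?_,
    fun k hk => ⟨?_, ?_⟩, fun k => ⟨add_nonneg (a5 k).1 (b5 k).1, ?_⟩, ?_⟩
  · rw [coeff_add]; exact add_nonneg (a1 k) (b1 k)
  · rw [eval_add]; exact add_le_add (a2 S t ht) (b2 S t ht)
  · rw [eval_add]; exact a3.add b3
  · rw [coeff_add, add_mul]; exact add_le_add (a4 k hk).1 (b4 k hk).1
  · rw [coeff_add, coeff_add, Nat.cast_add, add_mul, mul_add]
    exact add_le_add (a4 k hk).2 (b4 k hk).2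
  · rw [coeff_add, add_mul, mul_add, mul_add, add_add_add_comm]
    exact add_le_add (a5 k).2 (b5 k).2
  · rw [Nat.cast_add, add_mul]; exact add_le_add a6 b6

theorem src_sum {ψ : ℕ → K.Sol → ℝ → ℝ} {M K n : ℕ} {W τ : ℕ → ℕ} (m : ℕ)
    (h : ∀ j, 1 ≤ j → j ≤ m → Src (ψ j) M K n (W j) (τ j)) :
    Src (fun S t => ∑ j ∈ Icc 1 m, ψ j S t) M K (m * n) (sumI W m) (sumI τ m) := by
  induction m with
  | zero => exact ⟨0, 0, fun _ => 0, by simp, by simp, by simp [sumI_eq, Nat.ModEq], by simp,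
      by simp, by positivity⟩
  | succ m ih =>
    have := src_add (ih fun j a b => h j a (by omega)) (h (m + 1) (by omega) le_rfl)
    simp only [sumI_eq, sum_Icc_succ_top (Nat.le_add_left 1 m), Nat.succ_mul] at this ⊢
    exact this

theorem ratio (D K C : ℕ) : ∀ d, D + d ≤ C →
    D.choose K * C ^ d ≤ (D + d).choose K * (C - K) ^ d
  | 0, _ => by simp
  | d + 1, h => by
    have h1 := ratio D K C d (by omega)
    have h2 : (D + d).choose K * C ≤ (D + d + 1).choose K * (C - K) := by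
      refine Nat.le_of_mul_le_mul_right ?_ (show 0 < D + d + 1 by omega)
      have h3 : (D + d + 1 - K) * C ≤ (C - K) * (D + d + 1) := by
        rcases le_total K (D + d + 1) with h4 | h4
        · obtain ⟨x, hx⟩ := Nat.exists_eq_add_of_le h4
          obtain ⟨y, hy⟩ := Nat.exists_eq_add_of_le h
          rw [show D + (d + 1) = K + x by omega] at hy
          rw [hx, hy, show K + x - K = x by omega, show K + x + y - K = x + y by omega]
          nlinarith [Nat.zero_le (K * y)]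
        · rw [Nat.sub_eq_zero_of_le h4, zero_mul]; exact Nat.zero_le _
      calc _ = (D + d).choose K * (D + d + 1) * C := by ring
        _ = (D + d + 1).choose K * ((D + d + 1 - K) * C) := by rw [Nat.choose_mul_succ_eq]; ring
        _ ≤ (D + d + 1).choose K * ((C - K) * (D + d + 1)) := Nat.mul_le_mul_left _ h3
        _ = _ := by ring
    calc _ = D.choose K * C ^ d * C := by ring
      _ ≤ (D + d).choose K * (C - K) ^ d * C := Nat.mul_le_mul_right _ h1
      _ = (D + d).choose K * C * (C - K) ^ d := by ring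
      _ ≤ (D + d + 1).choose K * (C - K) * (C - K) ^ d := Nat.mul_le_mul_right _ h2
      _ = _ := by rw [add_assoc]; ring

theorem ch2 (a b : ℕ) : (a + b).choose 2 = a.choose 2 + b.choose 2 + a * b := by
  rw [Nat.add_choose_eq]
  simp [Finset.Nat.antidiagonal_succ]
  ring

theorem ev_nonneg {P : ℝ[X]} (h : ∀ k, 0 ≤ P.coeff k) {w : ℝ} (hw : 0 ≤ w) : 0 ≤ P.eval w := by
  rw [eval_eq_sum_range]
  exact sum_nonneg fun k _ => mul_nonneg (h k) (pow_nonneg hw k)

theorem src_mul {φ φ' : K.Sol → ℝ → ℝ} {a b V V' c M : ℕ} (K : ℕ) (h : Dom φ a V) (h' : Dom φ' b V')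
    (ha : 1 ≤ a) (hb : 1 ≤ b) (hc : c ≤ 31) (hM : M = a + b) :
    Src (fun S t => c * φ S t * φ' S t) M K 31 (tm c V V') (tl (M.choose 2) K c (a * b) V V') := by
  obtain ⟨P, a1, a2, a3, a4⟩ := h
  obtain ⟨P', b1, b2, b3, b4⟩ := h'
  have hd : 0 < a * b := Nat.mul_pos ha hb
  have hd' : (0 : ℝ) < (a * b : ℕ) := Nat.cast_pos.2 hd
  have hC : M.choose 2 = a.choose 2 + b.choose 2 + a * b := by rw [hM, ch2]
  set D := a.choose 2 + b.choose 2 with hD
  set G : ℝ := c * gm V * gm V' / ((a * b : ℕ) * 2 ^ 320) with hG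
  have G0 : 0 ≤ G := by positivity
  have m : ∀ V, V ≡ (toP (dg V) 161).eval (2 ^ 256) [MOD (2 ^ 256) ^ 161] := fun V => by
    rw [toP_eval, ← pk_dg]; exact (Nat.mod_modEq _ _).symm
  refine ⟨C (c : ℝ) * (P * P'), C c * (toP (dg V) 161 * toP (dg V') 161),
    fun k => G * (D.choose k : ℝ), fun k => ?_, fun S t ht => ?_, ?_, fun k hk => ⟨?_, ?_⟩,
    fun k => ⟨by positivity, ?_⟩, ?_⟩
  · rw [coeff_C_mul, coeff_mul]
    exact mul_nonneg (Nat.cast_nonneg c) (sum_nonneg fun p _ => mul_nonneg (a1 _) (b1 _))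
  · show c * φ S t * φ' S t ≤ _
    rw [eval_mul, eval_mul, eval_C, mul_assoc]
    exact mul_le_mul_of_nonneg_left (mul_le_mul (a2 S t ht).2 (b2 S t ht).2 (b2 S t ht).1
      ((a2 S t ht).1.trans (a2 S t ht).2)) (Nat.cast_nonneg c)
  · rw [eval_mul, eval_mul, eval_C, tm_eq, mul_assoc]
    exact ((m V).mul (m V')).mul_left c
  · rw [coeff_C_mul, coeff_mul]
    refine Nat.mul_le_mul hc ((sum_le_card_nsmul _ _ (2 ^ 118 * 2 ^ 118) fun p hp => ?_).trans ?_)
    · rw [HasAntidiagonal.mem_antidiagonal] at hp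
      rw [toP_coeff, toP_coeff, if_pos (by omega), if_pos (by omega)]
      exact Nat.mul_le_mul (a3 _ (by omega)).1.le (b3 _ (by omega)).1.le
    · rw [Finset.Nat.card_antidiagonal, smul_eq_mul]
      omega
  · rw [coeff_C_mul, coeff_mul, coeff_C_mul, coeff_mul, Nat.cast_mul, Nat.cast_sum, mul_assoc,
      mul_left_comm ((16 : ℝ) ^ k), sum_mul, mul_sum _ _ ((16 : ℝ) ^ k)]
    refine mul_le_mul_of_nonneg_left (sum_le_sum fun p hp => ?_) (Nat.cast_nonneg c)
    rw [HasAntidiagonal.mem_antidiagonal] at hp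
    rw [toP_coeff, toP_coeff, if_pos (by omega), if_pos (by omega), ← hp, Nat.cast_mul]
    calc _ = P.coeff p.1 * 2 ^ (2 * a + 112) * (P'.coeff p.2 * 2 ^ (2 * b + 112)) := by
          rw [show 2 * M + 224 = (2 * a + 112) + (2 * b + 112) by omega, pow_add]; ring
      _ ≤ 16 ^ p.1 * (dg V p.1 : ℝ) * (16 ^ p.2 * (dg V' p.2 : ℝ)) :=
          mul_le_mul (a3 _ (by omega)).2 (b3 _ (by omega)).2
            (mul_nonneg (b1 _) (by positivity)) (by positivity)
      _ = _ := by rw [pow_add]; ring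
  · have h1 : (P * P').coeff k * 2 ^ 320 * 2 ^ 320 ≤ gm V * gm V' * (D.choose k : ℝ) := by
      rw [coeff_mul, hD, Nat.add_choose_eq, Nat.cast_sum, sum_mul, sum_mul, mul_sum]
      refine sum_le_sum fun p _ => ?_
      calc _ = P.coeff p.1 * 2 ^ 320 * (P'.coeff p.2 * 2 ^ 320) := by
            generalize (2 : ℝ) ^ 320 = z; ring
        _ ≤ _ := mul_le_mul (a4 _) (b4 _) (mul_nonneg (b1 _) (by positivity)) (by positivity)
        _ = _ := by rw [Nat.cast_mul]; ring
    have h2 : (c : ℝ) * (P * P').coeff k * 2 ^ 320 ≤ (a * b : ℕ) * (G * D.choose k) := by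
      have hz : (0 : ℝ) < 2 ^ 320 := by positivity
      rw [hG]
      generalize (2 : ℝ) ^ 320 = z at *
      refine le_of_mul_le_mul_right ?_ hz
      calc _ = c * ((P * P').coeff k * z * z) := by ring
        _ ≤ c * (gm V * gm V' * (D.choose k : ℝ)) :=
            mul_le_mul_of_nonneg_left h1 (Nat.cast_nonneg c)
        _ = _ := by field_simp
    have h3 : a * b * D.choose k + (k + 1) * D.choose (k + 1) ≤ (M.choose 2 - k) * D.choose k := by
      rw [mul_comm (k + 1), Nat.choose_succ_right_eq, mul_comm (D.choose k), ← add_mul]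
      rcases le_or_gt k D with h4 | h4
      · exact Nat.mul_le_mul_right _ (by omega)
      · simp [Nat.choose_eq_zero_of_lt h4]
    have h4 : ((a * b : ℕ) : ℝ) * D.choose k + (k + 1) * D.choose (k + 1) ≤
        ((M.choose 2 - k : ℕ) : ℝ) * D.choose k := by exact_mod_cast h3
    rw [coeff_C_mul]
    have h5 := mul_le_mul_of_nonneg_left h4 G0
    generalize (c : ℝ) * (P * P').coeff k * 2 ^ 320 = z at *
    nlinarith
  · have hp : 0 < M.choose 2 ^ (a * b) := Nat.pow_pos (by omega)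
    have h1 := cdiv_le (x := c * gm V * gm V' * (M.choose 2 - K) ^ (a * b))
      (Nat.mul_pos (Nat.mul_pos hd hp) (Nat.two_pow_pos 320))
    rw [← tl_eq] at h1
    have h2 := ratio D K (M.choose 2) (a * b) hC.ge
    rw [← hC] at h2
    have h3 : c * gm V * gm V' * D.choose K ≤
        tl (M.choose 2) K c (a * b) V V' * (M.choose 2).choose K * (a * b * 2 ^ 320) := by
      refine Nat.le_of_mul_le_mul_right ?_ hp
      generalize 2 ^ 320 = z at *
      calc _ = c * gm V * gm V' * (D.choose K * M.choose 2 ^ (a * b)) := by ring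
        _ ≤ _ := Nat.mul_le_mul_left _ h2
        _ = c * gm V * gm V' * (M.choose 2 - K) ^ (a * b) * (M.choose 2).choose K := by ring
        _ ≤ _ := Nat.mul_le_mul_right _ h1
        _ = _ := by ring
    show G * _ ≤ _
    rw [hG, div_mul_eq_mul_div, div_le_iff₀ (by positivity)]
    have h4 := (Nat.cast_le (α := ℝ)).2 h3
    simpa only [Nat.cast_mul, Nat.cast_pow, Nat.cast_ofNat] using h4

theorem dg_eval {W : ℕ} {Q : ℕ[X]} (h : W ≡ Q.eval (2 ^ 256) [MOD (2 ^ 256) ^ 161])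
    (hQ : ∀ k < 161, Q.coeff k < 2 ^ 256) {k : ℕ} (hk : k < 161) : dg W k = Q.coeff k := by
  obtain ⟨t, ht⟩ : ∃ t, Q.eval (2 ^ 256) = pk (2 ^ 256) Q.coeff 161 + t * (2 ^ 256) ^ 161 :=
    ⟨_, by rw [eval_eq_sum_range' (n := 161 + (Q.natDegree + 1)) (by omega)]
           exact pk_split _ _ _ _⟩
  rw [← dg_mod W hk, h, ht, dg_mod _ hk, dg]
  exact pk_dig t hQ hk

/-- the exact recurrence -/
noncomputable def gs (C : ℕ) (s : ℕ → ℝ) : ℕ → ℝ
  | 0 => 0
  | k + 1 => (((C - k : ℕ) : ℝ) * gs C s k + s k) / (k + 1)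

theorem dom_of (h2 : CMP) {φ ψ : K.Sol → ℝ → ℝ} {M K n W τ : ℕ} (h : Src ψ M K n W τ)
    (hn : n ≤ 2047) (hM : 2 ≤ M) (hM' : M ≤ 64) (hK : K < 161) (hC : K ≤ M.choose 2)
    (hd : ∀ S t, HasDerivAt (φ S) ((M.choose 2 : ℕ) * φ S t + ψ S t) t) (h0 : ∀ S, φ S 0 = 0)
    (hp : ∀ S t, 0 ≤ t → 0 ≤ φ S t) (ho : ok (mk M (M.choose 2) K W τ) = true) :
    Dom φ M (mk M (M.choose 2) K W τ) := by
  obtain ⟨R, Q, U, a1, a2, a3, a4, a5, a6⟩ := h
  obtain ⟨m1, m2⟩ := mk_spec (M := M) W τ hK hC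
  have hok := ok_lt ho
  have hC1 : 0 < M.choose 2 := Nat.choose_pos hM
  have hC2 : M.choose 2 ≤ 64 ^ 2 := (Nat.choose_le_pow M 2).trans (Nat.pow_le_pow_left hM' 2)
  generalize hN : M.choose 2 = N at *
  generalize mk M N K W τ = V at *
  have hz : (0 : ℝ) < 2 ^ 320 := by positivity
  have hR : ∀ k, N ≤ k → R.coeff k = 0 := fun k hk => by
    have h1 := (a5 k).2
    rw [Nat.sub_eq_zero_of_le hk, Nat.cast_zero, zero_mul] at h1
    have h3 : 0 ≤ ((k : ℝ) + 1) * U (k + 1) := mul_nonneg (by positivity) (a5 _).1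
    exact le_antisymm (nonpos_of_mul_nonpos_left (by linarith) hz) (a1 k)
  set g := gs N R.coeff with hg
  have gr : ∀ k : ℕ, ((k : ℝ) + 1) * g (k + 1) = ((N - k : ℕ) : ℝ) * g k + R.coeff k :=
    fun k => mul_div_cancel₀ _ (by positivity)
  have g0 : ∀ k, 0 ≤ g k := fun k => by
    induction k with
    | zero => exact le_rfl
    | succ k ih => exact div_nonneg (add_nonneg (by positivity) (a1 k)) (by positivity)
  have gz : ∀ k, N < k → g k = 0 := fun k hk => by
    obtain ⟨j, rfl⟩ : ∃ j, k = j + 1 := ⟨k - 1, by omega⟩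
    show (((N - j : ℕ) : ℝ) * g j + R.coeff j) / (j + 1) = 0
    rw [Nat.sub_eq_zero_of_le (by omega), hR j (by omega)]
    simp
  have low : ∀ k < 161, g k * 2 ^ (2 * M + 112) ≤ 16 ^ k * (sq N W 0 0 k : ℝ) := fun k hk => by
    induction k with
    | zero => simp [hg, gs, sq]
    | succ k ih =>
      have hq : dg W k = Q.coeff k :=
        dg_eval a3 (fun j hj => by have := (a4 j hj).1; omega) (by omega)
      have h1 := (a4 k (by omega)).1
      have h3 := hok k (by omega)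
      rw [m1 k (by omega)] at h3
      have h4 : (N - k) * sq N W 0 0 k ≤ 2 ^ 12 * 2 ^ 118 := Nat.mul_le_mul (by omega) h3.le
      have h5 : 0 < (k + 1) * 2 ^ 116 := by positivity
      have h6 : cdiv ((N - k) * sq N W 0 0 k * 2 ^ 112 + Q.coeff k) ((k + 1) * 2 ^ 116) ≤ 2 ^ 200 :=
        cdiv_lt h5 (by omega)
      have e : sq N W 0 0 (k + 1) =
          cdiv ((N - k) * sq N W 0 0 k * 2 ^ 112 + Q.coeff k) ((k + 1) * 2 ^ 116) := by
        rw [sq, nxt_eq, zero_add, hq, Nat.mod_eq_of_lt (a := Q.coeff k) (by omega),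
          Nat.mod_eq_of_lt (by omega)]
      have h7 := (Nat.cast_le (α := ℝ)).2
        (cdiv_le (x := (N - k) * sq N W 0 0 k * 2 ^ 112 + Q.coeff k) h5)
      rw [← e] at h7
      simp only [Nat.cast_mul, Nat.cast_add, Nat.cast_pow, Nat.cast_ofNat, Nat.cast_one] at h7
      have h8 := (a4 k (by omega)).2
      have h9 := mul_le_mul_of_nonneg_left (ih (by omega)) (Nat.cast_nonneg (α := ℝ) (N - k))
      have h10 := mul_le_mul_of_nonneg_left h7 (show (0 : ℝ) ≤ 16 ^ k by positivity)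
      rw [show 2 * M + 224 = 2 * M + 112 + 112 by omega, pow_add] at h8
      refine le_of_mul_le_mul_left ?_ (show (0 : ℝ) < (k + 1) * 2 ^ 112 by positivity)
      have h11 : ((k : ℝ) + 1) * 2 ^ 112 * (g (k + 1) * 2 ^ (2 * M + 112)) =
          ((N - k : ℕ) : ℝ) * (g k * 2 ^ (2 * M + 112)) * 2 ^ 112 +
            R.coeff k * (2 ^ (2 * M + 112) * 2 ^ 112) := by
        linear_combination (2 ^ (2 * M + 112) * 2 ^ 112) * gr k
      rw [h11, pow_succ (16 : ℝ) k]
      generalize ((N - k : ℕ) : ℝ) * (g k * 2 ^ (2 * M + 112)) = x at *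
      generalize R.coeff k * (2 ^ (2 * M + 112) * 2 ^ 112) = y at *
      linarith
  have tail : ∀ k, K ≤ k → k ≤ N → g k * 2 ^ 320 + U k ≤ gm V * (N.choose k : ℝ) := by
    intro k hk
    induction k, hk using Nat.le_induction with
    | base =>
      intro _
      have h1 := (Nat.cast_le (α := ℝ)).2 (cdiv_le (x := sq N W 0 0 K * 2 ^ (4 * K + 320))
        (Nat.mul_pos (Nat.choose_pos hC) (Nat.two_pow_pos (2 * M + 112))))
      rw [m2, Nat.cast_add, add_mul]
      refine add_le_add ?_ a6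
      simp only [Nat.cast_mul, Nat.cast_pow, Nat.cast_ofNat] at h1
      rw [pow_add, pow_mul, ← mul_assoc, ← mul_assoc, show (2 : ℝ) ^ 4 = 16 by norm_num] at h1
      refine le_of_mul_le_mul_right (le_trans ?_ h1)
        (show (0 : ℝ) < 2 ^ (2 * M + 112) by positivity)
      rw [mul_right_comm, mul_comm _ ((16 : ℝ) ^ K)]
      exact mul_le_mul_of_nonneg_right (low K hK) hz.le
    | succ k _ ih =>
      intro hk
      have h1 := mul_le_mul_of_nonneg_left (ih (by omega)) (Nat.cast_nonneg (α := ℝ) (N - k))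
      have h3 : (N.choose (k + 1) : ℝ) * (k + 1) = N.choose k * ((N - k : ℕ) : ℝ) := by
        exact_mod_cast Nat.choose_succ_right_eq N k
      have h4 := (a5 k).2
      refine le_of_mul_le_mul_left ?_ (show (0 : ℝ) < k + 1 by positivity)
      generalize (2 : ℝ) ^ 320 = z at *
      have h5 : ((k : ℝ) + 1) * (g (k + 1) * z + U (k + 1)) =
          ((N - k : ℕ) : ℝ) * g k * z + (R.coeff k * z + (k + 1) * U (k + 1)) := by
        linear_combination z * gr k
      have h6 : ((k : ℝ) + 1) * (gm V * N.choose (k + 1)) =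
          ((N - k : ℕ) : ℝ) * (gm V * N.choose k) := by linear_combination (gm V : ℝ) * h3
      rw [h5, h6]
      linarith
  have hrec : ∀ k < N, ((N : ℝ) - k) * g k + R.coeff k ≤ (k + 1) * g (k + 1) := fun k hk => by
    rw [gr, Nat.cast_sub hk.le]
  have cmp := fun S => h2 N (fun t => φ S t * exp (-(N * t))) (fun t => ψ S t * exp (-(N * t)))
    R.coeff g (fun t => by
      have e := (hd S t).mul ((hasDerivAt_id t).const_mul (N : ℝ)).neg.exp
      refine e.congr_deriv ?_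
      simp only [id, Pi.neg_apply]
      ring) (by simp [h0, hg, gs]) a1 le_rfl (fun t ht => by
      rw [mul_assoc, ← exp_add, neg_add_cancel, exp_zero, mul_one,
        ← eval_eq_sum_range' (lt_of_le_of_lt (natDegree_le_iff_coeff_eq_zero.2
          fun k hk => hR k (by omega)) (Nat.sub_lt hC1 one_pos))]
      exact a2 S t ht) hrec
  have cP : ∀ k, (∑ j ∈ range (N + 1), monomial j (g j)).coeff k = g k := fun k => by
    simp only [finsetSum_coeff, coeff_monomial, sum_ite_eq', mem_range]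
    split_ifs with hk
    · rfl
    · exact (gz k (by omega)).symm
  refine ⟨∑ j ∈ range (N + 1), monomial j (g j), fun k => cP k ▸ g0 k,
    fun S t ht => ⟨hp S t ht, ?_⟩, fun k hk => ⟨hok k hk, ?_⟩, fun k => ?_⟩
  · have := (cmp S).1 t ht
    rw [mul_assoc, ← exp_add, neg_add_cancel, exp_zero, mul_one] at this
    simpa only [eval_finsetSum, eval_monomial] using this
  · rw [cP, m1 k hk]; exact low k hk
  · rw [cP, hN]
    rcases le_or_gt k N with hk | hk
    · have h1 := (h2 N 0 0 0 g (fun t => hasDerivAt_const t 0) le_rfl (fun _ => le_rfl) le_rfl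
        (by simp) fun k hk => le_trans (by simpa using a1 k) (hrec k hk)).2 k hk
      have h3 := tail N hC le_rfl
      rw [Nat.choose_self, Nat.cast_one, mul_one] at h3
      calc _ ≤ g N * N.choose k * 2 ^ 320 := mul_le_mul_of_nonneg_right h1 hz.le
        _ = g N * 2 ^ 320 * N.choose k := mul_right_comm _ _ _
        _ ≤ _ := mul_le_mul_of_nonneg_right ((le_add_of_nonneg_right (a5 N).1).trans h3)
            (Nat.cast_nonneg _)
    · rw [gz k hk, zero_mul]; positivity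

noncomputable def f1 (s : ℕ) (S : K.Sol) (t : ℝ) : ℝ := exp (-(s * t / 2)) * S.κ t s

noncomputable def f2 (a b : ℕ) (S : K.Sol) (t : ℝ) : ℝ := exp (-((a + b) * t / 2)) * S.B t a b

theorem anti (f g : ℕ → ℝ) (hg : g 0 = 0) (n : ℕ) :
    ∑ p ∈ antidiagonal n, (p.1 : ℝ) * f p.1 * g p.2 = ∑ j ∈ Icc 1 (n - 1), j * f j * g (n - j) := by
  rw [Finset.Nat.sum_antidiagonal_eq_sum_range_succ (fun i j => (i : ℝ) * f i * g j)]
  refine (sum_subset (fun j hj => ?_) fun j h1 h2 => ?_).symm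
  · rw [mem_Icc] at hj; rw [mem_range]; omega
  · rw [mem_Icc] at h2; rw [mem_range] at h1
    rcases (by omega : j = 0 ∨ j = n) with rfl | rfl
    · simp
    · simp [hg]

theorem dex (x t : ℝ) : HasDerivAt (fun t => exp (-(x * t / 2))) (exp (-(x * t / 2)) * -(x / 2)) t := by
  simpa using (((hasDerivAt_id t).const_mul x).div_const 2).neg.exp

theorem spl (S : K.Sol) (t x : ℝ) (y u : ℕ → ℝ) (n : ℕ) (h : ∀ j : ℕ, x = y j + n - j) :
    ∑ j ∈ Icc 1 (n - 1), exp (-(x * t / 2)) * (j * u j * S.κ t (n - j)) =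
      ∑ j ∈ Icc 1 (n - 1), j * (exp (-(y j * t / 2)) * u j) * f1 (n - j) S t := by
  refine sum_congr rfl fun j hj => ?_
  rw [mem_Icc] at hj
  rw [f1, Nat.cast_sub (by omega), show -(x * t / 2) = -(y j * t / 2) + -((n - j) * t / 2) by
    rw [h j]; ring, exp_add]
  ring

theorem d1 (s : ℕ) (S : K.Sol) (t : ℝ) : HasDerivAt (f1 s S) ((s.choose 2 : ℕ) * f1 s S t +
    ∑ j ∈ Icc 1 (s - 1), j * f1 j S t * f1 (s - j) S t) t := by
  refine ((dex s t).mul (S.dκ s t)).congr_deriv ?_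
  rw [K.V1, anti _ _ (S.κz t), mul_add, mul_sum, Nat.cast_choose_two,
    spl S t s (fun j => j) (S.κ t) s fun j => by ring]
  simp only [f1]
  ring

theorem d2 (a b : ℕ) (S : K.Sol) (t : ℝ) : HasDerivAt (f2 a b S)
    (((a + b).choose 2 : ℕ) * f2 a b S t +
      (∑ j ∈ Icc 1 (a - 1), j * f2 j b S t * f1 (a - j) S t +
        ∑ j ∈ Icc 1 (b - 1), j * f2 a j S t * f1 (b - j) S t +
          (1 : ℕ) * f1 a S t * f1 b S t)) t := by
  refine ((dex (a + b) t).mul (S.dB a b t)).congr_deriv ?_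
  rw [K.V2, anti (fun j => S.B t j b) _ (S.κz t), anti (fun j => S.B t a j) _ (S.κz t), mul_add,
    mul_add, mul_add, mul_sum, mul_sum, Nat.cast_choose_two,
    spl S t (a + b) (fun j => j + b) (fun j => S.B t j b) a fun j => by ring,
    spl S t (a + b) (fun j => a + j) (fun j => S.B t a j) b fun j => by ring]
  have e : exp (-(((a : ℝ) + b) * t / 2)) = exp (-(a * t / 2)) * exp (-(b * t / 2)) := by
    rw [← exp_add]; ring_nf
  simp only [f1, f2, e, Nat.cast_add, Nat.cast_one]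
  ring

/-- exchange of the two colours -/
def swap (S : K.Sol) : K.Sol where
  κ := S.κ
  B := fun t a b => S.B t b a
  κz := S.κz
  Bl := S.Br
  Br := S.Bl
  κi := S.κi
  Bi := fun a b => S.Bi b a
  dκ := S.dκ
  dB := fun a b t => (S.dB b a t).congr_deriv (by simp only [K.V2]; ring)
  κp := S.κp
  Bp := fun t ht a b => S.Bp t ht b a

theorem dom_swap (a b V : ℕ) (h : Dom (f2 a b) (a + b) V) : Dom (f2 b a) (b + a) V := by
  obtain ⟨P, a1, a2, a3⟩ := h
  refine ⟨P, a1, fun S t ht => ?_, add_comm a b ▸ a3⟩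
  have := a2 (swap S) t ht
  rw [f2, add_comm] at this
  exact this

theorem dom_one (h1 : K.PDER) : Dom (f1 1) 1 one := by
  refine ⟨1, fun k => ?_, fun S t _ => ?_, fun k hk => ⟨ok_lt run1.1 k hk, ?_⟩, fun k => ?_⟩
  · rw [coeff_one]; positivity
  · have e : f1 1 S t = 1 := by simpa [K.p1, f1] using (h1 S t).1
    simp [e]
  · rw [coeff_one]
    split_ifs with h
    · rw [h, dg, pow_zero (2 ^ 256 : ℕ), Nat.div_one, run1.2.1]; norm_num
    · rw [zero_mul]; positivity
  · rw [coeff_one, run1.2.2]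
    split_ifs with h
    · simp [h]
    · rw [zero_mul]; positivity

theorem val1_eq (F : ℕ → ℕ) (s : ℕ) : val1 F s = mk s (s.choose 2) (kf s)
    (sumI (fun j => tm j (F j) (F (s - j))) (s - 1))
    (sumI (fun j => tl (s.choose 2) (kf s) j (j * (s - j)) (F j) (F (s - j))) (s - 1)) := by
  rw [val1, frc_eq, frc_eq, c2_eq]; rfl

theorem val2_eq (F : ℕ → ℕ) (G : ℕ → ℕ → ℕ) (a b : ℕ) : val2 F G a b =
    mk (a + b) ((a + b).choose 2) (kf (a + b))
      (sumI (fun j => tm j (G j b) (F (a - j))) (a - 1) +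
        sumI (fun j => tm j (G a j) (F (b - j))) (b - 1) + tm 1 (F a) (F b))
      (sumI (fun j => tl ((a + b).choose 2) (kf (a + b)) j ((j + b) * (a - j)) (G j b) (F (a - j)))
          (a - 1) +
        sumI (fun j => tl ((a + b).choose 2) (kf (a + b)) j ((a + j) * (b - j)) (G a j) (F (b - j)))
          (b - 1) + tl ((a + b).choose 2) (kf (a + b)) 1 (a * b) (F a) (F b)) := by
  rw [val2, frc_eq, frc_eq, frc_eq, c2_eq]; rfl

theorem step1 (h2 : CMP) (F : ℕ → ℕ) (s : ℕ) (hs : 2 ≤ s) (hs' : s < 32)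
    (hF : ∀ x, 1 ≤ x → x < s → Dom (f1 x) x (F x)) (ho : ok (val1 F s) = true) :
    Dom (f1 s) s (val1 F s) := by
  rw [val1_eq] at ho ⊢
  refine dom_of h2 (src_sum (s - 1) fun j j1 j2 => src_mul (kf s) (hF j j1 (by omega))
    (hF (s - j) (by omega) (by omega)) j1 (by omega) (by omega) (by omega)) (by omega) hs (by omega)
    (kf_le s).1 (kf_le s).2 (d1 s) (fun S => ?_) (fun S t ht => ?_) ho
  · rw [f1, S.κi, if_neg (by omega), mul_zero]
  · exact mul_nonneg (exp_pos _).le (S.κp t ht s)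

theorem step2 (h2 : CMP) {F : ℕ → ℕ} (hF : ∀ x, 1 ≤ x → x < 32 → Dom (f1 x) x (F x))
    (G : ℕ → ℕ → ℕ) (a b : ℕ) (ha : 1 ≤ a) (hab : a ≤ b) (hb : b < 32)
    (h1 : ∀ j, 1 ≤ j → j < a → Dom (f2 j b) (j + b) (G j b))
    (h3 : ∀ j, 1 ≤ j → j < b → Dom (f2 a j) (a + j) (G a j)) (ho : ok (val2 F G a b) = true) :
    Dom (f2 a b) (a + b) (val2 F G a b) := by
  rw [val2_eq] at ho ⊢
  refine dom_of h2 (src_add (src_add
    (src_sum (a - 1) fun j j1 j2 => src_mul (kf (a + b)) (h1 j j1 (by omega))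
      (hF (a - j) (by omega) (by omega)) (by omega) (by omega) (by omega) (by omega))
    (src_sum (b - 1) fun j j1 j2 => src_mul (kf (a + b)) (h3 j j1 (by omega))
      (hF (b - j) (by omega) (by omega)) (by omega) (by omega) (by omega) (by omega)))
    (src_mul (kf (a + b)) (hF a ha (by omega)) (hF b (by omega) hb) ha (by omega) (by omega) rfl))
    (by omega) (by omega) (by omega) (kf_le _).1 (kf_le _).2 (d2 a b) (fun S => ?_)
    (fun S t ht => ?_) ho
  · rw [f2, S.Bi, mul_zero]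
  · exact mul_nonneg (exp_pos _).le (S.Bp t ht a b)

theorem all (h1 : K.PDER) (h2 : CMP) {m : ℕ} (hm : m = 31) (h : chk m = true) (n : ℕ)
    (hn : 1 ≤ n) (hn' : n < 32) : ∃ V, Dom (f2 n n) (n + n) V ∧ Sm.fin V n = true := by
  rw [chk, frc_eq, Nat.sub_eq] at h
  obtain ⟨F, hF, h⟩ := fill_spec (P := fun x V => Dom (f1 x) x V) (lo := 2) (hi := 32)
    (step1 h2) _ 2 _ le_rfl (by omega) (fun x x1 x2 => by
      obtain rfl : x = 1 := by omega
      exact dom_one h1) h
  exact rows_spec (P := fun a b V => Dom (f2 a b) (a + b) V) (hi := 32) dom_swap (step2 h2 hF)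
    m 1 _ (by omega) (fun y x y1 x1 x2 => by omega) h n hn hn' hn

end Sm

open Sm Pk in
theorem small (h1 : K.PDER) (h2 : CMP) : SMALL := by
  intro S n t hn hn' ht
  obtain ⟨V, ⟨P, a1, a2, -, a4⟩, hf⟩ := all h1 h2 rfl run n hn hn'
  have h3 : gm V * (n.factorial * n.factorial) * 4 ^ n ≤ 2 ^ 320 * 4 := by
    rw [Sm.fin] at hf
    have := Nat.le_of_ble_eq_true hf
    rwa [fac_eq, Nat.pow_eq, Nat.pow_eq, show 322 = 320 + 2 from rfl, pow_add] at this
  have h4 := (Nat.cast_le (α := ℝ)).2 h3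
  simp only [Nat.cast_mul, Nat.cast_pow, Nat.cast_ofNat] at h4
  have hz : (0 : ℝ) < 2 ^ 320 := by positivity
  have hc : (((n + n).choose 2 : ℕ) : ℝ) = ((n : ℝ) + n) * (n + n - 1) / 2 := by
    rw [Nat.cast_choose_two, Nat.cast_add]
  generalize (n + n).choose 2 = N at *
  generalize (2 : ℝ) ^ 320 = z at *
  have hw : 0 ≤ exp t - 1 := sub_nonneg.2 (one_le_exp ht)
  have h5 : P.eval (exp t - 1) * z ≤ gm V * exp (N * t) := by
    have hd : P.natDegree < N + 1 := Nat.lt_succ_of_le (natDegree_le_iff_coeff_eq_zero.2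
      fun k hk => le_antisymm (nonpos_of_mul_nonpos_left (by
        simpa [Nat.choose_eq_zero_of_lt hk] using a4 k) hz) (a1 k))
    rw [exp_nat_mul, show exp t ^ N = (exp t - 1 + 1) ^ N by ring_nf, add_pow,
      eval_eq_sum_range' hd, sum_mul, mul_sum]
    refine sum_le_sum fun k _ => ?_
    have := mul_le_mul_of_nonneg_right (a4 k) (pow_nonneg hw k)
    rw [one_pow]
    linarith
  have e : K.p2 S n n t * exp (N * t) = n.factorial * n.factorial * f2 n n S t := by
    rw [K.p2, f2, show -(((n : ℝ) + n) * t / 2) = -(((n : ℝ) + n) ^ 2 * t / 2) + N * t by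
      rw [hc]; ring, exp_add]
    ring
  rw [le_div_iff₀ (by positivity)]
  refine le_of_mul_le_mul_right ?_ (mul_pos (exp_pos (N * t)) hz)
  have h6 := (mul_le_mul_of_nonneg_right (a2 S t ht).2 hz.le).trans h5
  calc _ = K.p2 S n n t * exp (N * t) * z * 4 ^ n := by ring
    _ = n.factorial * n.factorial * 4 ^ n * (f2 n n S t * z) := by rw [e]; ring
    _ ≤ n.factorial * n.factorial * 4 ^ n * (gm V * exp (N * t)) :=
        mul_le_mul_of_nonneg_left h6 (by positivity)
    _ = gm V * (n.factorial * n.factorial) * 4 ^ n * exp (N * t) := by ring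
    _ ≤ z * 4 * exp (N * t) := mul_le_mul_of_nonneg_right h4 (exp_pos _).le
    _ = _ := by ring

end Pool.Agent.MP_ddaf7c_pr.A
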